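import Pool.Agent.Helper947_Fin.Check

set_option autoImplicit false

/-!
A kernel-checkable certificate format for covering the cone over a finite family of lattice
points by cones in which every generator is incompatible with at most one other generator.
-/

namespace Pool.Agent.Helper947_Any

open Pool.Agent.Helper947_Fin (Ax)

/-- families of lattice points whose cone has a subdivision into cones for which the
incompatibility graph of the generators is a matching -/
inductive Good {L : Type*} [AddCommGroup L] (E : L → L → ℕ) {n : ℕ} : (Fin n → L) → Prop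
  | leaf (v : Fin n → L) (σ : Fin n → Fin n) : (∀ i, σ (σ i) = i) →
      (∀ i j, i ≠ j → σ i ≠ j → E (v i) (v j) = 0) → Good E v
  | split (v : Fin n → L) (i j : Fin n) : i ≠ j →
      Good E (Function.update v i (v i + v j)) → Good E (Function.update v j (v i + v j)) →
      Good E v

theorem Good.dual {L : Type*} [AddCommGroup L] {E : L → L → ℕ} {n : ℕ} {v : Fin n → L}
    (h : Good (fun x y => E (-y) (-x)) v) : Good E (fun i => -v i) := by
  induction h with
  | leaf v σ h1 h2 =>
    exact Good.leaf _ σ h1 fun i j hij hs => h2 j i hij.symm fun h => hs (by rw [← h, h1])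
  | split v i j hij _ _ ih1 ih2 =>
    refine Good.split _ i j hij ?_ ?_
    · convert ih1 using 1
      funext k
      by_cases hk : k = i
      · subst hk; simp [add_comm]
      · simp [Function.update_of_ne hk]
    · convert ih2 using 1
      funext k
      by_cases hk : k = j
      · subst hk; simp [add_comm]
      · simp [Function.update_of_ne hk]

/-- lattice points in the orthant -/
structure Pt where
  a : ℕ
  b : ℕ
  c : ℕ
  d : ℕ
  e : ℕ

def Pt.beq (p q : Pt) : Bool := Nat.beq p.a q.a && Nat.beq p.b q.b && Nat.beq p.c q.c &&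
  Nat.beq p.d q.d && Nat.beq p.e q.e

theorem Pt.eq_of_beq {p q : Pt} (h : Pt.beq p q = true) : p = q := by
  cases p
  cases q
  simp only [Pt.beq, Bool.and_eq_true, Nat.beq_eq] at h
  obtain ⟨⟨⟨⟨h1, h2⟩, h3⟩, h4⟩, h5⟩ := h
  subst h1 h2 h3 h4 h5
  rfl

def Pt.add (p q : Pt) : Pt := ⟨p.a + q.a, p.b + q.b, p.c + q.c, p.d + q.d, p.e + q.e⟩

/-- `m` times a point -/
def Pt.mul (m : ℕ) (p : Pt) : Pt := ⟨m * p.a, m * p.b, m * p.c, m * p.d, m * p.e⟩

structure Fact where
  x : Pt
  y : Pt
  n : ℕ

inductive Step
  | ini (x y : Pt)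
  | dia (w : Pt) (m n : ℕ)
  | sl (i j : ℕ)
  | sr (i j : ℕ)
  | dl (i : ℕ)
  | dr (i : ℕ)
  | hl (i m : ℕ) (x : Pt)
  | hr (i m : ℕ) (x : Pt)

inductive FT
  | nil
  | node (f : Fact) (l r : FT)

def FT.get : FT → ℕ → Option Fact
  | .nil, _ => none
  | .node f l r, n => bif Nat.beq n 0 then some f else
      bif Nat.beq ((n - 1) % 2) 0 then l.get ((n - 1) / 2) else r.get ((n - 1) / 2)

def FT.put : FT → ℕ → Fact → FT
  | .nil, _, f => .node f .nil .nil
  | .node g l r, n, f =>
      bif Nat.beq ((n - 1) % 2) 0 then .node g (l.put ((n - 1) / 2) f) r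
      else .node g l (r.put ((n - 1) / 2) f)

def FT.All (Q : Fact → Prop) : FT → Prop
  | .nil => True
  | .node f l r => Q f ∧ l.All Q ∧ r.All Q

theorem FT.All.get {Q : Fact → Prop} : ∀ {t : FT} {n : ℕ} {f : Fact}, t.All Q →
    t.get n = some f → Q f
  | .nil, n, f, _, h => by simp [FT.get] at h
  | .node g l r, n, f, hQ, h => by
    obtain ⟨h0, h1, h2⟩ := hQ
    unfold FT.get at h
    cases hc : Nat.beq n 0 with
    | true =>
      rw [hc, cond_true] at h
      cases h
      exact h0
    | false =>
      rw [hc, cond_false] at h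
      cases hd : Nat.beq ((n - 1) % 2) 0 with
      | true =>
        rw [hd, cond_true] at h
        exact FT.All.get h1 h
      | false =>
        rw [hd, cond_false] at h
        exact FT.All.get h2 h

theorem FT.All.put {Q : Fact → Prop} : ∀ {t : FT} (n : ℕ) {f : Fact}, t.All Q → Q f →
    (t.put n f).All Q
  | .nil, n, f, _, hf => ⟨hf, trivial, trivial⟩
  | .node g l r, n, f, hQ, hf => by
    obtain ⟨h0, h1, h2⟩ := hQ
    unfold FT.put
    cases hd : Nat.beq ((n - 1) % 2) 0 with
    | true =>
      rw [cond_true]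
      exact ⟨h0, FT.All.put _ h1 hf, h2⟩
    | false =>
      rw [cond_false]
      exact ⟨h0, h1, FT.All.put _ h2 hf⟩

/-- bounds for the values of `E` on the generators; the entries are those in the positions
`(1,0), (2,0), (3,0), (4,0), (2,1), (3,1), (4,1)` -/
structure Wt where
  m1 : ℕ
  m2 : ℕ
  m3 : ℕ
  m4 : ℕ
  n2 : ℕ
  n3 : ℕ
  n4 : ℕ

def Wt.of (D : ℕ → ℕ → ℕ) : Wt := ⟨D 1 0, D 2 0, D 3 0, D 4 0, D 2 1, D 3 1, D 4 1⟩

/-- the bilinear bound -/
def bil (W : Wt) (x y : Pt) : ℕ :=
  (x.b * W.m1 + x.c * W.m2 + x.d * W.m3 + x.e * W.m4) * y.a +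
    (x.c * W.n2 + x.d * W.n3 + x.e * W.n4) * y.b

section eval

variable (D : Wt)

/-- the new fact derived by a step -/
def Step.eval (t : FT) : Step → Option Fact
  | .ini x y => some ⟨x, y, bil D x y⟩
  | .dia w m n => bif Nat.ble 1 m && Nat.ble 1 n then some ⟨Pt.mul m w, Pt.mul n w, 0⟩ else none
  | .sl i j => (t.get i).bind fun f => (t.get j).bind fun g =>
      bif f.y.beq g.y then some ⟨f.x.add g.x, f.y, f.n + g.n⟩ else none
  | .sr i j => (t.get i).bind fun f => (t.get j).bind fun g =>
      bif f.x.beq g.x then some ⟨f.x, f.y.add g.y, f.n + g.n⟩ else none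
  | .dl i => (t.get i).map fun f => ⟨f.x.add f.y, f.y, f.n - 1⟩
  | .dr i => (t.get i).map fun f => ⟨f.x, f.x.add f.y, f.n - 1⟩
  | .hl i m x => (t.get i).bind fun f =>
      bif f.x.beq (Pt.mul m x) && Nat.ble 1 m then some ⟨x, f.y, f.n / m⟩ else none
  | .hr i m x => (t.get i).bind fun f =>
      bif f.y.beq (Pt.mul m x) && Nat.ble 1 m then some ⟨f.x, x, f.n / m⟩ else none

def run : List Step → FT → ℕ → Option FT
  | [], t, _ => some t
  | s :: l, t, n => (s.eval D t).bind fun f => run l (t.put n f) (n + 1)

end eval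

/-- the unit vectors -/
def unit : ℕ → Pt
  | 0 => ⟨1, 0, 0, 0, 0⟩
  | 1 => ⟨0, 1, 0, 0, 0⟩
  | 2 => ⟨0, 0, 1, 0, 0⟩
  | 3 => ⟨0, 0, 0, 1, 0⟩
  | 4 => ⟨0, 0, 0, 0, 1⟩
  | _ => ⟨0, 0, 0, 0, 0⟩

inductive Tree
  | leaf (σ : List ℕ) (k : List ℕ)
  | split (i j : ℕ) (t₁ t₂ : Tree)

/-- the fact number `i` says `E x y = 0` -/
def zeroFact (t : FT) (i : ℕ) (x y : Pt) : Bool :=
  match t.get i with
  | none => false
  | some f => f.x.beq x && f.y.beq y && Nat.beq f.n 0

/-- all pairs `(a, b)`, `b` running from `j` on, in one row, apart from `a = b` and `b = s` -/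
def rowCheck (t : FT) (a s : ℕ) (x : Pt) : ℕ → List Pt → List ℕ → Option (List ℕ)
  | _, [], k => some k
  | j, y :: ys, k =>
    bif Nat.beq a j || Nat.beq s j then rowCheck t a s x (j + 1) ys k
    else match k with
      | [] => none
      | i :: k' => bif zeroFact t i x y then rowCheck t a s x (j + 1) ys k' else none

def leafCheck (t : FT) (all : List Pt) : ℕ → List Pt → List ℕ → List ℕ → Bool
  | _, [], _, _ => true
  | _, _ :: _, [], _ => false
  | a, x :: xs, s :: σ, k =>
    match rowCheck t a s x 0 all k with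
    | none => false
    | some k' => leafCheck t all (a + 1) xs σ k'

/-- `σ` is an involution of `{0, …, n - 1}` -/
def invol (n : ℕ) (σ : List ℕ) : ℕ → Bool
  | 0 => true
  | a + 1 => Nat.blt (σ.getD a 0) n && Nat.beq (σ.getD (σ.getD a 0) 0) a && invol n σ a

def Tree.check (t : FT) (n : ℕ) : Tree → List Pt → Bool
  | .leaf σ k, v => invol n σ n && leafCheck t v 0 v σ k
  | .split i j t₁ t₂, v =>
      Nat.blt i n && Nat.blt j n && !Nat.beq i j &&
      t₁.check t n (v.set i (Pt.add (v.getD i (unit 5)) (v.getD j (unit 5)))) &&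
      t₂.check t n (v.set j (Pt.add (v.getD i (unit 5)) (v.getD j (unit 5))))

def units (n : ℕ) : List Pt := (List.range n).map unit

def checkAll (D : Wt) (n : ℕ) (l : List Step) (tr : Tree) : Bool :=
  match run D l .nil 0 with
  | none => false
  | some t => tr.check t n (units n)

section sound

variable {L : Type*} [AddCommGroup L] (h : ℕ → L)

/-- the meaning of a point -/
def sem (p : Pt) : L := p.a • h 0 + p.b • h 1 + p.c • h 2 + p.d • h 3 + p.e • h 4

theorem sem_add (p q : Pt) : sem h (p.add q) = sem h p + sem h q := by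
  simp only [sem, Pt.add, add_smul]
  abel

theorem sem_mul (m : ℕ) (p : Pt) : sem h (Pt.mul m p) = m • sem h p := by
  simp only [sem, Pt.mul, smul_add, mul_smul]

variable {E : L → L → ℕ} (hE : Ax E) (D : Wt) (hD : ∀ x y, E (sem h x) (sem h y) ≤ bil D x y)

include hE in
theorem zeroL (y : L) : E 0 y = 0 := by
  have := hE.homL 2 0 y
  rw [smul_zero] at this
  omega

include hE in
theorem zeroR (y : L) : E y 0 = 0 := by
  have := hE.homR 2 y 0
  rw [smul_zero] at this
  omega

include hE in
theorem mulL (m : ℕ) (x y : L) : E (m • x) y ≤ m * E x y := by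
  rcases Nat.eq_zero_or_pos m with rfl | hm
  · rw [zero_smul, zeroL hE]; omega
  · exact hE.smulL x y m hm

include hE in
theorem mulR (m : ℕ) (x y : L) : E x (m • y) ≤ m * E x y := by
  rcases Nat.eq_zero_or_pos m with rfl | hm
  · rw [zero_smul, zeroR hE]; omega
  · exact hE.smulR x y m hm

include hE in
theorem le_gen (D' : ℕ → ℕ → ℕ) (hD' : ∀ a b, E (h a) (h b) ≤ D' a b) (a : ℕ) (y : Pt) :
    E (h a) (sem h y) ≤ y.a * D' a 0 + y.b * D' a 1 + y.c * D' a 2 + y.d * D' a 3 +
      y.e * D' a 4 := by
  have e : ∀ b m, E (h a) (m • h b) ≤ m * D' a b := fun b m =>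
    (mulR hE _ _ _).trans (Nat.mul_le_mul_left _ (hD' _ _))
  refine (hE.subR _ _ _).trans (add_le_add ((hE.subR _ _ _).trans (add_le_add
    ((hE.subR _ _ _).trans (add_le_add ((hE.subR _ _ _).trans (add_le_add (e _ _) (e _ _)))
      (e _ _))) (e _ _))) (e _ _))

include hE in
theorem le_full (D' : ℕ → ℕ → ℕ) (hD' : ∀ a b, E (h a) (h b) ≤ D' a b) (x y : Pt) :
    E (sem h x) (sem h y) ≤
      x.a * (y.a * D' 0 0 + y.b * D' 0 1 + y.c * D' 0 2 + y.d * D' 0 3 + y.e * D' 0 4) +
      x.b * (y.a * D' 1 0 + y.b * D' 1 1 + y.c * D' 1 2 + y.d * D' 1 3 + y.e * D' 1 4) +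
      x.c * (y.a * D' 2 0 + y.b * D' 2 1 + y.c * D' 2 2 + y.d * D' 2 3 + y.e * D' 2 4) +
      x.d * (y.a * D' 3 0 + y.b * D' 3 1 + y.c * D' 3 2 + y.d * D' 3 3 + y.e * D' 3 4) +
      x.e * (y.a * D' 4 0 + y.b * D' 4 1 + y.c * D' 4 2 + y.d * D' 4 3 + y.e * D' 4 4) := by
  have e : ∀ b m, E (m • h b) (sem h y) ≤ m * (y.a * D' b 0 + y.b * D' b 1 + y.c * D' b 2 +
      y.d * D' b 3 + y.e * D' b 4) := fun b m =>
    (mulL hE _ _ _).trans (Nat.mul_le_mul_left _ (le_gen h hE D' hD' b y))
  refine (hE.subL _ _ _).trans (add_le_add ((hE.subL _ _ _).trans (add_le_add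
    ((hE.subL _ _ _).trans (add_le_add ((hE.subL _ _ _).trans (add_le_add (e _ _) (e _ _)))
      (e _ _))) (e _ _))) (e _ _))

/-- the meaning of a fact -/
def Fact.Holds (E : L → L → ℕ) (f : Fact) : Prop := E (sem h f.x) (sem h f.y) ≤ f.n

include hE hD in
theorem Step.eval_sound {t : FT} (ht : t.All (Fact.Holds h E)) (s : Step) {f : Fact}
    (hs : s.eval D t = some f) : f.Holds h E := by
  cases s with
  | ini x y =>
    simp only [Step.eval] at hs
    cases hs
    exact hD x y
  | dia w m n =>
    simp only [Step.eval] at hs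
    cases hc : (Nat.ble 1 m && Nat.ble 1 n) with
    | false => rw [hc, cond_false] at hs; cases hs
    | true =>
      rw [hc, cond_true] at hs
      cases hs
      unfold Fact.Holds
      change E (sem h (Pt.mul m w)) (sem h (Pt.mul n w)) ≤ 0
      rw [sem_mul, sem_mul]
      refine (mulL hE _ _ _).trans ?_
      have h5 := mulR hE n (sem h w) (sem h w)
      rw [hE.diag, mul_zero] at h5
      rw [Nat.le_zero.mp h5, mul_zero]
  | sl i j =>
    simp only [Step.eval, Option.bind_eq_some_iff] at hs
    obtain ⟨f₁, h1, f₂, h2, h3⟩ := hs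
    cases hc : f₁.y.beq f₂.y with
    | false => rw [hc, cond_false] at h3; cases h3
    | true =>
      rw [hc, cond_true] at h3
      cases h3
      have e1 := ht.get h1
      have e2 := ht.get h2
      have e3 := Pt.eq_of_beq hc
      unfold Fact.Holds at e1 e2 ⊢
      change E (sem h (f₁.x.add f₂.x)) (sem h f₁.y) ≤ f₁.n + f₂.n
      rw [sem_add]
      rw [← e3] at e2
      exact (hE.subL _ _ _).trans (add_le_add e1 e2)
  | sr i j =>
    simp only [Step.eval, Option.bind_eq_some_iff] at hs
    obtain ⟨f₁, h1, f₂, h2, h3⟩ := hs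
    cases hc : f₁.x.beq f₂.x with
    | false => rw [hc, cond_false] at h3; cases h3
    | true =>
      rw [hc, cond_true] at h3
      cases h3
      have e1 := ht.get h1
      have e2 := ht.get h2
      have e3 := Pt.eq_of_beq hc
      unfold Fact.Holds at e1 e2 ⊢
      change E (sem h f₁.x) (sem h (f₁.y.add f₂.y)) ≤ f₁.n + f₂.n
      rw [sem_add]
      rw [← e3] at e2
      exact (hE.subR _ _ _).trans (add_le_add e1 e2)
  | dl i =>
    simp only [Step.eval, Option.map_eq_some_iff] at hs
    obtain ⟨f₁, h1, rfl⟩ := hs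
    have e1 := ht.get h1
    unfold Fact.Holds at e1 ⊢
    change E (sem h (f₁.x.add f₁.y)) (sem h f₁.y) ≤ f₁.n - 1
    rw [sem_add]
    exact (hE.desL _ _).trans (Nat.sub_le_sub_right e1 1)
  | dr i =>
    simp only [Step.eval, Option.map_eq_some_iff] at hs
    obtain ⟨f₁, h1, rfl⟩ := hs
    have e1 := ht.get h1
    unfold Fact.Holds at e1 ⊢
    change E (sem h f₁.x) (sem h (f₁.x.add f₁.y)) ≤ f₁.n - 1
    rw [sem_add]
    exact (hE.desR _ _).trans (Nat.sub_le_sub_right e1 1)
  | hl i m x =>
    simp only [Step.eval, Option.bind_eq_some_iff] at hs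
    obtain ⟨f₁, h1, h3⟩ := hs
    cases hc : (f₁.x.beq (Pt.mul m x) && Nat.ble 1 m) with
    | false => rw [hc, cond_false] at h3; cases h3
    | true =>
      rw [hc, cond_true] at h3
      cases h3
      simp only [Bool.and_eq_true, Nat.ble_eq] at hc
      have e1 := ht.get h1
      unfold Fact.Holds at e1 ⊢
      change E (sem h x) (sem h f₁.y) ≤ f₁.n / m
      rw [Pt.eq_of_beq hc.1, sem_mul] at e1
      rw [Nat.le_div_iff_mul_le hc.2, mul_comm]
      exact (hE.homL _ _ _).trans e1
  | hr i m x =>
    simp only [Step.eval, Option.bind_eq_some_iff] at hs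
    obtain ⟨f₁, h1, h3⟩ := hs
    cases hc : (f₁.y.beq (Pt.mul m x) && Nat.ble 1 m) with
    | false => rw [hc, cond_false] at h3; cases h3
    | true =>
      rw [hc, cond_true] at h3
      cases h3
      simp only [Bool.and_eq_true, Nat.ble_eq] at hc
      have e1 := ht.get h1
      unfold Fact.Holds at e1 ⊢
      change E (sem h f₁.x) (sem h x) ≤ f₁.n / m
      rw [Pt.eq_of_beq hc.1, sem_mul] at e1
      rw [Nat.le_div_iff_mul_le hc.2, mul_comm]
      exact (hE.homR _ _ _).trans e1

include hE hD in
theorem run_sound : ∀ (l : List Step) (t : FT) (n : ℕ) (t' : FT),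
    t.All (Fact.Holds h E) → run D l t n = some t' → t'.All (Fact.Holds h E)
  | [], t, n, t', ht, hr => by
    rw [run] at hr
    cases hr
    exact ht
  | s :: l, t, n, t', ht, hr => by
    rw [run, Option.bind_eq_some_iff] at hr
    obtain ⟨f, h1, h2⟩ := hr
    exact run_sound l _ _ t' (ht.put n (Step.eval_sound h hE D hD ht s h1)) h2

theorem zeroFact_sound {t : FT} (ht : t.All (Fact.Holds h E)) {i : ℕ} {x y : Pt}
    (hz : zeroFact t i x y = true) : E (sem h x) (sem h y) = 0 := by
  unfold zeroFact at hz
  cases hg : t.get i with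
  | none => rw [hg] at hz; cases hz
  | some f =>
    rw [hg] at hz
    simp only [Bool.and_eq_true, Nat.beq_eq] at hz
    obtain ⟨⟨h1, h2⟩, h3⟩ := hz
    have e := ht.get hg
    unfold Fact.Holds at e
    rw [h3, Pt.eq_of_beq h1, Pt.eq_of_beq h2] at e
    exact Nat.le_zero.mp e

theorem rowCheck_sound {t : FT} (ht : t.All (Fact.Holds h E)) (a s : ℕ) (x : Pt) :
    ∀ (j : ℕ) (ys : List Pt) (k k' : List ℕ), rowCheck t a s x j ys k = some k' →
      ∀ (b : ℕ) (hb : b < ys.length), a ≠ j + b → s ≠ j + b →
        E (sem h x) (sem h ys[b]) = 0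
  | j, [], k, k', _, b, hb, _, _ => absurd hb (by simp)
  | j, y :: ys, k, k', hr, b, hb, ha, hs => by
    unfold rowCheck at hr
    cases hc : (Nat.beq a j || Nat.beq s j) with
    | true =>
      rw [hc, cond_true] at hr
      cases b with
      | zero =>
        simp only [Bool.or_eq_true, Nat.beq_eq] at hc
        rcases hc with hc | hc
        · exact absurd hc (by simpa using ha)
        · exact absurd hc (by simpa using hs)
      | succ b =>
        have := rowCheck_sound ht a s x (j + 1) ys k k' hr b (by simpa using hb)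
          (by omega) (by omega)
        simpa using this
    | false =>
      rw [hc, cond_false] at hr
      cases k with
      | nil => cases hr
      | cons i k =>
        simp only at hr
        cases hz : zeroFact t i x y with
        | false => rw [hz, cond_false] at hr; cases hr
        | true =>
          rw [hz, cond_true] at hr
          cases b with
          | zero => simpa using zeroFact_sound h ht hz
          | succ b =>
            have := rowCheck_sound ht a s x (j + 1) ys k k' hr b (by simpa using hb)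
              (by omega) (by omega)
            simpa using this

theorem leafCheck_sound {t : FT} (ht : t.All (Fact.Holds h E)) (all : List Pt) :
    ∀ (a : ℕ) (xs : List Pt) (σ k : List ℕ), leafCheck t all a xs σ k = true →
      ∀ (i : ℕ) (hi : i < xs.length) (b : ℕ) (hb : b < all.length), a + i ≠ b →
        σ.getD i 0 ≠ b → E (sem h xs[i]) (sem h all[b]) = 0
  | a, [], σ, k, _, i, hi, _, _, _, _ => absurd hi (by simp)
  | a, x :: xs, [], k, hl, i, hi, _, _, _, _ => by simp [leafCheck] at hl
  | a, x :: xs, s :: σ, k, hl, i, hi, b, hb, h1, h2 => by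
    unfold leafCheck at hl
    cases hr : rowCheck t a s x 0 all k with
    | none => rw [hr] at hl; cases hl
    | some k' =>
      rw [hr] at hl
      simp only at hl
      cases i with
      | zero =>
        have := rowCheck_sound h ht a s x 0 all k k' hr b hb (by simpa using h1)
          (by simpa using h2)
        simpa using this
      | succ i =>
        have := leafCheck_sound ht all (a + 1) xs σ k' hl i (by simpa using hi) b hb
          (by omega) (by simpa using h2)
        simpa using this

theorem invol_sound (n : ℕ) (σ : List ℕ) : ∀ m, invol n σ m = true → ∀ a < m,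
    σ.getD a 0 < n ∧ σ.getD (σ.getD a 0) 0 = a
  | 0, _, a, ha => absurd ha (by omega)
  | m + 1, hm, a, ha => by
    unfold invol at hm
    simp only [Bool.and_eq_true, Nat.beq_eq, Nat.blt_eq] at hm
    rcases Nat.lt_succ_iff_lt_or_eq.mp ha with ha | rfl
    · exact invol_sound n σ m hm.2 a ha
    · exact ⟨hm.1.1, hm.1.2⟩

theorem Tree.check_sound {t : FT} (ht : t.All (Fact.Holds h E)) {n : ℕ} :
    ∀ (tr : Tree) (v : List Pt) (hv : v.length = n), tr.check t n v = true →
      Good E (fun i : Fin n => sem h (v.getD i (unit 5)))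
  | .leaf σ k, v, hv, hc => by
    unfold Tree.check at hc
    simp only [Bool.and_eq_true] at hc
    have hi := invol_sound n σ n hc.1
    refine Good.leaf _ (fun i => ⟨σ.getD i 0, (hi i i.2).1⟩) (fun i => ?_) fun i j hij hs => ?_
    · exact Fin.ext (hi i i.2).2
    · have := leafCheck_sound h ht v 0 v σ k hc.2 i (by omega) j (by omega)
        (by rw [Nat.zero_add]; exact fun e => hij (Fin.ext e))
        (fun e => hs (Fin.ext e))
      simpa [List.getD_eq_getElem?_getD, hv] using this
  | .split i j t₁ t₂, v, hv, hc => by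
    unfold Tree.check at hc
    simp only [Bool.and_eq_true, Nat.blt_eq, Bool.not_eq_true'] at hc
    obtain ⟨⟨⟨⟨hi, hj⟩, hij'⟩, h1⟩, h2⟩ := hc
    have hij : i ≠ j := Nat.ne_of_beq_eq_false hij'
    have e1 := Tree.check_sound ht t₁ _ (by rw [List.length_set, hv]) h1
    have e2 := Tree.check_sound ht t₂ _ (by rw [List.length_set, hv]) h2
    refine Good.split _ ⟨i, hi⟩ ⟨j, hj⟩ (fun e => hij (by simpa using e)) ?_ ?_
    · convert e1 using 1
      funext l
      by_cases hl : l = ⟨i, hi⟩
      · subst hl
        rw [Function.update_self]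
        simp only [List.getD_eq_getElem?_getD]
        rw [List.getElem?_set_self (by omega)]
        simp only [Option.getD_some]
        rw [sem_add]
      · rw [Function.update_of_ne hl]
        simp only [List.getD_eq_getElem?_getD]
        rw [List.getElem?_set_ne (fun e => hl (Fin.ext e.symm))]
    · convert e2 using 1
      funext l
      by_cases hl : l = ⟨j, hj⟩
      · subst hl
        rw [Function.update_self]
        simp only [List.getD_eq_getElem?_getD]
        rw [List.getElem?_set_self (by omega)]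
        simp only [Option.getD_some]
        rw [sem_add]
      · rw [Function.update_of_ne hl]
        simp only [List.getD_eq_getElem?_getD]
        rw [List.getElem?_set_ne (fun e => hl (Fin.ext e.symm))]

theorem sem_unit (i : ℕ) (hi : i < 5) : sem h (unit i) = h i := by
  interval_cases i <;> simp [sem, unit]

include hE hD in
/-- soundness of the certificate check -/
theorem checkAll_sound (n : ℕ) (hn : n ≤ 5) (l : List Step) (tr : Tree)
    (hc : checkAll D n l tr = true) : Good E (fun i : Fin n => h i) := by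
  unfold checkAll at hc
  cases hr : run D l .nil 0 with
  | none => rw [hr] at hc; cases hc
  | some t =>
    rw [hr] at hc
    have e := Tree.check_sound h (run_sound h hE D hD l .nil 0 t
      (show FT.All _ FT.nil from trivial) hr) tr (units n) (by simp [units]) hc
    convert e using 1
    funext i
    have : (units n).getD i (unit 5) = unit i := by
      simp [units, List.getD_eq_getElem?_getD]
    rw [this, sem_unit h i (by omega)]

end sound

end Pool.Agent.Helper947_Any
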