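import Pool.Agent.Helper947_Fin.Assemble
import Pool.Agent.Helper947_Any.Check

set_option autoImplicit false

/-!
Subdivided cones over finite families of lattice points contain only finitely many indecomposable
summands, in any rank.
-/

namespace Pool.Agent.Helper947_Any

open Pool.Agent.Helper391_TT
open Pool.Agent.Helper947_Fin (Ax EE FinS bv cone2 ax EE_pos EE_neg EE_le finS_cone2)

universe u

variable {k A : Type u} [Field k] [Ring A] [Algebra k A] {ι : Type} [Fintype ι]
  (B : ProjBasis k A ι) (F : (ι → ℤ) → Obj k A) (hF : ∀ x, Rigid (F x) ∧ B.Cls (F x) x)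

omit F hF in
theorem finS_iUnion {T : Type} [Fintype T] (C : T → Set (ι → ℤ)) (h : ∀ t, FinS B (C t)) :
    FinS B {x | ∃ t, x ∈ C t} := by
  classical
  choose n W hW using h
  let TT := Σ t : T, Fin (n t)
  let e : TT ≃ Fin (Fintype.card TT) := Fintype.equivFin TT
  refine ⟨Fintype.card TT, fun i => W (e.symm i).1 (e.symm i).2, ?_⟩
  rintro x ⟨t, hx⟩ G hG hc V hV hr
  obtain ⟨i, hi⟩ := hW t x hx G hG hc V hV hr
  refine ⟨e ⟨t, i⟩, ?_⟩
  change Nonempty (V.X ≃ₗ[A] (W (e.symm (e ⟨t, i⟩)).1 (e.symm (e ⟨t, i⟩)).2).X)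
  rw [Equiv.symm_apply_apply]
  exact hi

include hF in
/-- sums of pairwise compatible points -/
theorem finS_sum {T : Type} [Fintype T] (C : T → Set (ι → ℤ)) (h : ∀ t, FinS B (C t)) :
    FinS B {x | ∃ y : T → ι → ℤ, (∀ t, y t ∈ C t) ∧ x = ∑ t, y t ∧
      ∀ s t, s ≠ t → EE F (y s) (y t) = 0} := by
  obtain ⟨n, W, hW⟩ := finS_iUnion B C h
  refine ⟨n, W, ?_⟩
  rintro x ⟨y, hy, rfl, hE⟩ G hG hc V hV hr
  let Z : T → Obj k A := fun t => F (y t)
  have hZ : ∀ i j, ee (Z i) (Z j).M = 0 := fun i j => by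
    by_cases hij : i = j
    · subst hij
      exact (hF _).1
    · exact hE i j hij
  obtain ⟨r, hr'⟩ := retract_of_same G (Obj.comb Z fun _ => 1) hG (rigid_comb Z _ hZ) (by
    intro X
    rw [chi_comb, hc X]
    have e : ∀ t, ((1 : ℕ) : ℤ) * chi (Z t) X = ∑ i, y t i * (dd (B.P i) X : ℤ) := fun t => by
      rw [Nat.cast_one, one_mul]
      exact (hF (y t)).2 X
    rw [Finset.sum_congr rfl fun t _ => e t, Finset.sum_comm]
    refine Finset.sum_congr rfl fun i _ => ?_
    rw [Finset.sum_apply, Finset.sum_mul])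
  obtain ⟨q, -, hq⟩ := retract_comb Z (fun _ => 1) V hV r (hr.trans hr')
  exact hW (y q) ⟨q, hy q⟩ (F (y q)) (hF _).1 (hF _).2 V hV hq

/-- the lattice points of a cone -/
def coneF {n : ℕ} (v : Fin n → ι → ℤ) : Set (ι → ℤ) := {x | ∃ a : Fin n → ℕ, x = ∑ i, a i • v i}

include hF in
theorem comb_zero [Module.Finite k A] (u v u' v' : ι → ℤ) (a b c d : ℕ) (h1 : EE F u u' = 0)
    (h2 : EE F u v' = 0) (h3 : EE F v u' = 0) (h4 : EE F v v' = 0) :
    EE F (a • u + b • v) (c • u' + d • v') = 0 := by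
  have hE := ax B F hF
  have key : ∀ z, EE F z u' = 0 → EE F z v' = 0 → EE F z (c • u' + d • v') = 0 := by
    intro z g1 g2
    have g3 := hE.subR z (c • u') (d • v')
    have g4 := hE.mulR c z u'
    have g5 := hE.mulR d z v'
    rw [g1, mul_zero] at g4
    rw [g2, mul_zero] at g5
    omega
  have g3 := hE.subL (a • u) (b • v) (c • u' + d • v')
  have g4 := hE.mulL a u (c • u' + d • v')
  have g5 := hE.mulL b v (c • u' + d • v')
  rw [key u h1 h2, mul_zero] at g4
  rw [key v h3 h4, mul_zero] at g5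
  omega

include hF in
theorem finS_matching [Module.Finite k A] {n : ℕ} (v : Fin n → ι → ℤ) (σ : Fin n → Fin n)
    (h1 : ∀ i, σ (σ i) = i) (h2 : ∀ i j, i ≠ j → σ i ≠ j → EE F (v i) (v j) = 0) :
    FinS B (coneF v) := by
  classical
  refine (finS_sum B F hF (fun i : Fin n => cone2 (v i) (v (σ i))) fun i =>
    finS_cone2 B F hF _ _).mono B ?_
  rintro x ⟨a, rfl⟩
  have inj : ∀ i j, σ i = σ j → i = j := fun i j h => by rw [← h1 i, h, h1]
  let c : Fin n → ℕ := fun i => if i ≤ σ i then a i else 0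
  let d : Fin n → ℕ := fun i => if i < σ i then a (σ i) else 0
  refine ⟨fun i => c i • v i + d i • v (σ i), fun i => ⟨c i, d i, rfl⟩, ?_, ?_⟩
  · rw [Finset.sum_add_distrib]
    have e : ∑ i, d i • v (σ i) = ∑ i, (if σ i < i then a i else 0) • v i := by
      refine Fintype.sum_equiv (Function.Involutive.toPerm σ h1) _ _ fun i => ?_
      change (if i < σ i then a (σ i) else 0) • v (σ i) =
        (if σ (σ i) < σ i then a (σ i) else 0) • v (σ i)
      rw [h1]
    rw [e, ← Finset.sum_add_distrib]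
    refine Finset.sum_congr rfl fun i _ => ?_
    simp only [c]
    by_cases h : i ≤ σ i
    · rw [if_pos h, if_neg (not_lt.mpr h), zero_smul, add_zero]
    · rw [if_neg h, if_pos (not_le.mp h), zero_smul, zero_add]
  · intro i j hij
    by_cases hi : i ≤ σ i
    · by_cases hj : j ≤ σ j
      · have k1 : σ i ≠ j := fun h => by
          subst h
          rw [h1] at hj
          exact hij (le_antisymm hi hj)
        have k2 : i ≠ σ j := fun h => k1 (by rw [h, h1])
        exact comb_zero B F hF _ _ _ _ _ _ _ _ (h2 _ _ hij k1)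
          (h2 _ _ k2 fun h => hij (inj _ _ h))
          (h2 _ _ k1 (by rw [h1]; exact hij))
          (h2 _ _ (fun h => hij (inj _ _ h)) (by rw [h1]; exact k2))
      · have : c j • v j + d j • v (σ j) = 0 := by
          simp only [c, d]
          rw [if_neg hj, if_neg fun h => hj h.le, zero_smul, zero_smul, add_zero]
        beta_reduce
        rw [this]
        exact (ax B F hF).zeroR _
    · have : c i • v i + d i • v (σ i) = 0 := by
        simp only [c, d]
        rw [if_neg hi, if_neg fun h => hi h.le, zero_smul, zero_smul, add_zero]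
      beta_reduce
      rw [this]
      exact (ax B F hF).zeroL _

omit [Fintype ι] in
theorem cone_split {n : ℕ} (v : Fin n → ι → ℤ) (i j : Fin n) (hij : i ≠ j) (a : Fin n → ℕ)
    (h : a j ≤ a i) : ∑ m, a m • v m ∈ coneF (Function.update v j (v i + v j)) := by
  refine ⟨Function.update a i (a i - a j), ?_⟩
  rw [← sub_eq_zero, ← Finset.sum_sub_distrib, Fintype.sum_eq_add i j hij]
  · rw [Function.update_self, Function.update_of_ne hij, Function.update_of_ne hij.symm,
      Function.update_self]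
    obtain ⟨d, hd⟩ := Nat.exists_eq_add_of_le h
    rw [hd, Nat.add_sub_cancel_left, add_smul, smul_add]
    abel
  · rintro m ⟨h1, h2⟩
    rw [Function.update_of_ne h1, Function.update_of_ne h2, sub_self]

include hF in
theorem finS_of_good [Module.Finite k A] {n : ℕ} {v : Fin n → ι → ℤ} (h : Good (EE F) v) :
    FinS B (coneF v) := by
  induction h with
  | leaf v σ h1 h2 => exact finS_matching B F hF v σ h1 h2
  | split v i j hij _ _ ih1 ih2 =>
    refine (ih1.union B ih2).mono B ?_
    rintro x ⟨a, rfl⟩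
    rcases le_total (a i) (a j) with h | h
    · left
      have := cone_split v j i hij.symm a h
      rwa [add_comm] at this
    · exact Or.inr (cone_split v i j hij a h)

section parts

variable [DecidableEq ι]

/-- the generators of the orthant of `I` -/
def gen (I : Finset ι) (i : ι) : ι → ℤ := if i ∈ I then bv i else -bv i

/-- the lattice points of the face `K` of the orthant of `I` -/
def face (I K : Finset ι) : Set (ι → ℤ) :=
  {x | (∀ i ∈ K, (i ∈ I → 0 ≤ x i) ∧ (i ∉ I → x i ≤ 0)) ∧ ∀ i ∉ K, x i = 0}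

omit [Fintype ι] in
theorem face_eq_sum (I K : Finset ι) (x : ι → ℤ) (hx : x ∈ face I K) :
    x = ∑ i ∈ K, (x i).natAbs • gen I i := by
  funext m
  rw [Finset.sum_apply]
  by_cases hm : m ∈ K
  · rw [Finset.sum_eq_single_of_mem m hm]
    · unfold gen
      obtain ⟨h1, h2⟩ := hx.1 m hm
      by_cases h : m ∈ I
      · rw [if_pos h, Pi.smul_apply, bv, Pi.single_eq_same, nsmul_eq_mul, mul_one]
        exact (Int.natAbs_of_nonneg (h1 h)).symm
      · rw [if_neg h, Pi.smul_apply, Pi.neg_apply, bv, Pi.single_eq_same, nsmul_eq_mul, mul_neg,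
          mul_one, Int.ofNat_natAbs_of_nonpos (h2 h), neg_neg]
    · intro b _ hb
      unfold gen
      split_ifs
      · rw [Pi.smul_apply, bv, Pi.single_eq_of_ne hb.symm, smul_zero]
      · rw [Pi.smul_apply, Pi.neg_apply, bv, Pi.single_eq_of_ne hb.symm, neg_zero, smul_zero]
  · rw [hx.2 m hm, Finset.sum_eq_zero]
    intro b hb
    have hb' : m ≠ b := fun h => hm (h ▸ hb)
    unfold gen
    split_ifs
    · rw [Pi.smul_apply, bv, Pi.single_eq_of_ne hb', smul_zero]
    · rw [Pi.smul_apply, Pi.neg_apply, bv, Pi.single_eq_of_ne hb', neg_zero, smul_zero]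

omit [Fintype ι] in
theorem face_sub (I K : Finset ι) {n : ℕ} (v : Fin n → ι → ℤ)
    (hv : ∀ i ∈ K, ∃ t, v t = gen I i) : face I K ⊆ coneF v := by
  intro x hx
  by_cases hn : ∃ t : Fin n, True
  · obtain ⟨t0, -⟩ := hn
    have hv' : ∀ i, ∃ t, i ∈ K → v t = gen I i := fun i => by
      by_cases hi : i ∈ K
      · obtain ⟨t, ht⟩ := hv i hi
        exact ⟨t, fun _ => ht⟩
      · exact ⟨t0, fun h => absurd h hi⟩
    choose φ hφ using hv'
    refine ⟨fun t => ∑ i ∈ K with φ i = t, (x i).natAbs, ?_⟩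
    conv_lhs => rw [face_eq_sum I K x hx]
    rw [← Finset.sum_fiberwise_of_maps_to (t := Finset.univ) (g := φ) fun _ _ => Finset.mem_univ _]
    refine Finset.sum_congr rfl fun t _ => ?_
    rw [Finset.sum_smul]
    refine Finset.sum_congr rfl fun i hi => ?_
    rw [Finset.mem_filter] at hi
    rw [← hi.2, hφ i hi.1]
  · have hK : K = ∅ := Finset.eq_empty_of_forall_notMem fun i hi => by
      obtain ⟨t, -⟩ := hv i hi
      exact hn ⟨t, trivial⟩
    refine ⟨fun _ => 0, ?_⟩
    conv_lhs => rw [face_eq_sum I K x hx]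
    rw [hK]
    simp

end parts

end Pool.Agent.Helper947_Any
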