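import Pool.Agent.Helper947_Any.Check

set_option autoImplicit false

/-!
Families consisting of `r` positive and `s` negative generators, with a matrix bounding the
values `E (neg j) (pos i)`; certificates for all matrices of a given total weight whose row sums
are nondecreasing.
-/

namespace Pool.Agent.Helper947_Any

open Pool.Agent.Helper947_Fin (Ax)

/-- the matrix of bounds for `r` positive generators followed by negative ones -/
def Dmat (r : ℕ) (T : List (List ℕ)) (a b : ℕ) : ℕ :=
  bif Nat.ble r a && Nat.blt b r then (T.getD (a - r) []).getD b 0 else 0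

/-- a checked certificate -/
structure Cert (r s : ℕ) where
  T : List (List ℕ)
  W : Wt
  hW : W = Wt.of (Dmat r T)
  steps : List Step
  tree : Tree
  ok : checkAll W (r + s) steps tree = true

def domRow : List ℕ → List ℕ → Bool
  | [], _ => true
  | a :: l, b :: m => Nat.ble a b && domRow l m
  | _ :: _, [] => false

def domMat : List (List ℕ) → List (List ℕ) → Bool
  | [], _ => true
  | a :: l, b :: m => domRow a b && domMat l m
  | _ :: _, [] => false

theorem domRow_sound : ∀ (l m : List ℕ), domRow l m = true → ∀ i < l.length,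
    l.getD i 0 ≤ m.getD i 0
  | [], _, _, i, hi => absurd hi (by simp)
  | a :: l, [], h, _, _ => by simp [domRow] at h
  | a :: l, b :: m, h, i, hi => by
    simp only [domRow, Bool.and_eq_true, Nat.ble_eq] at h
    cases i with
    | zero => simpa using h.1
    | succ i => simpa using domRow_sound l m h.2 i (by simpa using hi)

theorem domMat_sound : ∀ (l m : List (List ℕ)), domMat l m = true → ∀ j < l.length,
    domRow (l.getD j []) (m.getD j []) = true
  | [], _, _, i, hi => absurd hi (by simp)
  | a :: l, [], h, _, _ => by simp [domMat] at h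
  | a :: l, b :: m, h, i, hi => by
    simp only [domMat, Bool.and_eq_true] at h
    cases i with
    | zero => simpa using h.1
    | succ i => simpa using domMat_sound l m h.2 i (by simpa using hi)

/-- all rows of length `r` with sum at most `S` -/
def rowsLe : ℕ → ℕ → List (List ℕ)
  | 0, _ => [[]]
  | r + 1, S => (List.range (S + 1)).flatMap fun a => (rowsLe r (S - a)).map (a :: ·)

/-- all matrices with `s` rows of length `r` and total at most `S` -/
def matsLe (r : ℕ) : ℕ → ℕ → List (List (List ℕ))
  | 0, _ => [[]]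
  | s + 1, S => (rowsLe r S).flatMap fun a => (matsLe r s (S - a.sum)).map (a :: ·)

theorem mem_rowsLe : ∀ (r S : ℕ) (l : List ℕ), l.length = r → l.sum ≤ S → l ∈ rowsLe r S
  | 0, S, l, h1, _ => by
    rw [List.length_eq_zero_iff] at h1
    simp [rowsLe, h1]
  | r + 1, S, [], h1, _ => by simp at h1
  | r + 1, S, a :: l, h1, h2 => by
    simp only [List.length_cons, Nat.add_right_cancel_iff] at h1
    rw [List.sum_cons] at h2
    simp only [rowsLe, List.mem_flatMap, List.mem_range, List.mem_map]
    exact ⟨a, by omega, l, mem_rowsLe r (S - a) l h1 (by omega), rfl⟩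

theorem mem_matsLe (r : ℕ) : ∀ (s S : ℕ) (l : List (List ℕ)), l.length = s →
    (∀ a ∈ l, a.length = r) → (l.map List.sum).sum ≤ S → l ∈ matsLe r s S
  | 0, S, l, h1, _, _ => by
    rw [List.length_eq_zero_iff] at h1
    simp [matsLe, h1]
  | s + 1, S, [], h1, _, _ => by simp at h1
  | s + 1, S, a :: l, h1, h2, h3 => by
    simp only [List.length_cons, Nat.add_right_cancel_iff] at h1
    rw [List.map_cons, List.sum_cons] at h3
    simp only [matsLe, List.mem_flatMap, List.mem_map]
    exact ⟨a, mem_rowsLe r S a (h2 a (by simp)) (by omega), l,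
      mem_matsLe r s (S - a.sum) l h1 (fun b hb => h2 b (by simp [hb])) (by omega), rfl⟩

/-- the row sums are nondecreasing -/
def sortedRows : List (List ℕ) → Bool
  | [] => true
  | [_] => true
  | a :: b :: l => Nat.ble a.sum b.sum && sortedRows (b :: l)

theorem sortedRows_of : ∀ (l : List (List ℕ)),
    (∀ i, i + 1 < l.length → (l.getD i []).sum ≤ (l.getD (i + 1) []).sum) → sortedRows l = true
  | [], _ => rfl
  | [_], _ => rfl
  | a :: b :: l, h => by
    simp only [sortedRows, Bool.and_eq_true, Nat.ble_eq]
    refine ⟨by simpa using h 0 (by simp), sortedRows_of (b :: l) fun i hi => ?_⟩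
    simpa using h (i + 1) (by simpa using hi)

/-- the certificates cover all matrices of total at most `S` with sorted rows -/
def covers {r s : ℕ} (S : ℕ) (db : List (List (List ℕ))) : Bool :=
  (matsLe r s S).all fun w => !sortedRows w || db.any fun T => domMat w T

variable {L : Type*} [AddCommGroup L] {E : L → L → ℕ}

theorem good_of_cert (hE : Ax E) {r s : ℕ} (hr1 : 1 ≤ r) (hr2 : r ≤ 2) (hrs : r + s ≤ 5)
    (c : Cert r s) (pos : Fin r → L) (neg : Fin s → L)
    (hP : ∀ i y, E (pos i) y = 0) (hN : ∀ x j, E x (neg j) = 0)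
    (hw : ∀ j i, E (neg j) (pos i) ≤ (c.T.getD j []).getD i 0) :
    Good E (Fin.append pos neg) := by
  let h : ℕ → L := fun a => if ha : a < r + s then Fin.append pos neg ⟨a, ha⟩ else 0
  have hlt : ∀ a (ha : a < r), h a = pos ⟨a, ha⟩ := fun a ha => by
    simp only [h]
    rw [dif_pos (by omega : a < r + s)]
    exact Fin.append_left pos neg ⟨a, ha⟩
  have hge : ∀ a (ha : a < s), h (r + a) = neg ⟨a, ha⟩ := fun a ha => by
    simp only [h]
    rw [dif_pos (by omega : r + a < r + s)]
    exact Fin.append_right pos neg ⟨a, ha⟩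
  have hD : ∀ a b, E (h a) (h b) ≤ Dmat r c.T a b := by
    intro a b
    by_cases ha : a < r
    · rw [hlt a ha, hP]; exact Nat.zero_le _
    by_cases ha' : a < r + s
    · obtain ⟨a, rfl⟩ := Nat.exists_eq_add_of_le (not_lt.mp ha)
      have hs : a < s := by omega
      by_cases hb : b < r
      · rw [hge a hs, hlt b hb]
        refine (hw _ _).trans (le_of_eq ?_)
        unfold Dmat
        have e1 : Nat.ble r (r + a) = true := Nat.ble_eq.mpr (by omega)
        have e2 : Nat.blt b r = true := Nat.blt_eq.mpr hb
        rw [e1, e2, Bool.and_self, cond_true, Nat.add_sub_cancel_left]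
      by_cases hb' : b < r + s
      · obtain ⟨b, rfl⟩ := Nat.exists_eq_add_of_le (not_lt.mp hb)
        rw [hge b (by omega), hN]; exact Nat.zero_le _
      · have : h b = 0 := dif_neg hb'
        rw [this, zeroR hE]; exact Nat.zero_le _
    · have : h a = 0 := dif_neg ha'
      rw [this, zeroL hE]; exact Nat.zero_le _
  have z : ∀ a b, ¬ (r ≤ a ∧ b < r) → Dmat r c.T a b = 0 := by
    intro a b hab
    unfold Dmat
    cases hc : (Nat.ble r a && Nat.blt b r) with
    | false => rfl
    | true =>
      simp only [Bool.and_eq_true, Nat.ble_eq, Nat.blt_eq] at hc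
      exact absurd hc hab
  have hD' : ∀ x y, E (sem h x) (sem h y) ≤ bil c.W x y := by
    intro x y
    refine (le_full h hE (Dmat r c.T) hD x y).trans ?_
    rw [c.hW]
    simp only [bil, Wt.of]
    rw [z 0 0 (by omega), z 0 1 (by omega), z 0 2 (by omega), z 0 3 (by omega), z 0 4 (by omega),
      z 1 1 (by omega), z 1 2 (by omega), z 1 3 (by omega), z 1 4 (by omega), z 2 2 (by omega),
      z 2 3 (by omega), z 2 4 (by omega), z 3 2 (by omega), z 3 3 (by omega), z 3 4 (by omega),
      z 4 2 (by omega), z 4 3 (by omega), z 4 4 (by omega)]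
    apply le_of_eq
    ring
  have g := checkAll_sound h hE c.W hD' (r + s) hrs c.steps c.tree c.ok
  convert g using 1
  funext i
  simp only [h]
  rw [dif_pos i.2]

theorem good_of_covers (hE : Ax E) {r s S : ℕ} (hr1 : 1 ≤ r) (hr2 : r ≤ 2) (hrs : r + s ≤ 5)
    (db : List (Cert r s))
    (hcov : covers (r := r) (s := s) S (db.map fun c => c.T) = true) (pos : Fin r → L)
    (neg : Fin s → L) (hP : ∀ i y, E (pos i) y = 0) (hN : ∀ x j, E x (neg j) = 0)
    (w : Fin s → Fin r → ℕ) (hw : ∀ j i, E (neg j) (pos i) ≤ w j i)
    (hsum : ∑ j, ∑ i, w j i ≤ S) (hmono : Monotone fun j => ∑ i, w j i) :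
    Good E (Fin.append pos neg) := by
  let l : List (List ℕ) := List.ofFn fun j => List.ofFn fun i => w j i
  have hl : l.length = s := List.length_ofFn
  have hget : ∀ j (hj : j < s), l.getD j [] = List.ofFn fun i => w ⟨j, hj⟩ i := fun j hj => by
    rw [List.getD_eq_getElem?_getD, List.getElem?_eq_getElem (by omega), Option.getD_some,
      List.getElem_ofFn]
  have hrow : ∀ j (hj : j < s), (l.getD j []).sum = ∑ i, w ⟨j, hj⟩ i := fun j hj => by
    rw [hget j hj, List.sum_ofFn]
  have hm : l ∈ matsLe r s S := by
    refine mem_matsLe r s S l hl (fun a ha => ?_) ?_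
    · rw [List.mem_ofFn] at ha
      obtain ⟨j, rfl⟩ := ha
      exact List.length_ofFn
    · refine le_trans (le_of_eq ?_) hsum
      rw [List.map_ofFn, List.sum_ofFn]
      refine Finset.sum_congr rfl fun j _ => ?_
      simp only [Function.comp]
      rw [List.sum_ofFn]
  have hsr : sortedRows l = true := sortedRows_of l fun i hi => by
    rw [hl] at hi
    rw [hrow i (by omega), hrow (i + 1) hi]
    exact hmono (Fin.mk_le_mk.mpr (Nat.le_succ i))
  have h1 := List.all_eq_true.mp hcov l hm
  rw [hsr, Bool.not_true, Bool.false_or, List.any_eq_true] at h1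
  obtain ⟨T, hT, hdom⟩ := h1
  rw [List.mem_map] at hT
  obtain ⟨c, -, rfl⟩ := hT
  refine good_of_cert hE hr1 hr2 hrs c pos neg hP hN fun j i => (hw j i).trans ?_
  have h2 := domRow_sound _ _ (domMat_sound _ _ hdom j (by rw [hl]; exact j.2)) i (by
    rw [hget j j.2, List.length_ofFn]; exact i.2)
  refine le_trans (le_of_eq ?_) h2
  rw [hget j j.2, List.getD_eq_getElem?_getD, List.getElem?_eq_getElem (by
    rw [List.length_ofFn]; exact i.2), Option.getD_some, List.getElem_ofFn]

end Pool.Agent.Helper947_Any
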