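import Pool.Agent.Helper947_Fin.UseQ
import Pool.Agent.Helper947_Any.Db
import Pool.Agent.Helper947_Any.Bridge

set_option autoImplicit false

/-!
Small components of the cut graphs.
-/

namespace Pool.Agent.Helper947_Any

open Pool.Agent.Helper391_TT
open Pool.Agent.Helper947_Fin (Ax EE FinS bv cone2 ax EE_pos EE_neg EE_le finS_cone2 goodQ)

/-- there are certificates for all matrices of total weight at most `S` -/
def HasDb (r s S : ℕ) : Prop :=
  ∃ db : List (Cert r s), covers (r := r) (s := s) S (db.map fun c => c.T) = true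

section abstract

variable {L : Type*} [AddCommGroup L] {E : L → L → ℕ}

theorem of_good3 {u v w : L} (h : Pool.Agent.Helper947_Fin.Good E u v w) :
    Good E ![u, v, w] := by
  induction h with
  | leaf0 u v w h1 h2 h3 h4 =>
    refine Good.leaf _ ![0, 2, 1] (by decide) ?_
    intro i j hij hs
    fin_cases i <;> fin_cases j <;> first
      | exact absurd rfl hij
      | exact absurd rfl hs
      | assumption
  | leaf1 u v w h1 h2 h3 h4 =>
    refine Good.leaf _ ![2, 1, 0] (by decide) ?_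
    intro i j hij hs
    fin_cases i <;> fin_cases j <;> first
      | exact absurd rfl hij
      | exact absurd rfl hs
      | assumption
  | leaf2 u v w h1 h2 h3 h4 =>
    refine Good.leaf _ ![1, 0, 2] (by decide) ?_
    intro i j hij hs
    fin_cases i <;> fin_cases j <;> first
      | exact absurd rfl hij
      | exact absurd rfl hs
      | assumption
  | split0 u v w _ _ ih1 ih2 =>
    refine Good.split _ 0 1 (by decide) ?_ ?_
    · convert ih2 using 1
      funext i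
      fin_cases i <;> rfl
    · convert ih1 using 1
      funext i
      fin_cases i <;> rfl
  | split1 u v w _ _ ih1 ih2 =>
    refine Good.split _ 0 2 (by decide) ?_ ?_
    · convert ih2 using 1
      funext i
      fin_cases i <;> rfl
    · convert ih1 using 1
      funext i
      fin_cases i <;> rfl
  | split2 u v w _ _ ih1 ih2 =>
    refine Good.split _ 1 2 (by decide) ?_ ?_
    · convert ih2 using 1
      funext i
      fin_cases i <;> rfl
    · convert ih1 using 1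
      funext i
      fin_cases i <;> rfl

/-- with at most two positive generators -/
theorem good_core (hE : Ax E) {r s S : ℕ} (hr1 : 1 ≤ r) (hr2 : r ≤ 2) (hrs : r + s ≤ 5)
    (hdb : HasDb r s S) (p : Fin r → L) (q : Fin s → L) (hp : ∀ i y, E (p i) y = 0)
    (hq : ∀ x j, E x (q j) = 0) (w : Fin s → Fin r → ℕ) (hw : ∀ j i, E (q j) (p i) ≤ w j i)
    (hsum : ∑ j, ∑ i, w j i ≤ S) :
    ∃ (n : ℕ) (v : Fin n → L), Good E v ∧ (∀ i, ∃ t, v t = p i) ∧ (∀ j, ∃ t, v t = q j) := by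
  obtain ⟨db, hcov⟩ := hdb
  let f : Fin s → ℕ := fun j => ∑ i, w j i
  let τ := Tuple.sort f
  refine ⟨r + s, Fin.append p (q ∘ τ), ?_, fun i => ⟨Fin.castAdd s i, Fin.append_left _ _ _⟩,
    fun j => ⟨Fin.natAdd r (τ.symm j), by rw [Fin.append_right]; simp⟩⟩
  refine good_of_covers hE hr1 hr2 hrs db hcov p (q ∘ τ) hp (fun x j => hq x _)
    (fun j i => w (τ j) i) (fun j i => hw _ i) ?_ (Tuple.monotone_sort f)
  rw [Equiv.sum_comp τ fun j => ∑ i, w j i]
  exact hsum

/-- with at most two negative generators -/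
theorem good_core' (hE : Ax E) {r s S : ℕ} (hr1 : 1 ≤ s) (hr2 : s ≤ 2) (hrs : r + s ≤ 5)
    (hdb : HasDb s r S) (p : Fin r → L) (q : Fin s → L) (hp : ∀ i y, E (p i) y = 0)
    (hq : ∀ x j, E x (q j) = 0) (w : Fin s → Fin r → ℕ) (hw : ∀ j i, E (q j) (p i) ≤ w j i)
    (hsum : ∑ j, ∑ i, w j i ≤ S) :
    ∃ (n : ℕ) (v : Fin n → L), Good E v ∧ (∀ i, ∃ t, v t = p i) ∧ (∀ j, ∃ t, v t = q j) := by
  obtain ⟨n, v, h1, h2, h3⟩ := good_core hE.dual (r := s) (s := r) hr1 hr2 (by omega) hdb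
    (fun j => -q j) (fun i => -p i) (fun j y => by rw [neg_neg]; exact hq _ _)
    (fun x i => by rw [neg_neg]; exact hp _ _) (fun i j => w j i)
    (fun i j => by rw [neg_neg, neg_neg]; exact hw _ _) (by rw [Finset.sum_comm]; exact hsum)
  refine ⟨n, fun t => -v t, h1.dual, fun i => ?_, fun j => ?_⟩
  · obtain ⟨t, ht⟩ := h3 i
    exact ⟨t, by simp only [ht, neg_neg]⟩
  · obtain ⟨t, ht⟩ := h2 j
    exact ⟨t, by simp only [ht, neg_neg]⟩

/-- one positive and two negative generators -/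
theorem good_three (hE : Ax E) (p : Fin 1 → L) (q : Fin 2 → L) (hp : ∀ i y, E (p i) y = 0)
    (hq : ∀ x j, E x (q j) = 0) (hp' : ∀ x i, E x (-p i) = 0) (hq' : ∀ j y, E (-q j) y = 0)
    (w : Fin 2 → Fin 1 → ℕ) (hw : ∀ j i, E (q j) (p i) ≤ w j i)
    (h : w 0 0 + w 1 0 ≤ 5 ∨ w 0 0 * w 1 0 ≤ 5) :
    ∃ (n : ℕ) (v : Fin n → L), Good E v ∧ (∀ i, ∃ t, v t = p i) ∧ (∀ j, ∃ t, v t = q j) := by
  have g := goodQ hE (p 0) (-q 0) (-q 1) (hp 0) (hq' 0) (hq' 1) (fun x => hp' x 0)
    (fun x => by rw [neg_neg]; exact hq x 0) (fun x => by rw [neg_neg]; exact hq x 1)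
    (w 0 0) (w 1 0) (by rw [neg_neg]; exact hw 0 0) (by rw [neg_neg]; exact hw 1 0) h
  rw [neg_neg, neg_neg] at g
  refine ⟨3, ![p 0, q 0, q 1], of_good3 g, fun i => ⟨0, ?_⟩, fun j => ?_⟩
  · rw [Subsingleton.elim i 0]; rfl
  · fin_cases j
    · exact ⟨1, rfl⟩
    · exact ⟨2, rfl⟩

theorem good_three' (hE : Ax E) (p : Fin 2 → L) (q : Fin 1 → L) (hp : ∀ i y, E (p i) y = 0)
    (hq : ∀ x j, E x (q j) = 0) (hp' : ∀ x i, E x (-p i) = 0) (hq' : ∀ j y, E (-q j) y = 0)
    (w : Fin 1 → Fin 2 → ℕ) (hw : ∀ j i, E (q j) (p i) ≤ w j i)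
    (h : w 0 0 + w 0 1 ≤ 5 ∨ w 0 0 * w 0 1 ≤ 5) :
    ∃ (n : ℕ) (v : Fin n → L), Good E v ∧ (∀ i, ∃ t, v t = p i) ∧ (∀ j, ∃ t, v t = q j) := by
  obtain ⟨n, v, h1, h2, h3⟩ := good_three hE.dual (fun j => -q j) (fun i => -p i)
    (fun j y => by rw [neg_neg]; exact hq _ _) (fun x i => by rw [neg_neg]; exact hp _ _)
    (fun x j => by rw [neg_neg]; exact hq' _ _) (fun i y => by rw [neg_neg]; exact hp' _ _)
    (fun i j => w j i) (fun i j => by rw [neg_neg, neg_neg]; exact hw _ _) h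
  refine ⟨n, fun t => -v t, h1.dual, fun i => ?_, fun j => ?_⟩
  · obtain ⟨t, ht⟩ := h3 i
    exact ⟨t, by simp only [ht, neg_neg]⟩
  · obtain ⟨t, ht⟩ := h2 j
    exact ⟨t, by simp only [ht, neg_neg]⟩

theorem good_any (hE : Ax E) (h13 : HasDb 1 3 5) (h22 : HasDb 2 2 5) (h14 : HasDb 1 4 4)
    (h23 : HasDb 2 3 4) {r s : ℕ} (p : Fin r → L) (q : Fin s → L) (hp : ∀ i y, E (p i) y = 0)
    (hq : ∀ x j, E x (q j) = 0) (hp' : ∀ x i, E x (-p i) = 0) (hq' : ∀ j y, E (-q j) y = 0)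
    (w : Fin s → Fin r → ℕ) (hw : ∀ j i, E (q j) (p i) ≤ w j i)
    (h : r + s ≤ 2 ∨ (r + s ≤ 4 ∧ ∑ j, ∑ i, w j i ≤ 5) ∨ (r + s ≤ 5 ∧ ∑ j, ∑ i, w j i ≤ 4) ∨
      (r + s = 3 ∧ ∏ j, ∏ i, w j i ≤ 5)) :
    ∃ (n : ℕ) (v : Fin n → L), Good E v ∧ (∀ i, ∃ t, v t = p i) ∧ (∀ j, ∃ t, v t = q j) := by
  rcases Nat.eq_zero_or_pos r with rfl | hr
  · exact ⟨s, q, Good.leaf _ id (fun _ => rfl) (fun i j _ _ => hq _ _), fun i => i.elim0,
      fun j => ⟨j, rfl⟩⟩
  rcases Nat.eq_zero_or_pos s with rfl | hs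
  · exact ⟨r, p, Good.leaf _ id (fun _ => rfl) (fun i j _ _ => hp _ _), fun j => ⟨j, rfl⟩,
      fun i => i.elim0⟩
  rcases Nat.lt_or_ge 2 (r + s) with h2 | h2
  swap
  · obtain rfl : r = 1 := by omega
    obtain rfl : s = 1 := by omega
    refine ⟨2, ![p 0, q 0], Good.leaf _ ![1, 0] (by decide) ?_, fun i => ⟨0, ?_⟩,
      fun j => ⟨1, ?_⟩⟩
    · intro i j hij hs
      fin_cases i <;> fin_cases j <;> first
        | exact absurd rfl hij
        | exact absurd rfl hs
    · rw [Subsingleton.elim i 0]; rfl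
    · rw [Subsingleton.elim j 0]; rfl
  by_cases h3 : r + s = 3
  · have hr' : r = 1 ∨ r = 2 := by omega
    rcases hr' with rfl | rfl
    · obtain rfl : s = 2 := by omega
      refine good_three hE p q hp hq hp' hq' w hw ?_
      simp only [Fin.sum_univ_two, Fin.sum_univ_one, Fin.prod_univ_two, Fin.prod_univ_one] at h
      omega
    · obtain rfl : s = 1 := by omega
      refine good_three' hE p q hp hq hp' hq' w hw ?_
      simp only [Fin.sum_univ_two, Fin.sum_univ_one, Fin.prod_univ_two, Fin.prod_univ_one] at h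
      omega
  have h' : (r + s = 4 ∧ ∑ j, ∑ i, w j i ≤ 5) ∨ (r + s = 5 ∧ ∑ j, ∑ i, w j i ≤ 4) := by omega
  rcases h' with ⟨h4, h5⟩ | ⟨h4, h5⟩
  · have hr' : r = 1 ∨ r = 2 ∨ r = 3 := by omega
    rcases hr' with rfl | rfl | rfl
    · obtain rfl : s = 3 := by omega
      exact good_core hE (by omega) (by omega) (by omega) h13 p q hp hq w hw h5
    · obtain rfl : s = 2 := by omega
      exact good_core hE (by omega) (by omega) (by omega) h22 p q hp hq w hw h5
    · obtain rfl : s = 1 := by omega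
      exact good_core' hE (by omega) (by omega) (by omega) h13 p q hp hq w hw h5
  · have hr' : r = 1 ∨ r = 2 ∨ r = 3 ∨ r = 4 := by omega
    rcases hr' with rfl | rfl | rfl | rfl
    · obtain rfl : s = 4 := by omega
      exact good_core hE (by omega) (by omega) (by omega) h14 p q hp hq w hw h5
    · obtain rfl : s = 3 := by omega
      exact good_core hE (by omega) (by omega) (by omega) h23 p q hp hq w hw h5
    · obtain rfl : s = 2 := by omega
      exact good_core' hE (by omega) (by omega) (by omega) h23 p q hp hq w hw h5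
    · obtain rfl : s = 1 := by omega
      exact good_core' hE (by omega) (by omega) (by omega) h14 p q hp hq w hw h5

end abstract

end Pool.Agent.Helper947_Any
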