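import Pool.Agent.Helper947_Any.Db

set_option autoImplicit false
set_option maxRecDepth 100000

/-!
Certificates (found by computer, checked by the kernel).
-/

namespace Pool.Agent.Helper947_Any

def s14_0_0_0_4_0 : List Step := [
.ini ⟨1,0,0,0,0⟩ ⟨0,1,0,0,0⟩, .ini ⟨1,0,0,0,0⟩ ⟨0,0,1,0,0⟩, .ini ⟨1,0,0,0,0⟩ ⟨0,0,0,1,0⟩, .ini
  ⟨0,1,0,0,0⟩ ⟨1,0,0,0,0⟩, .ini ⟨0,1,0,0,0⟩ ⟨0,0,1,0,0⟩, .ini ⟨0,1,0,0,0⟩ ⟨0,0,0,1,0⟩, .ini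
  ⟨0,1,0,0,0⟩ ⟨0,0,0,0,1⟩, .ini ⟨0,0,1,0,0⟩ ⟨1,0,0,0,0⟩, .ini ⟨0,0,1,0,0⟩ ⟨0,1,0,0,0⟩, .ini
  ⟨0,0,1,0,0⟩ ⟨0,0,0,1,0⟩, .ini ⟨0,0,1,0,0⟩ ⟨0,0,0,0,1⟩, .ini ⟨0,0,0,1,0⟩ ⟨1,0,0,0,0⟩, .ini
  ⟨0,0,0,1,0⟩ ⟨0,1,0,0,0⟩, .ini ⟨0,0,0,1,0⟩ ⟨0,0,1,0,0⟩, .ini ⟨0,0,0,1,0⟩ ⟨0,0,0,0,1⟩, .ini
  ⟨0,0,0,0,1⟩ ⟨0,1,0,0,0⟩, .ini ⟨0,0,0,0,1⟩ ⟨0,0,1,0,0⟩, .ini ⟨0,0,0,0,1⟩ ⟨0,0,0,1,0⟩]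

def t14_0_0_0_4 : Tree :=
(.leaf [4,1,2,3,0] [0,1,2,3,4,5,6,7,8,9,10,11,12,13,14,15,16,17])

def c14_0_0_0_4 : Cert 1 4 where
  T := [[0], [0], [0], [4]]
  W := ⟨0, 0, 0, 4, 0, 0, 0⟩
  hW := rfl
  steps := s14_0_0_0_4_0
  tree := t14_0_0_0_4
  ok := by decide +kernel

def s14_0_0_1_3_0 : List Step := [
.ini ⟨1,0,0,1,0⟩ ⟨0,1,0,0,0⟩, .ini ⟨1,0,0,1,0⟩ ⟨0,0,1,0,0⟩, .ini ⟨1,0,0,1,0⟩ ⟨0,0,0,1,0⟩, .ini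
  ⟨0,1,0,0,0⟩ ⟨1,0,0,1,0⟩, .ini ⟨0,1,0,0,0⟩ ⟨0,0,1,0,0⟩, .ini ⟨0,1,0,0,0⟩ ⟨0,0,0,1,0⟩, .ini
  ⟨0,1,0,0,0⟩ ⟨0,0,0,0,1⟩, .ini ⟨0,0,1,0,0⟩ ⟨1,0,0,1,0⟩, .ini ⟨0,0,1,0,0⟩ ⟨0,1,0,0,0⟩, .ini
  ⟨0,0,1,0,0⟩ ⟨0,0,0,1,0⟩, .ini ⟨0,0,1,0,0⟩ ⟨0,0,0,0,1⟩, .ini ⟨0,0,0,1,0⟩ ⟨1,0,0,0,0⟩, .dr 11,
  .ini ⟨0,0,0,1,0⟩ ⟨0,1,0,0,0⟩, .ini ⟨0,0,0,1,0⟩ ⟨0,0,1,0,0⟩, .ini ⟨0,0,0,1,0⟩ ⟨0,0,0,0,1⟩, .ini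
  ⟨0,0,0,0,1⟩ ⟨0,1,0,0,0⟩, .ini ⟨0,0,0,0,1⟩ ⟨0,0,1,0,0⟩, .ini ⟨0,0,0,0,1⟩ ⟨0,0,0,1,0⟩, .ini
  ⟨1,0,0,0,3⟩ ⟨0,1,0,0,0⟩, .ini ⟨1,0,0,0,3⟩ ⟨0,0,1,0,0⟩, .ini ⟨1,0,0,0,3⟩ ⟨0,0,0,1,0⟩, .ini
  ⟨0,0,0,0,1⟩ ⟨1,0,0,0,0⟩, .dr 22, .dr 23, .dl 24, .sr 21 25, .ini ⟨1,0,0,0,3⟩ ⟨0,0,0,0,1⟩, .ini
  ⟨0,1,0,0,0⟩ ⟨1,0,0,0,3⟩, .ini ⟨0,1,0,0,0⟩ ⟨1,0,0,1,2⟩, .ini ⟨0,0,1,0,0⟩ ⟨1,0,0,0,3⟩, .ini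
  ⟨0,0,1,0,0⟩ ⟨1,0,0,1,2⟩, .ini ⟨1,0,0,1,2⟩ ⟨0,0,0,0,1⟩, .ini ⟨0,0,0,1,0⟩ ⟨1,0,0,0,2⟩, .dl 33, .sr
  32 34, .ini ⟨1,0,0,1,2⟩ ⟨0,1,0,0,0⟩, .ini ⟨1,0,0,1,2⟩ ⟨0,0,1,0,0⟩, .dr 24, .ini ⟨1,0,0,0,2⟩
  ⟨0,1,0,0,0⟩, .ini ⟨1,0,0,0,2⟩ ⟨0,0,1,0,0⟩, .ini ⟨1,0,0,0,2⟩ ⟨0,0,0,1,0⟩, .dia ⟨1,0,0,0,2⟩ 1 1,
  .sr 41 42, .ini ⟨1,0,0,0,2⟩ ⟨0,0,0,0,1⟩, .sr 44 42, .ini ⟨0,1,0,0,0⟩ ⟨1,0,0,0,2⟩, .ini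
  ⟨0,0,1,0,0⟩ ⟨1,0,0,0,2⟩, .dl 23, .dr 48, .sr 41 49, .sr 41 50, .ini ⟨0,1,0,0,0⟩ ⟨2,0,0,2,3⟩,
  .ini ⟨0,0,1,0,0⟩ ⟨2,0,0,2,3⟩, .ini ⟨1,0,0,2,1⟩ ⟨0,0,0,0,1⟩, .ini ⟨0,0,0,1,0⟩ ⟨1,0,0,0,1⟩, .dl
  55, .sl 55 56, .sr 54 57, .dl 58, .ini ⟨2,0,0,2,3⟩ ⟨0,1,0,0,0⟩, .ini ⟨2,0,0,2,3⟩ ⟨0,0,1,0,0⟩,
  .dr 33, .ini ⟨1,0,0,0,0⟩ ⟨1,0,0,1,2⟩, .sl 63 26, .sl 62 64, .sl 62 65, .sr 15 12, .sr 41 48, .sl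
  67 68, .dr 69, .ini ⟨0,1,0,0,0⟩ ⟨1,0,0,1,1⟩, .ini ⟨0,0,1,0,0⟩ ⟨1,0,0,1,1⟩, .ini ⟨1,0,0,1,1⟩
  ⟨0,1,0,0,0⟩, .ini ⟨1,0,0,1,1⟩ ⟨0,0,1,0,0⟩, .ini ⟨1,0,0,1,1⟩ ⟨0,0,0,0,1⟩, .dia ⟨1,0,0,1,1⟩ 1 2,
  .sr 75 76, .dl 48, .ini ⟨1,0,0,0,1⟩ ⟨0,0,0,1,0⟩, .dia ⟨1,0,0,0,1⟩ 1 1, .sr 79 80, .sr 79 81, .sr
  41 68, .sl 82 83, .sr 78 84, .hr 85 2 ⟨1,0,0,1,1⟩, .sl 67 86, .sl 67 87, .ini ⟨2,0,0,0,3⟩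
  ⟨0,1,0,0,0⟩, .ini ⟨2,0,0,0,3⟩ ⟨0,0,1,0,0⟩, .ini ⟨1,0,0,0,0⟩ ⟨1,0,0,0,2⟩, .sl 91 25, .ini
  ⟨0,1,0,0,0⟩ ⟨2,0,0,0,3⟩, .ini ⟨0,0,1,0,0⟩ ⟨2,0,0,0,3⟩, .sr 56 56, .sr 75 95, .ini ⟨1,0,0,0,1⟩
  ⟨0,1,0,0,0⟩, .ini ⟨1,0,0,0,1⟩ ⟨0,0,1,0,0⟩, .ini ⟨1,0,0,0,1⟩ ⟨0,0,0,0,1⟩, .dia ⟨1,0,0,0,1⟩ 1 2,
  .sr 99 100, .ini ⟨0,1,0,0,0⟩ ⟨1,0,0,0,1⟩, .ini ⟨0,0,1,0,0⟩ ⟨1,0,0,0,1⟩, .dl 22, .dr 104, .dr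
  105, .sr 79 106, .sr 79 107, .sr 79 108, .ini ⟨0,1,0,0,0⟩ ⟨3,0,0,3,2⟩, .ini ⟨0,0,1,0,0⟩
  ⟨3,0,0,3,2⟩, .ini ⟨1,0,0,1,0⟩ ⟨0,0,0,0,1⟩, .dl 11, .sr 112 113, .sl 114 56, .sl 55 115, .dl 116,
  .ini ⟨3,0,0,3,2⟩ ⟨0,1,0,0,0⟩, .ini ⟨3,0,0,3,2⟩ ⟨0,0,1,0,0⟩, .ini ⟨1,0,0,0,0⟩ ⟨1,0,0,1,1⟩, .ini
  ⟨2,0,0,0,2⟩ ⟨0,0,0,1,0⟩, .dia ⟨1,0,0,0,1⟩ 2 1, .sr 121 122, .sl 120 123, .sl 67 124, .sl 67 125,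
  .sl 67 126, .ini ⟨0,0,0,0,1⟩ ⟨1,0,0,1,0⟩, .dl 128, .dr 129, .dr 130, .ini ⟨0,1,0,0,0⟩
  ⟨2,0,0,2,1⟩, .ini ⟨0,0,1,0,0⟩ ⟨2,0,0,2,1⟩, .ini ⟨2,0,0,2,1⟩ ⟨0,1,0,0,0⟩, .ini ⟨2,0,0,2,1⟩
  ⟨0,0,1,0,0⟩, .ini ⟨2,0,0,2,1⟩ ⟨0,0,0,0,1⟩, .sr 79 104, .dl 137, .sl 12 138, .dr 139, .sr 136
  140, .sr 12 12, .sr 15 142, .ini ⟨3,0,0,1,2⟩ ⟨0,0,0,1,0⟩, .sr 79 105, .dl 145, .sr 144 146, .sl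
  143 147, .sl 143 148, .ini ⟨2,0,0,1,1⟩ ⟨0,1,0,0,0⟩, .ini ⟨2,0,0,1,1⟩ ⟨0,0,1,0,0⟩, .ini
  ⟨2,0,0,1,1⟩ ⟨0,0,0,1,0⟩, .dr 138, .sr 152 153, .dia ⟨2,0,0,1,1⟩ 1 1, .sr 152 155, .ini
  ⟨0,1,0,0,0⟩ ⟨2,0,0,1,1⟩, .ini ⟨0,1,0,0,0⟩ ⟨3,0,0,3,1⟩, .ini ⟨0,0,1,0,0⟩ ⟨2,0,0,1,1⟩, .ini
  ⟨0,0,1,0,0⟩ ⟨3,0,0,3,1⟩, .sr 113 113, .sr 112 161, .sr 2 162, .ini ⟨0,0,0,1,0⟩ ⟨2,0,0,0,1⟩, .dr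
  164, .dl 165, .sl 163 166, .ini ⟨3,0,0,3,1⟩ ⟨0,1,0,0,0⟩, .ini ⟨3,0,0,3,1⟩ ⟨0,0,1,0,0⟩, .ini
  ⟨3,0,0,0,1⟩ ⟨0,0,0,0,1⟩, .ini ⟨3,0,0,0,1⟩ ⟨0,0,0,2,0⟩, .dl 104, .dl 172, .sr 173 173, .sr 171
  174, .sr 170 175, .sl 143 176, .sl 143 177, .sl 143 178, .dia ⟨1,0,0,1,0⟩ 1 3, .sr 112 180, .ini
  ⟨3,0,0,0,1⟩ ⟨0,0,0,1,0⟩, .sr 182 173, .sl 12 183, .sl 12 184, .sl 12 185, .ini ⟨3,0,0,1,2⟩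
  ⟨0,1,0,0,0⟩, .ini ⟨3,0,0,1,2⟩ ⟨0,0,1,0,0⟩, .ini ⟨0,1,0,0,0⟩ ⟨3,0,0,1,2⟩, .ini ⟨0,0,1,0,0⟩
  ⟨3,0,0,1,2⟩, .sl 80 114, .sr 191 155, .sr 115 166, .sl 80 191, .ini ⟨3,0,0,0,2⟩ ⟨0,1,0,0,0⟩,
  .ini ⟨3,0,0,0,2⟩ ⟨0,0,1,0,0⟩, .ini ⟨3,0,0,0,2⟩ ⟨0,0,0,1,0⟩, .dl 105, .sr 197 198, .ini
  ⟨1,0,0,0,0⟩ ⟨1,0,0,0,1⟩, .sl 200 122, .ini ⟨0,1,0,0,0⟩ ⟨3,0,0,0,2⟩, .ini ⟨0,0,1,0,0⟩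
  ⟨3,0,0,0,2⟩, .sr 113 162, .sr 112 204, .sl 106 205, .ini ⟨2,0,0,0,1⟩ ⟨0,1,0,0,0⟩, .ini
  ⟨2,0,0,0,1⟩ ⟨0,0,1,0,0⟩, .ini ⟨2,0,0,0,1⟩ ⟨0,0,0,0,1⟩, .dr 172, .sr 209 210, .ini ⟨0,1,0,0,0⟩
  ⟨2,0,0,0,1⟩, .ini ⟨0,0,1,0,0⟩ ⟨2,0,0,0,1⟩, .ini ⟨5,0,0,2,2⟩ ⟨0,1,0,0,0⟩, .ini ⟨5,0,0,2,2⟩
  ⟨0,0,1,0,0⟩, .ini ⟨1,0,0,0,0⟩ ⟨3,0,0,2,1⟩, .sl 153 153, .sl 216 217, .ini ⟨1,0,0,0,0⟩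
  ⟨2,0,0,1,1⟩, .dia ⟨2,0,0,1,1⟩ 2 1, .sl 219 220, .ini ⟨0,1,0,0,0⟩ ⟨5,0,0,2,2⟩, .ini ⟨0,1,0,0,0⟩
  ⟨3,0,0,2,1⟩, .ini ⟨0,0,1,0,0⟩ ⟨5,0,0,2,2⟩, .ini ⟨0,0,1,0,0⟩ ⟨3,0,0,2,1⟩, .ini ⟨2,0,0,2,0⟩
  ⟨0,0,0,0,1⟩, .sl 204 204, .sr 226 227, .sl 106 228, .sr 185 229, .sr 185 230, .ini ⟨3,0,0,2,1⟩
  ⟨0,1,0,0,0⟩, .ini ⟨3,0,0,2,1⟩ ⟨0,0,1,0,0⟩, .sl 219 166, .sl 11 172, .dr 235, .dr 236, .dia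
  ⟨1,0,0,1,0⟩ 1 1, .sr 238 161, .sr 112 239, .sr 2 240, .ini ⟨3,0,0,1,1⟩ ⟨0,1,0,0,0⟩, .ini
  ⟨3,0,0,1,1⟩ ⟨0,0,1,0,0⟩, .ini ⟨3,0,0,1,1⟩ ⟨0,0,0,0,1⟩, .sl 11 173, .dr 245, .sr 184 246, .sr 244
  247, .ini ⟨0,1,0,0,0⟩ ⟨3,0,0,1,1⟩, .ini ⟨0,0,1,0,0⟩ ⟨3,0,0,1,1⟩, .dl 236, .ini ⟨2,0,0,0,1⟩
  ⟨0,0,0,1,0⟩, .dia ⟨2,0,0,0,1⟩ 1 1, .sr 252 210, .sr 253 254, .sr 252 255, .sl 162 198, .sl 162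
  257, .sl 162 253, .ini ⟨3,0,0,0,1⟩ ⟨0,1,0,0,0⟩, .ini ⟨3,0,0,0,1⟩ ⟨0,0,1,0,0⟩, .ini ⟨1,0,0,0,0⟩
  ⟨2,0,0,0,1⟩, .sl 262 253, .ini ⟨0,1,0,0,0⟩ ⟨3,0,0,0,1⟩, .ini ⟨0,0,1,0,0⟩ ⟨3,0,0,0,1⟩, .ini
  ⟨1,0,0,0,0⟩ ⟨0,1,0,0,0⟩, .ini ⟨1,0,0,0,0⟩ ⟨0,0,1,0,0⟩, .ini ⟨1,0,0,0,0⟩ ⟨1,0,0,1,0⟩, .ini
  ⟨1,0,0,0,0⟩ ⟨3,0,0,0,1⟩, .ini ⟨0,1,0,0,0⟩ ⟨1,0,0,0,0⟩, .ini ⟨0,0,1,0,0⟩ ⟨1,0,0,0,0⟩]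

def t14_0_0_1_3 : Tree :=
(.split 0 3 (.leaf [4,1,2,3,0] [0,1,2,3,4,5,6,7,8,9,10,12,13,14,15,16,17,18]) (.split 0 4 (.split
  3 4 (.split 0 4 (.split 3 4 (.split 0 4 (.leaf [0,1,2,4,3]
  [19,20,26,27,28,4,29,6,30,8,31,10,35,36,37,38,16,17]) (.leaf [0,1,2,3,4]
  [39,40,43,45,46,4,29,28,47,8,31,30,34,36,37,35,25,19,20,26])) (.split 3 4 (.leaf [0,1,2,3,4]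
  [39,40,51,43,46,4,52,29,47,8,53,31,59,60,61,66,34,36,37,70]) (.leaf [3,1,2,0,4]
  [39,40,51,46,4,71,52,47,8,72,53,73,74,77,59,60,61,88]))) (.split 0 4 (.leaf [0,1,2,4,3]
  [89,90,86,92,93,4,71,46,94,8,72,47,96,73,74,49,39,40]) (.leaf [0,1,2,3,4]
  [97,98,81,101,102,4,71,93,103,8,72,94,56,73,74,96,78,89,90,86]))) (.split 3 4 (.split 3 4 (.leaf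
  [0,1,2,3,4] [97,98,109,81,102,4,110,71,103,8,111,72,117,118,119,127,56,73,74,131]) (.leaf
  [3,1,2,0,4] [97,98,109,102,4,132,110,103,8,133,111,134,135,141,117,118,119,149])) (.split 0 3
  (.split 3 4 (.leaf [0,1,2,3,4]
  [150,151,154,156,157,4,158,132,159,8,160,133,167,168,169,179,166,134,135,140]) (.leaf
  [3,1,2,0,4] [150,151,154,157,4,3,158,159,8,7,160,0,1,181,167,168,169,186])) (.split 0 3 (.leaf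
  [0,1,2,3,4] [187,188,146,147,189,4,157,132,190,8,159,133,192,150,151,156,193,134,135,166])
  (.leaf [4,1,2,3,0] [97,98,107,102,4,189,132,103,8,190,133,194,187,188,147,134,135,193])))))
  (.split 0 4 (.split 3 4 (.split 0 4 (.leaf [0,1,2,4,3]
  [195,196,199,201,202,4,157,102,203,8,159,103,206,150,151,106,97,98]) (.leaf [3,1,2,0,4]
  [207,208,211,212,4,157,202,213,8,159,203,150,151,206,198,195,196,199])) (.split 0 3 (.split 0 4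
  (.split 3 4 (.leaf [0,1,2,3,4]
  [214,215,218,221,222,4,223,157,224,8,225,159,231,232,233,234,237,150,151,153]) (.leaf
  [3,1,2,0,4] [214,215,218,222,4,3,223,224,8,7,225,0,1,241,231,232,233,185])) (.leaf [0,1,2,4,3]
  [242,243,184,248,249,4,3,222,250,8,7,224,240,0,1,251,214,215])) (.split 3 4 (.leaf [4,1,2,3,0]
  [207,208,256,212,4,222,157,213,8,224,159,258,214,215,221,150,151,237]) (.leaf [0,1,2,3,4]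
  [207,208,254,256,212,4,249,222,213,8,250,224,259,242,243,248,258,214,215,251])))) (.split 0 4
  (.leaf [0,1,2,4,3] [260,261,183,263,264,4,3,212,265,8,7,213,204,0,1,210,207,208]) (.leaf
  [0,1,2,3,4] [266,267,268,269,270,4,3,264,271,8,7,265,113,0,1,204,173,260,261,183])))))

def c14_0_0_1_3 : Cert 1 4 where
  T := [[0], [0], [1], [3]]
  W := ⟨0, 0, 1, 3, 0, 0, 0⟩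
  hW := rfl
  steps := s14_0_0_1_3_0
  tree := t14_0_0_1_3
  ok := by decide +kernel

def s14_0_0_2_2_0 : List Step := [
.ini ⟨1,0,0,2,0⟩ ⟨0,1,0,0,0⟩, .ini ⟨1,0,0,2,0⟩ ⟨0,0,1,0,0⟩, .ini ⟨1,0,0,2,0⟩ ⟨0,0,0,1,0⟩, .ini
  ⟨0,1,0,0,0⟩ ⟨1,0,0,2,0⟩, .ini ⟨0,1,0,0,0⟩ ⟨0,0,1,0,0⟩, .ini ⟨0,1,0,0,0⟩ ⟨0,0,0,1,0⟩, .ini
  ⟨0,1,0,0,0⟩ ⟨0,0,0,0,1⟩, .ini ⟨0,0,1,0,0⟩ ⟨1,0,0,2,0⟩, .ini ⟨0,0,1,0,0⟩ ⟨0,1,0,0,0⟩, .ini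
  ⟨0,0,1,0,0⟩ ⟨0,0,0,1,0⟩, .ini ⟨0,0,1,0,0⟩ ⟨0,0,0,0,1⟩, .ini ⟨0,0,0,1,0⟩ ⟨1,0,0,0,0⟩, .dr 11, .dr
  12, .ini ⟨0,0,0,1,0⟩ ⟨0,1,0,0,0⟩, .ini ⟨0,0,0,1,0⟩ ⟨0,0,1,0,0⟩, .ini ⟨0,0,0,1,0⟩ ⟨0,0,0,0,1⟩,
  .ini ⟨0,0,0,0,1⟩ ⟨0,1,0,0,0⟩, .ini ⟨0,0,0,0,1⟩ ⟨0,0,1,0,0⟩, .ini ⟨0,0,0,0,1⟩ ⟨0,0,0,1,0⟩, .ini
  ⟨1,0,0,1,2⟩ ⟨0,1,0,0,0⟩, .ini ⟨1,0,0,1,2⟩ ⟨0,0,1,0,0⟩, .ini ⟨1,0,0,1,2⟩ ⟨0,0,0,1,0⟩, .ini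
  ⟨0,0,0,0,1⟩ ⟨1,0,0,1,0⟩, .dr 23, .dl 24, .sr 22 25, .ini ⟨1,0,0,1,2⟩ ⟨0,0,0,0,1⟩, .ini
  ⟨0,1,0,0,0⟩ ⟨1,0,0,1,2⟩, .ini ⟨0,1,0,0,0⟩ ⟨1,0,0,2,1⟩, .ini ⟨0,0,1,0,0⟩ ⟨1,0,0,1,2⟩, .ini
  ⟨0,0,1,0,0⟩ ⟨1,0,0,2,1⟩, .ini ⟨1,0,0,2,1⟩ ⟨0,0,0,0,1⟩, .sr 16 12, .dl 33, .sr 32 34, .ini
  ⟨1,0,0,2,1⟩ ⟨0,1,0,0,0⟩, .ini ⟨1,0,0,2,1⟩ ⟨0,0,1,0,0⟩, .dr 24, .ini ⟨1,0,0,1,1⟩ ⟨0,1,0,0,0⟩,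
  .ini ⟨1,0,0,1,1⟩ ⟨0,0,1,0,0⟩, .ini ⟨1,0,0,1,1⟩ ⟨0,0,0,1,0⟩, .dia ⟨1,0,0,1,1⟩ 1 1, .sr 41 42,
  .ini ⟨1,0,0,1,1⟩ ⟨0,0,0,0,1⟩, .sr 44 42, .ini ⟨0,1,0,0,0⟩ ⟨1,0,0,1,1⟩, .ini ⟨0,0,1,0,0⟩
  ⟨1,0,0,1,1⟩, .dl 23, .dr 48, .sr 41 49, .sr 41 50, .ini ⟨0,1,0,0,0⟩ ⟨2,0,0,4,1⟩, .ini
  ⟨0,0,1,0,0⟩ ⟨2,0,0,4,1⟩, .ini ⟨1,0,0,3,0⟩ ⟨0,0,0,0,1⟩, .ini ⟨0,0,0,1,0⟩ ⟨2,0,0,0,0⟩, .dr 55, .dr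
  56, .dl 12, .sr 58 58, .sl 57 59, .sr 54 60, .sr 54 61, .hr 62 2 ⟨1,0,0,1,1⟩, .dl 63, .ini
  ⟨2,0,0,4,1⟩ ⟨0,1,0,0,0⟩, .ini ⟨2,0,0,4,1⟩ ⟨0,0,1,0,0⟩, .dr 33, .ini ⟨2,0,0,1,1⟩ ⟨0,0,0,1,0⟩,
  .ini ⟨1,0,0,0,0⟩ ⟨1,0,0,1,1⟩, .sl 69 42, .sr 68 70, .sl 67 71, .sl 67 72, .sl 67 73, .sr 41 48,
  .sl 13 75, .dr 76, .ini ⟨1,0,0,2,0⟩ ⟨0,0,0,0,1⟩, .sr 2 59, .sr 78 79, .sr 2 80, .ini ⟨2,0,0,2,1⟩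
  ⟨0,0,0,1,0⟩, .dl 48, .sr 82 83, .sl 13 84, .sl 13 85, .ini ⟨2,0,0,2,1⟩ ⟨0,1,0,0,0⟩, .ini
  ⟨2,0,0,2,1⟩ ⟨0,0,1,0,0⟩, .sl 69 34, .ini ⟨0,1,0,0,0⟩ ⟨2,0,0,2,1⟩, .ini ⟨0,0,1,0,0⟩ ⟨2,0,0,2,1⟩,
  .sr 78 59, .ini ⟨1,0,0,1,0⟩ ⟨0,1,0,0,0⟩, .ini ⟨1,0,0,1,0⟩ ⟨0,0,1,0,0⟩, .ini ⟨1,0,0,1,0⟩
  ⟨0,0,0,1,0⟩, .dia ⟨1,0,0,1,0⟩ 1 1, .sr 95 96, .ini ⟨1,0,0,1,0⟩ ⟨0,0,0,0,1⟩, .dl 11, .dr 99, .sr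
  98 100, .sr 95 101, .ini ⟨0,1,0,0,0⟩ ⟨1,0,0,1,0⟩, .ini ⟨0,0,1,0,0⟩ ⟨1,0,0,1,0⟩, .ini ⟨2,0,0,1,4⟩
  ⟨0,1,0,0,0⟩, .ini ⟨2,0,0,1,4⟩ ⟨0,0,1,0,0⟩, .ini ⟨1,0,0,0,3⟩ ⟨0,0,0,1,0⟩, .ini ⟨0,0,0,0,1⟩
  ⟨2,0,0,0,0⟩, .dr 108, .dr 109, .ini ⟨0,0,0,0,1⟩ ⟨1,0,0,0,0⟩, .dr 111, .dl 112, .sr 113 113, .sl
  110 114, .sr 107 115, .sr 107 116, .hr 117 2 ⟨1,0,0,1,1⟩, .dl 118, .ini ⟨2,0,0,1,4⟩ ⟨0,0,0,0,1⟩,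
  .ini ⟨0,1,0,0,0⟩ ⟨2,0,0,1,4⟩, .ini ⟨0,0,1,0,0⟩ ⟨2,0,0,1,4⟩, .ini ⟨0,0,0,1,0⟩ ⟨1,0,0,0,1⟩, .dl
  123, .dr 124, .sr 44 125, .sr 44 126, .ini ⟨0,0,0,0,1⟩ ⟨2,0,0,1,0⟩, .dr 128, .dr 129, .dr 130,
  .dr 131, .ini ⟨2,0,0,1,3⟩ ⟨0,1,0,0,0⟩, .ini ⟨2,0,0,1,3⟩ ⟨0,0,1,0,0⟩, .ini ⟨1,0,0,0,1⟩
  ⟨0,0,0,1,0⟩, .dia ⟨1,0,0,0,1⟩ 1 1, .sr 135 136, .sl 137 25, .ini ⟨2,0,0,1,3⟩ ⟨0,0,0,0,1⟩, .dia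
  ⟨2,0,0,1,3⟩ 1 1, .sr 139 140, .ini ⟨0,1,0,0,0⟩ ⟨2,0,0,1,3⟩, .ini ⟨0,0,1,0,0⟩ ⟨2,0,0,1,3⟩, .dl
  131, .ini ⟨2,0,0,1,2⟩ ⟨0,1,0,0,0⟩, .ini ⟨2,0,0,1,2⟩ ⟨0,0,1,0,0⟩, .sl 69 25, .ini ⟨2,0,0,1,2⟩
  ⟨0,0,0,0,1⟩, .dia ⟨2,0,0,1,2⟩ 1 1, .sr 148 149, .ini ⟨0,1,0,0,0⟩ ⟨2,0,0,1,2⟩, .ini ⟨0,0,1,0,0⟩
  ⟨2,0,0,1,2⟩, .ini ⟨1,0,0,0,2⟩ ⟨0,0,0,1,0⟩, .sr 153 114, .sl 125 154, .dl 111, .dr 156, .sr 135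
  157, .sr 135 158, .sl 159 49, .sr 98 101, .sl 161 125, .ini ⟨4,0,0,2,3⟩ ⟨0,1,0,0,0⟩, .ini
  ⟨4,0,0,2,3⟩ ⟨0,0,1,0,0⟩, .sr 136 158, .sr 135 165, .dia ⟨3,0,0,2,2⟩ 1 1, .sl 166 167, .ini
  ⟨1,0,0,0,0⟩ ⟨2,0,0,1,2⟩, .ini ⟨1,0,0,0,1⟩ ⟨0,0,0,0,1⟩, .sr 170 158, .sl 125 125, .sl 171 172,
  .sl 169 173, .ini ⟨0,1,0,0,0⟩ ⟨4,0,0,2,3⟩, .ini ⟨0,1,0,0,0⟩ ⟨3,0,0,2,2⟩, .ini ⟨0,0,1,0,0⟩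
  ⟨4,0,0,2,3⟩, .ini ⟨0,0,1,0,0⟩ ⟨3,0,0,2,2⟩, .sr 98 99, .dl 179, .sl 123 180, .dl 181, .dr 182,
  .ini ⟨3,0,0,2,2⟩ ⟨0,1,0,0,0⟩, .ini ⟨3,0,0,2,2⟩ ⟨0,0,1,0,0⟩, .sl 169 172, .dl 124, .sr 187 160,
  .sr 187 188, .sr 157 157, .sr 135 190, .sr 135 191, .sr 135 192, .sr 135 156, .sl 194 83, .dr
  195, .sl 193 196, .ini ⟨0,1,0,0,0⟩ ⟨4,0,0,3,2⟩, .ini ⟨0,0,1,0,0⟩ ⟨4,0,0,3,2⟩, .sr 100 100, .sr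
  98 200, .sr 98 201, .sr 98 202, .sl 203 183, .ini ⟨4,0,0,3,2⟩ ⟨0,1,0,0,0⟩, .ini ⟨4,0,0,3,2⟩
  ⟨0,0,1,0,0⟩, .sr 96 101, .sr 98 207, .sr 83 162, .sl 208 209, .sl 166 210, .sr 95 201, .sr 98
  212, .dl 195, .ini ⟨2,0,0,1,1⟩ ⟨0,1,0,0,0⟩, .ini ⟨2,0,0,1,1⟩ ⟨0,0,1,0,0⟩, .ini ⟨2,0,0,1,1⟩
  ⟨0,0,0,0,1⟩, .dl 99, .sl 111 218, .dr 219, .dr 220, .sr 68 221, .sr 217 222, .ini ⟨0,1,0,0,0⟩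
  ⟨2,0,0,1,1⟩, .ini ⟨0,1,0,0,0⟩ ⟨5,0,0,3,3⟩, .ini ⟨0,0,1,0,0⟩ ⟨2,0,0,1,1⟩, .ini ⟨0,0,1,0,0⟩
  ⟨5,0,0,3,3⟩, .sl 111 99, .dr 228, .dl 229, .dl 230, .ini ⟨5,0,0,3,3⟩ ⟨0,1,0,0,0⟩, .ini
  ⟨5,0,0,3,3⟩ ⟨0,0,1,0,0⟩, .sr 170 192, .sl 234 204, .dl 182, .sr 236 197, .dl 194, .ini
  ⟨2,0,0,1,0⟩ ⟨0,1,0,0,0⟩, .ini ⟨2,0,0,1,0⟩ ⟨0,0,1,0,0⟩, .ini ⟨1,0,0,0,0⟩ ⟨1,0,0,1,0⟩, .sl 241 96,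
  .ini ⟨0,1,0,0,0⟩ ⟨2,0,0,1,0⟩, .ini ⟨0,0,1,0,0⟩ ⟨2,0,0,1,0⟩, .ini ⟨1,0,0,0,2⟩ ⟨0,1,0,0,0⟩, .ini
  ⟨1,0,0,0,2⟩ ⟨0,0,1,0,0⟩, .ini ⟨1,0,0,0,2⟩ ⟨0,0,0,0,1⟩, .ini ⟨0,1,0,0,0⟩ ⟨1,0,0,0,2⟩, .ini
  ⟨0,0,1,0,0⟩ ⟨1,0,0,0,2⟩, .sr 148 187, .dr 112, .ini ⟨1,0,0,0,1⟩ ⟨0,1,0,0,0⟩, .ini ⟨1,0,0,0,1⟩
  ⟨0,0,1,0,0⟩, .sr 170 136, .ini ⟨0,1,0,0,0⟩ ⟨1,0,0,0,1⟩, .ini ⟨0,0,1,0,0⟩ ⟨1,0,0,0,1⟩, .ini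
  ⟨5,0,0,2,2⟩ ⟨0,1,0,0,0⟩, .ini ⟨5,0,0,2,2⟩ ⟨0,0,1,0,0⟩, .ini ⟨2,0,0,0,1⟩ ⟨0,0,0,1,0⟩, .dl 156,
  .sr 259 260, .sl 238 261, .sr 156 158, .dl 263, .sr 262 264, .sl 201 265, .ini ⟨1,0,0,0,0⟩
  ⟨2,0,0,1,1⟩, .dia ⟨2,0,0,1,1⟩ 2 1, .sl 267 268, .ini ⟨0,1,0,0,0⟩ ⟨5,0,0,2,2⟩, .ini ⟨0,1,0,0,0⟩
  ⟨4,0,0,2,1⟩, .ini ⟨0,0,1,0,0⟩ ⟨5,0,0,2,2⟩, .ini ⟨0,0,1,0,0⟩ ⟨4,0,0,2,1⟩, .ini ⟨4,0,0,2,1⟩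
  ⟨0,0,0,0,1⟩, .ini ⟨2,0,0,1,0⟩ ⟨0,0,0,0,1⟩, .sr 275 218, .sl 180 276, .sr 260 260, .sr 259 278,
  .sl 100 279, .sr 280 280, .sl 200 281, .sr 277 282, .sr 274 283, .ini ⟨4,0,0,2,1⟩ ⟨0,1,0,0,0⟩,
  .ini ⟨4,0,0,2,1⟩ ⟨0,0,1,0,0⟩, .ini ⟨3,0,0,1,1⟩ ⟨0,1,0,0,0⟩, .ini ⟨3,0,0,1,1⟩ ⟨0,0,1,0,0⟩, .ini
  ⟨3,0,0,1,1⟩ ⟨0,0,0,0,1⟩, .sr 289 281, .ini ⟨0,1,0,0,0⟩ ⟨3,0,0,1,1⟩, .ini ⟨0,0,1,0,0⟩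
  ⟨3,0,0,1,1⟩, .dia ⟨2,0,0,1,0⟩ 1 1, .sr 275 293, .sr 218 294, .dia ⟨2,0,0,1,0⟩ 1 2, .sr 275 296,
  .sr 99 101, .dl 298]

def s14_0_0_2_2_1 : List Step := [
.sl 100 280, .ini ⟨4,0,0,1,2⟩ ⟨0,1,0,0,0⟩, .ini ⟨4,0,0,1,2⟩ ⟨0,0,1,0,0⟩, .ini ⟨0,1,0,0,0⟩
  ⟨4,0,0,1,2⟩, .ini ⟨0,0,1,0,0⟩ ⟨4,0,0,1,2⟩, .dl 219, .dr 305, .sr 289 306, .sr 277 299, .ini
  ⟨1,0,0,0,0⟩ ⟨1,0,0,0,1⟩, .sl 309 187, .sl 309 310, .ini ⟨2,0,0,0,1⟩ ⟨0,1,0,0,0⟩, .ini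
  ⟨2,0,0,0,1⟩ ⟨0,0,1,0,0⟩, .sl 309 136, .ini ⟨0,1,0,0,0⟩ ⟨2,0,0,0,1⟩, .ini ⟨0,0,1,0,0⟩
  ⟨2,0,0,0,1⟩, .sr 218 218, .sr 275 317, .ini ⟨1,0,0,0,0⟩ ⟨0,1,0,0,0⟩, .ini ⟨1,0,0,0,0⟩
  ⟨0,0,1,0,0⟩, .ini ⟨1,0,0,0,0⟩ ⟨2,0,0,1,0⟩, .ini ⟨1,0,0,0,0⟩ ⟨2,0,0,0,1⟩, .ini ⟨0,1,0,0,0⟩
  ⟨1,0,0,0,0⟩, .ini ⟨0,0,1,0,0⟩ ⟨1,0,0,0,0⟩]

def t14_0_0_2_2 : Tree :=
(.split 0 3 (.split 0 3 (.leaf [4,1,2,3,0] [0,1,2,3,4,5,6,7,8,9,10,13,14,15,16,17,18,19]) (.split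
  0 4 (.split 3 4 (.split 0 4 (.leaf [0,1,2,4,3]
  [20,21,26,27,28,4,29,6,30,8,31,10,35,36,37,38,17,18]) (.leaf [0,1,2,3,4]
  [39,40,43,45,46,4,29,28,47,8,31,30,34,36,37,35,25,20,21,26])) (.split 3 4 (.leaf [0,1,2,3,4]
  [39,40,51,43,46,4,52,29,47,8,53,31,64,65,66,74,34,36,37,77]) (.leaf [3,1,2,0,4]
  [39,40,51,46,4,3,52,47,8,7,53,0,1,81,64,65,66,86]))) (.split 0 4 (.leaf [0,1,2,4,3]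
  [87,88,84,89,90,4,3,46,91,8,7,47,92,0,1,49,39,40]) (.leaf [0,1,2,3,4]
  [93,94,97,102,103,4,3,90,104,8,7,91,58,0,1,92,83,87,88,84])))) (.split 0 3 (.split 0 4 (.split 0
  4 (.split 3 4 (.split 0 4 (.split 0 4 (.leaf [0,1,2,4,3]
  [105,106,119,120,121,4,46,6,122,8,47,10,127,39,40,132,17,18]) (.leaf [0,1,2,3,4]
  [133,134,138,141,142,4,46,121,143,8,47,122,126,39,40,127,144,105,106,119])) (.leaf [0,1,2,3,4]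
  [145,146,147,150,151,4,46,142,152,8,47,143,125,39,40,126,155,133,134,138])) (.split 3 4 (.leaf
  [0,1,2,3,4] [145,146,160,147,151,4,90,46,152,8,91,47,162,87,88,89,125,39,40,49]) (.leaf
  [3,1,2,0,4] [145,146,160,151,4,103,90,152,8,104,91,93,94,102,162,87,88,83]))) (.split 0 4
  (.split 3 4 (.leaf [0,1,2,3,4]
  [163,164,168,174,175,4,176,151,177,8,178,152,183,184,185,186,189,145,146,188]) (.split 3 4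
  (.leaf [0,1,2,3,4]
  [163,164,197,168,175,4,198,176,177,8,199,178,204,205,206,211,183,184,185,196]) (.leaf
  [3,1,2,0,4] [163,164,197,175,4,103,198,177,8,104,199,93,94,213,204,205,206,214]))) (.split 3 4
  (.leaf [4,1,2,3,0] [215,216,223,224,4,225,175,226,8,227,177,231,232,233,235,163,164,237]) (.leaf
  [0,1,2,4,3] [215,216,238,223,224,4,103,225,226,8,104,227,101,93,94,231,232,233])))) (.leaf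
  [4,1,2,3,0] [239,240,242,243,4,103,224,244,8,104,226,100,93,94,101,215,216,238])) (.split 0 4
  (.split 3 4 (.split 3 4 (.split 0 4 (.leaf [0,1,2,4,3]
  [245,246,154,247,248,4,151,6,249,8,152,10,250,145,146,251,17,18]) (.leaf [0,1,2,3,4]
  [252,253,171,254,255,4,151,248,256,8,152,249,187,145,146,250,113,245,246,154])) (.leaf
  [0,1,2,4,3] [252,253,158,171,255,4,224,151,256,8,226,152,180,215,216,187,145,146])) (.split 3 4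
  (.split 0 3 (.leaf [0,1,2,4,3]
  [257,258,266,269,270,4,271,224,272,8,273,226,284,285,286,221,215,216]) (.leaf [3,1,2,0,4]
  [252,253,158,255,4,270,224,256,8,272,226,257,258,269,180,215,216,221])) (.split 0 3 (.leaf
  [0,1,2,3,4] [287,288,280,290,291,4,243,271,292,8,244,273,295,239,240,297,299,285,286,300])
  (.split 0 3 (.leaf [0,1,2,3,4]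
  [301,302,264,265,303,4,291,271,304,8,292,273,307,287,288,290,308,285,286,299]) (.leaf
  [4,1,2,3,0] [252,253,191,255,4,303,271,256,8,304,273,311,301,302,265,285,286,308]))))) (.split 0
  4 (.leaf [0,1,2,4,3] [312,313,279,314,315,4,243,255,316,8,244,256,318,239,240,157,252,253])
  (.leaf [0,1,2,3,4]
  [319,320,321,322,323,4,243,315,324,8,244,316,218,239,240,318,260,312,313,279])))))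

def c14_0_0_2_2 : Cert 1 4 where
  T := [[0], [0], [2], [2]]
  W := ⟨0, 0, 2, 2, 0, 0, 0⟩
  hW := rfl
  steps := s14_0_0_2_2_0 ++ s14_0_0_2_2_1
  tree := t14_0_0_2_2
  ok := by decide +kernel

def s14_0_1_1_2_0 : List Step := [
.ini ⟨1,0,1,1,0⟩ ⟨0,1,0,0,0⟩, .ini ⟨1,0,1,1,0⟩ ⟨0,0,1,0,0⟩, .ini ⟨1,0,1,1,0⟩ ⟨0,0,0,1,0⟩, .ini
  ⟨0,1,0,0,0⟩ ⟨1,0,1,1,0⟩, .ini ⟨0,1,0,0,0⟩ ⟨0,0,1,0,0⟩, .ini ⟨0,1,0,0,0⟩ ⟨0,0,0,1,0⟩, .ini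
  ⟨0,1,0,0,0⟩ ⟨0,0,0,0,1⟩, .ini ⟨0,0,1,0,0⟩ ⟨0,0,0,1,0⟩, .ini ⟨0,0,1,0,0⟩ ⟨1,0,0,0,0⟩, .dr 8, .sr
  7 9, .ini ⟨0,0,1,0,0⟩ ⟨0,1,0,0,0⟩, .ini ⟨0,0,1,0,0⟩ ⟨0,0,0,0,1⟩, .ini ⟨0,0,0,1,0⟩ ⟨1,0,1,0,0⟩,
  .dr 13, .ini ⟨0,0,0,1,0⟩ ⟨0,1,0,0,0⟩, .ini ⟨0,0,0,1,0⟩ ⟨0,0,1,0,0⟩, .ini ⟨0,0,0,1,0⟩
  ⟨0,0,0,0,1⟩, .ini ⟨0,0,0,0,1⟩ ⟨0,1,0,0,0⟩, .ini ⟨0,0,0,0,1⟩ ⟨0,0,1,0,0⟩, .ini ⟨0,0,0,0,1⟩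
  ⟨0,0,0,1,0⟩, .ini ⟨1,0,1,0,2⟩ ⟨0,1,0,0,0⟩, .ini ⟨1,0,1,0,2⟩ ⟨0,0,1,0,0⟩, .ini ⟨1,0,1,0,2⟩
  ⟨0,0,0,1,0⟩, .ini ⟨0,0,0,0,1⟩ ⟨1,0,1,0,0⟩, .dr 24, .dl 25, .sr 23 26, .ini ⟨1,0,1,0,2⟩
  ⟨0,0,0,0,1⟩, .ini ⟨0,1,0,0,0⟩ ⟨1,0,1,0,2⟩, .ini ⟨0,1,0,0,0⟩ ⟨1,0,1,1,1⟩, .sr 12 9, .sr 12 31,
  .sr 7 31, .ini ⟨1,0,0,1,1⟩ ⟨0,0,0,0,1⟩, .ini ⟨1,0,0,1,1⟩ ⟨0,0,1,0,0⟩, .ini ⟨0,0,0,1,0⟩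
  ⟨1,0,0,0,1⟩, .dl 36, .sr 35 37, .sr 34 38, .sl 32 39, .ini ⟨1,0,1,1,1⟩ ⟨0,1,0,0,0⟩, .ini
  ⟨1,0,1,1,1⟩ ⟨0,0,1,0,0⟩, .dr 25, .ini ⟨1,0,1,0,1⟩ ⟨0,1,0,0,0⟩, .ini ⟨1,0,1,0,1⟩ ⟨0,0,1,0,0⟩,
  .ini ⟨1,0,1,0,1⟩ ⟨0,0,0,1,0⟩, .dia ⟨1,0,1,0,1⟩ 1 1, .sr 46 47, .ini ⟨1,0,1,0,1⟩ ⟨0,0,0,0,1⟩, .sr
  49 47, .ini ⟨0,1,0,0,0⟩ ⟨1,0,1,0,1⟩, .ini ⟨0,0,0,1,0⟩ ⟨1,0,1,0,1⟩, .dl 52, .dl 24, .sr 46 54,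
  .dr 55, .sr 46 56, .ini ⟨0,1,0,0,0⟩ ⟨2,0,2,2,1⟩, .ini ⟨0,0,1,0,0⟩ ⟨0,0,0,2,0⟩, .sr 9 9, .sr 59
  60, .sr 12 61, .ini ⟨1,0,0,1,0⟩ ⟨0,0,0,0,1⟩, .ini ⟨1,0,0,1,0⟩ ⟨0,0,1,0,0⟩, .ini ⟨0,0,0,1,0⟩
  ⟨1,0,0,0,0⟩, .dl 65, .sr 64 66, .sr 63 67, .sl 68 53, .sl 31 69, .ini ⟨2,0,2,2,1⟩ ⟨0,1,0,0,0⟩,
  .ini ⟨2,0,2,2,1⟩ ⟨0,0,1,0,0⟩, .dr 52, .ini ⟨2,0,0,0,1⟩ ⟨0,0,0,1,0⟩, .ini ⟨1,0,0,0,0⟩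
  ⟨1,0,1,0,1⟩, .ini ⟨1,0,0,0,1⟩ ⟨0,0,1,0,0⟩, .dia ⟨1,0,0,0,1⟩ 1 1, .sr 76 77, .sl 75 78, .sr 74
  79, .sl 33 80, .sl 73 81, .sl 33 82, .sl 73 83, .sl 14 55, .dr 85, .ini ⟨1,0,1,1,0⟩ ⟨0,0,0,0,1⟩,
  .dia ⟨1,0,1,1,0⟩ 1 2, .sr 87 88, .ini ⟨2,0,1,0,1⟩ ⟨0,0,0,1,0⟩, .ini ⟨0,0,0,0,1⟩ ⟨1,0,0,0,0⟩, .dl
  91, .sr 76 92, .dl 93, .sr 90 94, .sl 14 95, .sl 10 96, .sl 14 97, .ini ⟨2,0,2,0,1⟩ ⟨0,1,0,0,0⟩,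
  .ini ⟨2,0,2,0,1⟩ ⟨0,0,1,0,0⟩, .sl 10 95, .sl 31 79, .sl 31 102, .ini ⟨0,1,0,0,0⟩ ⟨2,0,2,0,1⟩,
  .sr 12 60, .dl 13, .sr 106 106, .sr 87 107, .dr 54, .ini ⟨1,0,1,0,0⟩ ⟨0,1,0,0,0⟩, .ini
  ⟨1,0,1,0,0⟩ ⟨0,0,1,0,0⟩, .ini ⟨1,0,1,0,0⟩ ⟨0,0,0,1,0⟩, .dia ⟨1,0,1,0,0⟩ 1 1, .sr 112 113, .ini
  ⟨1,0,1,0,0⟩ ⟨0,0,0,0,1⟩, .dia ⟨1,0,1,0,0⟩ 1 2, .sr 115 116, .ini ⟨0,1,0,0,0⟩ ⟨1,0,1,0,0⟩, .sl 9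
  94, .ini ⟨1,0,0,1,2⟩ ⟨0,1,0,0,0⟩, .ini ⟨1,0,0,1,2⟩ ⟨0,0,1,0,0⟩, .ini ⟨0,0,0,0,1⟩ ⟨1,0,0,1,0⟩,
  .dr 122, .dl 123, .sr 121 124, .ini ⟨1,0,0,1,2⟩ ⟨0,0,0,1,0⟩, .ini ⟨1,0,0,1,2⟩ ⟨0,0,0,0,1⟩, .ini
  ⟨0,1,0,0,0⟩ ⟨1,0,0,1,2⟩, .dr 65, .sr 17 129, .sr 17 130, .dr 91, .dr 132, .dl 8, .sr 115 134,
  .sr 115 135, .sl 133 136, .sr 46 137, .sl 131 138, .ini ⟨1,0,1,1,1⟩ ⟨0,0,0,1,0⟩, .dr 123, .sl 43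
  39, .sl 133 137, .sr 23 143, .ini ⟨1,0,0,1,1⟩ ⟨0,1,0,0,0⟩, .ini ⟨1,0,0,1,1⟩ ⟨0,0,0,1,0⟩, .sr 146
  38, .dia ⟨1,0,0,1,1⟩ 1 1, .sr 34 148, .ini ⟨0,1,0,0,0⟩ ⟨1,0,0,1,1⟩, .ini ⟨0,0,1,0,0⟩
  ⟨1,0,0,1,1⟩, .dl 151, .ini ⟨0,0,1,0,0⟩ ⟨1,0,0,0,1⟩, .dl 153, .sr 46 154, .dl 122, .sr 35 156,
  .dr 157, .sr 35 158, .sr 112 134, .sr 115 160, .sl 161 152, .sl 130 162, .ini ⟨2,0,2,2,1⟩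
  ⟨0,0,0,1,0⟩, .ini ⟨0,0,0,1,0⟩ ⟨0,0,2,0,0⟩, .sr 129 129, .sr 165 166, .sr 17 167, .ini
  ⟨0,1,0,0,0⟩ ⟨2,0,2,1,1⟩, .ini ⟨2,0,2,1,1⟩ ⟨0,1,0,0,0⟩, .ini ⟨2,0,2,1,1⟩ ⟨0,0,0,0,1⟩, .sr 97 97,
  .sr 171 172, .sl 75 38, .sl 31 174, .sl 31 175, .sr 65 14, .sr 17 177, .sr 16 178, .dl 179, .ini
  ⟨2,0,1,2,1⟩ ⟨0,1,0,0,0⟩, .sl 14 96, .ini ⟨2,0,1,2,1⟩ ⟨0,0,0,1,0⟩, .ini ⟨2,0,1,2,1⟩ ⟨0,0,1,0,0⟩,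
  .dl 178, .sr 184 185, .ini ⟨0,1,0,0,0⟩ ⟨2,0,1,2,1⟩, .sl 65 134, .dr 188, .sr 87 189, .sr 2 190,
  .sr 1 190, .dr 178, .ini ⟨2,0,2,1,1⟩ ⟨0,0,0,1,0⟩, .sr 8 10, .sr 12 195, .dl 196, .sr 194 197,
  .ini ⟨1,0,0,0,1⟩ ⟨0,0,0,1,0⟩, .sr 199 77, .sl 200 161, .sl 130 201, .sl 130 202, .ini
  ⟨2,0,1,2,1⟩ ⟨0,0,0,0,1⟩, .sr 182 182, .sr 204 205, .sl 193 198, .ini ⟨2,0,1,1,1⟩ ⟨0,1,0,0,0⟩,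
  .dr 92, .sr 76 209, .sr 76 210, .ini ⟨2,0,0,2,0⟩ ⟨0,0,0,0,1⟩, .ini ⟨2,0,0,2,0⟩ ⟨0,0,2,0,0⟩, .sr
  66 66, .sl 214 214, .sr 213 215, .sr 212 216, .sl 211 217, .sl 211 218, .sl 105 219, .sl 105
  220, .hl 221 2 ⟨2,0,1,1,1⟩, .ini ⟨2,0,1,1,1⟩ ⟨0,0,1,0,0⟩, .dia ⟨2,0,1,1,1⟩ 1 1, .sr 223 224,
  .ini ⟨0,1,0,0,0⟩ ⟨2,0,1,1,1⟩, .ini ⟨2,0,2,0,1⟩ ⟨0,0,0,2,0⟩, .sl 135 154, .sr 94 94, .sl 60 229,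
  .sr 228 230, .sr 228 231, .sr 227 232, .hr 233 2 ⟨2,0,1,1,1⟩, .dr 196, .ini ⟨2,0,1,0,1⟩
  ⟨0,0,1,0,0⟩, .dia ⟨2,0,1,0,1⟩ 1 1, .sr 90 237, .sr 236 238, .sl 235 239, .ini ⟨0,0,2,0,0⟩
  ⟨0,0,0,0,1⟩, .sl 9 9, .sr 242 242, .sr 241 243, .ini ⟨2,0,0,1,1⟩ ⟨0,0,1,0,0⟩, .sr 63 214, .sl
  209 246, .sr 245 247, .sr 245 248, .sl 244 249, .ini ⟨3,0,1,2,2⟩ ⟨0,1,0,0,0⟩, .sl 36 135, .dl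
  252, .sl 36 253, .dl 254, .sr 199 210, .sr 76 256, .ini ⟨2,0,0,2,1⟩ ⟨0,0,2,0,0⟩, .ini
  ⟨0,0,0,1,0⟩ ⟨2,0,0,0,1⟩, .dr 259, .dl 260, .sr 258 261, .sl 257 262, .sl 235 263, .sr 255 264,
  .ini ⟨0,1,0,0,0⟩ ⟨3,0,1,2,2⟩, .ini ⟨0,1,0,0,0⟩ ⟨3,0,2,1,2⟩, .sr 77 210, .sr 199 268, .sr 199
  269, .sr 162 197, .sl 270 271, .ini ⟨3,0,2,1,2⟩ ⟨0,1,0,0,0⟩, .ini ⟨2,0,0,1,1⟩ ⟨0,0,0,1,0⟩, .sr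
  274 248, .sr 245 275, .sl 257 276, .sl 235 277, .sl 235 278, .sl 78 174, .sl 31 280, .sl 31 281,
  .sl 153 253, .dr 283, .sr 154 109, .sr 46 285, .sl 256 185, .ini ⟨2,0,1,1,1⟩ ⟨0,0,0,0,1⟩, .sr
  199 92, .sl 289 160, .sl 129 290, .dr 291, .sr 288 292, .sl 13 94, .dr 294, .sr 288 295, .sl 256
  197, .dr 156, .sr 37 298]

def s14_0_1_1_2_1 : List Step := [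
.sr 35 299, .sl 200 201, .sl 130 301, .sl 130 302, .dr 254, .sr 199 256, .sr 90 238, .sl 305 306,
  .sl 193 307, .sl 193 308, .ini ⟨2,0,0,2,1⟩ ⟨0,1,0,0,0⟩, .dl 289, .sr 245 311, .sl 14 312, .ini
  ⟨2,0,0,2,1⟩ ⟨0,0,0,1,0⟩, .ini ⟨1,0,0,0,0⟩ ⟨1,0,0,1,1⟩, .sl 315 200, .sl 130 316, .sl 130 317,
  .ini ⟨0,1,0,0,0⟩ ⟨2,0,0,2,1⟩, .sl 129 160, .sr 320 320, .sr 87 321, .sr 17 166, .ini ⟨2,0,0,2,1⟩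
  ⟨0,0,1,0,0⟩, .sr 63 66, .sl 325 37, .sr 311 311, .sl 166 327, .sr 326 328, .sr 326 329, .sr 324
  330, .sr 324 331, .hr 332 2 ⟨2,0,1,1,1⟩, .sr 274 275, .sl 193 334, .ini ⟨0,0,0,2,0⟩ ⟨0,0,0,0,1⟩,
  .sl 129 129, .sr 337 337, .sr 336 338, .sr 199 209, .sr 199 340, .ini ⟨2,0,2,0,0⟩ ⟨0,0,0,0,1⟩,
  .ini ⟨1,0,1,0,0⟩ ⟨0,0,0,2,0⟩, .sr 134 134, .sr 343 344, .sl 345 345, .sr 342 346, .sl 341 347,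
  .sl 341 348, .sl 339 349, .hl 350 2 ⟨2,0,1,1,1⟩, .ini ⟨2,0,1,1,1⟩ ⟨0,0,0,1,0⟩, .sr 352 224, .sr
  115 344, .sr 112 354, .sl 340 355, .sr 90 356, .sl 339 357, .ini ⟨3,0,1,2,1⟩ ⟨0,1,0,0,0⟩, .dl
  290, .sl 129 360, .sl 105 218, .sr 361 362, .ini ⟨1,0,0,0,0⟩ ⟨1,0,1,1,0⟩, .sl 364 96, .sl 14
  365, .ini ⟨1,0,0,0,0⟩ ⟨2,0,1,1,1⟩, .sl 367 185, .ini ⟨0,1,0,0,0⟩ ⟨3,0,1,2,1⟩, .ini ⟨0,1,0,0,0⟩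
  ⟨3,0,2,1,1⟩, .sr 134 114, .sr 160 371, .sr 115 372, .sl 373 292, .ini ⟨3,0,2,1,1⟩ ⟨0,1,0,0,0⟩,
  .sl 364 101, .sl 14 376, .sl 367 197, .sr 320 189, .sr 87 379, .sr 320 107, .sr 87 381, .sr 160
  116, .sr 115 383, .sl 67 94, .sl 9 385, .sr 324 329, .ini ⟨3,0,1,1,1⟩ ⟨0,0,0,0,1⟩, .sr 360 360,
  .sr 388 389, .sl 323 390, .ini ⟨1,0,0,1,0⟩ ⟨0,1,0,0,0⟩, .ini ⟨1,0,0,1,0⟩ ⟨0,0,0,1,0⟩, .sr 393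
  67, .dia ⟨1,0,0,1,0⟩ 1 2, .sr 63 395, .ini ⟨0,1,0,0,0⟩ ⟨1,0,0,1,0⟩, .sl 129 311, .ini
  ⟨1,0,0,0,2⟩ ⟨0,1,0,0,0⟩, .ini ⟨1,0,0,0,2⟩ ⟨0,0,0,0,1⟩, .ini ⟨1,0,0,0,2⟩ ⟨0,0,1,0,0⟩, .dl 132,
  .sr 401 402, .sr 400 403, .ini ⟨1,0,0,0,2⟩ ⟨0,0,0,1,0⟩, .sr 405 402, .sr 400 406, .ini
  ⟨0,1,0,0,0⟩ ⟨1,0,0,0,2⟩, .sr 63 325, .sl 133 409, .sl 133 410, .ini ⟨1,0,0,0,1⟩ ⟨0,1,0,0,0⟩,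
  .ini ⟨1,0,0,0,1⟩ ⟨0,0,0,0,1⟩, .sr 413 77, .ini ⟨0,1,0,0,0⟩ ⟨1,0,0,0,1⟩, .ini ⟨2,0,0,1,1⟩
  ⟨0,1,0,0,0⟩, .sr 311 248, .sr 274 417, .ini ⟨2,0,0,1,1⟩ ⟨0,0,0,0,1⟩, .sr 419 327, .ini
  ⟨0,1,0,0,0⟩ ⟨2,0,0,1,1⟩, .sl 355 261, .sr 393 246, .dia ⟨1,0,0,1,0⟩ 1 1, .sr 66 394, .sr 424
  425, .sr 63 426, .ini ⟨1,0,0,0,0⟩ ⟨1,0,0,0,1⟩, .sl 428 37, .sr 76 268, .sr 199 430, .dl 283,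
  .ini ⟨5,0,2,2,2⟩ ⟨0,1,0,0,0⟩, .ini ⟨1,0,0,0,0⟩ ⟨3,0,2,1,1⟩, .sl 295 295, .sl 434 435, .ini
  ⟨1,0,0,0,0⟩ ⟨3,0,1,2,1⟩, .sl 292 292, .sl 437 438, .dia ⟨2,0,1,1,1⟩ 2 1, .sl 367 440, .ini
  ⟨0,1,0,0,0⟩ ⟨5,0,2,2,2⟩, .sl 325 228, .sl 160 160, .sl 289 444, .sl 129 445, .dr 446, .sr 443
  447, .sl 325 253, .sr 361 363, .sr 449 450, .dl 188, .sl 91 452, .dr 453, .dr 454, .sr 248 248,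
  .sr 311 456, .sr 274 457, .sl 355 422, .sl 340 459, .sr 311 417, .sr 245 461, .ini ⟨0,1,0,0,0⟩
  ⟨4,0,2,2,1⟩, .ini ⟨4,0,2,2,1⟩ ⟨0,1,0,0,0⟩, .dl 445, .sl 129 465, .sl 380 292, .sl 437 467, .ini
  ⟨1,0,0,1,0⟩ ⟨0,0,2,0,0⟩, .sr 469 214, .sr 424 470, .sr 424 471, .sr 63 472, .sl 382 295, .sl 434
  474, .ini ⟨4,0,2,1,2⟩ ⟨0,1,0,0,0⟩, .sr 92 211, .sr 199 477, .dl 478, .sr 64 246, .ini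
  ⟨0,0,1,0,0⟩ ⟨2,0,0,0,1⟩, .dr 481, .dl 482, .sl 480 483, .sl 210 484, .dr 290, .sr 90 486, .sl
  487 292, .sr 485 488, .sl 367 297, .ini ⟨0,1,0,0,0⟩ ⟨4,0,2,1,2⟩, .ini ⟨3,0,2,1,1⟩ ⟨0,0,0,1,0⟩,
  .sr 63 470, .sr 66 493, .sl 494 231, .sr 443 495, .sr 492 496, .ini ⟨1,0,0,0,0⟩ ⟨4,0,2,1,2⟩, .sl
  36 443, .dl 499, .sr 500 435, .sl 498 501, .sr 253 295, .dr 477, .sr 199 504, .sl 428 432, .ini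
  ⟨2,0,2,0,1⟩ ⟨0,0,0,1,0⟩, .sr 507 231, .sr 385 385, .sr 388 509, .sl 105 510, .ini ⟨2,0,1,0,1⟩
  ⟨0,1,0,0,0⟩, .sl 428 154, .sr 513 229, .sr 90 514, .ini ⟨2,0,1,0,1⟩ ⟨0,0,0,0,1⟩, .sr 516 229,
  .ini ⟨0,1,0,0,0⟩ ⟨2,0,1,0,1⟩, .sr 111 354, .sr 94 486, .sr 90 520, .sr 160 383, .sr 115 522, .sl
  480 484, .sl 67 385, .sl 9 525, .sl 210 524, .sr 513 520, .sr 90 528, .ini ⟨1,0,0,0,0⟩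
  ⟨2,0,2,0,1⟩, .sl 211 249, .sl 105 531, .sl 530 532, .sl 105 533, .sr 516 520, .sr 507 232, .ini
  ⟨2,0,0,0,1⟩ ⟨0,1,0,0,0⟩, .ini ⟨2,0,0,0,1⟩ ⟨0,0,1,0,0⟩, .dia ⟨2,0,0,0,1⟩ 1 1, .sr 538 539, .sr 74
  539, .sl 428 77, .ini ⟨0,1,0,0,0⟩ ⟨2,0,0,0,1⟩, .sl 209 354, .dl 92, .sr 74 545, .sr 538 545,
  .ini ⟨1,0,0,0,0⟩ ⟨0,1,0,0,0⟩, .ini ⟨1,0,0,0,0⟩ ⟨1,0,1,0,0⟩, .ini ⟨1,0,0,0,0⟩ ⟨1,0,0,1,0⟩, .ini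
  ⟨1,0,0,0,0⟩ ⟨2,0,0,0,1⟩, .ini ⟨0,1,0,0,0⟩ ⟨1,0,0,0,0⟩]

def t14_0_1_1_2 : Tree :=
(.split 0 2 (.split 0 3 (.leaf [4,1,2,3,0] [0,1,2,3,4,5,6,10,11,7,12,14,15,16,17,18,19,20])
  (.split 0 4 (.split 3 4 (.split 0 4 (.leaf [0,1,2,4,3]
  [21,22,27,28,29,4,30,6,32,11,33,12,40,41,42,43,18,19]) (.leaf [0,1,2,3,4]
  [44,45,48,50,51,4,30,29,31,11,33,32,53,41,42,40,26,21,22,27])) (.split 3 4 (.leaf [0,1,2,3,4]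
  [44,45,57,48,51,4,58,30,31,11,62,33,70,71,72,84,53,41,42,86]) (.leaf [3,1,2,0,4]
  [44,45,57,51,4,3,58,31,11,10,62,0,1,89,70,71,72,98]))) (.split 0 4 (.leaf [0,1,2,4,3]
  [99,100,101,103,104,4,3,51,105,11,10,31,108,0,1,109,44,45]) (.leaf [0,1,2,3,4]
  [110,111,114,117,118,4,3,104,9,11,10,105,106,0,1,108,119,99,100,101])))) (.split 0 3 (.split 0 4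
  (.split 2 4 (.split 0 4 (.split 2 3 (.leaf [0,1,4,3,2]
  [120,125,126,127,128,30,5,6,139,41,140,131,15,73,17,141,18,20]) (.split 2 4 (.leaf [0,1,2,4,3]
  [120,142,125,127,128,29,30,6,144,21,27,28,139,41,40,141,18,43]) (.leaf [2,1,0,3,4]
  [120,125,142,128,51,30,29,44,48,50,139,41,53,40,144,21,26,27]))) (.split 2 3 (.leaf [0,1,2,3,4]
  [145,147,146,149,150,30,5,128,152,41,140,139,130,15,73,131,124,120,125,126]) (.leaf [0,1,4,3,2]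
  [145,38,147,149,150,51,30,128,155,44,48,152,41,53,139,124,120,125]))) (.split 2 3 (.split 2 4
  (.split 2 3 (.leaf [0,1,2,4,3] [145,159,146,38,150,58,5,51,163,71,164,70,130,15,168,155,44,57])
  (.leaf [2,1,0,3,4] [145,159,38,150,169,58,51,170,173,176,163,71,180,70,155,44,56,57])) (.split 0
  2 (.leaf [0,1,2,4,3] [181,182,183,186,187,3,5,169,191,0,2,192,193,15,14,198,170,97]) (.split 3 4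
  (.leaf [4,1,2,3,0] [145,158,159,150,187,58,169,203,181,206,186,163,71,207,180,170,198,173])
  (.leaf [0,1,2,3,4]
  [145,158,146,159,150,187,5,58,203,181,183,206,130,15,193,168,163,71,207,164])))) (.split 0 2
  (.split 2 4 (.split 3 4 (.leaf [4,1,2,3,0]
  [208,222,225,226,104,169,51,234,99,240,103,197,170,250,176,44,109,56]) (.leaf [0,1,2,3,4]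
  [208,222,96,225,226,104,3,169,234,99,101,240,190,0,108,192,197,170,250,97])) (.leaf [2,1,0,3,4]
  [208,96,222,226,118,3,104,110,114,117,190,0,106,108,234,99,119,101])) (.split 0 2 (.split 3 4
  (.split 2 4 (.leaf [4,1,2,3,0]
  [251,265,264,266,267,169,51,272,273,279,282,271,170,284,176,44,286,56]) (.leaf [0,1,2,3,4]
  [251,287,264,265,266,226,169,267,293,208,225,296,271,170,197,284,272,273,297,279])) (.leaf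
  [3,1,2,0,4] [251,287,264,266,226,3,169,293,208,96,225,0,190,192,271,170,197,97])) (.split 3 4
  (.leaf [3,1,4,0,2] [145,300,38,150,266,169,51,303,251,264,170,271,176,155,44,56]) (.split 0 3
  (.leaf [0,1,3,2,4] [181,304,182,186,187,266,3,169,309,251,264,191,0,192,198,170,271,97]) (.leaf
  [4,1,2,3,0] [145,300,158,150,266,187,169,303,251,309,264,203,181,304,186,170,271,198])))))))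
  (.split 0 4 (.split 2 3 (.leaf [0,1,4,3,2]
  [310,313,314,318,319,3,5,150,322,0,2,323,15,14,130,298,145,146]) (.split 2 4 (.split 3 4 (.leaf
  [0,1,4,3,2] [310,333,335,318,319,226,187,150,351,208,353,358,181,185,203,298,145,158]) (.leaf
  [0,1,2,3,4] [310,333,313,335,319,226,3,187,351,208,96,353,322,0,190,191,358,181,185,182]))
  (.split 0 2 (.split 2 4 (.leaf [0,1,2,3,4]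
  [359,363,366,368,369,370,3,226,374,375,377,378,380,0,382,190,292,208,295,96]) (.leaf [2,1,0,3,4]
  [359,366,363,369,118,3,370,110,114,384,380,0,106,382,374,375,386,377])) (.leaf [0,1,2,3,4]
  [310,387,313,333,319,369,3,226,391,359,366,368,322,0,380,190,351,208,292,96])))) (.split 2 3
  (.leaf [0,1,2,3,4] [392,394,393,396,397,3,5,319,320,0,2,322,129,15,14,323,398,310,313,314])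
  (.leaf [0,1,4,3,2] [392,67,394,396,397,118,3,319,160,110,114,320,0,106,322,398,310,313]))))
  (.split 0 4 (.split 2 4 (.split 3 4 (.split 0 4 (.split 2 4 (.split 3 4 (.leaf [0,1,2,3,4]
  [399,404,407,400,408,29,128,6,143,21,144,28,411,120,142,127,133,18,43,141]) (.leaf [0,1,3,2,4]
  [399,404,406,407,408,29,150,128,143,21,144,410,145,149,411,120,142,124])) (.leaf [0,1,2,4,3]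
  [399,403,406,404,408,51,150,29,137,44,155,50,410,145,38,143,21,26])) (.leaf [0,1,2,3,4]
  [412,78,200,414,415,51,150,408,154,44,155,137,37,145,38,410,402,399,403,406])) (.split 2 3
  (.split 3 4 (.leaf [0,1,4,3,2]
  [412,256,341,200,415,226,319,150,253,208,351,326,310,333,318,37,145,298]) (.split 0 3 (.split 2
  3 (.leaf [0,1,2,3,4]
  [416,418,311,420,421,369,397,319,422,359,361,391,423,392,427,396,261,310,387,398]) (.leaf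
  [2,1,0,3,4] [416,418,420,421,226,369,319,208,292,351,422,359,368,391,261,310,333,387])) (.leaf
  [0,1,3,2,4] [412,256,340,341,415,226,421,319,253,208,351,429,416,420,326,310,333,261]))) (.split
  2 3 (.split 3 4 (.leaf [0,1,4,3,2]
  [412,431,270,200,415,267,266,150,432,273,272,255,251,265,303,37,145,300]) (.leaf [0,1,2,3,4]
  [412,431,256,270,415,267,226,266,432,273,297,272,253,208,296,293,255,251,265,287])) (.leaf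
  [0,1,2,4,3] [412,78,431,200,415,51,267,150,154,44,286,155,432,273,282,37,145,38])))) (.split 2 4
  (.split 3 4 (.leaf [0,1,2,4,3]
  [412,211,256,78,415,104,226,51,228,99,234,103,253,208,222,154,44,109]) (.split 2 3 (.split 0 3
  (.split 3 4 (.split 0 2 (.leaf [0,1,2,3,4]
  [433,436,439,441,442,370,369,226,448,375,374,378,451,359,363,368,455,208,295,292]) (.leaf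
  [4,1,2,3,0] [416,458,418,421,442,369,226,460,433,439,441,422,359,451,368,208,455,292])) (.split
  2 3 (.leaf [0,1,2,3,4]
  [416,462,311,418,421,463,397,369,459,464,466,468,423,392,473,427,422,359,450,361]) (.leaf
  [2,1,0,3,4] [416,462,418,421,370,463,369,375,447,374,459,464,475,468,422,359,363,450]))) (.split
  2 3 (.leaf [2,1,0,4,3] [412,340,256,415,442,421,226,433,460,441,429,416,458,253,208,455])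
  (.split 0 2 (.leaf [0,1,2,3,4]
  [476,479,489,490,491,370,442,226,497,375,448,378,502,433,436,441,503,208,295,455]) (.leaf
  [3,1,2,0,4] [412,505,256,415,491,442,226,506,476,489,490,433,502,441,253,208,503,455])))) (.leaf
  [3,1,2,0,4] [412,211,256,415,104,370,226,228,99,508,234,375,511,378,253,208,222,295]))) (.split
  0 2 (.split 3 4 (.leaf [0,1,2,3,4]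
  [512,94,515,517,518,118,370,104,519,110,384,117,484,375,386,511,483,99,119,508]) (.split 3 4
  (.leaf [0,1,2,3,4]
  [512,94,521,515,518,118,463,370,519,110,523,384,524,464,526,475,484,375,386,447]) (.leaf
  [3,1,2,0,4] [512,94,521,518,118,397,463,519,110,160,523,392,67,473,524,464,526,466]))) (.split 0
  3 (.split 3 4 (.split 0 3 (.leaf [4,1,2,3,0]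
  [433,527,436,442,518,370,104,529,512,515,517,448,375,484,511,99,483,508]) (.split 0 4 (.leaf
  [0,1,2,4,3] [476,485,489,534,491,518,442,104,535,512,529,517,502,433,527,536,99,483]) (.leaf
  [4,1,2,3,0] [416,248,458,421,518,442,491,356,512,529,535,460,433,527,502,476,485,489]))) (.split
  3 4 (.leaf [4,1,2,3,0]
  [416,248,462,421,518,463,370,356,512,521,515,459,464,524,475,375,484,447]) (.leaf [0,1,3,2,4]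
  [416,248,311,462,421,518,397,463,356,512,521,423,392,473,459,464,524,466]))) (.leaf [0,1,2,4,3]
  [412,210,340,211,415,518,421,104,513,512,356,517,429,416,248,228,99,483]))))) (.split 0 4
  (.split 2 4 (.split 3 4 (.leaf [0,1,2,3,4]
  [537,540,541,542,543,518,421,415,544,512,356,513,247,416,248,429,209,412,210,340]) (.leaf
  [0,1,3,2,4] [537,540,546,541,543,518,397,421,544,512,356,246,392,423,247,416,248,311])) (.leaf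
  [0,1,2,4,3] [537,547,546,540,543,118,397,518,354,110,160,519,246,392,67,544,512,94])) (.leaf
  [0,1,2,3,4] [548,549,550,551,552,118,397,543,134,110,160,354,66,392,67,246,545,537,547,546])))))

def c14_0_1_1_2 : Cert 1 4 where
  T := [[0], [1], [1], [2]]
  W := ⟨0, 1, 1, 2, 0, 0, 0⟩
  hW := rfl
  steps := s14_0_1_1_2_0 ++ s14_0_1_1_2_1
  tree := t14_0_1_1_2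
  ok := by decide +kernel

def s14_1_1_1_1_0 : List Step := [
.ini ⟨1,1,1,1,0⟩ ⟨0,1,0,0,0⟩, .ini ⟨1,1,1,1,0⟩ ⟨0,0,1,0,0⟩, .ini ⟨1,1,1,1,0⟩ ⟨0,0,0,1,0⟩, .ini
  ⟨0,1,0,0,0⟩ ⟨0,0,1,0,0⟩, .ini ⟨0,1,0,0,0⟩ ⟨0,0,0,1,0⟩, .ini ⟨0,1,0,0,0⟩ ⟨1,0,0,0,0⟩, .dr 5, .sr
  4 6, .sr 3 7, .ini ⟨0,1,0,0,0⟩ ⟨0,0,0,0,1⟩, .ini ⟨0,0,1,0,0⟩ ⟨1,1,0,1,0⟩, .dr 10, .ini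
  ⟨0,0,1,0,0⟩ ⟨0,1,0,0,0⟩, .ini ⟨0,0,1,0,0⟩ ⟨0,0,0,1,0⟩, .ini ⟨0,0,1,0,0⟩ ⟨0,0,0,0,1⟩, .ini
  ⟨0,0,0,1,0⟩ ⟨0,0,1,0,0⟩, .ini ⟨0,0,0,1,0⟩ ⟨1,1,0,0,0⟩, .dr 16, .sr 15 17, .ini ⟨0,0,0,1,0⟩
  ⟨0,1,0,0,0⟩, .ini ⟨0,0,0,1,0⟩ ⟨0,0,0,0,1⟩, .ini ⟨0,0,0,0,1⟩ ⟨0,1,0,0,0⟩, .ini ⟨0,0,0,0,1⟩
  ⟨0,0,1,0,0⟩, .ini ⟨0,0,0,0,1⟩ ⟨0,0,0,1,0⟩, .ini ⟨1,1,1,0,1⟩ ⟨0,1,0,0,0⟩, .ini ⟨1,1,1,0,1⟩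
  ⟨0,0,1,0,0⟩, .ini ⟨1,1,0,0,1⟩ ⟨0,0,1,0,0⟩, .ini ⟨1,1,0,0,1⟩ ⟨0,0,0,1,0⟩, .ini ⟨0,0,0,0,1⟩
  ⟨1,1,0,0,0⟩, .dl 28, .sr 27 29, .sr 26 30, .sl 11 31, .ini ⟨1,1,1,0,1⟩ ⟨0,0,0,0,1⟩, .sr 9 6, .sr
  3 34, .ini ⟨0,0,1,0,0⟩ ⟨1,1,0,0,1⟩, .dr 36, .ini ⟨1,0,0,1,0⟩ ⟨0,0,1,0,0⟩, .ini ⟨1,0,0,1,0⟩
  ⟨0,0,0,0,1⟩, .ini ⟨1,0,0,1,0⟩ ⟨0,1,0,0,0⟩, .ini ⟨0,0,0,1,0⟩ ⟨1,0,0,0,0⟩, .dl 41, .sr 40 42, .sr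
  39 43, .sr 38 44, .sl 35 45, .sl 37 46, .dr 28, .sr 22 48, .ini ⟨1,1,1,0,0⟩ ⟨0,1,0,0,0⟩, .ini
  ⟨1,1,1,0,0⟩ ⟨0,0,1,0,0⟩, .ini ⟨1,1,0,0,0⟩ ⟨0,0,1,0,0⟩, .ini ⟨1,1,0,0,0⟩ ⟨0,0,0,1,0⟩, .dia
  ⟨1,1,0,0,0⟩ 1 1, .sr 53 54, .sr 52 55, .sl 11 56, .ini ⟨1,1,0,0,0⟩ ⟨0,0,0,0,1⟩, .sr 58 54, .sr
  52 59, .sl 37 60, .sr 3 6, .ini ⟨0,0,1,0,0⟩ ⟨1,1,0,0,0⟩, .dr 63, .ini ⟨1,1,0,1,0⟩ ⟨0,0,1,0,0⟩,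
  .dl 16, .sr 65 66, .sl 64 67, .sr 26 29, .sl 64 69, .ini ⟨1,1,0,1,1⟩ ⟨0,1,0,0,0⟩, .ini
  ⟨1,1,0,1,1⟩ ⟨0,0,1,0,0⟩, .sl 17 30, .sr 72 73, .ini ⟨1,1,0,1,1⟩ ⟨0,0,0,1,0⟩, .ini ⟨1,1,0,1,1⟩
  ⟨0,0,0,0,1⟩, .sr 4 34, .ini ⟨0,0,0,1,0⟩ ⟨1,1,0,0,1⟩, .dr 78, .ini ⟨1,0,1,0,0⟩ ⟨0,0,0,1,0⟩, .ini
  ⟨1,0,1,0,0⟩ ⟨0,0,0,0,1⟩, .ini ⟨1,0,1,0,0⟩ ⟨0,1,0,0,0⟩, .ini ⟨0,0,1,0,0⟩ ⟨1,0,0,0,0⟩, .dl 83, .sr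
  82 84, .sr 81 85, .sr 80 86, .sl 79 87, .sl 77 88, .sr 23 48, .dl 78, .sr 72 91, .ini
  ⟨1,0,1,0,1⟩ ⟨0,0,0,1,0⟩, .ini ⟨1,0,1,0,1⟩ ⟨0,1,0,0,0⟩, .ini ⟨0,0,0,0,1⟩ ⟨1,0,0,0,0⟩, .dr 95, .sr
  81 84, .sl 96 97, .sr 94 98, .sr 93 99, .sl 77 100, .ini ⟨1,1,0,1,0⟩ ⟨0,1,0,0,0⟩, .dia
  ⟨1,1,0,1,0⟩ 1 1, .sr 65 103, .ini ⟨1,1,0,1,0⟩ ⟨0,0,0,1,0⟩, .sr 53 59, .sl 79 106, .dl 10, .sr 80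
  85, .sl 7 109, .ini ⟨1,1,0,0,1⟩ ⟨0,1,0,0,0⟩, .dia ⟨1,1,0,0,1⟩ 1 1, .sr 26 112, .sr 27 112, .ini
  ⟨1,1,0,0,1⟩ ⟨0,0,0,0,1⟩, .dl 36, .sl 34 44, .sl 34 86, .ini ⟨1,1,0,0,0⟩ ⟨0,1,0,0,0⟩, .sr 52 54,
  .dl 63, .ini ⟨1,0,1,1,1⟩ ⟨0,1,0,0,0⟩, .ini ⟨0,0,0,1,0⟩ ⟨1,0,1,0,0⟩, .dr 123, .ini ⟨0,0,0,0,1⟩
  ⟨1,0,1,0,0⟩, .dl 125, .sr 93 126, .sl 124 127, .sr 122 128, .ini ⟨1,0,1,1,1⟩ ⟨0,0,1,0,0⟩, .ini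
  ⟨1,0,1,1,1⟩ ⟨0,0,0,1,0⟩, .ini ⟨1,0,1,1,1⟩ ⟨0,0,0,0,1⟩, .dr 83, .sr 14 133, .sr 13 134, .ini
  ⟨0,0,0,1,0⟩ ⟨1,0,1,0,1⟩, .dr 136, .dl 5, .sr 52 138, .sr 58 139, .sr 53 140, .sl 137 141, .sl
  135 142, .dr 125, .sr 23 144, .dl 136, .sr 122 146, .sl 144 140, .sr 27 148, .sl 135 149, .ini
  ⟨1,0,1,1,0⟩ ⟨0,0,1,0,0⟩, .ini ⟨1,0,1,1,0⟩ ⟨0,1,0,0,0⟩, .dr 41, .sr 80 84, .sl 153 154, .sr 152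
  155, .sr 151 156, .ini ⟨1,0,1,1,0⟩ ⟨0,0,0,1,0⟩, .dia ⟨1,0,1,0,0⟩ 1 1, .sr 81 159, .sr 80 160,
  .sl 137 161, .sr 13 133, .sr 53 139, .sl 124 164, .sl 163 165, .dl 123, .sr 152 167, .sl 163
  164, .sl 79 100, .sr 20 153, .ini ⟨0,0,0,0,1⟩ ⟨1,0,0,1,0⟩, .dr 172, .sr 53 138, .sr 58 174, .sl
  173 175, .sl 171 176, .sr 72 177, .sr 5 62, .sr 4 179, .dr 180, .sr 9 181, .ini ⟨2,0,2,1,1⟩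
  ⟨0,1,0,0,0⟩, .sl 95 84, .dr 184, .sr 93 185, .sr 94 186, .ini ⟨1,0,1,1,0⟩ ⟨0,0,0,0,1⟩, .sl 41
  84, .dr 189, .sr 188 190, .sr 152 191, .sl 187 192, .sr 183 193, .sl 182 194, .ini ⟨2,1,0,1,1⟩
  ⟨0,0,1,0,0⟩, .ini ⟨1,0,0,0,1⟩ ⟨0,1,0,0,0⟩, .dl 95, .sr 197 198, .sl 199 43, .sl 6 200, .sr 196
  201, .sl 64 202, .sl 64 203, .ini ⟨2,1,0,0,1⟩ ⟨0,0,1,0,0⟩, .ini ⟨2,1,0,0,1⟩ ⟨0,0,0,1,0⟩, .ini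
  ⟨1,0,0,0,0⟩ ⟨1,1,0,0,0⟩, .sl 207 29, .sr 206 208, .sr 205 209, .sl 11 210, .sl 11 211, .sl 18
  212, .ini ⟨1,0,0,0,0⟩ ⟨1,1,1,0,1⟩, .sl 214 46, .sl 37 215, .sl 37 216, .sl 49 217, .ini
  ⟨2,2,1,1,1⟩ ⟨0,0,1,0,0⟩, .sr 5 7, .sr 9 220, .sr 3 221, .dl 222, .sr 219 223, .ini ⟨2,2,0,1,1⟩
  ⟨0,0,1,0,0⟩, .sl 6 201, .sr 225 226, .sl 64 227, .sl 8 211, .sl 18 229, .sl 35 216, .sl 49 231,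
  .ini ⟨1,1,1,0,0⟩ ⟨0,0,0,0,1⟩, .ini ⟨1,1,1,0,0⟩ ⟨0,0,0,1,0⟩, .sl 83 138, .dr 235, .sr 234 236,
  .sr 51 237, .sr 233 238, .sr 50 237, .sr 233 240, .ini ⟨1,1,1,1,0⟩ ⟨0,0,0,0,1⟩, .sl 123 139, .sl
  133 243, .dr 244, .sr 242 245, .sl 63 66, .dr 247, .sr 242 248, .ini ⟨1,1,1,0,1⟩ ⟨0,0,0,1,0⟩,
  .sl 125 139, .sl 133 251, .dr 252, .sr 250 253, .sl 63 29, .dr 255, .sr 250 256, .sl 16 29, .dr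
  258, .sr 72 259, .ini ⟨1,0,0,0,0⟩ ⟨1,1,0,1,1⟩, .sl 77 87, .sl 261 262, .sl 79 263, .sl 77 264,
  .sl 90 265, .sl 123 126, .dr 267, .sr 122 268, .ini ⟨1,0,0,0,0⟩ ⟨1,0,1,1,1⟩, .sl 135 141, .sl
  270 271, .sl 137 272, .sl 135 273, .sl 145 274, .ini ⟨2,0,1,0,1⟩ ⟨0,0,0,1,0⟩, .sl 199 85, .sr
  276 277, .sl 17 278, .sl 7 279, .sl 17 280, .ini ⟨2,1,1,2,1⟩ ⟨0,1,0,0,0⟩, .sr 41 17, .sr 20 283,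
  .sr 15 284, .dl 285, .sr 282 286, .sl 18 210, .sl 11 288, .sl 18 289, .sl 79 264, .sl 90 291,
  .ini ⟨1,1,0,1,0⟩ ⟨0,0,0,0,1⟩, .sl 41 138, .dr 294, .sr 65 295, .sr 105 296, .sr 293 297, .sr 102
  296]

def s14_1_1_1_1_1 : List Step := [
.sr 293 299, .ini ⟨0,0,0,1,0⟩ ⟨2,1,1,0,0⟩, .dr 301, .dr 302, .sr 20 303, .ini ⟨2,2,1,0,1⟩
  ⟨0,0,0,1,0⟩, .sl 95 138, .dr 306, .sr 27 307, .sr 26 308, .sl 133 139, .sr 310 262, .sl 309 311,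
  .sr 305 312, .sl 304 313, .sl 7 278, .sl 7 315, .sl 17 316, .ini ⟨0,0,1,0,0⟩ ⟨1,0,0,1,0⟩, .sl
  153 174, .sl 318 319, .dr 320, .sr 242 321, .sl 172 174, .sl 153 323, .dr 324, .sr 72 325, .ini
  ⟨2,1,2,0,1⟩ ⟨0,0,0,1,0⟩, .sl 187 311, .sr 327 328, .sl 304 329, .ini ⟨2,1,1,2,1⟩ ⟨0,0,1,0,0⟩,
  .sr 331 286, .sl 172 154, .sl 153 333, .dr 334, .sr 122 335, .sl 137 273, .sl 145 337, .sr 152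
  190, .sr 158 339, .sr 188 340, .sr 151 339, .sr 188 342, .ini ⟨1,0,0,0,1⟩ ⟨0,0,1,0,0⟩, .sr 344
  198, .sl 345 139, .sr 206 346, .sl 124 347, .sl 163 348, .sl 124 349, .sl 163 347, .sl 163 351,
  .sl 124 352, .sl 44 86, .sl 48 354, .sl 34 355, .sl 48 356, .ini ⟨2,1,1,1,2⟩ ⟨0,1,0,0,0⟩, .ini
  ⟨0,0,0,0,1⟩ ⟨2,1,0,1,0⟩, .dr 359, .sr 22 360, .dl 361, .sr 358 362, .sl 261 88, .sl 90 364, .sl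
  77 365, .sl 90 366, .sr 115 309, .sr 29 31, .sr 115 369, .dr 361, .ini ⟨2,2,1,1,0⟩ ⟨0,0,0,0,1⟩,
  .sr 293 295, .sr 65 373, .sl 374 311, .sr 372 375, .sl 371 376, .sl 34 354, .sl 34 378, .sl 48
  379, .ini ⟨0,0,0,1,0⟩ ⟨1,0,0,0,1⟩, .sr 58 138, .sl 96 382, .sl 381 383, .dr 384, .sr 72 385, .sl
  49 215, .sl 37 387, .sl 49 388, .ini ⟨0,0,1,0,0⟩ ⟨1,0,0,0,1⟩, .sl 390 383, .dr 391, .sr 250 392,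
  .ini ⟨2,1,1,2,0⟩ ⟨0,0,0,0,1⟩, .sl 192 374, .sr 394 395, .sl 371 396, .ini ⟨2,1,1,1,2⟩
  ⟨0,0,0,1,0⟩, .sr 398 362, .sl 381 98, .dr 400, .sr 122 401, .sl 270 142, .sl 145 403, .sl 135
  404, .sl 145 405, .ini ⟨1,0,0,1,0⟩ ⟨0,0,0,1,0⟩, .sr 407 43, .sr 42 408, .sr 39 409, .sr 38 410,
  .sr 39 411, .ini ⟨2,1,2,1,0⟩ ⟨0,0,0,0,1⟩, .sl 192 311, .sr 413 414, .sl 371 415, .sl 412 416,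
  .sl 371 417, .ini ⟨1,0,0,1,1⟩ ⟨0,0,1,0,0⟩, .ini ⟨1,0,0,1,1⟩ ⟨0,1,0,0,0⟩, .sl 95 42, .dr 421, .sr
  420 422, .sr 420 423, .sr 419 424, .sl 425 195, .ini ⟨1,0,0,0,1⟩ ⟨0,0,0,0,1⟩, .ini ⟨1,0,0,0,1⟩
  ⟨0,0,0,1,0⟩, .sr 344 199, .sr 198 429, .sr 428 430, .sr 428 431, .sr 427 432, .sl 433 330, .sl
  304 434, .sl 270 273, .sl 135 436, .sl 145 437, .sl 137 438, .sl 145 439, .sr 38 42, .sr 39 441,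
  .sl 442 140, .sl 144 443, .sl 134 444, .sl 144 445, .sr 446 362, .sr 398 447, .sl 141 143, .sl
  145 449, .sr 450 223, .ini ⟨2,1,1,2,1⟩ ⟨0,0,0,0,1⟩, .sr 350 286, .sr 452 453, .sr 81 154, .sl
  173 455, .sl 171 456, .sr 457 269, .ini ⟨2,1,1,1,1⟩ ⟨0,0,0,0,1⟩, .dia ⟨2,1,1,1,1⟩ 1 1, .sr 459
  460, .sr 280 203, .sr 459 462, .sr 349 280, .sr 459 464, .ini ⟨2,1,1,1,1⟩ ⟨0,0,0,1,0⟩, .sl 441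
  139, .sl 125 467, .sl 133 468, .dr 469, .sr 466 470, .sr 459 471, .sr 419 423, .ini ⟨0,0,1,0,0⟩
  ⟨2,1,0,1,1⟩, .dr 474, .dl 475, .sl 473 476, .ini ⟨1,0,1,0,0⟩ ⟨0,0,1,0,0⟩, .sr 84 109, .sr 81
  479, .sr 478 480, .sr 81 481, .sl 482 377, .sl 371 483, .sl 214 216, .sl 49 485, .sl 35 486, .sl
  37 487, .sl 49 488, .sr 197 431, .sr 427 490, .sl 491 195, .sl 182 492, .ini ⟨3,2,2,1,2⟩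
  ⟨0,0,0,1,0⟩, .sr 26 307, .sr 383 495, .sr 27 496, .sr 26 497, .sl 134 443, .sl 134 499, .sl 144
  500, .sr 501 476, .sl 498 502, .sr 494 503, .ini ⟨2,1,1,1,2⟩ ⟨0,0,1,0,0⟩, .sr 357 362, .sr 505
  506, .sl 134 148, .sr 508 256, .sr 250 509, .ini ⟨2,2,1,1,1⟩ ⟨0,0,0,0,1⟩, .sr 223 228, .sr 511
  512, .sr 39 42, .sl 96 514, .sr 515 423, .sr 419 516, .sr 420 517, .sr 419 518, .ini ⟨2,1,2,1,1⟩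
  ⟨0,0,0,0,1⟩, .sr 476 204, .sr 520 521, .sl 519 522, .ini ⟨2,1,1,1,1⟩ ⟨0,0,1,0,0⟩, .sl 63 201,
  .dr 525, .sr 524 526, .sr 459 527, .sl 187 223, .sr 353 476, .sr 520 530, .sr 83 64, .sr 13 532,
  .dr 533, .sr 14 534, .sr 344 431, .sr 427 536, .sl 537 332, .sl 535 538, .sr 349 203, .sr 459
  540, .sl 537 224, .sl 535 542, .sl 43 85, .sl 6 544, .ini ⟨2,1,0,1,0⟩ ⟨0,0,1,0,0⟩, .sl 207 66,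
  .sr 546 547, .sl 64 548, .ini ⟨1,0,0,0,0⟩ ⟨1,1,0,1,0⟩, .sl 550 110, .sl 17 551, .sr 138 120, .sr
  53 553, .ini ⟨1,0,0,0,0⟩ ⟨2,1,1,1,1⟩, .sl 555 223, .ini ⟨3,1,0,1,1⟩ ⟨0,0,1,0,0⟩, .sl 207 201,
  .sr 557 558, .sl 64 559, .sl 62 560, .sl 550 315, .sl 17 562, .sl 7 563, .ini ⟨1,0,0,0,0⟩
  ⟨1,1,0,0,1⟩, .sl 565 378, .sl 48 566, .sl 34 567, .dr 221, .sr 82 480, .sl 569 570, .sr 310 571,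
  .sr 66 46, .sr 319 573, .sr 383 369, .ini ⟨2,1,1,1,0⟩ ⟨0,1,0,0,0⟩, .ini ⟨2,1,1,1,0⟩ ⟨0,0,0,0,1⟩,
  .dl 235, .sl 41 578, .dr 579, .sr 577 580, .sr 576 581, .dl 180, .sl 431 583, .ini ⟨1,0,0,0,0⟩
  ⟨1,0,1,1,0⟩, .sl 585 169, .sl 124 586, .ini ⟨1,0,1,0,1⟩ ⟨0,0,1,0,0⟩, .sr 588 99, .dia
  ⟨1,0,1,0,1⟩ 1 1, .sr 93 590, .ini ⟨1,0,1,0,1⟩ ⟨0,0,0,0,1⟩, .sl 134 442, .sr 94 126, .sl 134 140,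
  .sr 592 187, .sr 94 127, .sr 126 597, .sr 592 598]

def s14_1_1_1_1_2 : List Step := [
.sr 505 362, .sr 478 85, .sr 84 601, .sr 80 602, .sr 84 603, .sr 81 604, .sr 82 605, .sl 606 526,
  .sl 64 560, .sl 555 476, .sl 199 544, .sl 6 610, .sl 6 611, .sr 138 164, .sr 58 613, .sr 52 614,
  .sr 445 349, .sl 615 616, .sr 612 617, .sr 310 237, .sr 233 619, .sl 585 351, .sl 163 621, .sl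
  124 622, .sr 167 339, .sr 188 624, .dl 533, .sl 431 626, .ini ⟨2,1,1,1,0⟩ ⟨0,0,1,0,0⟩, .sr 628
  580, .sr 577 629, .ini ⟨2,1,1,0,1⟩ ⟨0,1,0,0,0⟩, .ini ⟨2,1,1,0,1⟩ ⟨0,0,0,1,0⟩, .sl 95 578, .dr
  633, .sr 632 634, .sr 631 635, .sr 205 208, .sl 64 637, .ini ⟨2,1,1,0,1⟩ ⟨0,0,0,0,1⟩, .sl 133
  346, .sl 430 236, .sr 632 641, .sr 640 642, .sr 639 643, .sl 565 118, .sl 48 645, .sr 38 43, .sr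
  42 647, .sr 39 648, .sr 9 179, .dl 650, .sl 649 651, .sr 233 236, .sr 14 532, .dl 654, .sl 649
  655, .sl 649 653, .sl 6 277, .sr 58 553, .sr 94 185, .sr 126 660, .sr 93 661, .ini ⟨1,0,0,0,0⟩
  ⟨1,0,1,0,1⟩, .sl 663 499, .sl 134 664, .sl 144 665, .sl 663 595, .sl 144 667, .sr 80 159, .sl
  133 467, .sr 81 602, .ini ⟨1,0,0,1,1⟩ ⟨0,0,0,1,0⟩, .sr 420 515, .sr 672 673, .sr 419 515, .sr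
  672 675, .ini ⟨1,0,0,1,1⟩ ⟨0,0,0,0,1⟩, .dl 172, .sr 419 678, .sl 171 455, .sr 420 678, .sl 171
  175, .sr 677 473, .sl 455 177, .sl 173 684, .sr 419 681, .sr 678 686, .sr 677 687, .sl 455 175,
  .sl 171 689, .sl 171 690, .sl 173 691, .ini ⟨2,0,1,1,1⟩ ⟨0,1,0,0,0⟩, .sr 428 345, .sr 198 694,
  .sl 695 190, .sr 693 696, .sl 345 441, .sl 133 698, .ini ⟨1,0,0,0,0⟩ ⟨1,0,1,0,0⟩, .sl 700 126,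
  .sr 276 701, .sl 124 702, .sl 663 593, .sl 144 704, .sl 614 191, .sr 84 669, .sr 81 707, .sl 555
  286, .sr 428 198, .sl 154 174, .sl 710 711, .sl 153 712, .sl 153 713, .dr 654, .sr 38 649, .sr
  42 44, .sl 717 307, .sr 196 718, .sr 196 719, .sl 716 720, .sl 715 721, .sr 714 722, .sl 124
  621, .sl 124 724, .sl 710 174, .sl 153 726, .sl 318 727, .dr 728, .sr 80 604, .sr 81 730, .sl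
  731 729, .sr 155 339, .sr 188 733, .dl 302, .sl 431 735, .ini ⟨2,1,1,1,0⟩ ⟨0,0,0,1,0⟩, .sr 737
  580, .sr 577 738, .sl 17 563, .sr 319 296, .sr 293 741, .ini ⟨2,0,1,1,1⟩ ⟨0,0,0,0,1⟩, .sl 710
  154, .sl 153 744, .sr 745 697, .sr 743 746, .sr 699 697, .sr 743 748, .sr 41 124, .sr 20 750,
  .dl 751, .sl 614 752, .sr 83 163, .sr 14 754, .dl 755, .sl 614 756, .sr 678 423, .sr 419 758,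
  .sr 419 422, .ini ⟨1,0,0,0,0⟩ ⟨1,0,0,1,1⟩, .sl 761 690, .sl 171 762, .sl 173 763, .sl 761 680,
  .sl 173 765, .ini ⟨2,1,1,1,2⟩ ⟨0,0,0,0,1⟩, .dl 189, .sl 95 768, .dr 769, .sr 693 770, .sr 693
  771, .sl 772 526, .sr 198 431, .sr 344 774, .sr 427 775, .sl 625 470, .sl 776 777, .sl 555 477,
  .sl 442 665, .sl 144 780, .sl 144 781, .sl 175 177, .sl 455 783, .sr 784 618, .ini ⟨3,1,2,1,1⟩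
  ⟨0,0,0,0,1⟩, .sl 153 711, .sl 154 787, .sl 172 788, .dr 789, .sr 786 790, .sr 684 470, .sr 98
  662, .sr 93 793, .dr 650, .sr 40 649, .sr 42 442, .sl 797 185, .sr 693 798, .sr 693 799, .sl 796
  800, .sl 795 801, .sr 714 802, .ini ⟨3,1,1,2,1⟩ ⟨0,0,0,0,1⟩, .sr 714 723, .sr 804 805, .sr 138
  554, .sr 53 807, .sr 58 808, .sl 809 729, .sr 428 774, .sr 427 811, .sl 734 729, .sl 812 813,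
  .sl 44 378, .sl 48 815, .sl 565 816, .sl 34 817, .sl 48 818, .sr 427 774, .sr 197 820, .sl 574
  526, .sl 821 822, .sl 473 223, .sl 555 824, .sl 171 784, .sl 761 826, .sl 173 827, .dl 294, .sl
  95 829, .dr 830, .sr 196 831, .sr 196 832, .sl 470 833, .sr 828 834, .sr 383 575, .sr 27 836,
  .ini ⟨3,2,1,1,1⟩ ⟨0,0,0,0,1⟩, .ini ⟨0,1,0,0,0⟩ ⟨1,0,0,1,0⟩, .sl 839 713, .dr 840, .sr 838 841,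
  .sr 684 526, .sr 84 605, .sr 80 844, .sr 82 845, .sr 81 846, .sl 48 816, .sl 759 729, .sr 848
  849, .sl 847 850, .sr 714 803, .sr 804 852, .sl 742 729, .sl 812 854, .ini ⟨3,1,1,1,2⟩
  ⟨0,0,0,1,0⟩, .sl 429 202, .sl 64 857, .sr 42 649, .sr 39 859, .sl 97 382, .sl 96 861, .sl 96
  862, .ini ⟨0,0,0,0,1⟩ ⟨2,1,1,0,0⟩, .dr 864, .dl 865, .sr 863 866, .sl 860 867, .sr 858 868, .sr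
  856 869, .sl 514 861, .sl 96 871, .sl 96 872, .sr 428 199, .sr 198 874, .sl 875 295, .sr 196
  876, .sr 196 877, .sl 536 878, .sl 534 879, .sr 873 880, .sr 632 642, .sl 432 882, .sl 303 883,
  .sr 873 884, .sl 144 664, .sl 144 886, .sr 81 605, .sl 514 382, .sl 96 889, .sl 390 890, .dr
  891, .sl 497 892, .sl 888 893, .sl 470 620, .sl 776 895, .sr 632 635, .sl 729 897, .sl 140 508]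

def s14_1_1_1_1_3 : List Step := [
.sl 442 899, .sl 134 900, .sl 663 901, .sl 144 902, .sl 888 892, .sl 345 467, .sl 133 905, .sl 133
  906, .sr 907 607, .sr 786 908, .sr 407 648, .sr 42 910, .sr 39 911, .sr 39 912, .sl 913 892, .sl
  442 499, .sl 144 915, .sr 916 802, .sr 714 917, .sr 98 660, .sr 93 919, .sr 94 660, .sr 185 921,
  .sr 93 922, .sr 693 697, .sl 490 924, .sl 181 925, .sr 873 926, .sr 58 807, .sr 58 928, .sl 929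
  892, .ini ⟨0,1,0,0,0⟩ ⟨1,0,1,0,0⟩, .sl 931 906, .dr 932, .sr 838 933, .sl 526 572, .sl 821 935,
  .sl 48 567, .sr 873 881, .sr 856 938, .sl 920 892, .sl 913 940, .sr 873 927, .sr 856 942, .sl
  913 893, .sr 743 771, .ini ⟨0,0,0,0,1⟩ ⟨2,0,1,1,0⟩, .dr 946, .dl 947, .sl 614 948, .sl 614 186,
  .sl 649 866, .sr 639 635, .sl 173 762, .sl 173 953, .sl 555 362, .sl 17 209, .sl 565 117, .sl 48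
  957, .sr 138 55, .sr 58 959, .sl 480 373, .sl 480 308, .dl 284, .sl 480 963, .ini ⟨2,1,0,1,1⟩
  ⟨0,0,0,0,1⟩, .sr 727 877, .sr 965 966, .ini ⟨2,1,0,1,1⟩ ⟨0,1,0,0,0⟩, .sr 968 832, .dl 221, .sl
  480 970, .dl 360, .sl 480 972, .sr 965 832, .sr 84 455, .sl 975 422, .sr 693 976, .sl 614 760,
  .sl 761 682, .sl 173 979, .sr 407 441, .dia ⟨1,0,0,1,0⟩ 1 1, .sr 39 982, .sr 42 981, .sr 39 984,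
  .sr 427 199, .sr 427 345, .sr 427 710, .sr 427 875, .sr 427 695, .sl 514 97, .sl 96 991, .sr 427
  430, .ini ⟨1,0,0,0,0⟩ ⟨1,0,0,1,0⟩, .ini ⟨1,0,0,0,0⟩ ⟨1,0,0,0,1⟩]

def t14_1_1_1_1 : Tree :=
(.split 0 1 (.split 0 2 (.split 0 3 (.leaf [4,1,2,3,0]
  [0,1,2,8,3,4,9,11,12,13,14,18,19,15,20,21,22,23]) (.split 0 4 (.leaf [0,1,2,4,3]
  [24,25,32,33,35,3,8,9,37,12,11,14,47,0,1,49,21,22]) (.leaf [0,1,2,3,4]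
  [50,51,57,61,62,3,8,35,64,12,11,37,68,0,1,47,70,24,25,32]))) (.split 0 3 (.split 0 4 (.split 2 3
  (.leaf [0,1,4,3,2] [71,74,75,76,77,8,4,9,89,0,2,79,19,18,20,90,21,23]) (.split 2 4 (.leaf
  [0,1,2,4,3] [71,92,74,76,77,35,8,9,101,24,32,33,89,0,47,90,21,49]) (.leaf [2,1,0,3,4]
  [71,74,92,77,62,8,35,50,57,61,89,0,68,47,101,24,70,32]))) (.split 2 3 (.leaf [0,1,2,3,4]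
  [102,104,105,107,7,8,4,77,108,0,2,89,17,19,18,79,73,71,74,75]) (.leaf [0,1,4,3,2]
  [102,67,104,107,7,62,8,77,110,50,57,108,0,68,89,73,71,74]))) (.split 0 4 (.split 2 4 (.split 3 4
  (.leaf [0,1,2,3,4] [111,113,114,115,34,35,77,9,116,24,101,33,91,71,92,76,48,21,49,90]) (.leaf
  [0,1,3,2,4] [111,113,30,114,34,35,7,77,116,24,101,117,102,107,91,71,92,73])) (.leaf [0,1,2,4,3]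
  [111,69,30,113,34,62,7,35,118,50,110,61,117,102,67,116,24,70])) (.leaf [0,1,2,3,4]
  [119,120,55,59,6,62,7,34,121,50,110,118,66,102,67,117,29,111,69,30])))) (.split 0 2 (.split 0 3
  (.split 1 2 (.split 0 4 (.split 1 3 (.leaf [0,4,2,3,1]
  [129,130,131,132,143,1,2,135,11,13,14,137,18,15,20,145,22,23]) (.split 1 4 (.leaf [0,1,2,4,3]
  [147,130,129,132,150,25,32,33,135,37,11,14,143,47,1,145,49,22]) (.leaf [1,0,2,3,4]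
  [130,129,147,51,57,61,135,64,11,37,143,68,1,47,150,70,25,32]))) (.split 1 3 (.leaf [0,1,2,3,4]
  [157,151,158,162,166,1,2,143,163,11,13,135,124,18,15,137,128,129,130,131]) (.leaf [0,4,2,3,1]
  [168,151,157,162,169,51,57,163,64,11,135,166,68,1,143,128,130,129]))) (.split 1 3 (.split 0 4
  (.split 1 4 (.split 2 3 (.leaf [0,1,4,3,2]
  [170,129,131,132,178,74,75,76,143,89,2,137,79,18,20,145,90,23]) (.split 2 4 (.leaf [0,1,2,4,3]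
  [170,147,129,132,178,92,74,76,150,101,32,33,143,89,47,145,90,49]) (.split 0 2 (.split 1 2 (.leaf
  [0,1,2,3,4] [195,204,213,218,224,228,230,232,239,241,57,61,246,249,68,47,254,257,70,32]) (.leaf
  [1,0,2,3,4] [195,213,218,260,74,92,224,266,230,232,246,89,249,47,254,101,257,32])) (.leaf
  [0,2,1,3,4] [170,269,129,147,178,74,92,275,213,218,143,89,246,47,150,101,254,32])))) (.split 2 3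
  (.leaf [1,0,2,3,4] [129,131,170,104,105,107,143,108,2,89,137,17,18,79,178,73,74,75]) (.split 0 1
  (.split 2 4 (.leaf [0,1,2,3,4]
  [281,287,290,292,298,300,104,107,314,317,230,266,322,108,249,89,326,73,260,74]) (.leaf
  [2,1,0,3,4] [281,290,287,298,67,104,300,110,57,241,322,108,68,249,314,317,228,230])) (.split 0 2
  (.split 2 4 (.leaf [4,1,2,3,0]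
  [330,195,213,332,287,290,292,224,314,230,266,246,322,249,89,326,260,74]) (.leaf [0,2,1,3,4]
  [330,204,213,195,332,290,287,239,57,241,246,322,68,249,224,314,228,230])) (.leaf [0,1,4,3,2]
  [336,269,129,170,338,332,290,292,275,330,213,143,322,246,89,178,326,74]))))) (.split 2 3 (.leaf
  [0,4,2,3,1] [156,157,158,162,165,104,105,166,108,2,143,124,17,18,137,128,129,131]) (.split 1 4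
  (.split 2 4 (.leaf [0,1,2,3,4]
  [341,343,157,162,350,332,290,338,353,330,213,275,166,322,246,143,128,336,269,129]) (.leaf
  [0,2,1,3,4] [341,168,157,343,350,290,332,169,57,239,166,322,68,246,353,330,204,213])) (.leaf
  [0,1,4,3,2] [156,168,157,341,165,67,104,298,169,110,57,166,108,68,322,350,281,290])))) (.split 1
  4 (.split 2 4 (.split 0 4 (.split 3 4 (.leaf [1,0,2,3,4]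
  [147,170,132,113,114,115,150,116,101,33,178,91,92,76,145,48,49,90]) (.split 0 1 (.split 2 3
  (.leaf [3,1,2,0,4] [357,363,367,368,370,30,114,377,380,317,266,117,300,107,386,91,260,73])
  (.leaf [0,1,2,3,4]
  [357,389,363,367,368,113,370,114,393,116,257,101,377,380,232,266,386,91,92,260])) (.split 0 3
  (.split 2 3 (.leaf [0,3,2,1,4]
  [397,287,281,292,399,363,367,314,377,317,266,298,300,107,326,386,260,73]) (.leaf [2,1,0,3,4]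
  [397,287,292,399,389,363,367,393,257,101,314,377,232,266,326,386,92,260])) (.leaf [0,1,3,2,4]
  [402,147,336,170,406,389,399,367,150,393,101,338,397,292,178,386,92,326])))) (.split 0 1 (.split
  1 4 (.split 2 3 (.split 3 4 (.split 0 4 (.leaf [0,1,4,3,2]
  [418,426,435,440,448,363,399,406,451,377,314,454,397,287,338,458,402,336]) (.leaf [0,1,2,3,4]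
  [461,463,465,472,362,363,399,448,223,377,314,451,286,397,287,454,477,418,426,435])) (.leaf
  [0,3,2,1,4] [461,463,280,465,362,363,399,223,377,317,314,374,300,298,286,397,287,281])) (.split
  0 4 (.leaf [2,1,0,4,3] [418,426,440,448,389,363,406,393,257,150,451,377,232,458,402,147])
  (.split 0 2 (.leaf [0,1,4,3,2]
  [484,489,493,504,507,389,363,448,510,393,257,513,377,232,451,523,418,426]) (.leaf [0,1,2,3,4]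
  [461,528,463,472,362,507,363,448,529,484,493,504,223,377,513,451,477,418,523,426])))) (.split 2
  3 (.leaf [0,1,2,4,3] [356,463,280,461,309,370,30,368,223,380,317,377,374,117,300,362,357,363])
  (.leaf [2,1,0,3,4] [356,463,461,309,113,370,368,116,257,393,223,380,232,377,362,357,389,363])))
  (.split 0 2 (.split 2 3 (.split 3 4 (.split 1 4 (.leaf [0,1,4,3,2]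
  [531,195,330,275,539,426,435,440,224,451,314,332,454,287,338,269,458,336]) (.leaf [0,1,2,3,4]
  [476,195,330,531,541,463,465,472,224,223,314,451,332,286,287,454,539,477,426,435])) (.leaf
  [3,1,2,0,4] [476,195,330,541,463,280,465,224,223,317,314,374,300,298,332,286,287,281])) (.split
  1 4 (.leaf [0,2,1,4,3] [531,218,195,275,539,426,440,254,257,150,224,451,232,269,458,147])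
  (.split 1 2 (.leaf [0,1,4,3,2]
  [522,218,195,531,543,489,493,504,254,510,257,224,513,232,451,539,523,426]) (.leaf [0,1,2,3,4]
  [476,522,195,531,541,528,463,472,543,529,493,504,224,223,513,451,539,477,523,426])))) (.split 3
  4 (.leaf [0,4,2,3,1] [192,343,341,162,349,541,465,353,476,330,275,350,286,332,338,128,269,336])
  (.leaf [0,1,3,2,4]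
  [192,343,156,341,349,541,280,465,353,476,330,165,374,298,350,286,332,281]))))) (.split 0 1
  (.split 3 4 (.leaf [4,1,2,3,0]
  [356,203,463,309,69,370,113,311,118,241,61,223,380,228,232,116,70,257]) (.leaf [0,1,2,3,4]
  [356,203,280,463,309,69,30,370,311,118,110,241,374,117,67,300,223,380,228,317])) (.split 0 4
  (.split 3 4 (.leaf [0,4,2,3,1]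
  [476,204,195,218,541,203,463,239,311,241,61,224,223,228,232,254,70,257]) (.leaf [3,1,2,0,4]
  [476,204,195,541,203,280,463,239,311,110,241,374,67,300,224,223,228,317])) (.leaf [0,1,2,4,3]
  [192,168,156,343,349,203,280,541,169,311,110,239,165,374,67,353,476,204])))) (.split 0 1 (.leaf
  [4,1,2,3,0] [545,549,552,554,120,55,59,237,121,110,118,296,66,67,117,29,69,30]) (.split 0 4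
  (.split 1 4 (.leaf [0,1,2,3,4]
  [526,203,280,356,556,561,564,568,311,572,110,118,374,574,67,117,309,575,69,30]) (.leaf
  [1,0,2,3,4] [203,280,526,549,552,582,311,237,110,572,374,296,67,574,556,584,561,564])) (.leaf
  [0,4,2,3,1] [339,168,156,192,587,549,552,169,237,110,311,165,296,67,374,349,203,280]))))))
  (.split 0 4 (.split 1 2 (.split 1 4 (.split 3 4 (.leaf [0,1,2,3,4]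
  [589,588,591,592,508,25,150,33,134,37,135,14,146,147,130,132,144,49,22,145]) (.leaf [0,3,2,1,4]
  [589,588,127,591,508,25,150,134,37,163,135,593,151,162,146,147,130,128])) (.leaf [0,1,2,4,3]
  [594,588,127,589,595,51,169,61,134,64,163,37,593,168,151,508,70,25])) (.split 1 4 (.split 2 4
  (.split 3 4 (.leaf [0,3,2,1,4]
  [99,589,591,592,148,113,115,508,116,150,33,146,147,132,144,48,49,145]) (.split 1 4 (.split 2 3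
  (.leaf [0,3,2,1,4] [596,599,127,591,446,600,406,501,416,353,275,593,343,162,146,402,269,128])
  (.leaf [0,1,2,3,4]
  [596,589,599,591,446,389,600,406,508,393,254,150,501,416,218,275,146,402,147,269])) (.split 1 3
  (.split 2 3 (.leaf [0,1,2,4,3]
  [187,599,127,596,445,541,349,461,501,476,353,416,593,192,343,446,362,600]) (.leaf [0,2,1,3,4]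
  [187,589,599,596,445,541,461,508,254,393,501,476,218,416,446,362,389,600])) (.leaf [0,1,3,2,4]
  [99,589,187,596,148,113,309,368,508,116,393,445,356,461,446,357,389,362])))) (.split 1 3 (.split
  3 4 (.leaf [0,4,2,3,1] [187,594,599,589,445,203,541,595,311,239,61,501,476,204,218,508,70,254])
  (.leaf [0,1,2,3,4]
  [187,594,127,599,445,203,349,541,595,311,169,239,593,192,168,343,501,476,204,353])) (.leaf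
  [0,1,2,4,3] [99,594,187,589,148,69,309,113,595,118,311,61,445,356,203,508,116,70]))) (.split 0 1
  (.split 1 3 (.split 0 3 (.split 1 4 (.split 3 4 (.leaf [4,1,2,3,0]
  [607,608,609,618,561,556,568,620,572,311,118,470,526,203,356,575,69,309]) (.leaf [0,3,2,1,4]
  [607,608,623,609,618,561,556,620,572,169,311,625,168,192,470,526,203,349])) (.leaf [0,1,2,4,3]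
  [627,608,623,607,630,549,587,582,620,237,169,572,625,339,168,618,584,561])) (.split 1 4 (.leaf
  [0,1,2,4,3] [636,638,644,646,652,561,618,568,653,572,620,118,656,607,608,495,575,69]) (.leaf
  [0,1,2,3,4] [642,638,644,636,657,549,630,582,653,237,620,572,656,627,608,607,652,584,561,618])))
  (.leaf [0,1,2,4,3] [658,638,642,646,659,120,554,59,653,121,237,118,657,545,549,495,29,69]))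
  (.split 1 3 (.split 3 4 (.leaf [0,4,2,3,1]
  [662,594,187,99,666,608,609,595,620,311,118,445,470,203,356,148,69,309]) (.leaf [0,1,2,3,4]
  [662,594,127,187,666,608,623,609,595,620,169,311,593,625,168,192,445,470,203,349])) (.leaf
  [0,1,2,4,3] [660,594,662,99,668,638,644,646,595,653,620,118,666,656,608,148,495,69]))))) (.split
  1 2 (.leaf [0,1,2,3,4]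
  [601,478,669,160,310,51,169,595,133,64,163,134,167,168,151,593,126,594,588,127]) (.split 1 3
  (.leaf [0,4,2,3,1] [603,601,669,160,670,549,587,310,237,169,595,167,339,168,593,126,594,127])
  (.split 1 4 (.leaf [0,1,2,4,3]
  [671,601,603,160,640,638,642,668,310,653,237,595,670,657,549,126,660,594]) (.leaf [0,1,2,3,4]
  [85,601,603,671,139,120,554,659,310,121,237,653,670,545,549,657,640,658,638,642])))))) (.split 0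
  3 (.split 0 4 (.split 1 3 (.split 2 3 (.split 1 4 (.split 2 4 (.leaf [0,1,2,3,4]
  [674,676,672,677,177,178,75,76,457,170,131,132,171,79,137,20,173,90,145,23]) (.leaf [0,2,1,3,4]
  [674,679,672,676,177,75,178,680,158,162,171,79,124,137,457,170,128,131])) (.leaf [0,1,4,3,2]
  [681,679,672,674,682,165,105,107,680,156,158,171,17,124,79,177,73,75])) (.split 2 4 (.split 1 4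
  (.split 3 4 (.leaf [0,2,1,3,4]
  [674,675,676,677,177,178,76,456,591,592,457,170,146,132,173,90,144,145]) (.split 1 2 (.leaf
  [0,3,2,1,4] [683,675,679,676,685,446,406,456,596,127,591,680,593,162,457,402,146,128]) (.split 1
  3 (.leaf [0,1,3,2,4] [688,683,679,676,692,397,350,338,685,399,406,680,341,162,457,336,402,128])
  (.leaf [0,1,2,3,4]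
  [674,683,688,676,177,386,326,178,685,367,399,406,692,292,397,338,457,170,402,336])))) (.split 1
  2 (.split 2 4 (.split 3 4 (.leaf [0,4,2,3,1]
  [473,683,688,674,684,461,465,685,362,399,367,692,286,397,292,177,386,326]) (.leaf [0,1,3,2,4]
  [473,683,679,688,684,461,349,465,685,362,399,680,192,341,692,286,397,350])) (.leaf [0,1,2,4,3]
  [473,675,679,683,684,445,349,461,456,187,127,596,680,192,593,685,362,446])) (.split 3 4 (.leaf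
  [0,1,4,3,2] [681,473,688,674,682,374,298,107,684,280,465,692,281,286,292,177,73,326]) (.leaf
  [0,1,2,3,4]
  [681,473,679,688,682,374,165,298,684,280,349,465,680,156,192,341,692,281,286,350])))) (.split 0
  2 (.split 1 2 (.leaf [0,4,2,3,1]
  [697,699,703,705,706,670,587,708,603,669,160,191,339,167,593,186,126,127]) (.split 0 1 (.split 1
  4 (.split 2 4 (.leaf [4,1,2,3,0]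
  [709,723,725,729,470,349,445,732,609,623,666,734,192,625,593,187,662,127]) (.leaf [0,2,1,3,4]
  [709,736,725,723,729,349,470,739,587,630,734,192,339,625,732,609,627,623])) (.leaf [0,1,4,3,2]
  [740,736,725,709,742,296,165,374,739,552,587,734,156,339,192,729,280,349])) (.split 2 4 (.leaf
  [0,4,2,3,1] [747,749,703,705,753,723,725,757,732,623,666,191,734,625,593,186,662,127]) (.leaf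
  [0,1,2,3,4]
  [747,697,703,749,753,736,725,723,706,739,587,630,191,734,339,625,757,732,627,623])))) (.split 1
  2 (.leaf [0,4,2,3,1] [759,760,679,675,764,753,725,766,747,703,705,680,734,191,593,456,186,127])
  (.split 1 4 (.leaf [0,1,4,3,2]
  [473,759,679,675,684,729,349,445,764,709,725,680,192,734,593,456,187,127]) (.leaf [0,1,2,3,4]
  [681,759,679,473,682,742,165,374,764,740,725,709,680,156,734,192,684,280,729,349])))))) (.split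
  1 4 (.split 2 4 (.split 2 3 (.split 2 4 (.split 3 4 (.leaf [0,1,2,3,4]
  [673,683,674,677,176,368,114,115,685,357,367,767,177,91,386,76,173,48,371,90]) (.leaf
  [0,1,3,2,4] [673,683,681,674,176,368,30,114,685,357,367,682,117,107,177,91,386,73])) (.leaf
  [0,1,2,4,3] [673,473,681,683,176,309,30,368,684,356,280,461,682,117,374,685,357,362])) (.leaf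
  [0,1,2,4,3] [673,675,473,677,176,148,309,115,456,99,187,592,684,356,445,173,48,144])) (.split 0
  2 (.split 2 3 (.split 0 3 (.split 1 2 (.split 2 4 (.split 3 4 (.split 0 4 (.leaf [0,4,2,3,1]
  [773,778,779,782,785,618,556,791,607,609,666,792,526,470,445,794,662,187]) (.leaf [0,1,2,3,4]
  [803,723,709,806,810,618,556,785,732,607,609,791,729,526,470,792,814,773,778,779])) (.leaf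
  [0,1,3,2,4] [803,723,740,709,810,618,564,556,732,607,609,742,574,374,729,526,470,280])) (.leaf
  [0,1,2,4,3] [803,736,740,723,810,584,564,618,739,582,552,630,742,574,296,732,607,627])) (.split
  3 4 (.split 0 4 (.leaf [1,0,4,3,2]
  [773,779,782,575,309,148,785,568,556,792,356,526,445,794,99,187]) (.split 0 1 (.leaf [0,4,2,3,1]
  [819,823,825,835,837,575,309,842,568,556,785,843,356,526,792,851,773,779]) (.leaf [0,1,2,3,4]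
  [853,803,709,806,855,823,825,835,810,842,556,785,729,843,526,792,814,851,773,779]))) (.leaf
  [1,0,2,3,4] [803,740,709,575,30,309,810,568,564,556,742,117,574,374,729,356,526,280]))) (.split
  0 1 (.split 1 2 (.split 2 4 (.split 1 4 (.leaf [0,1,2,4,3]
  [870,881,885,887,894,896,898,903,904,909,732,666,914,918,723,920,923,662]) (.leaf [0,1,2,3,4]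
  [927,881,885,870,930,618,810,934,904,607,732,909,914,803,723,918,894,936,896,898])) (.leaf
  [2,1,0,3,4] [927,885,881,930,584,810,618,582,739,630,914,803,736,723,904,607,627,732])) (.split
  3 4 (.leaf [0,3,4,1,2] [937,927,939,887,497,575,148,930,568,785,941,773,782,920,99,794]) (.split
  1 3 (.leaf [0,1,2,3,4]
  [943,927,885,939,944,823,855,835,930,842,810,785,914,853,803,806,941,851,773,814]) (.leaf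
  [0,4,2,3,1] [937,927,943,939,497,575,837,930,568,842,785,944,819,823,835,941,773,851]))))
  (.split 2 4 (.leaf [0,1,2,4,3]
  [945,749,747,705,949,881,885,887,757,904,732,666,753,914,723,186,920,662]) (.leaf [0,2,1,3,4]
  [945,697,747,749,949,885,881,706,739,630,753,914,736,723,757,904,627,732])))) (.split 1 2 (.leaf
  [0,1,2,4,3] [799,699,697,705,950,640,642,668,708,671,603,160,706,657,670,186,660,126]) (.split 0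
  1 (.split 1 3 (.split 3 4 (.leaf [0,4,2,3,1]
  [927,951,881,887,930,652,618,952,636,644,668,904,607,656,666,920,660,662]) (.leaf [3,1,2,0,4]
  [927,951,881,930,652,584,618,952,636,642,644,582,657,630,904,607,656,627])) (.leaf [0,1,2,4,3]
  [937,951,927,887,497,495,575,148,952,646,636,668,930,568,652,920,99,660])) (.split 3 4 (.leaf
  [0,1,2,3,4] [945,799,749,705,949,951,881,887,950,952,644,668,757,904,656,666,186,920,660,662])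
  (.leaf [0,3,2,1,4]
  [945,799,697,749,949,951,881,950,952,642,644,706,657,630,757,904,656,627]))))) (.split 1 2
  (.split 2 3 (.split 3 4 (.leaf [0,1,4,3,2]
  [517,759,473,675,954,885,955,887,764,914,709,684,892,729,445,456,920,187]) (.leaf [0,3,2,1,4]
  [517,759,681,473,954,885,955,764,914,740,709,682,742,374,684,892,729,280])) (.leaf [0,1,2,4,3]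
  [517,760,759,675,954,949,885,887,766,945,747,705,764,914,753,456,920,186])) (.split 3 4 (.leaf
  [0,1,2,3,4] [673,517,473,675,176,497,309,148,954,937,955,887,684,356,892,445,456,99,920,187])
  (.leaf [0,1,3,2,4] [673,517,681,473,176,497,30,309,954,937,955,682,117,374,684,356,892,280])))))
  (.split 0 1 (.split 2 3 (.leaf [0,1,4,3,2]
  [201,877,956,958,960,554,55,59,961,545,552,373,66,296,117,308,29,30]) (.split 2 4 (.leaf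
  [0,1,2,4,3] [201,719,877,958,960,659,554,59,962,658,642,646,961,545,657,308,29,495]) (.leaf
  [2,1,0,3,4] [201,877,719,960,139,554,659,85,603,671,961,545,670,657,962,658,640,642]))) (.split
  0 2 (.split 2 3 (.split 0 3 (.split 2 4 (.leaf [4,1,2,3,0]
  [964,803,740,967,969,956,958,810,971,564,568,742,373,574,117,308,575,30]) (.leaf [0,1,2,3,4]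
  [964,736,740,803,967,877,956,969,739,961,552,582,742,373,296,574,810,971,584,564])) (.split 0 4
  (.split 2 4 (.leaf [0,1,2,4,3]
  [973,927,885,937,974,969,967,958,930,971,810,568,914,964,803,497,308,575]) (.leaf [2,1,0,3,4]
  [973,885,927,974,877,967,969,961,739,582,914,964,736,803,930,971,584,810])) (.leaf [0,1,4,3,2]
  [977,697,747,945,978,877,967,974,706,961,739,753,964,736,914,949,973,885]))) (.split 2 4 (.split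
  0 4 (.split 3 4 (.leaf [0,1,2,3,4]
  [973,951,927,937,974,719,969,958,952,962,636,646,930,971,652,568,497,308,495,575]) (.leaf
  [3,1,2,0,4] [973,951,927,974,719,877,969,952,962,642,636,961,657,582,930,971,652,584])) (.leaf
  [0,1,2,4,3] [977,799,697,945,978,719,877,974,950,962,642,952,706,961,657,949,973,951])) (.leaf
  [0,2,1,3,4] [977,699,697,799,978,877,719,708,603,671,706,961,670,657,950,962,640,642]))) (.split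
  2 3 (.leaf [0,1,4,3,2] [423,759,681,673,980,967,956,958,764,964,740,682,373,742,117,176,308,30])
  (.split 2 4 (.leaf [0,1,2,4,3]
  [423,517,759,673,980,974,967,958,954,973,885,937,764,964,914,176,308,497]) (.leaf [0,1,2,3,4]
  [423,760,759,517,980,978,967,974,766,977,747,945,764,964,753,914,954,973,949,885]))))))) (.split
  1 3 (.split 2 3 (.leaf [0,1,2,3,4]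
  [408,981,407,983,319,165,105,682,155,156,158,680,153,17,124,171,678,681,679,672]) (.split 1 2
  (.split 2 4 (.leaf [0,4,2,3,1]
  [910,985,981,983,787,706,587,745,697,703,766,155,339,191,680,678,760,679]) (.leaf [0,1,2,3,4]
  [910,441,981,985,787,670,587,706,154,603,669,708,155,339,167,191,745,697,699,703])) (.leaf
  [0,1,4,3,2] [408,910,981,983,319,296,165,682,787,552,587,155,156,339,680,678,681,679]))) (.split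
  1 4 (.split 2 3 (.leaf [0,1,4,3,2]
  [410,910,408,983,727,877,956,980,787,961,552,319,373,296,682,678,423,681]) (.split 2 4 (.leaf
  [0,1,2,4,3] [410,985,910,983,727,978,877,980,745,977,697,766,787,961,706,678,423,760]) (.leaf
  [0,2,1,3,4] [410,441,910,985,727,877,978,154,603,708,787,961,670,706,745,977,699,697]))) (.split
  2 3 (.leaf [0,1,2,3,4]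
  [43,910,408,410,174,554,55,960,787,545,552,961,319,66,296,373,727,201,877,956]) (.leaf
  [0,1,4,3,2] [43,441,910,410,174,139,554,960,154,85,603,787,545,670,961,727,201,877]))))) (.split
  0 4 (.split 1 4 (.split 2 4 (.split 3 4 (.leaf [0,1,2,3,4]
  [986,987,988,427,383,148,176,115,98,99,456,592,515,673,675,677,96,48,144,173]) (.split 1 3
  (.split 2 3 (.leaf [0,1,2,3,4]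
  [989,990,710,988,890,978,727,980,992,977,745,766,514,410,985,983,515,423,760,678]) (.leaf
  [0,2,1,3,4] [989,987,990,988,890,978,980,98,186,456,992,977,705,766,515,423,675,760])) (.leaf
  [0,1,3,2,4] [986,987,989,988,383,148,308,176,98,99,456,890,958,980,515,673,675,423]))) (.split 1
  2 (.split 3 4 (.leaf [0,1,2,3,4]
  [993,345,990,987,862,640,950,668,97,671,708,160,992,799,699,705,98,660,126,186]) (.leaf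
  [0,3,2,1,4] [993,345,710,990,862,640,950,97,671,154,708,514,441,985,992,799,699,745])) (.split 1
  3 (.split 3 4 (.leaf [0,4,2,3,1]
  [989,993,990,987,890,719,978,862,962,950,668,992,977,799,705,98,660,186]) (.leaf [0,1,3,2,4]
  [989,993,710,990,890,719,727,978,862,962,950,514,410,985,992,977,799,745])) (.leaf [0,1,2,4,3]
  [986,993,989,987,383,495,308,148,862,646,962,668,890,958,719,98,99,660])))) (.split 2 4 (.split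
  3 4 (.leaf [0,1,2,3,4]
  [199,993,989,986,382,659,960,59,862,658,962,646,890,201,719,958,383,29,495,308]) (.leaf
  [0,1,3,2,4] [199,993,710,989,382,659,174,960,862,658,962,514,43,410,890,201,719,727])) (.leaf
  [0,1,2,4,3] [199,345,710,993,382,139,174,659,97,85,154,671,514,43,441,862,658,640]))) (.leaf
  [0,1,2,3,4] [207,700,994,995,138,139,174,382,84,85,154,97,42,43,441,514,198,199,345,710])))))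

def c14_1_1_1_1 : Cert 1 4 where
  T := [[1], [1], [1], [1]]
  W := ⟨1, 1, 1, 1, 0, 0, 0⟩
  hW := rfl
  steps := (s14_1_1_1_1_0 ++ s14_1_1_1_1_1 ++ s14_1_1_1_1_2 ++ s14_1_1_1_1_3)
  tree := t14_1_1_1_1
  ok := by decide +kernel

def db144 : List (Cert 1 4) := [
c14_0_0_0_4, c14_0_0_1_3, c14_0_0_2_2, c14_0_1_1_2, c14_1_1_1_1]

theorem cov144 : covers (r := 1) (s := 4) 4 (db144.map fun c => c.T) = true := by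
  decide +kernel

def s23_00_00_40_0 : List Step := [
.ini ⟨1,0,0,0,0⟩ ⟨0,1,0,0,0⟩, .ini ⟨1,0,0,0,0⟩ ⟨0,0,1,0,0⟩, .ini ⟨1,0,0,0,0⟩ ⟨0,0,0,1,0⟩, .ini
  ⟨0,1,0,0,0⟩ ⟨1,0,0,0,0⟩, .ini ⟨0,1,0,0,0⟩ ⟨0,0,1,0,0⟩, .ini ⟨0,1,0,0,0⟩ ⟨0,0,0,1,0⟩, .ini
  ⟨0,1,0,0,0⟩ ⟨0,0,0,0,1⟩, .ini ⟨0,0,1,0,0⟩ ⟨1,0,0,0,0⟩, .ini ⟨0,0,1,0,0⟩ ⟨0,1,0,0,0⟩, .ini
  ⟨0,0,1,0,0⟩ ⟨0,0,0,1,0⟩, .ini ⟨0,0,1,0,0⟩ ⟨0,0,0,0,1⟩, .ini ⟨0,0,0,1,0⟩ ⟨1,0,0,0,0⟩, .ini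
  ⟨0,0,0,1,0⟩ ⟨0,1,0,0,0⟩, .ini ⟨0,0,0,1,0⟩ ⟨0,0,1,0,0⟩, .ini ⟨0,0,0,1,0⟩ ⟨0,0,0,0,1⟩, .ini
  ⟨0,0,0,0,1⟩ ⟨0,1,0,0,0⟩, .ini ⟨0,0,0,0,1⟩ ⟨0,0,1,0,0⟩, .ini ⟨0,0,0,0,1⟩ ⟨0,0,0,1,0⟩]

def t23_00_00_40 : Tree :=
(.leaf [4,1,2,3,0] [0,1,2,3,4,5,6,7,8,9,10,11,12,13,14,15,16,17])

def c23_00_00_40 : Cert 2 3 where
  T := [[0, 0], [0, 0], [4, 0]]
  W := ⟨0, 0, 0, 4, 0, 0, 0⟩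
  hW := rfl
  steps := s23_00_00_40_0
  tree := t23_00_00_40
  ok := by decide +kernel

def s23_00_00_31_0 : List Step := [
.ini ⟨0,0,0,0,1⟩ ⟨0,1,0,0,0⟩, .dr 0, .ini ⟨1,0,0,0,0⟩ ⟨0,1,0,0,1⟩, .sl 1 2, .sl 1 3, .sl 1 4, .ini
  ⟨1,0,0,0,3⟩ ⟨0,0,1,0,0⟩, .ini ⟨1,0,0,0,3⟩ ⟨0,0,0,1,0⟩, .ini ⟨1,0,0,0,3⟩ ⟨0,0,0,0,1⟩, .ini
  ⟨0,0,0,0,1⟩ ⟨1,0,0,0,0⟩, .dr 9, .dr 10, .dr 11, .ini ⟨0,1,0,0,0⟩ ⟨1,0,0,0,3⟩, .sl 12 13, .ini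
  ⟨0,1,0,0,1⟩ ⟨0,0,1,0,0⟩, .ini ⟨0,1,0,0,1⟩ ⟨0,0,0,1,0⟩, .ini ⟨0,1,0,0,1⟩ ⟨0,0,0,0,1⟩, .ini
  ⟨0,0,1,0,0⟩ ⟨1,0,0,0,3⟩, .ini ⟨0,0,1,0,0⟩ ⟨0,1,0,0,1⟩, .ini ⟨0,0,1,0,0⟩ ⟨0,0,0,1,0⟩, .ini
  ⟨0,0,1,0,0⟩ ⟨0,0,0,0,1⟩, .ini ⟨0,0,0,1,0⟩ ⟨1,0,0,0,3⟩, .ini ⟨0,0,0,1,0⟩ ⟨0,1,0,0,1⟩, .ini
  ⟨0,0,0,1,0⟩ ⟨0,0,1,0,0⟩, .ini ⟨0,0,0,1,0⟩ ⟨0,0,0,0,1⟩, .ini ⟨0,0,0,0,1⟩ ⟨0,0,1,0,0⟩, .ini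
  ⟨0,0,0,0,1⟩ ⟨0,0,0,1,0⟩, .ini ⟨1,0,0,0,2⟩ ⟨0,0,1,0,0⟩, .ini ⟨1,0,0,0,2⟩ ⟨0,0,0,1,0⟩, .ini
  ⟨1,0,0,0,2⟩ ⟨0,0,0,0,1⟩, .dia ⟨1,0,0,0,2⟩ 1 1, .sr 30 31, .ini ⟨0,0,1,0,0⟩ ⟨1,0,0,0,2⟩, .ini
  ⟨0,0,0,1,0⟩ ⟨1,0,0,0,2⟩, .dl 11, .ini ⟨0,1,0,0,0⟩ ⟨1,1,0,0,3⟩, .dl 0, .sr 37 14, .ini
  ⟨1,0,0,0,1⟩ ⟨0,0,0,0,1⟩, .dia ⟨1,0,0,0,1⟩ 1 1, .sr 3 40, .sr 39 41, .sr 5 35, .sl 42 43, .sl 38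
  44, .sl 36 45, .ini ⟨2,2,0,0,5⟩ ⟨0,0,1,0,0⟩, .ini ⟨2,2,0,0,5⟩ ⟨0,0,0,1,0⟩, .ini ⟨0,1,0,0,0⟩
  ⟨1,0,0,0,2⟩, .sl 49 35, .sl 31 50, .sl 49 51, .sr 0 11, .dl 53, .dr 54, .ini ⟨1,1,0,0,3⟩
  ⟨0,0,1,0,0⟩, .ini ⟨1,1,0,0,3⟩ ⟨0,0,0,1,0⟩, .ini ⟨0,0,1,0,0⟩ ⟨2,2,0,0,5⟩, .ini ⟨0,0,1,0,0⟩
  ⟨1,1,0,0,3⟩, .ini ⟨0,0,0,1,0⟩ ⟨2,2,0,0,5⟩, .ini ⟨0,0,0,1,0⟩ ⟨1,1,0,0,3⟩, .dl 10, .dr 62, .sr 4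
  63, .sr 4 64, .sr 4 31, .ini ⟨0,1,0,0,0⟩ ⟨0,1,0,0,1⟩, .sl 67 4, .sl 1 68, .ini ⟨1,1,0,0,0⟩
  ⟨0,1,0,0,1⟩, .sl 1 70, .sl 67 71, .sl 1 72, .sl 1 73, .ini ⟨1,2,0,0,3⟩ ⟨0,0,1,0,0⟩, .ini
  ⟨1,2,0,0,3⟩ ⟨0,0,0,1,0⟩, .ini ⟨1,2,0,0,3⟩ ⟨0,0,0,0,1⟩, .ini ⟨0,1,0,0,0⟩ ⟨1,0,0,0,1⟩, .sl 10 78,
  .dr 79, .dl 80, .sr 81 81, .sr 77 82, .sr 37 38, .ini ⟨0,0,1,0,0⟩ ⟨1,2,0,0,3⟩, .ini ⟨0,0,0,1,0⟩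
  ⟨1,2,0,0,3⟩, .dl 62, .sr 1 1, .ini ⟨2,0,0,0,0⟩ ⟨0,1,0,0,1⟩, .sl 1 89, .sl 1 90, .sr 91 91, .sl
  88 92, .sr 87 93, .sl 84 94, .sl 84 95, .ini ⟨2,1,0,0,4⟩ ⟨0,0,1,0,0⟩, .ini ⟨2,1,0,0,4⟩
  ⟨0,0,0,1,0⟩, .dia ⟨1,0,0,0,2⟩ 2 1, .sl 49 99, .sl 49 50, .sr 101 81, .ini ⟨0,0,1,0,0⟩
  ⟨2,1,0,0,4⟩, .ini ⟨0,0,0,1,0⟩ ⟨2,1,0,0,4⟩, .ini ⟨1,1,0,0,2⟩ ⟨0,0,0,0,1⟩, .ini ⟨1,0,0,0,2⟩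
  ⟨0,1,0,0,0⟩, .dl 106, .dr 107, .sr 105 108, .ini ⟨1,1,0,0,2⟩ ⟨0,0,1,0,0⟩, .ini ⟨1,1,0,0,2⟩
  ⟨0,0,0,1,0⟩, .sl 78 62, .dr 112, .sr 105 113, .ini ⟨0,0,1,0,0⟩ ⟨1,1,0,0,2⟩, .ini ⟨0,0,0,1,0⟩
  ⟨1,1,0,0,2⟩, .dr 106, .dl 117, .sl 1 91, .sr 119 87, .ini ⟨2,0,0,0,3⟩ ⟨0,0,1,0,0⟩, .ini
  ⟨2,0,0,0,3⟩ ⟨0,0,0,1,0⟩, .ini ⟨1,0,0,0,0⟩ ⟨1,0,0,0,2⟩, .sl 123 35, .ini ⟨0,1,0,0,0⟩ ⟨2,0,0,0,3⟩,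
  .sl 125 63, .ini ⟨0,0,1,0,0⟩ ⟨2,0,0,0,3⟩, .ini ⟨0,0,0,1,0⟩ ⟨2,0,0,0,3⟩, .ini ⟨1,0,0,0,1⟩
  ⟨0,0,1,0,0⟩, .ini ⟨1,0,0,0,1⟩ ⟨0,0,0,1,0⟩, .dia ⟨1,0,0,0,1⟩ 1 2, .sr 39 131, .ini ⟨0,0,1,0,0⟩
  ⟨1,0,0,0,1⟩, .ini ⟨0,0,0,1,0⟩ ⟨1,0,0,0,1⟩, .ini ⟨0,1,0,0,0⟩ ⟨2,1,0,0,3⟩, .sl 135 113, .ini
  ⟨1,2,0,0,2⟩ ⟨0,0,1,0,0⟩, .ini ⟨1,2,0,0,2⟩ ⟨0,0,0,1,0⟩, .ini ⟨1,0,0,0,1⟩ ⟨0,1,0,0,0⟩, .dr 139,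
  .sr 3 140, .sl 141 108, .ini ⟨2,1,0,0,3⟩ ⟨0,0,1,0,0⟩, .ini ⟨2,1,0,0,3⟩ ⟨0,0,0,1,0⟩, .sl 78 87,
  .ini ⟨0,0,1,0,0⟩ ⟨1,2,0,0,2⟩, .ini ⟨0,0,1,0,0⟩ ⟨2,1,0,0,3⟩, .ini ⟨0,0,0,1,0⟩ ⟨1,2,0,0,2⟩, .ini
  ⟨0,0,0,1,0⟩ ⟨2,1,0,0,3⟩, .sr 3 131, .ini ⟨0,1,0,0,0⟩ ⟨1,1,0,0,2⟩, .dia ⟨1,1,0,0,2⟩ 1 1, .sl 151
  152, .sl 41 152, .sl 67 73, .sl 1 155, .ini ⟨1,3,0,0,3⟩ ⟨0,0,1,0,0⟩, .ini ⟨1,3,0,0,3⟩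
  ⟨0,0,0,1,0⟩, .sl 151 81, .sr 37 84, .ini ⟨0,0,1,0,0⟩ ⟨1,3,0,0,3⟩, .ini ⟨0,0,0,1,0⟩ ⟨1,3,0,0,3⟩,
  .sr 68 108, .ini ⟨1,2,0,0,2⟩ ⟨0,0,0,0,1⟩, .dl 107, .dia ⟨1,2,0,0,2⟩ 1 1, .sr 165 166, .sr 164
  167, .sr 37 80, .dl 169, .ini ⟨0,1,0,0,0⟩ ⟨1,2,0,0,2⟩, .sl 171 142, .sl 171 172, .ini
  ⟨2,3,0,0,3⟩ ⟨0,0,1,0,0⟩, .ini ⟨2,3,0,0,3⟩ ⟨0,0,0,1,0⟩, .sl 78 145, .sl 78 176, .sr 165 136, .sr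
  165 178, .ini ⟨0,0,1,0,0⟩ ⟨2,3,0,0,3⟩, .ini ⟨0,0,0,1,0⟩ ⟨2,3,0,0,3⟩, .sr 139 140, .dr 182, .sr 3
  183, .dl 139, .ini ⟨1,1,0,0,1⟩ ⟨0,0,0,0,1⟩, .dia ⟨1,1,0,0,1⟩ 1 2, .sr 186 187, .sr 185 188, .ini
  ⟨1,1,0,0,1⟩ ⟨0,0,1,0,0⟩, .ini ⟨1,1,0,0,1⟩ ⟨0,0,0,1,0⟩, .sl 78 40, .sr 37 79, .dl 193, .dl 194,
  .ini ⟨0,0,1,0,0⟩ ⟨1,1,0,0,1⟩, .ini ⟨0,0,0,1,0⟩ ⟨1,1,0,0,1⟩, .ini ⟨1,0,0,0,0⟩ ⟨1,1,0,0,1⟩, .sl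
  140 140, .sl 198 199, .ini ⟨3,0,0,0,2⟩ ⟨0,0,1,0,0⟩, .ini ⟨3,0,0,0,2⟩ ⟨0,0,0,1,0⟩, .ini
  ⟨1,0,0,0,0⟩ ⟨1,0,0,0,1⟩, .dia ⟨1,0,0,0,1⟩ 2 1, .sl 203 204, .dl 9, .dr 206, .dr 207, .sl 78 192,
  .ini ⟨0,1,0,0,0⟩ ⟨2,0,0,0,1⟩, .sl 210 207, .sl 210 211, .sr 209 212, .sl 208 213, .hl 214 2
  ⟨1,1,0,0,1⟩, .ini ⟨0,0,1,0,0⟩ ⟨3,0,0,0,2⟩, .ini ⟨0,0,0,1,0⟩ ⟨3,0,0,0,2⟩, .ini ⟨2,0,0,0,1⟩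
  ⟨0,0,1,0,0⟩, .ini ⟨2,0,0,0,1⟩ ⟨0,0,0,1,0⟩, .ini ⟨2,0,0,0,1⟩ ⟨0,0,0,0,1⟩, .dl 206, .dr 221, .sr
  220 222, .ini ⟨0,0,1,0,0⟩ ⟨2,0,0,0,1⟩, .ini ⟨0,0,0,1,0⟩ ⟨2,0,0,0,1⟩, .dl 207, .ini ⟨0,1,0,0,0⟩
  ⟨1,1,0,0,1⟩, .sl 227 200, .sl 227 228, .ini ⟨3,2,0,0,2⟩ ⟨0,0,1,0,0⟩, .ini ⟨3,2,0,0,2⟩
  ⟨0,0,0,1,0⟩, .sl 210 226, .sl 210 232, .sr 185 215, .sr 185 234, .ini ⟨0,0,1,0,0⟩ ⟨3,2,0,0,2⟩,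
  .ini ⟨0,0,0,1,0⟩ ⟨3,2,0,0,2⟩, .ini ⟨1,0,0,0,0⟩ ⟨1,2,0,0,1⟩, .sl 238 182, .dr 239, .ini
  ⟨2,0,0,0,1⟩ ⟨0,1,0,0,0⟩, .dl 241, .ini ⟨2,1,0,0,1⟩ ⟨0,0,0,0,1⟩, .ini ⟨0,1,0,0,0⟩ ⟨3,0,0,0,1⟩,
  .sl 244 222, .sr 242 245, .sr 243 246, .sr 242 247, .ini ⟨2,1,0,0,1⟩ ⟨0,0,1,0,0⟩, .ini
  ⟨2,1,0,0,1⟩ ⟨0,0,0,1,0⟩, .dia ⟨2,0,0,0,1⟩ 1 1, .sl 210 251, .sr 185 211, .dl 253, .ini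
  ⟨0,0,1,0,0⟩ ⟨2,1,0,0,1⟩, .ini ⟨0,0,0,1,0⟩ ⟨2,1,0,0,1⟩, .dr 241, .ini ⟨1,0,0,0,0⟩ ⟨2,1,0,0,1⟩,
  .sl 258 257, .ini ⟨3,0,0,0,1⟩ ⟨0,0,1,0,0⟩, .ini ⟨3,0,0,0,1⟩ ⟨0,0,0,1,0⟩, .ini ⟨1,0,0,0,0⟩
  ⟨2,0,0,0,1⟩, .sl 262 251, .ini ⟨0,0,1,0,0⟩ ⟨3,0,0,0,1⟩, .ini ⟨0,0,0,1,0⟩ ⟨3,0,0,0,1⟩, .ini
  ⟨1,0,0,0,0⟩ ⟨0,0,1,0,0⟩, .ini ⟨1,0,0,0,0⟩ ⟨0,0,0,1,0⟩, .ini ⟨1,0,0,0,0⟩ ⟨3,0,0,0,1⟩, .ini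
  ⟨0,0,1,0,0⟩ ⟨1,0,0,0,0⟩, .ini ⟨0,0,0,1,0⟩ ⟨1,0,0,0,0⟩, .dl 221, .ini ⟨1,0,0,0,0⟩ ⟨0,1,0,0,0⟩,
  .ini ⟨0,1,0,0,0⟩ ⟨1,0,0,0,0⟩, .ini ⟨0,1,0,0,0⟩ ⟨0,0,1,0,0⟩, .ini ⟨0,1,0,0,0⟩ ⟨0,0,0,1,0⟩, .ini
  ⟨0,0,1,0,0⟩ ⟨0,1,0,0,0⟩, .ini ⟨0,0,0,1,0⟩ ⟨0,1,0,0,0⟩]

def t23_00_00_31 : Tree :=
(.split 1 4 (.split 0 4 (.split 0 4 (.split 0 4 (.leaf [0,1,2,3,4]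
  [5,6,7,8,14,15,16,17,18,19,20,21,22,23,24,25,12,1,26,27]) (.leaf [1,0,2,3,4]
  [28,29,32,15,16,14,33,19,20,18,34,23,24,22,35,5,6,7])) (.split 0 1 (.split 0 1 (.split 0 4
  (.split 1 4 (.leaf [0,1,2,3,4] [46,47,48,52,55,56,57,50,58,59,20,33,60,61,24,34,65,66,28,29])
  (.leaf [1,0,2,3,4] [47,48,46,15,16,38,58,19,20,59,60,23,24,61,55,69,56,57])) (.leaf [0,4,2,3,1]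
  [74,75,76,83,84,15,16,85,19,20,58,86,23,24,60,96,47,48])) (.split 0 4 (.leaf [0,4,2,3,1]
  [95,97,98,100,102,75,76,103,85,20,33,104,86,24,34,64,28,29]) (.leaf [0,1,2,3,4]
  [109,110,111,114,81,75,76,102,115,85,20,103,116,86,24,104,118,95,97,98]))) (.split 0 4 (.leaf
  [0,4,2,3,1] [120,121,122,124,126,110,111,127,115,20,33,128,116,24,34,63,28,29]) (.leaf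
  [1,0,2,3,4] [129,130,132,110,111,126,133,115,20,127,134,116,24,128,87,120,121,122])))) (.split 0
  1 (.split 0 1 (.split 1 4 (.split 1 4 (.leaf [4,1,2,3,0]
  [136,137,138,142,143,144,145,146,147,20,133,148,149,24,134,150,129,130]) (.leaf [0,1,2,3,4]
  [153,137,138,136,108,110,111,113,146,115,20,147,148,116,24,149,142,154,143,144])) (.split 0 1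
  (.leaf [0,4,2,3,1] [156,157,158,159,160,15,16,161,19,20,115,162,23,24,116,163,110,111]) (.leaf
  [0,1,2,3,4] [168,137,138,153,170,157,158,159,146,161,20,115,148,162,24,116,108,163,110,111])))
  (.split 0 1 (.leaf [0,4,2,3,1]
  [173,174,175,177,179,137,138,180,146,20,133,181,148,24,134,184,129,130]) (.leaf [0,1,2,3,4]
  [189,190,191,192,195,174,175,177,196,180,20,133,197,181,24,134,140,184,129,130]))) (.split 0 4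
  (.split 0 4 (.leaf [0,1,2,3,4]
  [200,201,202,205,215,190,191,192,216,196,20,133,217,197,24,134,208,140,129,130]) (.leaf
  [1,0,2,3,4] [218,219,223,190,191,215,224,196,20,216,225,197,24,217,226,200,201,202])) (.split 0
  1 (.split 0 1 (.leaf [0,4,2,3,1]
  [229,230,231,233,235,190,191,236,196,20,224,237,197,24,225,240,218,219]) (.leaf [0,1,2,3,4]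
  [248,249,250,252,254,230,231,233,255,236,20,224,256,237,24,225,257,240,218,219])) (.split 0 4
  (.leaf [0,1,2,3,4]
  [259,260,261,263,245,249,250,252,264,255,20,224,265,256,24,225,222,257,218,219]) (.leaf
  [1,0,2,3,4] [266,267,268,249,250,245,269,255,20,264,270,256,24,265,271,259,260,261])))))) (.leaf
  [4,1,2,3,0] [272,266,267,273,274,275,67,269,276,20,19,270,277,24,23,37,15,16]))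

def c23_00_00_31 : Cert 2 3 where
  T := [[0, 0], [0, 0], [3, 1]]
  W := ⟨0, 0, 0, 3, 0, 0, 1⟩
  hW := rfl
  steps := s23_00_00_31_0
  tree := t23_00_00_31
  ok := by decide +kernel

def s23_00_00_22_0 : List Step := [
.ini ⟨0,0,0,0,1⟩ ⟨0,1,0,0,0⟩, .dr 0, .dr 1, .ini ⟨1,0,0,0,0⟩ ⟨0,1,0,0,2⟩, .sl 2 3, .sl 2 4, .ini
  ⟨1,0,0,0,2⟩ ⟨0,0,1,0,0⟩, .ini ⟨1,0,0,0,2⟩ ⟨0,0,0,1,0⟩, .ini ⟨1,0,0,0,2⟩ ⟨0,0,0,0,1⟩, .ini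
  ⟨0,0,0,0,1⟩ ⟨1,0,0,0,0⟩, .dr 9, .dr 10, .ini ⟨0,1,0,0,0⟩ ⟨1,0,0,0,2⟩, .sl 11 12, .sl 11 13, .ini
  ⟨0,1,0,0,2⟩ ⟨0,0,1,0,0⟩, .ini ⟨0,1,0,0,2⟩ ⟨0,0,0,1,0⟩, .ini ⟨0,1,0,0,2⟩ ⟨0,0,0,0,1⟩, .ini
  ⟨0,0,1,0,0⟩ ⟨1,0,0,0,2⟩, .ini ⟨0,0,1,0,0⟩ ⟨0,1,0,0,2⟩, .ini ⟨0,0,1,0,0⟩ ⟨0,0,0,1,0⟩, .ini
  ⟨0,0,1,0,0⟩ ⟨0,0,0,0,1⟩, .ini ⟨0,0,0,1,0⟩ ⟨1,0,0,0,2⟩, .ini ⟨0,0,0,1,0⟩ ⟨0,1,0,0,2⟩, .ini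
  ⟨0,0,0,1,0⟩ ⟨0,0,1,0,0⟩, .ini ⟨0,0,0,1,0⟩ ⟨0,0,0,0,1⟩, .ini ⟨0,0,0,0,1⟩ ⟨0,0,1,0,0⟩, .ini
  ⟨0,0,0,0,1⟩ ⟨0,0,0,1,0⟩, .ini ⟨0,1,0,0,1⟩ ⟨0,0,1,0,0⟩, .ini ⟨0,1,0,0,1⟩ ⟨0,0,0,1,0⟩, .ini
  ⟨0,1,0,0,1⟩ ⟨0,0,0,0,1⟩, .dia ⟨0,1,0,0,1⟩ 1 1, .sr 30 31, .ini ⟨0,0,1,0,0⟩ ⟨0,1,0,0,1⟩, .ini
  ⟨0,0,0,1,0⟩ ⟨0,1,0,0,1⟩, .dl 1, .ini ⟨1,0,0,0,0⟩ ⟨0,2,0,0,1⟩, .dl 0, .dr 37, .sl 38 38, .sl 36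
  39, .ini ⟨1,2,0,0,2⟩ ⟨0,0,1,0,0⟩, .ini ⟨1,2,0,0,2⟩ ⟨0,0,0,1,0⟩, .ini ⟨0,1,0,0,0⟩ ⟨0,1,0,0,1⟩,
  .ini ⟨1,0,0,0,0⟩ ⟨0,1,0,0,1⟩, .sl 44 35, .sl 43 45, .ini ⟨0,1,0,0,0⟩ ⟨1,2,0,0,2⟩, .ini
  ⟨0,1,0,0,1⟩ ⟨1,0,0,0,0⟩, .dr 48, .dr 49, .sl 47 50, .ini ⟨0,2,0,0,1⟩ ⟨0,0,1,0,0⟩, .ini
  ⟨0,2,0,0,1⟩ ⟨0,0,0,1,0⟩, .sl 43 31, .ini ⟨0,0,1,0,0⟩ ⟨1,2,0,0,2⟩, .ini ⟨0,0,1,0,0⟩ ⟨0,2,0,0,1⟩,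
  .ini ⟨0,0,0,1,0⟩ ⟨1,2,0,0,2⟩, .ini ⟨0,0,0,1,0⟩ ⟨0,2,0,0,1⟩, .ini ⟨0,1,0,0,0⟩ ⟨0,0,1,0,0⟩, .ini
  ⟨0,1,0,0,0⟩ ⟨0,0,0,1,0⟩, .ini ⟨0,1,0,0,0⟩ ⟨0,2,0,0,1⟩, .ini ⟨0,0,1,0,0⟩ ⟨0,1,0,0,0⟩, .ini
  ⟨0,0,0,1,0⟩ ⟨0,1,0,0,0⟩, .dl 37, .ini ⟨1,1,0,0,2⟩ ⟨0,0,1,0,0⟩, .ini ⟨1,1,0,0,2⟩ ⟨0,0,0,1,0⟩,
  .ini ⟨0,0,1,0,0⟩ ⟨1,1,0,0,2⟩, .ini ⟨0,0,0,1,0⟩ ⟨1,1,0,0,2⟩, .ini ⟨0,1,0,0,0⟩ ⟨1,0,0,0,1⟩, .sl 10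
  69, .dr 70, .ini ⟨0,0,0,0,1⟩ ⟨1,1,0,0,0⟩, .dr 72, .dr 73, .dl 74, .dl 75, .ini ⟨2,2,0,0,5⟩
  ⟨0,0,1,0,0⟩, .ini ⟨2,2,0,0,5⟩ ⟨0,0,0,1,0⟩, .ini ⟨1,1,0,0,2⟩ ⟨0,0,0,0,1⟩, .dia ⟨1,1,0,0,2⟩ 1 2,
  .sr 79 80, .ini ⟨0,0,1,0,0⟩ ⟨2,2,0,0,5⟩, .ini ⟨0,0,0,1,0⟩ ⟨2,2,0,0,5⟩, .ini ⟨2,1,0,0,4⟩
  ⟨0,0,1,0,0⟩, .ini ⟨2,1,0,0,4⟩ ⟨0,0,0,1,0⟩, .dl 10, .sl 86 86, .sl 69 87, .sl 1 44, .dr 89, .sr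
  90 4, .sl 1 45, .dr 92, .sl 91 93, .sr 88 94, .ini ⟨0,0,1,0,0⟩ ⟨2,1,0,0,4⟩, .ini ⟨0,0,0,1,0⟩
  ⟨2,1,0,0,4⟩, .ini ⟨0,1,0,0,0⟩ ⟨2,1,0,0,4⟩, .sr 71 13, .sr 86 5, .sl 100 100, .sr 87 101, .sl 99
  102, .sl 98 103, .sl 69 86, .sl 10 105, .dr 106, .sl 99 107, .ini ⟨1,2,0,0,4⟩ ⟨0,0,1,0,0⟩, .ini
  ⟨1,2,0,0,4⟩ ⟨0,0,0,1,0⟩, .sl 35 35, .sl 44 111, .ini ⟨0,0,1,0,0⟩ ⟨1,2,0,0,4⟩, .ini ⟨0,0,0,1,0⟩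
  ⟨1,2,0,0,4⟩, .sr 30 50, .sr 30 115, .ini ⟨1,1,0,0,3⟩ ⟨0,0,1,0,0⟩, .ini ⟨1,1,0,0,3⟩ ⟨0,0,0,1,0⟩,
  .ini ⟨0,1,0,0,0⟩ ⟨1,1,0,0,3⟩, .sl 119 101, .ini ⟨0,0,1,0,0⟩ ⟨1,1,0,0,3⟩, .ini ⟨0,0,0,1,0⟩
  ⟨1,1,0,0,3⟩, .dr 74, .dl 123, .sl 119 124, .sr 86 100, .ini ⟨1,0,0,0,0⟩ ⟨1,0,0,0,2⟩, .ini
  ⟨1,1,0,0,1⟩ ⟨0,0,0,0,1⟩, .dia ⟨1,0,0,0,1⟩ 1 1, .sl 69 129, .sr 128 130, .sl 127 131, .sl 11 132,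
  .sl 11 133, .sl 11 134, .sl 11 131, .sl 11 136, .ini ⟨1,0,0,0,1⟩ ⟨0,0,1,0,0⟩, .ini ⟨1,0,0,0,1⟩
  ⟨0,0,0,1,0⟩, .ini ⟨1,0,0,0,1⟩ ⟨0,0,0,0,1⟩, .sr 140 129, .ini ⟨0,0,1,0,0⟩ ⟨1,0,0,0,1⟩, .ini
  ⟨0,0,0,1,0⟩ ⟨1,0,0,0,1⟩, .sr 48 71, .dr 144, .dr 145, .sl 44 112, .sl 44 147, .ini ⟨1,0,0,0,1⟩
  ⟨0,1,0,0,0⟩, .dr 149, .dr 150, .sr 89 151, .dl 152, .sr 148 153, .sl 146 154, .ini ⟨3,3,0,0,5⟩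
  ⟨0,0,1,0,0⟩, .ini ⟨3,3,0,0,5⟩ ⟨0,0,0,1,0⟩, .ini ⟨0,1,0,0,0⟩ ⟨1,1,0,0,2⟩, .ini ⟨1,0,0,0,0⟩
  ⟨1,1,0,0,2⟩, .sl 159 76, .sl 158 160, .sl 43 147, .sl 69 88, .sl 69 163, .dl 145, .sr 164 165,
  .sr 162 166, .ini ⟨2,3,0,0,4⟩ ⟨0,0,1,0,0⟩, .ini ⟨2,3,0,0,4⟩ ⟨0,0,0,1,0⟩, .ini ⟨0,0,1,0,0⟩
  ⟨3,3,0,0,5⟩, .ini ⟨0,0,1,0,0⟩ ⟨2,3,0,0,4⟩, .ini ⟨0,0,0,1,0⟩ ⟨3,3,0,0,5⟩, .ini ⟨0,0,0,1,0⟩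
  ⟨2,3,0,0,4⟩, .dl 73, .dr 174, .dr 175, .sl 44 45, .dl 150, .sr 177 178, .sl 50 179, .ini
  ⟨2,2,0,0,3⟩ ⟨0,0,1,0,0⟩, .ini ⟨2,2,0,0,3⟩ ⟨0,0,0,1,0⟩, .sl 31 45, .sl 44 183, .dia ⟨2,2,0,0,3⟩ 1
  1, .sr 184 185, .ini ⟨1,2,0,0,2⟩ ⟨0,0,0,0,1⟩, .dl 49, .sr 188 188, .sr 187 189, .sr 46 189, .sr
  187 191, .ini ⟨0,0,1,0,0⟩ ⟨2,2,0,0,3⟩, .ini ⟨0,0,0,1,0⟩ ⟨2,2,0,0,3⟩, .sl 50 180, .ini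
  ⟨3,2,0,0,4⟩ ⟨0,0,1,0,0⟩, .ini ⟨3,2,0,0,4⟩ ⟨0,0,0,1,0⟩, .sl 129 105, .sl 69 198, .sl 69 105, .sr
  200 188, .sl 151 201, .sr 199 202, .sr 184 203, .ini ⟨0,0,1,0,0⟩ ⟨3,2,0,0,4⟩, .ini ⟨0,0,0,1,0⟩
  ⟨3,2,0,0,4⟩, .dr 152, .ini ⟨1,0,0,0,0⟩ ⟨1,0,0,0,1⟩, .sl 208 88, .sl 69 209, .sl 44 31, .dl 149,
  .dr 212, .sr 211 213, .ini ⟨1,1,0,0,1⟩ ⟨0,0,1,0,0⟩, .ini ⟨1,1,0,0,1⟩ ⟨0,0,0,1,0⟩, .sr 128 213,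
  .ini ⟨0,1,0,0,0⟩ ⟨1,1,0,0,1⟩, .sl 218 188, .ini ⟨1,3,0,0,2⟩ ⟨0,0,1,0,0⟩, .ini ⟨1,3,0,0,2⟩
  ⟨0,0,0,1,0⟩, .dia ⟨1,2,0,0,2⟩ 1 1, .sl 47 222, .ini ⟨0,0,1,0,0⟩ ⟨1,1,0,0,1⟩, .ini ⟨0,0,1,0,0⟩
  ⟨1,3,0,0,2⟩, .ini ⟨0,0,0,1,0⟩ ⟨1,1,0,0,1⟩, .ini ⟨0,0,0,1,0⟩ ⟨1,3,0,0,2⟩, .sr 188 40, .ini
  ⟨1,0,0,0,0⟩ ⟨0,3,0,0,1⟩, .sr 37 38, .sl 230 230, .sl 229 231, .sl 229 232, .hl 233 2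
  ⟨1,1,0,0,1⟩, .dr 234, .sl 218 219, .ini ⟨1,4,0,0,2⟩ ⟨0,0,1,0,0⟩, .ini ⟨1,4,0,0,2⟩ ⟨0,0,0,1,0⟩,
  .ini ⟨0,1,0,0,0⟩ ⟨1,3,0,0,2⟩, .dia ⟨1,3,0,0,2⟩ 1 1, .sl 239 240, .ini ⟨0,0,1,0,0⟩ ⟨1,4,0,0,2⟩,
  .ini ⟨0,0,0,1,0⟩ ⟨1,4,0,0,2⟩, .dl 212, .sl 0 244, .dl 245, .dr 246, .ini ⟨0,1,0,0,0⟩
  ⟨1,4,0,0,2⟩, .dl 246, .ini ⟨2,1,0,0,2⟩ ⟨0,0,1,0,0⟩, .ini ⟨2,1,0,0,2⟩ ⟨0,0,0,1,0⟩, .ini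
  ⟨0,1,0,0,0⟩ ⟨1,0,0,0,0⟩, .dl 9, .sl 252 253, .dr 254, .sr 128 255, .ini ⟨0,0,1,0,0⟩ ⟨2,1,0,0,2⟩,
  .ini ⟨0,0,0,1,0⟩ ⟨2,1,0,0,2⟩, .sl 208 105, .ini ⟨1,0,0,0,0⟩ ⟨2,1,0,0,2⟩, .sl 260 151, .ini
  ⟨2,0,0,0,1⟩ ⟨0,0,1,0,0⟩, .ini ⟨2,0,0,0,1⟩ ⟨0,0,0,1,0⟩, .sl 208 129, .ini ⟨0,1,0,0,0⟩
  ⟨2,0,0,0,1⟩, .dr 253, .sl 266 266, .sl 265 267, .ini ⟨0,0,1,0,0⟩ ⟨2,0,0,0,1⟩, .ini ⟨0,0,0,1,0⟩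
  ⟨2,0,0,0,1⟩, .ini ⟨1,0,0,0,0⟩ ⟨1,2,0,0,1⟩, .sl 271 213, .ini ⟨2,1,0,0,1⟩ ⟨0,0,1,0,0⟩, .ini
  ⟨2,1,0,0,1⟩ ⟨0,0,0,1,0⟩, .ini ⟨1,0,0,0,0⟩ ⟨1,1,0,0,1⟩, .dia ⟨1,1,0,0,1⟩ 1 1, .sl 275 276, .ini
  ⟨0,1,0,0,0⟩ ⟨2,1,0,0,1⟩, .sl 278 255, .ini ⟨1,2,0,0,1⟩ ⟨0,0,1,0,0⟩, .ini ⟨1,2,0,0,1⟩
  ⟨0,0,0,1,0⟩, .sl 218 276, .ini ⟨0,0,1,0,0⟩ ⟨2,1,0,0,1⟩, .ini ⟨0,0,1,0,0⟩ ⟨1,2,0,0,1⟩, .ini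
  ⟨0,0,0,1,0⟩ ⟨2,1,0,0,1⟩, .ini ⟨0,0,0,1,0⟩ ⟨1,2,0,0,1⟩, .ini ⟨0,1,0,0,0⟩ ⟨1,2,0,0,1⟩, .dl 253,
  .sl 275 150, .sr 288 289, .dl 290, .ini ⟨4,1,0,0,2⟩ ⟨0,0,1,0,0⟩, .ini ⟨4,1,0,0,2⟩ ⟨0,0,0,1,0⟩,
  .sl 275 178, .sl 275 294, .dl 254, .ini ⟨2,1,0,0,1⟩ ⟨0,0,0,0,1⟩, .dia ⟨2,1,0,0,1⟩ 1 1, .sr 296
  298]

def s23_00_00_22_1 : List Step := [
.sr 297 299, .sr 296 300, .ini ⟨0,0,1,0,0⟩ ⟨4,1,0,0,2⟩, .ini ⟨0,0,0,1,0⟩ ⟨4,1,0,0,2⟩, .ini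
  ⟨0,1,0,0,0⟩ ⟨3,0,0,0,1⟩, .sr 253 266, .sl 305 305, .sl 304 306, .sl 304 307, .hl 308 2
  ⟨1,1,0,0,1⟩, .dr 309, .sr 288 261, .sr 288 311, .ini ⟨1,0,0,0,0⟩ ⟨2,0,0,0,1⟩, .sl 313 267, .sl
  265 314, .sl 313 315, .ini ⟨1,0,0,0,0⟩ ⟨0,1,0,0,0⟩, .ini ⟨1,0,0,0,0⟩ ⟨0,0,1,0,0⟩, .ini
  ⟨1,0,0,0,0⟩ ⟨0,0,0,1,0⟩, .ini ⟨0,0,1,0,0⟩ ⟨1,0,0,0,0⟩, .ini ⟨0,0,0,1,0⟩ ⟨1,0,0,0,0⟩]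

def t23_00_00_22 : Tree :=
(.split 0 4 (.split 0 4 (.split 1 4 (.split 1 4 (.leaf [0,1,2,3,4]
  [5,6,7,8,14,15,16,17,18,19,20,21,22,23,24,25,11,2,26,27]) (.leaf [1,0,2,3,4]
  [6,7,5,28,29,32,18,33,20,19,22,34,24,23,14,35,15,16])) (.split 0 1 (.split 0 1 (.split 1 4
  (.leaf [0,1,2,3,4] [40,41,42,46,51,52,53,54,55,56,20,33,57,58,24,34,50,38,28,29]) (.leaf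
  [1,0,2,3,4] [41,42,40,59,60,61,55,62,20,56,57,63,24,58,51,64,52,53])) (.leaf [1,0,2,3,4]
  [65,66,45,41,42,46,67,55,20,33,68,57,24,34,71,50,28,29])) (.split 0 1 (.split 0 4 (.leaf
  [4,1,2,3,0] [76,77,78,81,65,66,45,82,67,20,33,83,68,24,34,71,28,29]) (.leaf [1,0,2,3,4]
  [84,85,95,65,66,81,96,67,20,82,97,68,24,83,104,76,77,78])) (.split 0 4 (.split 0 4 (.leaf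
  [0,4,2,3,1] [108,109,110,112,94,84,85,113,96,20,33,114,97,24,34,116,28,29]) (.leaf [0,1,2,3,4]
  [107,117,118,93,120,84,85,94,121,96,20,113,122,97,24,114,125,108,109,110])) (.leaf [0,1,2,3,4]
  [126,6,7,100,135,84,85,120,18,96,20,121,22,97,24,122,137,107,117,118]))))) (.split 1 4 (.leaf
  [0,4,2,3,1] [90,138,139,141,105,65,66,142,67,20,18,143,68,24,22,86,6,7]) (.split 1 4 (.split 1 4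
  (.split 0 1 (.leaf [0,4,2,3,1]
  [155,156,157,161,167,168,169,170,171,20,67,172,173,24,68,176,65,66]) (.leaf [1,0,2,3,4]
  [138,139,90,156,157,161,142,170,20,67,143,172,24,68,105,176,65,66])) (.split 0 1 (.leaf
  [0,1,2,3,4] [180,181,182,186,190,41,42,192,193,55,20,171,194,57,24,173,165,195,168,169]) (.split
  0 1 (.leaf [0,1,2,3,4]
  [153,196,197,154,204,181,182,186,205,193,20,171,206,194,24,173,166,165,168,169]) (.leaf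
  [4,1,2,3,0] [207,138,139,210,196,197,154,142,205,20,171,143,206,24,173,166,168,169])))) (.split
  0 1 (.split 1 4 (.leaf [0,1,2,3,4]
  [214,215,216,217,219,220,221,223,224,225,20,55,226,227,24,57,188,228,41,42]) (.split 1 4 (.leaf
  [0,1,2,3,4] [235,215,216,214,236,237,238,241,224,242,20,225,226,243,24,227,219,247,220,221])
  (.leaf [1,0,2,3,4] [215,216,235,59,60,248,224,62,20,242,226,63,24,243,236,249,237,238])))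
  (.split 0 1 (.leaf [0,1,2,3,4]
  [178,250,251,179,256,215,216,217,257,224,20,55,258,226,24,57,201,188,41,42]) (.leaf [4,1,2,3,0]
  [151,138,139,259,250,251,179,142,257,20,55,143,258,24,57,201,41,42])))))) (.split 0 4 (.split 1
  4 (.split 1 4 (.leaf [0,1,2,3,4]
  [261,262,263,264,268,250,251,259,269,257,20,142,270,258,24,143,266,151,138,139]) (.leaf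
  [1,0,2,3,4] [262,263,261,215,216,256,269,224,20,257,270,226,24,258,268,178,250,251])) (.split 0
  1 (.split 1 4 (.leaf [0,1,2,3,4]
  [272,273,274,277,279,280,281,282,283,284,20,224,285,286,24,226,255,213,215,216]) (.leaf
  [1,0,2,3,4] [273,274,272,59,60,287,283,62,20,284,285,63,24,286,279,244,280,281])) (.split 0 1
  (.leaf [0,1,2,3,4]
  [291,292,293,295,301,273,274,277,302,283,20,224,303,285,24,226,310,255,215,216]) (.leaf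
  [4,1,2,3,0] [312,262,263,316,292,293,295,269,302,20,224,270,303,24,226,310,215,216])))) (.leaf
  [0,4,2,3,1] [317,318,319,313,252,59,60,320,62,20,269,321,63,24,270,288,262,263])))

def c23_00_00_22 : Cert 2 3 where
  T := [[0, 0], [0, 0], [2, 2]]
  W := ⟨0, 0, 0, 2, 0, 0, 2⟩
  hW := rfl
  steps := s23_00_00_22_0 ++ s23_00_00_22_1
  tree := t23_00_00_22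
  ok := by decide +kernel

def s23_00_00_13_0 : List Step := [
.ini ⟨0,0,0,0,1⟩ ⟨0,1,0,0,0⟩, .dr 0, .dr 1, .dr 2, .ini ⟨1,0,0,0,0⟩ ⟨0,1,0,0,3⟩, .sl 3 4, .ini
  ⟨1,0,0,0,1⟩ ⟨0,0,1,0,0⟩, .ini ⟨1,0,0,0,1⟩ ⟨0,0,0,1,0⟩, .ini ⟨1,0,0,0,1⟩ ⟨0,0,0,0,1⟩, .ini
  ⟨0,0,0,0,1⟩ ⟨1,0,0,0,0⟩, .dr 9, .ini ⟨0,1,0,0,0⟩ ⟨1,0,0,0,1⟩, .sl 10 11, .sl 10 12, .sl 10 13,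
  .ini ⟨0,1,0,0,3⟩ ⟨0,0,1,0,0⟩, .ini ⟨0,1,0,0,3⟩ ⟨0,0,0,1,0⟩, .ini ⟨0,1,0,0,3⟩ ⟨0,0,0,0,1⟩, .ini
  ⟨0,0,1,0,0⟩ ⟨1,0,0,0,1⟩, .ini ⟨0,0,1,0,0⟩ ⟨0,1,0,0,3⟩, .ini ⟨0,0,1,0,0⟩ ⟨0,0,0,1,0⟩, .ini
  ⟨0,0,1,0,0⟩ ⟨0,0,0,0,1⟩, .ini ⟨0,0,0,1,0⟩ ⟨1,0,0,0,1⟩, .ini ⟨0,0,0,1,0⟩ ⟨0,1,0,0,3⟩, .ini
  ⟨0,0,0,1,0⟩ ⟨0,0,1,0,0⟩, .ini ⟨0,0,0,1,0⟩ ⟨0,0,0,0,1⟩, .ini ⟨0,0,0,0,1⟩ ⟨0,0,1,0,0⟩, .ini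
  ⟨0,0,0,0,1⟩ ⟨0,0,0,1,0⟩, .ini ⟨0,1,0,0,2⟩ ⟨0,0,1,0,0⟩, .ini ⟨0,1,0,0,2⟩ ⟨0,0,0,1,0⟩, .ini
  ⟨0,1,0,0,2⟩ ⟨0,0,0,0,1⟩, .dia ⟨0,1,0,0,2⟩ 1 1, .sr 30 31, .ini ⟨0,0,1,0,0⟩ ⟨0,1,0,0,2⟩, .ini
  ⟨0,0,0,1,0⟩ ⟨0,1,0,0,2⟩, .dl 2, .ini ⟨1,0,0,0,0⟩ ⟨0,2,0,0,3⟩, .dl 1, .dr 37, .sl 36 38, .ini
  ⟨1,1,0,0,2⟩ ⟨0,0,1,0,0⟩, .ini ⟨1,1,0,0,2⟩ ⟨0,0,0,1,0⟩, .dl 37, .ini ⟨0,2,0,0,0⟩ ⟨1,0,0,0,1⟩, .sl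
  10 43, .sl 10 44, .sl 10 45, .sr 42 46, .ini ⟨0,2,0,0,3⟩ ⟨0,0,1,0,0⟩, .ini ⟨0,2,0,0,3⟩
  ⟨0,0,0,1,0⟩, .ini ⟨0,1,0,0,0⟩ ⟨0,1,0,0,2⟩, .sl 50 35, .ini ⟨0,0,1,0,0⟩ ⟨1,1,0,0,2⟩, .ini
  ⟨0,0,1,0,0⟩ ⟨0,2,0,0,3⟩, .ini ⟨0,0,0,1,0⟩ ⟨1,1,0,0,2⟩, .ini ⟨0,0,0,1,0⟩ ⟨0,2,0,0,3⟩, .ini
  ⟨0,1,0,0,1⟩ ⟨0,0,1,0,0⟩, .ini ⟨0,1,0,0,1⟩ ⟨0,0,0,1,0⟩, .ini ⟨0,1,0,0,1⟩ ⟨0,0,0,0,1⟩, .dia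
  ⟨0,1,0,0,1⟩ 1 2, .sr 58 59, .ini ⟨0,0,1,0,0⟩ ⟨0,1,0,0,1⟩, .ini ⟨0,0,0,1,0⟩ ⟨0,1,0,0,1⟩, .sr 9 2,
  .dl 63, .dl 64, .ini ⟨2,2,0,0,5⟩ ⟨0,0,1,0,0⟩, .ini ⟨2,2,0,0,5⟩ ⟨0,0,0,1,0⟩, .ini ⟨1,0,0,0,0⟩
  ⟨0,1,0,0,2⟩, .sl 68 35, .sl 31 69, .sl 68 70, .ini ⟨1,1,0,0,2⟩ ⟨0,0,0,0,1⟩, .dia ⟨1,1,0,0,2⟩ 1
  2, .sr 72 73, .ini ⟨0,0,1,0,0⟩ ⟨2,2,0,0,5⟩, .ini ⟨0,0,0,1,0⟩ ⟨2,2,0,0,5⟩, .sr 13 38, .sr 13 77,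
  .ini ⟨1,0,0,0,0⟩ ⟨0,1,0,0,1⟩, .sl 1 79, .dr 80, .dl 81, .ini ⟨2,1,0,0,3⟩ ⟨0,0,1,0,0⟩, .ini
  ⟨2,1,0,0,3⟩ ⟨0,0,0,1,0⟩, .ini ⟨2,1,0,0,3⟩ ⟨0,0,0,0,1⟩, .sr 82 82, .sr 85 86, .ini ⟨0,1,0,0,2⟩
  ⟨1,0,0,0,0⟩, .dl 88, .dr 89, .sr 72 90, .ini ⟨0,0,1,0,0⟩ ⟨2,1,0,0,3⟩, .ini ⟨0,0,0,1,0⟩
  ⟨2,1,0,0,3⟩, .dl 9, .sr 94 5, .sr 94 95, .sr 10 10, .sr 45 45, .sl 97 98, .sr 42 99, .sl 96 100,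
  .sl 96 101, .dr 64, .ini ⟨1,1,0,0,3⟩ ⟨0,0,1,0,0⟩, .ini ⟨1,1,0,0,3⟩ ⟨0,0,0,1,0⟩, .ini ⟨0,1,0,0,0⟩
  ⟨1,1,0,0,3⟩, .dr 63, .dl 107, .sl 95 108, .sl 106 109, .ini ⟨0,0,1,0,0⟩ ⟨1,1,0,0,3⟩, .ini
  ⟨0,0,0,1,0⟩ ⟨1,1,0,0,3⟩, .sr 13 31, .ini ⟨1,0,0,0,0⟩ ⟨1,0,0,0,1⟩, .ini ⟨1,1,0,0,0⟩ ⟨1,0,0,0,1⟩,
  .sl 10 115, .sl 114 116, .sl 10 117, .sl 10 118, .sl 114 13, .sl 10 120, .dl 0, .dr 122, .dr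
  123, .dia ⟨0,1,0,0,1⟩ 1 1, .sl 79 125, .sl 79 126, .ini ⟨1,0,0,0,0⟩ ⟨0,2,0,0,1⟩, .sl 128 123,
  .sl 128 129, .sr 127 130, .sl 124 131, .hl 132 2 ⟨1,1,0,0,1⟩, .ini ⟨1,1,0,0,1⟩ ⟨0,0,1,0,0⟩, .ini
  ⟨1,1,0,0,1⟩ ⟨0,0,0,1,0⟩, .ini ⟨0,1,0,0,0⟩ ⟨1,1,0,0,1⟩, .ini ⟨0,1,0,0,1⟩ ⟨1,0,0,0,0⟩, .dr 137,
  .sl 138 138, .sl 136 139, .ini ⟨0,3,0,0,2⟩ ⟨0,0,1,0,0⟩, .ini ⟨0,3,0,0,2⟩ ⟨0,0,0,1,0⟩, .ini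
  ⟨0,1,0,0,0⟩ ⟨0,1,0,0,1⟩, .dia ⟨0,1,0,0,1⟩ 2 1, .sl 143 144, .ini ⟨0,0,1,0,0⟩ ⟨1,1,0,0,1⟩, .ini
  ⟨0,0,1,0,0⟩ ⟨0,3,0,0,2⟩, .ini ⟨0,0,0,1,0⟩ ⟨1,1,0,0,1⟩, .ini ⟨0,0,0,1,0⟩ ⟨0,3,0,0,2⟩, .ini
  ⟨0,2,0,0,1⟩ ⟨0,0,1,0,0⟩, .ini ⟨0,2,0,0,1⟩ ⟨0,0,0,1,0⟩, .ini ⟨0,2,0,0,1⟩ ⟨0,0,0,0,1⟩, .dl 122,
  .dr 153, .sr 152 154, .ini ⟨0,0,1,0,0⟩ ⟨0,2,0,0,1⟩, .ini ⟨0,0,0,1,0⟩ ⟨0,2,0,0,1⟩, .dl 123, .ini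
  ⟨1,0,0,0,0⟩ ⟨0,3,0,0,1⟩, .sl 159 154, .ini ⟨1,2,0,0,1⟩ ⟨0,0,1,0,0⟩, .ini ⟨1,2,0,0,1⟩
  ⟨0,0,0,1,0⟩, .dia ⟨0,2,0,0,1⟩ 1 1, .sl 128 163, .ini ⟨0,1,0,0,0⟩ ⟨1,2,0,0,1⟩, .ini ⟨0,2,0,0,1⟩
  ⟨1,0,0,0,0⟩, .dr 166, .sl 165 167, .ini ⟨0,3,0,0,1⟩ ⟨0,0,1,0,0⟩, .ini ⟨0,3,0,0,1⟩ ⟨0,0,0,1,0⟩,
  .ini ⟨0,1,0,0,0⟩ ⟨0,2,0,0,1⟩, .sl 171 163, .ini ⟨0,0,1,0,0⟩ ⟨1,2,0,0,1⟩, .ini ⟨0,0,1,0,0⟩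
  ⟨0,3,0,0,1⟩, .ini ⟨0,0,0,1,0⟩ ⟨1,2,0,0,1⟩, .ini ⟨0,0,0,1,0⟩ ⟨0,3,0,0,1⟩, .ini ⟨0,1,0,0,0⟩
  ⟨0,0,1,0,0⟩, .ini ⟨0,1,0,0,0⟩ ⟨0,0,0,1,0⟩, .ini ⟨0,1,0,0,0⟩ ⟨0,3,0,0,1⟩, .ini ⟨0,0,1,0,0⟩
  ⟨0,1,0,0,0⟩, .ini ⟨0,0,0,1,0⟩ ⟨0,1,0,0,0⟩, .dl 153, .ini ⟨0,1,0,0,0⟩ ⟨1,0,0,0,0⟩, .sl 183 94,
  .sr 184 129, .dl 185, .ini ⟨2,3,0,0,2⟩ ⟨0,0,1,0,0⟩, .ini ⟨2,3,0,0,2⟩ ⟨0,0,0,1,0⟩, .sl 128 158,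
  .sl 128 189, .dl 166, .ini ⟨1,2,0,0,1⟩ ⟨0,0,0,0,1⟩, .ini ⟨1,0,0,0,0⟩ ⟨0,1,0,0,0⟩, .sl 193 153,
  .dr 194, .sr 192 195, .sr 191 196, .ini ⟨0,0,1,0,0⟩ ⟨2,3,0,0,2⟩, .ini ⟨0,0,0,1,0⟩ ⟨2,3,0,0,2⟩,
  .ini ⟨0,1,0,0,0⟩ ⟨2,1,0,0,1⟩, .sr 137 138, .sl 200 201, .dr 202, .sr 184 133, .sr 184 204, .dia
  ⟨1,1,0,0,1⟩ 2 1, .sl 136 206, .ini ⟨1,0,0,0,1⟩ ⟨0,1,0,0,0⟩, .dr 208, .dl 209, .dl 210, .ini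
  ⟨3,2,0,0,3⟩ ⟨0,0,1,0,0⟩, .ini ⟨3,2,0,0,3⟩ ⟨0,0,0,1,0⟩, .sl 79 42, .sl 79 214, .sl 79 215, .ini
  ⟨1,1,0,0,1⟩ ⟨0,0,0,0,1⟩, .dia ⟨1,1,0,0,1⟩ 1 2, .sr 217 218, .sr 184 219, .ini ⟨0,0,1,0,0⟩
  ⟨3,2,0,0,3⟩, .ini ⟨0,0,0,1,0⟩ ⟨3,2,0,0,3⟩, .sr 12 138, .sr 137 223, .dr 224, .sl 94 94, .sl 183
  226, .ini ⟨2,0,0,0,0⟩ ⟨0,2,0,0,3⟩, .sl 228 38, .sr 227 229, .sr 227 230, .sr 227 231, .ini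
  ⟨2,1,0,0,2⟩ ⟨0,0,1,0,0⟩, .ini ⟨2,1,0,0,2⟩ ⟨0,0,0,1,0⟩, .ini ⟨0,1,0,0,0⟩ ⟨2,1,0,0,2⟩, .sr 94 81,
  .dl 236, .sl 235 237, .ini ⟨0,0,1,0,0⟩ ⟨2,1,0,0,2⟩, .ini ⟨0,0,0,1,0⟩ ⟨2,1,0,0,2⟩, .sl 223 90,
  .ini ⟨1,2,0,0,3⟩ ⟨0,0,1,0,0⟩, .ini ⟨1,2,0,0,3⟩ ⟨0,0,0,1,0⟩, .ini ⟨0,0,1,0,0⟩ ⟨1,2,0,0,3⟩, .ini
  ⟨0,0,0,1,0⟩ ⟨1,2,0,0,3⟩, .sr 125 12, .sr 125 246, .sl 79 37, .dr 248, .ini ⟨1,0,0,0,0⟩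
  ⟨1,1,0,0,2⟩, .dia ⟨1,1,0,0,2⟩ 1 1, .sl 250 251, .sl 246 251, .ini ⟨3,1,0,0,3⟩ ⟨0,0,1,0,0⟩, .ini
  ⟨3,1,0,0,3⟩ ⟨0,0,0,1,0⟩, .sl 250 82, .ini ⟨2,1,0,0,2⟩ ⟨0,0,0,0,1⟩, .dia ⟨2,1,0,0,2⟩ 1 1, .sr 227
  258, .sr 257 259, .ini ⟨0,0,1,0,0⟩ ⟨3,1,0,0,3⟩, .ini ⟨0,0,0,1,0⟩ ⟨3,1,0,0,3⟩, .sr 120 90, .sr 94
  96, .sl 114 118, .sl 10 265, .ini ⟨1,0,0,0,0⟩ ⟨0,0,1,0,0⟩, .ini ⟨1,0,0,0,0⟩ ⟨0,0,0,1,0⟩, .ini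
  ⟨0,0,1,0,0⟩ ⟨1,0,0,0,0⟩, .ini ⟨0,0,0,1,0⟩ ⟨1,0,0,0,0⟩]

def t23_00_00_13 : Tree :=
(.split 0 4 (.split 1 4 (.split 1 4 (.split 1 4 (.leaf [0,1,2,3,4]
  [5,6,7,8,14,15,16,17,18,19,20,21,22,23,24,25,10,3,26,27]) (.leaf [1,0,2,3,4]
  [6,7,5,28,29,32,18,33,20,19,22,34,24,23,14,35,15,16])) (.split 0 1 (.split 1 4 (.leaf
  [4,1,2,3,0] [39,40,41,47,48,49,51,52,53,20,33,54,55,24,34,38,28,29]) (.leaf [1,0,2,3,4]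
  [40,41,39,56,57,60,52,61,20,53,54,62,24,55,47,42,48,49])) (.split 0 1 (.split 0 4 (.leaf
  [0,4,2,3,1] [65,66,67,71,74,40,41,75,52,20,33,76,54,24,34,78,28,29]) (.leaf [0,1,2,3,4]
  [82,83,84,87,91,40,41,74,92,52,20,75,93,54,24,76,102,65,66,67])) (.split 0 4 (.split 1 4 (.leaf
  [0,1,2,3,4] [103,104,105,69,110,66,67,71,111,75,20,33,112,76,24,34,113,78,28,29]) (.leaf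
  [1,0,2,3,4] [104,105,103,83,84,87,111,92,20,75,112,93,24,76,110,102,66,67])) (.leaf [0,4,2,3,1]
  [96,6,7,95,119,83,84,18,92,20,111,22,93,24,112,121,104,105]))))) (.split 0 1 (.split 1 4 (.split
  1 4 (.leaf [0,1,2,3,4]
  [133,134,135,126,140,141,142,145,146,147,20,61,148,149,24,62,138,124,56,57]) (.leaf [1,0,2,3,4]
  [134,135,133,150,151,155,146,156,20,147,148,157,24,149,140,158,141,142])) (.split 0 1 (.split 1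
  4 (.leaf [0,1,2,3,4]
  [160,161,162,164,168,169,170,172,173,174,20,156,175,176,24,157,167,154,150,151]) (.leaf
  [1,0,2,3,4] [161,162,160,177,178,179,173,180,20,174,175,181,24,176,168,182,169,170])) (.split 0
  1 (.leaf [0,1,2,3,4]
  [186,187,188,190,197,161,162,164,198,173,20,156,199,175,24,157,203,167,150,151]) (.leaf
  [4,1,2,3,0] [205,134,135,207,187,188,190,146,198,20,156,148,199,24,157,203,150,151])))) (.split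
  0 1 (.split 0 1 (.leaf [0,1,2,3,4]
  [211,212,213,216,220,134,135,126,221,146,20,61,222,148,24,62,225,138,56,57]) (.leaf [4,1,2,3,0]
  [232,233,234,238,212,213,216,239,221,20,61,240,222,24,62,225,56,57])) (.split 0 4 (.split 0 4
  (.leaf [0,4,2,3,1] [241,242,243,214,230,233,234,244,239,20,61,245,240,24,62,247,56,57]) (.leaf
  [0,1,2,3,4] [90,40,41,249,252,233,234,230,52,239,20,244,54,240,24,245,253,241,242,243])) (.split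
  0 1 (.leaf [0,1,2,3,4]
  [237,254,255,256,260,233,234,252,261,239,20,52,262,240,24,54,263,90,40,41]) (.leaf [4,1,2,3,0]
  [264,6,7,266,254,255,256,18,261,20,52,22,262,24,54,263,40,41])))))) (.leaf [0,4,2,3,1]
  [193,267,268,114,183,177,178,269,180,20,18,270,181,24,22,94,6,7]))

def c23_00_00_13 : Cert 2 3 where
  T := [[0, 0], [0, 0], [1, 3]]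
  W := ⟨0, 0, 0, 1, 0, 0, 3⟩
  hW := rfl
  steps := s23_00_00_13_0
  tree := t23_00_00_13
  ok := by decide +kernel

def s23_00_00_04_0 : List Step := [
.ini ⟨1,0,0,0,0⟩ ⟨0,1,0,0,0⟩, .ini ⟨1,0,0,0,0⟩ ⟨0,0,1,0,0⟩, .ini ⟨1,0,0,0,0⟩ ⟨0,0,0,1,0⟩, .ini
  ⟨1,0,0,0,0⟩ ⟨0,0,0,0,1⟩, .ini ⟨0,1,0,0,0⟩ ⟨1,0,0,0,0⟩, .ini ⟨0,1,0,0,0⟩ ⟨0,0,1,0,0⟩, .ini
  ⟨0,1,0,0,0⟩ ⟨0,0,0,1,0⟩, .ini ⟨0,0,1,0,0⟩ ⟨1,0,0,0,0⟩, .ini ⟨0,0,1,0,0⟩ ⟨0,1,0,0,0⟩, .ini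
  ⟨0,0,1,0,0⟩ ⟨0,0,0,1,0⟩, .ini ⟨0,0,1,0,0⟩ ⟨0,0,0,0,1⟩, .ini ⟨0,0,0,1,0⟩ ⟨1,0,0,0,0⟩, .ini
  ⟨0,0,0,1,0⟩ ⟨0,1,0,0,0⟩, .ini ⟨0,0,0,1,0⟩ ⟨0,0,1,0,0⟩, .ini ⟨0,0,0,1,0⟩ ⟨0,0,0,0,1⟩, .ini
  ⟨0,0,0,0,1⟩ ⟨1,0,0,0,0⟩, .ini ⟨0,0,0,0,1⟩ ⟨0,0,1,0,0⟩, .ini ⟨0,0,0,0,1⟩ ⟨0,0,0,1,0⟩]

def t23_00_00_04 : Tree :=
(.leaf [0,4,2,3,1] [0,1,2,3,4,5,6,7,8,9,10,11,12,13,14,15,16,17])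

def c23_00_00_04 : Cert 2 3 where
  T := [[0, 0], [0, 0], [0, 4]]
  W := ⟨0, 0, 0, 0, 0, 0, 4⟩
  hW := rfl
  steps := s23_00_00_04_0
  tree := t23_00_00_04
  ok := by decide +kernel

def s23_00_10_30_0 : List Step := [
.ini ⟨1,0,0,1,0⟩ ⟨0,1,0,0,0⟩, .ini ⟨1,0,0,1,0⟩ ⟨0,0,1,0,0⟩, .ini ⟨1,0,0,1,0⟩ ⟨0,0,0,1,0⟩, .ini
  ⟨0,1,0,0,0⟩ ⟨1,0,0,1,0⟩, .ini ⟨0,1,0,0,0⟩ ⟨0,0,1,0,0⟩, .ini ⟨0,1,0,0,0⟩ ⟨0,0,0,1,0⟩, .ini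
  ⟨0,1,0,0,0⟩ ⟨0,0,0,0,1⟩, .ini ⟨0,0,1,0,0⟩ ⟨1,0,0,1,0⟩, .ini ⟨0,0,1,0,0⟩ ⟨0,1,0,0,0⟩, .ini
  ⟨0,0,1,0,0⟩ ⟨0,0,0,1,0⟩, .ini ⟨0,0,1,0,0⟩ ⟨0,0,0,0,1⟩, .ini ⟨0,0,0,1,0⟩ ⟨1,0,0,0,0⟩, .dr 11,
  .ini ⟨0,0,0,1,0⟩ ⟨0,1,0,0,0⟩, .ini ⟨0,0,0,1,0⟩ ⟨0,0,1,0,0⟩, .ini ⟨0,0,0,1,0⟩ ⟨0,0,0,0,1⟩, .ini
  ⟨0,0,0,0,1⟩ ⟨0,1,0,0,0⟩, .ini ⟨0,0,0,0,1⟩ ⟨0,0,1,0,0⟩, .ini ⟨0,0,0,0,1⟩ ⟨0,0,0,1,0⟩, .ini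
  ⟨1,0,0,0,3⟩ ⟨0,1,0,0,0⟩, .ini ⟨1,0,0,0,3⟩ ⟨0,0,1,0,0⟩, .ini ⟨1,0,0,0,3⟩ ⟨0,0,0,1,0⟩, .ini
  ⟨0,0,0,0,1⟩ ⟨1,0,0,0,0⟩, .dr 22, .dr 23, .dl 24, .sr 21 25, .ini ⟨1,0,0,0,3⟩ ⟨0,0,0,0,1⟩, .ini
  ⟨0,1,0,0,0⟩ ⟨1,0,0,0,3⟩, .ini ⟨0,1,0,0,0⟩ ⟨1,0,0,1,2⟩, .ini ⟨0,0,1,0,0⟩ ⟨1,0,0,0,3⟩, .ini
  ⟨0,0,1,0,0⟩ ⟨1,0,0,1,2⟩, .ini ⟨1,0,0,1,2⟩ ⟨0,0,0,0,1⟩, .ini ⟨0,0,0,1,0⟩ ⟨1,0,0,0,2⟩, .dl 33, .sr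
  32 34, .ini ⟨1,0,0,1,2⟩ ⟨0,1,0,0,0⟩, .ini ⟨1,0,0,1,2⟩ ⟨0,0,1,0,0⟩, .dr 24, .ini ⟨1,0,0,0,2⟩
  ⟨0,1,0,0,0⟩, .ini ⟨1,0,0,0,2⟩ ⟨0,0,1,0,0⟩, .ini ⟨1,0,0,0,2⟩ ⟨0,0,0,1,0⟩, .dia ⟨1,0,0,0,2⟩ 1 1,
  .sr 41 42, .ini ⟨1,0,0,0,2⟩ ⟨0,0,0,0,1⟩, .sr 44 42, .ini ⟨0,1,0,0,0⟩ ⟨1,0,0,0,2⟩, .ini
  ⟨0,0,1,0,0⟩ ⟨1,0,0,0,2⟩, .dl 23, .dr 48, .sr 41 49, .sr 41 50, .ini ⟨0,1,0,0,0⟩ ⟨2,0,0,2,3⟩,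
  .ini ⟨0,0,1,0,0⟩ ⟨2,0,0,2,3⟩, .ini ⟨1,0,0,2,1⟩ ⟨0,0,0,0,1⟩, .ini ⟨0,0,0,1,0⟩ ⟨1,0,0,0,1⟩, .dl
  55, .sl 55 56, .sr 54 57, .dl 58, .ini ⟨2,0,0,2,3⟩ ⟨0,1,0,0,0⟩, .ini ⟨2,0,0,2,3⟩ ⟨0,0,1,0,0⟩,
  .dr 33, .ini ⟨1,0,0,0,0⟩ ⟨1,0,0,1,2⟩, .sl 63 26, .sl 62 64, .sl 62 65, .sr 15 12, .sr 41 48, .sl
  67 68, .dr 69, .ini ⟨0,1,0,0,0⟩ ⟨1,0,0,1,1⟩, .ini ⟨0,0,1,0,0⟩ ⟨1,0,0,1,1⟩, .ini ⟨1,0,0,1,1⟩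
  ⟨0,1,0,0,0⟩, .ini ⟨1,0,0,1,1⟩ ⟨0,0,1,0,0⟩, .ini ⟨1,0,0,1,1⟩ ⟨0,0,0,0,1⟩, .dia ⟨1,0,0,1,1⟩ 1 2,
  .sr 75 76, .dl 48, .ini ⟨1,0,0,0,1⟩ ⟨0,0,0,1,0⟩, .dia ⟨1,0,0,0,1⟩ 1 1, .sr 79 80, .sr 79 81, .sr
  41 68, .sl 82 83, .sr 78 84, .hr 85 2 ⟨1,0,0,1,1⟩, .sl 67 86, .sl 67 87, .ini ⟨2,0,0,0,3⟩
  ⟨0,1,0,0,0⟩, .ini ⟨2,0,0,0,3⟩ ⟨0,0,1,0,0⟩, .ini ⟨1,0,0,0,0⟩ ⟨1,0,0,0,2⟩, .sl 91 25, .ini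
  ⟨0,1,0,0,0⟩ ⟨2,0,0,0,3⟩, .ini ⟨0,0,1,0,0⟩ ⟨2,0,0,0,3⟩, .sr 56 56, .sr 75 95, .ini ⟨1,0,0,0,1⟩
  ⟨0,1,0,0,0⟩, .ini ⟨1,0,0,0,1⟩ ⟨0,0,1,0,0⟩, .ini ⟨1,0,0,0,1⟩ ⟨0,0,0,0,1⟩, .dia ⟨1,0,0,0,1⟩ 1 2,
  .sr 99 100, .ini ⟨0,1,0,0,0⟩ ⟨1,0,0,0,1⟩, .ini ⟨0,0,1,0,0⟩ ⟨1,0,0,0,1⟩, .dl 22, .dr 104, .dr
  105, .sr 79 106, .sr 79 107, .sr 79 108, .ini ⟨0,1,0,0,0⟩ ⟨3,0,0,3,2⟩, .ini ⟨0,0,1,0,0⟩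
  ⟨3,0,0,3,2⟩, .ini ⟨1,0,0,1,0⟩ ⟨0,0,0,0,1⟩, .dl 11, .sr 112 113, .sl 114 56, .sl 55 115, .dl 116,
  .ini ⟨3,0,0,3,2⟩ ⟨0,1,0,0,0⟩, .ini ⟨3,0,0,3,2⟩ ⟨0,0,1,0,0⟩, .ini ⟨1,0,0,0,0⟩ ⟨1,0,0,1,1⟩, .ini
  ⟨2,0,0,0,2⟩ ⟨0,0,0,1,0⟩, .dia ⟨1,0,0,0,1⟩ 2 1, .sr 121 122, .sl 120 123, .sl 67 124, .sl 67 125,
  .sl 67 126, .ini ⟨0,0,0,0,1⟩ ⟨1,0,0,1,0⟩, .dl 128, .dr 129, .dr 130, .ini ⟨0,1,0,0,0⟩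
  ⟨2,0,0,2,1⟩, .ini ⟨0,0,1,0,0⟩ ⟨2,0,0,2,1⟩, .ini ⟨2,0,0,2,1⟩ ⟨0,1,0,0,0⟩, .ini ⟨2,0,0,2,1⟩
  ⟨0,0,1,0,0⟩, .ini ⟨2,0,0,2,1⟩ ⟨0,0,0,0,1⟩, .sr 79 104, .dl 137, .sl 12 138, .dr 139, .sr 136
  140, .sr 12 12, .sr 15 142, .ini ⟨3,0,0,1,2⟩ ⟨0,0,0,1,0⟩, .sr 79 105, .dl 145, .sr 144 146, .sl
  143 147, .sl 143 148, .ini ⟨2,0,0,1,1⟩ ⟨0,1,0,0,0⟩, .ini ⟨2,0,0,1,1⟩ ⟨0,0,1,0,0⟩, .ini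
  ⟨2,0,0,1,1⟩ ⟨0,0,0,1,0⟩, .dr 138, .sr 152 153, .dia ⟨2,0,0,1,1⟩ 1 1, .sr 152 155, .ini
  ⟨0,1,0,0,0⟩ ⟨2,0,0,1,1⟩, .ini ⟨0,1,0,0,0⟩ ⟨3,0,0,3,1⟩, .ini ⟨0,0,1,0,0⟩ ⟨2,0,0,1,1⟩, .ini
  ⟨0,0,1,0,0⟩ ⟨3,0,0,3,1⟩, .sr 113 113, .sr 112 161, .sr 2 162, .ini ⟨0,0,0,1,0⟩ ⟨2,0,0,0,1⟩, .dr
  164, .dl 165, .sl 163 166, .ini ⟨3,0,0,3,1⟩ ⟨0,1,0,0,0⟩, .ini ⟨3,0,0,3,1⟩ ⟨0,0,1,0,0⟩, .ini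
  ⟨3,0,0,0,1⟩ ⟨0,0,0,0,1⟩, .ini ⟨3,0,0,0,1⟩ ⟨0,0,0,2,0⟩, .dl 104, .dl 172, .sr 173 173, .sr 171
  174, .sr 170 175, .sl 143 176, .sl 143 177, .sl 143 178, .dia ⟨1,0,0,1,0⟩ 1 3, .sr 112 180, .ini
  ⟨3,0,0,0,1⟩ ⟨0,0,0,1,0⟩, .sr 182 173, .sl 12 183, .sl 12 184, .sl 12 185, .ini ⟨3,0,0,1,2⟩
  ⟨0,1,0,0,0⟩, .ini ⟨3,0,0,1,2⟩ ⟨0,0,1,0,0⟩, .ini ⟨0,1,0,0,0⟩ ⟨3,0,0,1,2⟩, .ini ⟨0,0,1,0,0⟩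
  ⟨3,0,0,1,2⟩, .sl 80 114, .sr 191 155, .sr 115 166, .sl 80 191, .ini ⟨3,0,0,0,2⟩ ⟨0,1,0,0,0⟩,
  .ini ⟨3,0,0,0,2⟩ ⟨0,0,1,0,0⟩, .ini ⟨3,0,0,0,2⟩ ⟨0,0,0,1,0⟩, .dl 105, .sr 197 198, .ini
  ⟨1,0,0,0,0⟩ ⟨1,0,0,0,1⟩, .sl 200 122, .ini ⟨0,1,0,0,0⟩ ⟨3,0,0,0,2⟩, .ini ⟨0,0,1,0,0⟩
  ⟨3,0,0,0,2⟩, .sr 113 162, .sr 112 204, .sl 106 205, .ini ⟨2,0,0,0,1⟩ ⟨0,1,0,0,0⟩, .ini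
  ⟨2,0,0,0,1⟩ ⟨0,0,1,0,0⟩, .ini ⟨2,0,0,0,1⟩ ⟨0,0,0,0,1⟩, .dr 172, .sr 209 210, .ini ⟨0,1,0,0,0⟩
  ⟨2,0,0,0,1⟩, .ini ⟨0,0,1,0,0⟩ ⟨2,0,0,0,1⟩, .ini ⟨5,0,0,2,2⟩ ⟨0,1,0,0,0⟩, .ini ⟨5,0,0,2,2⟩
  ⟨0,0,1,0,0⟩, .ini ⟨1,0,0,0,0⟩ ⟨3,0,0,2,1⟩, .sl 153 153, .sl 216 217, .ini ⟨1,0,0,0,0⟩
  ⟨2,0,0,1,1⟩, .dia ⟨2,0,0,1,1⟩ 2 1, .sl 219 220, .ini ⟨0,1,0,0,0⟩ ⟨5,0,0,2,2⟩, .ini ⟨0,1,0,0,0⟩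
  ⟨3,0,0,2,1⟩, .ini ⟨0,0,1,0,0⟩ ⟨5,0,0,2,2⟩, .ini ⟨0,0,1,0,0⟩ ⟨3,0,0,2,1⟩, .ini ⟨2,0,0,2,0⟩
  ⟨0,0,0,0,1⟩, .sl 204 204, .sr 226 227, .sl 106 228, .sr 185 229, .sr 185 230, .ini ⟨3,0,0,2,1⟩
  ⟨0,1,0,0,0⟩, .ini ⟨3,0,0,2,1⟩ ⟨0,0,1,0,0⟩, .sl 219 166, .sl 11 172, .dr 235, .dr 236, .dia
  ⟨1,0,0,1,0⟩ 1 1, .sr 238 161, .sr 112 239, .sr 2 240, .ini ⟨3,0,0,1,1⟩ ⟨0,1,0,0,0⟩, .ini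
  ⟨3,0,0,1,1⟩ ⟨0,0,1,0,0⟩, .ini ⟨3,0,0,1,1⟩ ⟨0,0,0,0,1⟩, .sl 11 173, .dr 245, .sr 184 246, .sr 244
  247, .ini ⟨0,1,0,0,0⟩ ⟨3,0,0,1,1⟩, .ini ⟨0,0,1,0,0⟩ ⟨3,0,0,1,1⟩, .dl 236, .ini ⟨2,0,0,0,1⟩
  ⟨0,0,0,1,0⟩, .dia ⟨2,0,0,0,1⟩ 1 1, .sr 252 210, .sr 253 254, .sr 252 255, .sl 162 198, .sl 162
  257, .sl 162 253, .ini ⟨3,0,0,0,1⟩ ⟨0,1,0,0,0⟩, .ini ⟨3,0,0,0,1⟩ ⟨0,0,1,0,0⟩, .ini ⟨1,0,0,0,0⟩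
  ⟨2,0,0,0,1⟩, .sl 262 253, .ini ⟨0,1,0,0,0⟩ ⟨3,0,0,0,1⟩, .ini ⟨0,0,1,0,0⟩ ⟨3,0,0,0,1⟩, .ini
  ⟨1,0,0,0,0⟩ ⟨0,1,0,0,0⟩, .ini ⟨1,0,0,0,0⟩ ⟨0,0,1,0,0⟩, .ini ⟨1,0,0,0,0⟩ ⟨1,0,0,1,0⟩, .ini
  ⟨1,0,0,0,0⟩ ⟨3,0,0,0,1⟩, .ini ⟨0,1,0,0,0⟩ ⟨1,0,0,0,0⟩, .ini ⟨0,0,1,0,0⟩ ⟨1,0,0,0,0⟩]

def t23_00_10_30 : Tree :=
(.split 0 3 (.leaf [4,1,2,3,0] [0,1,2,3,4,5,6,7,8,9,10,12,13,14,15,16,17,18]) (.split 0 4 (.split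
  3 4 (.split 0 4 (.split 3 4 (.split 0 4 (.leaf [0,1,2,4,3]
  [19,20,26,27,28,4,29,6,30,8,31,10,35,36,37,38,16,17]) (.leaf [0,1,2,3,4]
  [39,40,43,45,46,4,29,28,47,8,31,30,34,36,37,35,25,19,20,26])) (.split 3 4 (.leaf [0,1,2,3,4]
  [39,40,51,43,46,4,52,29,47,8,53,31,59,60,61,66,34,36,37,70]) (.leaf [3,1,2,0,4]
  [39,40,51,46,4,71,52,47,8,72,53,73,74,77,59,60,61,88]))) (.split 0 4 (.leaf [0,1,2,4,3]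
  [89,90,86,92,93,4,71,46,94,8,72,47,96,73,74,49,39,40]) (.leaf [0,1,2,3,4]
  [97,98,81,101,102,4,71,93,103,8,72,94,56,73,74,96,78,89,90,86]))) (.split 3 4 (.split 3 4 (.leaf
  [0,1,2,3,4] [97,98,109,81,102,4,110,71,103,8,111,72,117,118,119,127,56,73,74,131]) (.leaf
  [3,1,2,0,4] [97,98,109,102,4,132,110,103,8,133,111,134,135,141,117,118,119,149])) (.split 0 3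
  (.split 3 4 (.leaf [0,1,2,3,4]
  [150,151,154,156,157,4,158,132,159,8,160,133,167,168,169,179,166,134,135,140]) (.leaf
  [3,1,2,0,4] [150,151,154,157,4,3,158,159,8,7,160,0,1,181,167,168,169,186])) (.split 0 3 (.leaf
  [0,1,2,3,4] [187,188,146,147,189,4,157,132,190,8,159,133,192,150,151,156,193,134,135,166])
  (.leaf [4,1,2,3,0] [97,98,107,102,4,189,132,103,8,190,133,194,187,188,147,134,135,193])))))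
  (.split 0 4 (.split 3 4 (.split 0 4 (.leaf [0,1,2,4,3]
  [195,196,199,201,202,4,157,102,203,8,159,103,206,150,151,106,97,98]) (.leaf [3,1,2,0,4]
  [207,208,211,212,4,157,202,213,8,159,203,150,151,206,198,195,196,199])) (.split 0 3 (.split 0 4
  (.split 3 4 (.leaf [0,1,2,3,4]
  [214,215,218,221,222,4,223,157,224,8,225,159,231,232,233,234,237,150,151,153]) (.leaf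
  [3,1,2,0,4] [214,215,218,222,4,3,223,224,8,7,225,0,1,241,231,232,233,185])) (.leaf [0,1,2,4,3]
  [242,243,184,248,249,4,3,222,250,8,7,224,240,0,1,251,214,215])) (.split 3 4 (.leaf [4,1,2,3,0]
  [207,208,256,212,4,222,157,213,8,224,159,258,214,215,221,150,151,237]) (.leaf [0,1,2,3,4]
  [207,208,254,256,212,4,249,222,213,8,250,224,259,242,243,248,258,214,215,251])))) (.split 0 4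
  (.leaf [0,1,2,4,3] [260,261,183,263,264,4,3,212,265,8,7,213,204,0,1,210,207,208]) (.leaf
  [0,1,2,3,4] [266,267,268,269,270,4,3,264,271,8,7,265,113,0,1,204,173,260,261,183])))))

def c23_00_10_30 : Cert 2 3 where
  T := [[0, 0], [1, 0], [3, 0]]
  W := ⟨0, 0, 1, 3, 0, 0, 0⟩
  hW := rfl
  steps := s23_00_10_30_0
  tree := t23_00_10_30
  ok := by decide +kernel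

def s23_00_10_21_0 : List Step := [
.ini ⟨0,0,0,0,1⟩ ⟨0,1,0,0,0⟩, .dr 0, .ini ⟨1,0,0,0,0⟩ ⟨0,1,0,0,1⟩, .sl 1 2, .sl 1 3, .ini
  ⟨1,0,0,0,2⟩ ⟨0,0,1,0,0⟩, .ini ⟨1,0,0,0,2⟩ ⟨0,0,0,0,1⟩, .ini ⟨0,0,0,0,1⟩ ⟨1,0,0,0,0⟩, .dr 7, .dr
  8, .ini ⟨0,1,0,0,0⟩ ⟨1,0,0,0,2⟩, .sl 9 10, .ini ⟨0,1,0,0,1⟩ ⟨0,0,1,0,0⟩, .ini ⟨0,1,0,0,1⟩
  ⟨0,0,0,1,0⟩, .ini ⟨0,1,0,0,1⟩ ⟨0,0,0,0,1⟩, .ini ⟨0,0,1,0,0⟩ ⟨1,0,0,0,2⟩, .ini ⟨0,0,1,0,0⟩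
  ⟨0,1,0,0,1⟩, .ini ⟨0,0,1,0,0⟩ ⟨0,0,0,1,0⟩, .ini ⟨0,0,1,0,0⟩ ⟨0,0,0,0,1⟩, .ini ⟨0,0,0,1,0⟩
  ⟨0,1,0,0,1⟩, .ini ⟨0,0,0,1,0⟩ ⟨0,0,1,0,0⟩, .ini ⟨0,0,0,1,0⟩ ⟨0,0,0,0,1⟩, .ini ⟨0,0,0,0,1⟩
  ⟨0,0,1,0,0⟩, .ini ⟨0,0,0,0,1⟩ ⟨0,0,0,1,0⟩, .ini ⟨1,0,0,1,1⟩ ⟨0,0,1,0,0⟩, .ini ⟨1,0,0,1,1⟩
  ⟨0,0,0,1,0⟩, .ini ⟨1,0,0,1,0⟩ ⟨0,0,0,0,1⟩, .ini ⟨0,0,0,1,0⟩ ⟨1,0,0,0,0⟩, .dl 27, .sr 26 28, .sr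
  26 29, .sl 9 30, .ini ⟨0,0,1,0,0⟩ ⟨1,0,0,1,1⟩, .dr 27, .sr 21 33, .ini ⟨1,0,0,0,2⟩ ⟨0,0,0,1,0⟩,
  .dl 8, .sr 35 36, .ini ⟨1,1,0,0,0⟩ ⟨0,1,0,0,1⟩, .sl 1 38, .sl 1 39, .ini ⟨1,1,0,0,2⟩
  ⟨0,0,1,0,0⟩, .ini ⟨0,1,0,0,0⟩ ⟨1,0,0,1,1⟩, .sl 42 37, .ini ⟨1,1,0,0,0⟩ ⟨1,0,0,0,2⟩, .sl 9 44,
  .sl 9 45, .ini ⟨0,1,0,0,0⟩ ⟨1,0,0,0,1⟩, .sl 8 47, .dr 48, .ini ⟨0,0,1,0,0⟩ ⟨1,1,0,0,2⟩, .ini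
  ⟨1,0,0,1,0⟩ ⟨0,1,0,0,1⟩, .sl 1 51, .ini ⟨0,0,0,1,0⟩ ⟨1,0,0,0,1⟩, .dl 53, .sr 52 54, .sr 4 36,
  .ini ⟨1,0,0,0,1⟩ ⟨0,0,0,0,1⟩, .ini ⟨1,0,0,0,1⟩ ⟨0,1,0,0,0⟩, .dr 58, .sr 57 59, .ini ⟨1,0,0,0,1⟩
  ⟨0,0,1,0,0⟩, .ini ⟨1,0,0,0,1⟩ ⟨0,0,0,1,0⟩, .dia ⟨1,0,0,0,1⟩ 1 1, .sr 62 63, .sr 57 63, .sl 47
  36, .ini ⟨0,0,1,0,0⟩ ⟨1,0,0,0,1⟩, .ini ⟨0,0,0,1,0⟩ ⟨0,1,0,0,0⟩, .dl 58, .sl 68 69, .ini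
  ⟨1,1,0,1,1⟩ ⟨0,0,1,0,0⟩, .ini ⟨1,1,0,1,1⟩ ⟨0,0,0,1,0⟩, .ini ⟨0,1,0,0,0⟩ ⟨1,1,0,1,1⟩, .ini
  ⟨0,1,0,0,0⟩ ⟨0,0,1,0,0⟩, .ini ⟨0,1,0,0,0⟩ ⟨0,0,0,1,0⟩, .ini ⟨0,1,0,0,0⟩ ⟨0,1,0,0,1⟩, .ini
  ⟨0,0,1,0,0⟩ ⟨1,1,0,1,1⟩, .ini ⟨0,0,1,0,0⟩ ⟨0,1,0,0,0⟩, .ini ⟨0,0,0,1,0⟩ ⟨1,1,0,0,1⟩, .dr 79, .dl
  0, .ini ⟨1,0,0,1,1⟩ ⟨0,1,0,0,0⟩, .dr 82, .sr 52 83, .sl 42 43, .sl 34 85, .ini ⟨1,2,0,1,2⟩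
  ⟨0,0,1,0,0⟩, .ini ⟨1,2,0,1,2⟩ ⟨0,0,0,1,0⟩, .sl 76 39, .sl 1 89, .sl 19 90, .ini ⟨0,0,1,0,0⟩
  ⟨1,2,0,1,2⟩, .ini ⟨0,0,0,1,0⟩ ⟨1,2,0,0,2⟩, .dr 93, .sr 81 49, .sr 13 95, .sl 42 64, .sl 34 97,
  .ini ⟨1,1,0,1,1⟩ ⟨0,0,0,0,1⟩, .dl 79, .sr 70 100, .sr 99 101, .sr 72 102, .sr 81 48, .sr 13 104,
  .dl 105, .ini ⟨1,1,0,0,2⟩ ⟨0,0,0,1,0⟩, .sl 0 69, .dr 108, .sr 107 109, .ini ⟨0,1,0,0,0⟩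
  ⟨1,1,0,0,2⟩, .ini ⟨0,0,0,1,0⟩ ⟨1,1,0,0,2⟩, .dl 112, .sl 111 113, .dl 108, .ini ⟨1,2,0,0,2⟩
  ⟨0,0,1,0,0⟩, .ini ⟨1,2,0,0,2⟩ ⟨0,0,0,1,0⟩, .dl 104, .sr 117 118, .ini ⟨0,1,0,0,0⟩ ⟨1,2,0,0,2⟩,
  .ini ⟨0,0,1,0,0⟩ ⟨1,2,0,0,2⟩, .dia ⟨1,1,0,0,2⟩ 1 1, .sl 111 122, .dia ⟨1,2,0,0,2⟩ 1 1, .sr 117
  124, .dl 93, .sr 62 59, .sl 47 54, .sr 3 59, .sl 47 66, .ini ⟨2,0,0,1,1⟩ ⟨0,0,0,1,0⟩, .ini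
  ⟨1,0,0,1,0⟩ ⟨0,1,0,0,0⟩, .sr 132 28, .sr 26 133, .sl 59 134, .sr 131 135, .sl 80 136, .ini
  ⟨2,0,0,2,1⟩ ⟨0,0,1,0,0⟩, .ini ⟨2,0,0,2,1⟩ ⟨0,0,0,1,0⟩, .sl 29 54, .sr 33 33, .sr 21 141, .ini
  ⟨1,1,0,0,1⟩ ⟨0,0,0,1,0⟩, .ini ⟨0,1,0,0,0⟩ ⟨2,0,0,1,1⟩, .dl 7, .sr 62 145, .dr 146, .sl 144 147,
  .sr 143 148, .sl 142 149, .ini ⟨0,0,1,0,0⟩ ⟨2,0,0,2,1⟩, .sr 62 147, .ini ⟨1,1,0,0,1⟩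
  ⟨0,0,1,0,0⟩, .dia ⟨1,1,0,0,1⟩ 1 1, .sr 143 154, .sl 47 63, .ini ⟨0,0,1,0,0⟩ ⟨1,1,0,0,1⟩, .ini
  ⟨1,0,0,0,0⟩ ⟨0,1,0,0,0⟩, .sl 158 69, .sl 68 159, .sl 68 160, .ini ⟨2,1,0,2,1⟩ ⟨0,0,1,0,0⟩, .ini
  ⟨2,1,0,2,1⟩ ⟨0,0,0,1,0⟩, .sl 134 100, .ini ⟨0,1,0,0,0⟩ ⟨2,1,0,2,1⟩, .ini ⟨0,1,0,0,0⟩
  ⟨1,1,0,0,1⟩, .ini ⟨0,0,1,0,0⟩ ⟨2,1,0,2,1⟩, .ini ⟨0,0,0,1,0⟩ ⟨1,1,0,0,0⟩, .sr 33 168, .sr 21 169,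
  .dr 170, .ini ⟨0,1,0,0,0⟩ ⟨1,0,0,0,0⟩, .sl 172 145, .dr 173, .sr 143 174, .sr 143 175, .ini
  ⟨2,0,0,2,1⟩ ⟨0,1,0,0,0⟩, .dr 177, .ini ⟨2,1,0,0,1⟩ ⟨0,0,0,0,1⟩, .ini ⟨2,1,0,0,1⟩ ⟨0,0,0,2,0⟩,
  .dl 173, .sr 181 181, .sr 180 182, .sr 179 183, .sl 142 184, .sl 142 185, .ini ⟨1,0,0,0,0⟩
  ⟨1,1,0,1,1⟩, .sl 187 155, .sl 80 188, .sl 80 189, .ini ⟨0,1,0,0,0⟩ ⟨1,0,0,1,0⟩, .sl 191 146, .sl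
  33 192, .dr 193, .ini ⟨2,0,0,1,1⟩ ⟨0,1,0,0,0⟩, .dr 195, .sr 131 196, .ini ⟨2,0,0,1,1⟩
  ⟨0,0,1,0,0⟩, .ini ⟨2,0,0,1,1⟩ ⟨0,0,0,0,1⟩, .dl 146, .sr 200 200, .sr 199 201, .ini ⟨1,0,0,0,0⟩
  ⟨1,0,0,0,1⟩, .sl 203 54, .sr 27 34, .dl 205, .sl 144 206, .ini ⟨0,0,1,0,0⟩ ⟨2,0,0,1,1⟩, .ini
  ⟨1,0,0,1,0⟩ ⟨0,0,0,1,0⟩, .ini ⟨1,0,0,1,0⟩ ⟨0,1,0,1,0⟩, .sr 28 28, .sr 210 211, .sr 26 212, .sr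
  209 213, .ini ⟨1,0,0,1,0⟩ ⟨0,0,1,0,0⟩, .dia ⟨1,0,0,1,0⟩ 1 1, .sr 26 216, .sr 28 217, .ini
  ⟨2,1,0,0,1⟩ ⟨0,0,0,1,0⟩, .sr 219 181, .sl 33 220, .sl 33 221, .ini ⟨0,0,1,0,0⟩ ⟨1,0,0,1,0⟩, .ini
  ⟨2,1,0,1,1⟩ ⟨0,0,1,0,0⟩, .ini ⟨2,1,0,1,1⟩ ⟨0,0,0,1,0⟩, .dia ⟨2,1,0,1,1⟩ 1 1, .sr 225 226, .dia
  ⟨2,0,0,1,1⟩ 1 1, .sl 144 228, .ini ⟨0,0,1,0,0⟩ ⟨2,1,0,1,1⟩, .dl 170, .ini ⟨0,1,0,0,0⟩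
  ⟨2,1,0,1,1⟩, .ini ⟨1,0,0,0,0⟩ ⟨1,1,0,0,1⟩, .sl 233 59, .ini ⟨2,0,0,0,1⟩ ⟨0,0,1,0,0⟩, .ini
  ⟨1,0,0,0,0⟩ ⟨2,0,0,1,1⟩, .sl 236 147, .sl 203 63, .ini ⟨0,1,0,0,0⟩ ⟨2,0,0,0,1⟩, .dr 145, .sl 240
  240, .sl 239 241, .sl 239 242, .hl 243 2 ⟨1,1,0,0,1⟩, .ini ⟨0,0,1,0,0⟩ ⟨2,0,0,0,1⟩, .sr 26 211,
  .sl 240 246, .ini ⟨2,0,0,0,1⟩ ⟨0,0,0,1,0⟩, .dl 145, .sr 248 249, .ini ⟨1,0,0,0,0⟩ ⟨0,0,1,0,0⟩,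
  .ini ⟨1,0,0,0,0⟩ ⟨1,0,0,1,0⟩, .ini ⟨1,0,0,0,0⟩ ⟨2,0,0,0,1⟩, .ini ⟨0,0,1,0,0⟩ ⟨1,0,0,0,0⟩]

def t23_00_10_21 : Tree :=
(.split 0 4 (.split 1 4 (.split 0 4 (.leaf [3,1,2,0,4]
  [4,5,6,11,12,13,14,15,16,17,18,19,20,21,9,1,22,23]) (.split 0 3 (.leaf [1,0,2,4,3]
  [24,25,31,12,13,11,32,16,17,15,34,19,20,37,4,5]) (.split 0 1 (.leaf [0,3,2,1,4]
  [40,41,43,46,49,12,11,50,16,32,15,55,24,31,56,4,5,37]) (.leaf [0,1,2,3,4]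
  [60,61,64,65,66,41,43,46,67,50,32,15,54,55,24,31,36,56,5,37])))) (.split 0 3 (.split 0 1 (.leaf
  [4,1,2,3,0] [70,71,72,73,74,75,76,77,78,17,16,80,68,20,19,81,12,13]) (.split 1 4 (.leaf
  [4,1,2,3,0] [84,24,25,86,87,88,91,32,92,17,16,34,94,20,19,96,12,13]) (.leaf [0,1,2,3,4]
  [83,24,25,84,98,71,72,103,32,77,17,92,34,80,20,94,86,106,87,88]))) (.split 0 4 (.split 1 3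
  (.split 1 4 (.leaf [0,1,2,4,3] [110,41,43,40,114,87,86,91,50,92,32,16,55,84,24,49,96,12]) (.leaf
  [1,0,2,3,4] [41,43,110,71,98,103,50,77,32,92,55,83,24,84,114,106,87,86])) (.split 0 1 (.leaf
  [0,1,2,4,3] [115,116,119,90,120,74,73,76,121,78,77,16,102,70,71,95,81,12]) (.split 3 4 (.leaf
  [0,1,2,3,4] [109,41,110,40,123,116,125,90,50,121,92,16,114,126,87,91,49,95,12,96]) (.leaf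
  [3,1,2,0,4] [109,41,110,123,116,119,125,50,121,77,92,102,71,103,114,126,87,106])))) (.split 1 3
  (.leaf [0,4,2,3,1] [127,61,64,60,128,71,98,67,77,32,50,54,83,24,55,66,41,43]) (.split 1 4 (.leaf
  [0,1,2,4,3] [129,61,127,60,130,116,119,123,67,121,77,50,128,102,71,66,109,41]) (.leaf
  [1,0,2,3,4] [61,127,129,74,73,120,67,78,77,121,128,70,71,102,130,115,116,119])))))) (.split 0 3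
  (.split 0 4 (.split 0 3 (.split 1 4 (.split 1 3 (.leaf [0,1,2,4,3]
  [137,138,139,140,150,71,72,128,151,77,17,67,142,80,20,152,127,61]) (.leaf [1,0,2,3,4]
  [138,137,140,153,155,156,151,157,77,67,150,100,71,128,152,59,61,127])) (.split 0 1 (.leaf
  [0,1,2,4,3] [161,162,163,164,165,74,75,166,167,78,17,157,171,68,20,176,69,153]) (.split 3 4
  (.leaf [4,1,2,3,0] [178,138,137,186,162,190,164,151,167,77,157,150,194,71,100,176,153,155])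
  (.leaf [0,1,2,3,4]
  [178,138,139,137,186,162,163,190,151,167,17,77,142,171,20,80,150,194,71,72])))) (.split 1 3
  (.leaf [0,4,2,3,1] [197,198,202,204,207,162,186,208,167,151,67,206,178,138,140,147,61,152])
  (.split 1 4 (.leaf [0,1,2,4,3]
  [135,198,197,204,148,153,176,156,208,157,167,67,207,164,162,147,59,61]) (.leaf [1,0,2,3,4]
  [198,197,135,74,165,166,208,78,167,157,207,161,162,164,148,69,153,176])))) (.split 1 4 (.split 1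
  3 (.leaf [0,1,2,4,3] [214,215,209,218,222,162,163,207,223,167,17,208,33,171,20,200,197,198])
  (.leaf [0,1,2,3,4]
  [213,215,214,218,221,224,227,229,223,230,167,208,222,231,162,207,200,196,198,197])) (.leaf
  [0,1,2,4,3] [132,215,209,213,191,74,75,232,223,78,17,230,33,68,20,221,160,224]))) (.split 0 4
  (.split 1 4 (.split 3 4 (.leaf [0,1,2,3,4]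
  [234,235,237,238,244,153,148,156,245,157,208,67,247,135,198,204,240,59,61,147]) (.leaf
  [0,3,2,1,4] [234,235,250,237,244,153,148,245,157,223,208,246,215,218,247,135,198,200])) (.leaf
  [1,0,2,4,3] [235,250,234,74,191,166,245,78,223,157,246,132,215,244,69,153])) (.leaf [0,4,2,3,1]
  [158,251,252,253,172,74,191,254,78,223,245,28,132,215,246,249,235,250]))))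

def c23_00_10_21 : Cert 2 3 where
  T := [[0, 0], [1, 0], [2, 1]]
  W := ⟨0, 0, 1, 2, 0, 0, 1⟩
  hW := rfl
  steps := s23_00_10_21_0
  tree := t23_00_10_21
  ok := by decide +kernel

def s23_00_10_12_0 : List Step := [
.ini ⟨0,0,0,0,1⟩ ⟨0,1,0,0,0⟩, .dr 0, .dr 1, .ini ⟨1,0,0,0,0⟩ ⟨0,1,0,0,2⟩, .sl 2 3, .ini
  ⟨1,0,0,0,1⟩ ⟨0,0,1,0,0⟩, .ini ⟨1,0,0,0,1⟩ ⟨0,0,0,0,1⟩, .ini ⟨0,0,0,0,1⟩ ⟨1,0,0,0,0⟩, .dr 7, .ini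
  ⟨0,1,0,0,0⟩ ⟨1,0,0,0,1⟩, .sl 8 9, .sl 8 10, .ini ⟨0,1,0,0,2⟩ ⟨0,0,1,0,0⟩, .ini ⟨0,1,0,0,2⟩
  ⟨0,0,0,1,0⟩, .ini ⟨0,1,0,0,2⟩ ⟨0,0,0,0,1⟩, .ini ⟨0,0,1,0,0⟩ ⟨1,0,0,0,1⟩, .ini ⟨0,0,1,0,0⟩
  ⟨0,1,0,0,2⟩, .ini ⟨0,0,1,0,0⟩ ⟨0,0,0,1,0⟩, .ini ⟨0,0,1,0,0⟩ ⟨0,0,0,0,1⟩, .ini ⟨0,0,0,1,0⟩
  ⟨0,1,0,0,2⟩, .ini ⟨0,0,0,1,0⟩ ⟨0,0,1,0,0⟩, .ini ⟨0,0,0,1,0⟩ ⟨0,0,0,0,1⟩, .ini ⟨0,0,0,0,1⟩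
  ⟨0,0,1,0,0⟩, .ini ⟨0,0,0,0,1⟩ ⟨0,0,0,1,0⟩, .ini ⟨1,0,0,1,0⟩ ⟨0,0,1,0,0⟩, .ini ⟨1,0,0,1,0⟩
  ⟨0,0,0,1,0⟩, .ini ⟨1,0,0,1,0⟩ ⟨0,0,0,0,1⟩, .ini ⟨0,0,0,1,0⟩ ⟨1,0,0,0,0⟩, .dl 27, .sr 26 28, .ini
  ⟨0,0,1,0,0⟩ ⟨1,0,0,1,0⟩, .dr 27, .ini ⟨1,0,0,0,1⟩ ⟨0,0,0,1,0⟩, .dl 7, .sr 32 33, .ini
  ⟨1,1,0,0,2⟩ ⟨0,0,0,1,0⟩, .ini ⟨0,1,0,0,0⟩ ⟨1,0,0,0,0⟩, .sl 36 33, .sl 7 37, .dr 38, .sr 35 39,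
  .sr 35 40, .ini ⟨1,1,0,0,2⟩ ⟨0,0,1,0,0⟩, .ini ⟨1,1,0,0,0⟩ ⟨1,0,0,0,1⟩, .sl 8 43, .sl 8 44, .ini
  ⟨1,0,0,1,0⟩ ⟨0,1,0,0,0⟩, .sr 46 28, .sr 26 47, .sr 26 48, .ini ⟨0,0,0,1,0⟩ ⟨1,1,0,0,2⟩, .dl 50,
  .sl 49 51, .ini ⟨2,1,0,2,2⟩ ⟨0,0,1,0,0⟩, .ini ⟨0,1,0,0,0⟩ ⟨1,0,0,1,0⟩, .sl 34 34, .sl 54 55, .sl
  31 56, .sl 31 57, .sl 8 29, .sl 9 59, .sl 8 60, .sl 29 61, .ini ⟨0,0,1,0,0⟩ ⟨1,1,0,0,2⟩, .ini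
  ⟨0,0,1,0,0⟩ ⟨2,1,0,2,2⟩, .sr 28 48, .sr 25 65, .sr 26 66, .sr 25 67, .ini ⟨1,0,0,0,0⟩
  ⟨0,1,0,0,1⟩, .sl 1 69, .dr 70, .sr 33 71, .sr 32 72, .sr 32 73, .dia ⟨1,1,0,0,2⟩ 1 1, .sr 35 75,
  .ini ⟨1,1,0,1,2⟩ ⟨0,0,1,0,0⟩, .ini ⟨0,0,0,0,1⟩ ⟨1,0,0,1,0⟩, .sl 54 34, .sl 31 79, .sl 78 80, .dr
  81, .ini ⟨0,0,1,0,0⟩ ⟨1,1,0,1,2⟩, .ini ⟨0,0,0,1,0⟩ ⟨1,1,0,0,1⟩, .dr 84, .sr 21 85, .ini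
  ⟨0,1,0,0,0⟩ ⟨1,1,0,1,2⟩, .ini ⟨2,0,0,0,2⟩ ⟨0,0,0,1,0⟩, .sl 71 71, .sr 88 89, .sl 87 90, .sl 86
  91, .sl 86 92, .sr 32 71, .ini ⟨1,1,0,0,0⟩ ⟨0,1,0,0,2⟩, .sl 2 95, .sl 2 96, .dl 1, .sr 98 11,
  .sr 13 99, .sl 19 96, .sl 2 101, .ini ⟨0,1,0,0,0⟩ ⟨1,1,0,0,2⟩, .sl 103 89, .ini ⟨2,1,0,0,2⟩
  ⟨0,0,1,0,0⟩, .ini ⟨1,0,0,0,0⟩ ⟨1,0,0,0,1⟩, .sl 106 44, .sl 8 107, .ini ⟨0,0,1,0,0⟩ ⟨2,1,0,0,2⟩,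
  .sr 26 65, .ini ⟨1,0,0,0,0⟩ ⟨2,1,0,0,2⟩, .ini ⟨1,0,0,0,0⟩ ⟨0,0,1,0,0⟩, .ini ⟨1,0,0,0,0⟩
  ⟨1,0,0,1,0⟩, .sl 33 33, .sl 36 114, .ini ⟨0,0,1,0,0⟩ ⟨1,0,0,0,0⟩, .sl 69 98, .ini ⟨0,1,0,0,1⟩
  ⟨0,0,0,0,1⟩, .ini ⟨0,1,0,0,1⟩ ⟨1,0,0,0,0⟩, .dr 119, .sr 118 120, .ini ⟨0,1,0,0,1⟩ ⟨0,0,1,0,0⟩,
  .ini ⟨0,1,0,0,1⟩ ⟨0,0,0,1,0⟩, .dia ⟨0,1,0,0,1⟩ 1 1, .sr 118 124, .ini ⟨0,0,1,0,0⟩ ⟨0,1,0,0,1⟩,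
  .ini ⟨0,0,0,1,0⟩ ⟨0,1,0,0,1⟩, .sl 69 117, .sl 127 128, .sl 127 129, .ini ⟨2,1,0,2,2⟩
  ⟨0,0,0,1,0⟩, .sr 10 120, .sr 123 132, .sr 123 133, .ini ⟨0,0,0,1,0⟩ ⟨2,1,0,0,1⟩, .dr 135, .sr 21
  136, .dr 137, .ini ⟨2,1,0,1,2⟩ ⟨0,0,1,0,0⟩, .ini ⟨2,1,0,1,2⟩ ⟨0,0,0,1,0⟩, .dia ⟨2,1,0,1,2⟩ 1 1,
  .sr 140 141, .ini ⟨1,0,0,0,0⟩ ⟨1,1,0,0,2⟩, .sl 143 51, .ini ⟨0,0,1,0,0⟩ ⟨2,1,0,1,2⟩, .dl 137,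
  .ini ⟨2,1,0,0,2⟩ ⟨0,0,0,0,1⟩, .ini ⟨1,0,0,0,1⟩ ⟨0,1,0,0,0⟩, .dr 148, .dl 149, .sr 56 150, .sr
  147 151, .sl 7 28, .dl 153, .sl 71 49, .sr 154 155, .sl 132 156, .sl 69 124, .ini ⟨1,1,0,0,1⟩
  ⟨0,0,1,0,0⟩, .ini ⟨1,1,0,0,1⟩ ⟨0,0,0,0,1⟩, .dia ⟨1,1,0,0,1⟩ 1 1, .sr 37 161, .sr 160 162, .ini
  ⟨0,0,1,0,0⟩ ⟨1,1,0,0,1⟩, .ini ⟨1,0,0,0,0⟩ ⟨1,1,0,0,1⟩, .ini ⟨0,0,0,1,0⟩ ⟨0,2,0,0,1⟩, .ini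
  ⟨1,0,0,0,0⟩ ⟨0,2,0,0,1⟩, .dl 0, .dr 168, .sl 167 169, .sl 166 170, .ini ⟨1,1,0,1,1⟩ ⟨0,0,1,0,0⟩,
  .ini ⟨1,1,0,1,1⟩ ⟨0,0,0,1,0⟩, .sl 127 158, .ini ⟨0,2,0,0,1⟩ ⟨0,0,0,1,0⟩, .dl 168, .ini
  ⟨0,2,0,0,0⟩ ⟨1,0,0,0,1⟩, .sl 8 177, .sr 176 178, .sr 175 179, .ini ⟨0,2,0,0,1⟩ ⟨0,0,1,0,0⟩, .ini
  ⟨0,1,0,0,0⟩ ⟨0,1,0,0,1⟩, .sl 182 124, .ini ⟨0,0,1,0,0⟩ ⟨1,1,0,1,1⟩, .ini ⟨0,0,1,0,0⟩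
  ⟨0,2,0,0,1⟩, .sr 123 120, .ini ⟨0,1,0,0,0⟩ ⟨0,0,1,0,0⟩, .ini ⟨0,1,0,0,0⟩ ⟨0,0,0,1,0⟩, .ini
  ⟨0,1,0,0,0⟩ ⟨0,2,0,0,1⟩, .ini ⟨0,0,1,0,0⟩ ⟨0,1,0,0,0⟩, .ini ⟨0,0,0,1,0⟩ ⟨0,1,0,0,0⟩, .sr 25 48,
  .ini ⟨1,1,0,0,1⟩ ⟨0,0,0,1,0⟩, .sr 193 161, .dl 84, .ini ⟨1,0,0,0,0⟩ ⟨0,1,0,0,0⟩]

def t23_00_10_12 : Tree :=
(.split 1 4 (.split 1 4 (.split 0 4 (.leaf [3,1,2,0,4]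
  [4,5,6,11,12,13,14,15,16,17,18,19,20,21,8,2,22,23]) (.split 0 3 (.leaf [1,0,2,4,3]
  [24,25,29,12,13,11,30,16,17,15,31,19,20,34,4,5]) (.split 0 1 (.split 1 3 (.split 1 3 (.leaf
  [3,1,2,0,4] [41,42,45,52,53,58,62,63,64,30,15,68,24,29,71,74,5,34]) (.leaf [0,1,2,3,4]
  [76,42,41,45,51,77,82,61,63,83,64,15,52,93,53,62,71,94,5,74])) (.leaf [0,1,2,3,4]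
  [97,42,76,45,99,12,100,11,63,16,83,15,51,102,77,61,71,4,5,94])) (.split 0 1 (.leaf [0,3,2,1,4]
  [104,105,56,108,39,42,45,109,63,30,15,110,24,29,72,71,5,34]) (.leaf [0,1,2,3,4]
  [111,112,113,106,115,105,56,108,116,109,30,15,28,110,24,29,33,72,5,34]))))) (.split 0 4 (.leaf
  [3,1,2,0,4] [117,42,97,121,122,123,125,63,126,17,16,127,20,19,99,98,12,13]) (.split 0 4 (.split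
  0 3 (.split 0 3 (.leaf [0,1,2,4,3]
  [130,53,131,52,134,122,123,121,64,126,17,63,138,127,20,41,117,42]) (.leaf [0,1,2,3,4]
  [129,139,142,144,133,122,134,121,145,126,64,63,146,130,53,52,40,117,42,41])) (.leaf [0,1,2,3,4]
  [128,105,152,104,132,122,133,121,109,126,145,63,157,129,139,144,39,117,42,40])) (.split 0 3
  (.leaf [1,0,2,4,3] [24,25,110,122,123,132,30,126,17,109,31,127,20,56,128,105]) (.split 0 1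
  (.leaf [0,3,2,1,4] [158,159,79,163,120,122,132,164,126,30,109,48,24,110,150,128,105,56]) (.leaf
  [0,1,2,3,4] [165,112,113,111,37,159,79,163,116,164,30,109,28,48,24,110,115,150,105,56]))))))
  (.split 0 3 (.split 0 4 (.split 1 4 (.leaf [0,1,2,3,4]
  [171,172,173,174,180,181,175,183,184,185,17,126,85,166,20,127,186,169,122,123]) (.leaf
  [1,0,2,3,4] [172,173,171,187,188,189,184,190,17,185,85,191,20,166,180,176,181,175])) (.leaf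
  [0,4,2,3,1] [46,24,25,192,54,187,188,30,190,17,184,31,191,20,85,80,172,173])) (.split 0 4
  (.split 1 4 (.split 3 4 (.leaf [0,1,2,3,4]
  [170,159,194,158,179,181,180,183,164,185,184,126,195,171,172,174,120,169,122,186]) (.leaf
  [0,3,2,1,4] [170,159,79,194,179,181,180,164,185,30,184,48,24,192,195,171,172,80])) (.leaf
  [1,0,2,4,3] [159,79,170,187,54,189,164,190,30,185,48,46,24,179,176,181])) (.leaf [0,4,2,3,1]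
  [196,112,113,165,36,187,54,116,190,30,164,28,46,24,48,37,159,79]))))

def c23_00_10_12 : Cert 2 3 where
  T := [[0, 0], [1, 0], [1, 2]]
  W := ⟨0, 0, 1, 1, 0, 0, 2⟩
  hW := rfl
  steps := s23_00_10_12_0
  tree := t23_00_10_12
  ok := by decide +kernel

def s23_00_10_03_0 : List Step := [
.ini ⟨1,0,0,0,0⟩ ⟨0,1,0,0,0⟩, .ini ⟨1,0,0,0,0⟩ ⟨0,0,1,0,0⟩, .ini ⟨1,0,0,0,0⟩ ⟨0,0,0,0,1⟩, .ini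
  ⟨0,1,0,0,0⟩ ⟨1,0,0,0,0⟩, .ini ⟨0,1,0,0,0⟩ ⟨0,0,1,0,0⟩, .ini ⟨0,1,0,0,0⟩ ⟨0,0,0,1,0⟩, .ini
  ⟨0,0,1,0,0⟩ ⟨1,0,0,0,0⟩, .ini ⟨0,0,1,0,0⟩ ⟨0,1,0,0,0⟩, .ini ⟨0,0,1,0,0⟩ ⟨0,0,0,1,0⟩, .ini
  ⟨0,0,1,0,0⟩ ⟨0,0,0,0,1⟩, .ini ⟨0,0,0,1,0⟩ ⟨0,1,0,0,0⟩, .ini ⟨0,0,0,1,0⟩ ⟨0,0,1,0,0⟩, .ini
  ⟨0,0,0,1,0⟩ ⟨0,0,0,0,1⟩, .ini ⟨0,0,0,0,1⟩ ⟨1,0,0,0,0⟩, .ini ⟨0,0,0,0,1⟩ ⟨0,0,1,0,0⟩, .ini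
  ⟨0,0,0,0,1⟩ ⟨0,0,0,1,0⟩]

def t23_00_10_03 : Tree :=
(.leaf [3,4,2,0,1] [0,1,2,3,4,5,6,7,8,9,10,11,12,13,14,15])

def c23_00_10_03 : Cert 2 3 where
  T := [[0, 0], [1, 0], [0, 3]]
  W := ⟨0, 0, 1, 0, 0, 0, 3⟩
  hW := rfl
  steps := s23_00_10_03_0
  tree := t23_00_10_03
  ok := by decide +kernel

def s23_00_01_30_0 : List Step := [
.ini ⟨1,0,0,0,0⟩ ⟨0,1,0,0,0⟩, .ini ⟨1,0,0,0,0⟩ ⟨0,0,1,0,0⟩, .ini ⟨1,0,0,0,0⟩ ⟨0,0,0,1,0⟩, .ini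
  ⟨0,1,0,0,0⟩ ⟨1,0,0,0,0⟩, .ini ⟨0,1,0,0,0⟩ ⟨0,0,1,0,0⟩, .ini ⟨0,1,0,0,0⟩ ⟨0,0,0,0,1⟩, .ini
  ⟨0,0,1,0,0⟩ ⟨1,0,0,0,0⟩, .ini ⟨0,0,1,0,0⟩ ⟨0,1,0,0,0⟩, .ini ⟨0,0,1,0,0⟩ ⟨0,0,0,1,0⟩, .ini
  ⟨0,0,1,0,0⟩ ⟨0,0,0,0,1⟩, .ini ⟨0,0,0,1,0⟩ ⟨1,0,0,0,0⟩, .ini ⟨0,0,0,1,0⟩ ⟨0,0,1,0,0⟩, .ini
  ⟨0,0,0,1,0⟩ ⟨0,0,0,0,1⟩, .ini ⟨0,0,0,0,1⟩ ⟨0,1,0,0,0⟩, .ini ⟨0,0,0,0,1⟩ ⟨0,0,1,0,0⟩, .ini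
  ⟨0,0,0,0,1⟩ ⟨0,0,0,1,0⟩]

def t23_00_01_30 : Tree :=
(.leaf [4,3,2,1,0] [0,1,2,3,4,5,6,7,8,9,10,11,12,13,14,15])

def c23_00_01_30 : Cert 2 3 where
  T := [[0, 0], [0, 1], [3, 0]]
  W := ⟨0, 0, 0, 3, 0, 1, 0⟩
  hW := rfl
  steps := s23_00_01_30_0
  tree := t23_00_01_30
  ok := by decide +kernel

def s23_00_01_21_0 : List Step := [
.ini ⟨0,0,0,0,1⟩ ⟨0,1,0,0,0⟩, .dr 0, .ini ⟨1,0,0,0,0⟩ ⟨0,1,0,0,1⟩, .sl 1 2, .sl 1 3, .ini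
  ⟨1,0,0,0,2⟩ ⟨0,0,1,0,0⟩, .ini ⟨1,0,0,0,2⟩ ⟨0,0,0,1,0⟩, .ini ⟨1,0,0,0,2⟩ ⟨0,0,0,0,1⟩, .ini
  ⟨0,0,0,0,1⟩ ⟨1,0,0,0,0⟩, .dr 8, .dr 9, .ini ⟨0,1,0,0,0⟩ ⟨1,0,0,0,2⟩, .sl 10 11, .ini ⟨0,1,0,0,1⟩
  ⟨0,0,1,0,0⟩, .ini ⟨0,1,0,0,1⟩ ⟨0,0,0,0,1⟩, .ini ⟨0,0,1,0,0⟩ ⟨1,0,0,0,2⟩, .ini ⟨0,0,1,0,0⟩
  ⟨0,1,0,0,1⟩, .ini ⟨0,0,1,0,0⟩ ⟨0,0,0,1,0⟩, .ini ⟨0,0,1,0,0⟩ ⟨0,0,0,0,1⟩, .ini ⟨0,0,0,1,0⟩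
  ⟨1,0,0,0,2⟩, .ini ⟨0,0,0,1,0⟩ ⟨0,0,1,0,0⟩, .ini ⟨0,0,0,1,0⟩ ⟨0,0,0,0,1⟩, .ini ⟨0,0,0,0,1⟩
  ⟨0,0,1,0,0⟩, .ini ⟨0,0,0,0,1⟩ ⟨0,0,0,1,0⟩, .ini ⟨0,1,0,1,0⟩ ⟨0,0,1,0,0⟩, .ini ⟨0,1,0,1,0⟩
  ⟨0,0,0,1,0⟩, .ini ⟨0,1,0,1,0⟩ ⟨0,0,0,0,1⟩, .ini ⟨0,0,0,1,0⟩ ⟨0,1,0,0,0⟩, .dl 27, .sr 26 28, .ini
  ⟨0,0,1,0,0⟩ ⟨0,1,0,1,0⟩, .dr 27, .ini ⟨0,1,0,0,1⟩ ⟨0,0,0,1,0⟩, .dl 0, .sr 32 33, .ini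
  ⟨1,0,0,0,1⟩ ⟨0,1,0,0,0⟩, .dl 35, .sl 0 36, .dl 37, .ini ⟨1,2,0,0,2⟩ ⟨0,0,1,0,0⟩, .ini
  ⟨1,0,0,0,0⟩ ⟨0,1,0,1,0⟩, .sl 34 34, .sl 40 41, .ini ⟨0,1,0,0,0⟩ ⟨0,1,0,0,1⟩, .ini ⟨1,1,0,0,0⟩
  ⟨0,1,0,0,1⟩, .sl 1 44, .sl 43 45, .sl 1 46, .ini ⟨0,1,0,0,0⟩ ⟨1,2,0,0,2⟩, .ini ⟨0,1,0,0,0⟩
  ⟨0,0,1,0,0⟩, .ini ⟨0,1,0,0,0⟩ ⟨0,1,0,1,0⟩, .ini ⟨0,0,1,0,0⟩ ⟨1,2,0,0,2⟩, .ini ⟨0,0,1,0,0⟩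
  ⟨0,1,0,0,0⟩, .ini ⟨0,1,0,1,0⟩ ⟨1,0,0,0,0⟩, .sr 28 53, .sr 26 54, .sr 28 55, .sr 26 56, .ini
  ⟨0,1,0,0,0⟩ ⟨1,0,0,0,1⟩, .sl 9 58, .dr 59, .sr 33 60, .dr 37, .ini ⟨1,1,0,0,2⟩ ⟨0,0,1,0,0⟩, .sl
  1 45, .ini ⟨0,1,0,0,0⟩ ⟨1,1,0,0,2⟩, .dia ⟨1,1,0,0,2⟩ 1 1, .sl 65 66, .ini ⟨0,0,1,0,0⟩
  ⟨1,1,0,0,2⟩, .sr 26 55, .ini ⟨0,0,0,1,0⟩ ⟨1,1,0,0,2⟩, .dl 70, .sl 69 71, .ini ⟨1,2,0,2,2⟩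
  ⟨0,0,1,0,0⟩, .sl 31 42, .sl 31 74, .sl 1 29, .sl 2 76, .sl 1 77, .sl 29 78, .ini ⟨1,1,0,0,2⟩
  ⟨0,0,0,1,0⟩, .sr 80 62, .sr 80 81, .ini ⟨0,0,1,0,0⟩ ⟨1,2,0,2,2⟩, .sr 25 56, .sr 26 84, .sr 25
  85, .sr 32 61, .sr 32 87, .ini ⟨1,1,0,1,2⟩ ⟨0,0,1,0,0⟩, .ini ⟨0,0,0,0,1⟩ ⟨0,1,0,1,0⟩, .sl 40 34,
  .sl 31 91, .sl 90 92, .dr 93, .sr 80 66, .ini ⟨0,0,1,0,0⟩ ⟨1,1,0,1,2⟩, .ini ⟨0,0,0,1,0⟩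
  ⟨1,1,0,0,1⟩, .dr 97, .sr 21 98, .ini ⟨0,1,0,0,0⟩ ⟨1,1,0,1,2⟩, .sl 100 95, .sl 99 101, .sl 99
  102, .sr 32 60, .dl 9, .sr 4 105, .sr 6 106, .ini ⟨1,1,0,0,0⟩ ⟨1,0,0,0,2⟩, .sl 10 108, .sl 10
  109, .sl 19 109, .sl 10 111, .ini ⟨1,0,0,0,1⟩ ⟨0,0,0,0,1⟩, .dr 35, .sr 113 114, .ini ⟨1,0,0,0,1⟩
  ⟨0,0,1,0,0⟩, .ini ⟨1,0,0,0,1⟩ ⟨0,0,0,1,0⟩, .dia ⟨1,0,0,0,1⟩ 1 1, .sr 113 118, .sl 58 105, .ini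
  ⟨0,0,1,0,0⟩ ⟨1,0,0,0,1⟩, .ini ⟨0,0,0,1,0⟩ ⟨1,0,0,0,1⟩, .sr 3 114, .sr 117 123, .sr 117 124, .sl
  58 120, .sl 122 126, .sl 122 127, .ini ⟨1,2,0,2,2⟩ ⟨0,0,0,1,0⟩, .ini ⟨0,0,0,1,0⟩ ⟨1,2,0,0,1⟩,
  .dr 130, .sr 21 131, .dr 132, .ini ⟨1,2,0,1,2⟩ ⟨0,0,1,0,0⟩, .ini ⟨1,2,0,1,2⟩ ⟨0,0,0,1,0⟩, .dia
  ⟨1,2,0,1,2⟩ 1 1, .sr 135 136, .sl 65 71, .ini ⟨0,0,1,0,0⟩ ⟨1,2,0,1,2⟩, .dl 132, .ini ⟨1,2,0,0,2⟩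
  ⟨0,0,0,0,1⟩, .sr 33 59, .dl 142, .sr 42 143, .sr 141 144, .dl 97, .sr 77 146, .sl 61 147, .ini
  ⟨1,1,0,0,1⟩ ⟨0,0,1,0,0⟩, .ini ⟨1,1,0,0,1⟩ ⟨0,0,0,0,1⟩, .dia ⟨1,1,0,0,1⟩ 1 1, .sr 36 151, .sr 150
  152, .ini ⟨0,1,0,0,0⟩ ⟨1,1,0,0,1⟩, .ini ⟨0,0,1,0,0⟩ ⟨1,1,0,0,1⟩, .sl 58 118, .ini ⟨1,0,0,0,0⟩
  ⟨1,1,0,0,1⟩, .sl 157 114, .ini ⟨2,0,0,0,1⟩ ⟨0,0,1,0,0⟩, .ini ⟨2,0,0,0,1⟩ ⟨0,0,0,1,0⟩, .ini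
  ⟨1,0,0,0,0⟩ ⟨1,0,0,0,1⟩, .sl 161 118, .ini ⟨0,1,0,0,0⟩ ⟨2,0,0,0,1⟩, .dl 8, .dr 164, .sl 163 165,
  .ini ⟨0,0,1,0,0⟩ ⟨2,0,0,0,1⟩, .ini ⟨0,0,0,1,0⟩ ⟨2,0,0,0,1⟩, .ini ⟨2,0,0,0,1⟩ ⟨0,1,0,0,0⟩, .dl
  169, .ini ⟨2,1,0,0,1⟩ ⟨0,0,1,0,0⟩, .sl 40 91, .sl 154 158, .ini ⟨0,1,0,0,0⟩ ⟨2,1,0,0,1⟩, .ini
  ⟨0,0,1,0,0⟩ ⟨2,1,0,0,1⟩, .ini ⟨0,1,0,1,0⟩ ⟨2,0,0,0,1⟩, .sr 28 176, .ini ⟨0,1,0,0,0⟩ ⟨1,0,0,0,0⟩,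
  .sl 178 164, .dr 179, .dr 169, .dia ⟨2,0,0,0,1⟩ 1 1, .sl 163 182, .ini ⟨1,0,0,0,0⟩ ⟨0,0,1,0,0⟩,
  .ini ⟨1,0,0,0,0⟩ ⟨0,0,0,1,0⟩, .ini ⟨1,0,0,0,0⟩ ⟨2,0,0,0,1⟩, .ini ⟨0,0,1,0,0⟩ ⟨1,0,0,0,0⟩, .ini
  ⟨0,0,0,1,0⟩ ⟨1,0,0,0,0⟩, .dl 164, .ini ⟨1,0,0,0,0⟩ ⟨2,1,0,0,1⟩, .sl 178 189, .ini ⟨1,0,0,0,0⟩
  ⟨0,1,0,0,0⟩]

def t23_00_01_21 : Tree :=
(.split 0 4 (.split 0 4 (.split 1 4 (.leaf [0,3,2,1,4]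
  [4,5,6,7,12,13,14,15,16,17,18,19,20,21,10,1,22,23]) (.split 1 3 (.leaf [1,0,2,4,3]
  [5,6,4,24,25,29,15,30,17,16,19,31,20,12,34,13]) (.split 0 1 (.split 0 1 (.leaf [0,1,2,3,4]
  [38,39,42,47,48,49,50,43,51,52,30,16,57,28,24,29,61,33,13,34]) (.leaf [3,1,2,0,4]
  [62,63,64,67,39,42,47,68,51,30,16,57,24,29,60,61,13,34])) (.split 0 3 (.split 0 3 (.leaf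
  [0,3,2,1,4] [72,73,75,79,82,63,64,83,68,30,16,86,24,29,88,60,13,34]) (.leaf [0,1,2,3,4]
  [71,89,94,78,95,63,82,64,96,68,83,16,103,72,73,79,104,60,13,88])) (.leaf [0,1,2,3,4]
  [106,5,107,4,110,63,95,64,15,68,96,16,112,71,89,78,12,60,13,104]))))) (.split 1 4 (.leaf
  [0,3,2,1,4] [115,116,117,119,120,63,110,121,68,17,15,122,20,19,105,106,5,6]) (.split 1 4 (.split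
  1 3 (.split 1 3 (.leaf [0,1,2,4,3]
  [125,116,117,115,128,73,129,72,121,83,17,68,122,133,20,120,82,63]) (.leaf [0,1,2,3,4]
  [124,116,125,115,127,134,137,138,121,139,83,68,128,140,73,72,120,81,63,82])) (.leaf [0,1,2,3,4]
  [123,116,124,115,126,39,145,67,121,51,139,68,127,148,134,138,120,62,63,81])) (.split 1 3 (.leaf
  [1,0,2,4,3] [116,117,123,24,25,57,121,30,17,51,122,31,20,126,42,39]) (.split 0 1 (.leaf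
  [0,1,2,3,4] [36,149,91,153,154,49,50,48,155,52,30,51,55,28,24,57,143,38,39,42]) (.leaf
  [3,1,2,0,4] [114,116,123,156,149,91,153,121,155,30,51,55,24,57,126,143,39,42])))))) (.split 0 4
  (.split 1 4 (.leaf [0,3,2,1,4]
  [158,159,160,162,166,149,156,167,155,17,121,168,20,122,165,114,116,117]) (.split 1 3 (.leaf
  [1,0,2,4,3] [159,160,158,24,25,55,167,30,17,155,168,31,20,166,91,149]) (.split 0 1 (.leaf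
  [0,1,2,3,4] [170,171,172,173,174,49,50,154,175,52,30,155,177,28,24,55,180,36,149,91]) (.leaf
  [3,1,2,0,4] [181,159,158,183,171,172,173,167,175,30,155,177,24,55,166,180,149,91])))) (.split 1
  3 (.leaf [0,4,2,3,1] [40,184,185,186,53,24,25,187,30,17,167,188,31,20,168,189,159,160]) (.split
  1 4 (.leaf [0,1,2,4,3] [190,184,40,186,191,171,172,183,187,175,30,167,53,177,24,189,181,159])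
  (.leaf [0,1,2,3,4]
  [192,184,40,190,178,49,50,174,187,52,30,175,53,28,24,177,191,170,171,172])))))

def c23_00_01_21 : Cert 2 3 where
  T := [[0, 0], [0, 1], [2, 1]]
  W := ⟨0, 0, 0, 2, 0, 1, 1⟩
  hW := rfl
  steps := s23_00_01_21_0
  tree := t23_00_01_21
  ok := by decide +kernel

def s23_00_01_12_0 : List Step := [
.ini ⟨0,0,0,0,1⟩ ⟨0,1,0,0,0⟩, .dr 0, .dr 1, .ini ⟨1,0,0,0,0⟩ ⟨0,1,0,0,2⟩, .sl 2 3, .ini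
  ⟨1,0,0,0,1⟩ ⟨0,0,1,0,0⟩, .ini ⟨1,0,0,0,1⟩ ⟨0,0,0,1,0⟩, .ini ⟨1,0,0,0,1⟩ ⟨0,0,0,0,1⟩, .ini
  ⟨0,0,0,0,1⟩ ⟨1,0,0,0,0⟩, .dr 8, .ini ⟨0,1,0,0,0⟩ ⟨1,0,0,0,1⟩, .sl 9 10, .sl 9 11, .ini
  ⟨0,1,0,0,2⟩ ⟨0,0,1,0,0⟩, .ini ⟨0,1,0,0,2⟩ ⟨0,0,0,0,1⟩, .ini ⟨0,0,1,0,0⟩ ⟨1,0,0,0,1⟩, .ini
  ⟨0,0,1,0,0⟩ ⟨0,1,0,0,2⟩, .ini ⟨0,0,1,0,0⟩ ⟨0,0,0,1,0⟩, .ini ⟨0,0,1,0,0⟩ ⟨0,0,0,0,1⟩, .ini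
  ⟨0,0,0,1,0⟩ ⟨1,0,0,0,1⟩, .ini ⟨0,0,0,1,0⟩ ⟨0,0,1,0,0⟩, .ini ⟨0,0,0,1,0⟩ ⟨0,0,0,0,1⟩, .ini
  ⟨0,0,0,0,1⟩ ⟨0,0,1,0,0⟩, .ini ⟨0,0,0,0,1⟩ ⟨0,0,0,1,0⟩, .ini ⟨0,1,0,1,1⟩ ⟨0,0,1,0,0⟩, .ini
  ⟨0,1,0,1,1⟩ ⟨0,0,0,1,0⟩, .ini ⟨0,1,0,1,0⟩ ⟨0,0,0,0,1⟩, .ini ⟨0,0,0,1,0⟩ ⟨0,1,0,0,0⟩, .dl 27, .sr
  26 28, .sr 26 29, .sl 2 30, .ini ⟨0,0,1,0,0⟩ ⟨0,1,0,1,1⟩, .dr 27, .sr 21 33, .ini ⟨0,1,0,0,2⟩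
  ⟨0,0,0,1,0⟩, .dl 1, .sr 35 36, .ini ⟨1,0,0,0,0⟩ ⟨0,1,0,0,1⟩, .sl 38 36, .ini ⟨1,1,0,0,2⟩
  ⟨0,0,1,0,0⟩, .ini ⟨1,0,0,0,0⟩ ⟨0,1,0,1,1⟩, .sl 41 37, .dia ⟨0,1,0,0,2⟩ 1 1, .sl 3 43, .dia
  ⟨0,1,0,0,1⟩ 1 1, .sr 45 11, .ini ⟨0,1,0,0,1⟩ ⟨0,0,1,0,0⟩, .ini ⟨0,1,0,0,1⟩ ⟨0,0,0,1,0⟩, .sr 48
  45, .ini ⟨0,1,0,0,1⟩ ⟨0,0,0,0,1⟩, .sr 50 45, .ini ⟨0,0,1,0,0⟩ ⟨1,1,0,0,2⟩, .ini ⟨0,0,1,0,0⟩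
  ⟨0,1,0,0,1⟩, .ini ⟨0,0,0,1,0⟩ ⟨0,1,0,0,1⟩, .dl 54, .ini ⟨0,1,0,1,0⟩ ⟨1,0,0,0,1⟩, .sl 9 56, .sr
  55 57, .sr 36 12, .sl 1 38, .dr 60, .ini ⟨1,0,0,0,0⟩ ⟨1,0,0,0,1⟩, .sl 62 12, .sl 34 42, .sl 41
  64, .ini ⟨2,1,0,1,2⟩ ⟨0,0,1,0,0⟩, .ini ⟨2,1,0,1,2⟩ ⟨0,0,0,1,0⟩, .sl 62 57, .sl 9 68, .sl 62 69,
  .ini ⟨0,1,0,1,1⟩ ⟨1,0,0,0,0⟩, .dr 71, .sr 57 72, .ini ⟨0,0,1,0,0⟩ ⟨2,1,0,1,2⟩, .ini ⟨0,0,0,1,0⟩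
  ⟨1,0,0,0,0⟩, .sr 75 34, .sr 21 76, .sr 75 77, .dl 8, .sr 6 61, .sr 79 80, .dia ⟨0,1,0,1,1⟩ 1 1,
  .sl 41 82, .ini ⟨1,1,0,1,1⟩ ⟨0,0,1,0,0⟩, .ini ⟨1,1,0,1,1⟩ ⟨0,0,0,1,0⟩, .dl 71, .ini ⟨1,1,0,1,1⟩
  ⟨0,0,0,0,1⟩, .dia ⟨1,1,0,1,1⟩ 1 1, .sr 87 88, .sr 86 89, .ini ⟨0,0,1,0,0⟩ ⟨1,1,0,1,1⟩, .sr 6 60,
  .sr 79 92, .dl 93, .ini ⟨1,0,0,0,0⟩ ⟨1,1,0,1,1⟩, .ini ⟨1,0,0,0,0⟩ ⟨0,0,1,0,0⟩, .ini ⟨1,0,0,0,0⟩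
  ⟨0,0,0,1,0⟩, .ini ⟨0,0,1,0,0⟩ ⟨1,0,0,0,0⟩, .ini ⟨1,0,0,0,0⟩ ⟨1,1,0,0,2⟩, .ini ⟨0,0,0,1,0⟩
  ⟨1,1,0,0,2⟩, .dl 100, .sl 99 101, .ini ⟨0,1,0,0,1⟩ ⟨1,0,0,1,0⟩, .sr 6 79, .sl 103 104, .dr 105,
  .sl 38 55, .dr 103, .ini ⟨0,1,0,0,0⟩ ⟨1,1,0,0,2⟩, .sl 61 61, .sl 109 110, .ini ⟨2,1,0,0,2⟩
  ⟨0,0,1,0,0⟩, .ini ⟨0,1,0,0,0⟩ ⟨2,1,0,1,2⟩, .sl 81 81, .sl 113 114, .ini ⟨1,1,0,0,0⟩ ⟨1,0,0,0,1⟩,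
  .sl 9 116, .sl 62 117, .sl 9 118, .ini ⟨0,1,0,0,2⟩ ⟨1,0,0,0,0⟩, .dl 120, .dr 121, .ini
  ⟨0,0,1,0,0⟩ ⟨2,1,0,0,2⟩, .sl 8 86, .dl 124, .sr 125 102, .sr 79 61, .ini ⟨0,1,0,0,0⟩
  ⟨1,0,0,0,0⟩, .sl 79 79, .sl 128 129, .sl 41 42, .sr 130 131, .sr 86 107, .sr 86 133, .sr 87 134,
  .ini ⟨1,0,0,0,0⟩ ⟨2,1,0,0,2⟩, .sl 38 39, .ini ⟨0,1,0,0,1⟩ ⟨1,0,0,0,0⟩, .dr 138, .sr 11 139, .ini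
  ⟨1,0,0,0,0⟩ ⟨0,2,0,2,1⟩, .ini ⟨0,0,0,0,1⟩ ⟨0,1,0,1,0⟩, .dl 142, .dr 143, .sl 141 144, .ini
  ⟨0,1,0,0,0⟩ ⟨1,1,0,1,1⟩, .sl 146 72, .sl 76 147, .ini ⟨0,2,0,2,1⟩ ⟨0,0,1,0,0⟩, .ini ⟨0,2,0,2,1⟩
  ⟨0,0,0,1,0⟩, .sl 29 55, .ini ⟨0,0,1,0,0⟩ ⟨0,2,0,2,1⟩, .sr 33 33, .sr 21 153, .dl 0, .dr 155, .sr
  48 156, .sr 48 157, .ini ⟨0,2,0,1,1⟩ ⟨0,0,1,0,0⟩, .ini ⟨0,2,0,1,1⟩ ⟨0,0,0,0,1⟩, .sr 48 155, .dl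
  161, .sr 162 162, .sr 160 163, .ini ⟨0,1,0,0,0⟩ ⟨0,1,0,0,1⟩, .sl 165 55, .ini ⟨0,0,1,0,0⟩
  ⟨0,2,0,1,1⟩, .ini ⟨0,0,0,1,0⟩ ⟨0,2,0,0,1⟩, .dr 168, .dl 169, .ini ⟨1,0,0,0,0⟩ ⟨0,1,0,1,0⟩, .sl
  33 162, .sl 171 172, .ini ⟨1,2,0,2,1⟩ ⟨0,0,1,0,0⟩, .ini ⟨1,2,0,2,1⟩ ⟨0,0,0,1,0⟩, .ini
  ⟨1,0,0,0,0⟩ ⟨0,2,0,1,1⟩, .sl 176 170, .ini ⟨0,1,0,1,0⟩ ⟨1,0,0,0,0⟩, .dia ⟨0,1,0,1,0⟩ 1 2, .sr 26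
  179, .sr 178 180, .ini ⟨0,1,0,1,0⟩ ⟨0,0,1,0,0⟩, .ini ⟨0,1,0,1,0⟩ ⟨0,0,0,1,0⟩, .sr 28 28, .sr 26
  184, .sr 183 185, .ini ⟨0,0,1,0,0⟩ ⟨1,2,0,2,1⟩, .ini ⟨0,0,1,0,0⟩ ⟨0,1,0,1,0⟩, .sr 75 154, .sr
  162 147, .sl 171 143, .dr 191, .sl 95 148, .dia ⟨0,2,0,2,1⟩ 1 1, .sl 141 194, .ini ⟨0,2,0,2,1⟩
  ⟨1,0,0,0,0⟩, .dr 196, .sl 128 79, .ini ⟨1,1,0,0,1⟩ ⟨0,0,0,1,0⟩, .sl 176 157, .sr 199 200, .sr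
  198 201, .ini ⟨1,1,0,0,1⟩ ⟨0,0,1,0,0⟩, .sl 95 108, .sl 38 45, .sr 28 178, .sr 26 206, .sl 207
  133, .ini ⟨0,0,1,0,0⟩ ⟨1,1,0,0,1⟩, .sl 139 207, .ini ⟨1,0,0,0,0⟩ ⟨1,2,0,2,1⟩, .ini ⟨1,0,0,0,0⟩
  ⟨1,1,0,0,1⟩, .dl 196, .ini ⟨1,0,0,0,0⟩ ⟨0,2,0,0,1⟩, .sl 214 156, .dl 155, .ini ⟨0,2,0,0,0⟩
  ⟨1,0,0,0,1⟩, .sl 9 217, .sr 216 218, .ini ⟨0,2,0,0,1⟩ ⟨0,0,1,0,0⟩, .ini ⟨0,2,0,0,1⟩ ⟨0,0,0,1,0⟩,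
  .dia ⟨0,2,0,0,1⟩ 1 1, .sr 221 222, .sl 165 45, .ini ⟨0,0,1,0,0⟩ ⟨0,2,0,0,1⟩, .sl 156 185, .sr
  221 216, .ini ⟨1,0,0,0,0⟩ ⟨0,1,0,0,0⟩, .ini ⟨0,1,0,0,0⟩ ⟨0,0,1,0,0⟩, .ini ⟨0,1,0,0,0⟩
  ⟨0,1,0,1,0⟩, .ini ⟨0,1,0,0,0⟩ ⟨0,2,0,0,1⟩, .ini ⟨0,0,1,0,0⟩ ⟨0,1,0,0,0⟩]

def t23_00_01_12 : Tree :=
(.split 1 4 (.split 0 4 (.split 1 4 (.leaf [0,3,2,1,4]
  [4,5,6,7,12,13,14,15,16,17,18,19,20,21,9,2,22,23]) (.split 1 3 (.leaf [1,0,2,4,3]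
  [5,6,4,24,25,31,15,32,17,16,19,34,20,12,37,13]) (.split 0 1 (.leaf [0,1,2,3,4]
  [39,40,42,44,46,47,49,51,52,53,32,16,58,55,24,31,59,36,13,37]) (.leaf [3,1,2,0,4]
  [61,5,4,63,40,42,44,15,52,32,16,58,24,31,12,59,13,37])))) (.split 1 3 (.split 0 1 (.split 0 4
  (.leaf [0,4,2,3,1] [65,66,67,70,73,24,25,74,32,17,15,78,34,20,19,81,5,6]) (.leaf [0,1,2,3,4]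
  [83,84,85,90,72,24,25,73,91,32,17,74,76,34,20,78,94,65,66,67])) (.leaf [0,4,2,3,1]
  [95,96,97,62,86,84,85,98,91,17,15,75,76,20,19,79,5,6])) (.split 0 3 (.split 0 4 (.split 1 4
  (.leaf [0,1,2,4,3] [102,66,65,70,106,40,42,63,74,52,32,15,73,58,24,81,61,5]) (.leaf [1,0,2,3,4]
  [66,65,102,47,49,46,74,53,32,52,73,55,24,58,106,39,40,42])) (.leaf [0,4,2,3,1]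
  [107,84,83,90,108,47,49,91,53,32,74,72,55,24,73,94,66,65])) (.split 1 4 (.split 0 1 (.split 3 4
  (.leaf [0,1,2,3,4] [111,112,115,119,122,40,106,63,123,52,74,15,126,102,66,70,127,61,5,81])
  (.leaf [0,3,2,1,4] [111,112,132,115,122,40,106,123,52,91,74,135,84,90,126,102,66,94])) (.leaf
  [0,1,2,4,3] [136,96,95,62,130,112,132,119,98,123,91,15,86,135,84,79,127,5])) (.split 0 4 (.leaf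
  [0,1,2,4,3] [137,112,132,111,140,47,108,46,123,53,91,52,135,107,84,122,39,40]) (.leaf
  [1,0,2,3,4] [96,95,136,47,108,140,98,53,91,123,86,107,84,135,130,137,112,132])))))) (.split 1 3
  (.split 0 4 (.split 0 3 (.split 1 4 (.split 1 3 (.leaf [0,1,2,4,3]
  [145,84,85,107,148,149,150,151,91,152,17,53,76,154,20,108,158,47]) (.leaf [1,0,2,3,4]
  [84,145,107,159,164,166,91,167,152,53,148,170,149,151,108,157,47,158])) (.split 0 1 (.leaf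
  [0,1,2,4,3] [173,174,175,177,181,182,183,186,187,188,17,167,189,33,20,190,162,159]) (.split 3 4
  (.leaf [4,1,2,3,0] [192,84,145,193,174,195,177,91,187,152,167,148,197,149,170,190,159,164])
  (.leaf [0,1,2,3,4]
  [192,84,85,145,193,174,175,195,91,187,17,152,76,189,20,154,148,197,149,150])))) (.split 1 3
  (.leaf [0,4,2,3,1] [202,203,204,205,208,174,193,209,187,91,53,133,192,84,107,139,47,108])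
  (.split 1 4 (.leaf [0,1,2,4,3]
  [200,203,202,205,210,159,190,166,209,167,187,53,208,177,174,139,157,47]) (.leaf [1,0,2,3,4]
  [203,202,200,182,181,186,209,188,187,167,208,173,174,177,210,162,159,190])))) (.split 3 4
  (.split 1 3 (.leaf [0,1,2,3,4]
  [211,96,95,212,213,174,193,208,98,187,91,209,86,192,84,133,198,202,203,204]) (.leaf [0,4,2,3,1]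
  [171,96,211,212,178,182,181,98,188,187,209,213,173,174,208,198,203,202])) (.leaf [0,4,2,3,1]
  [171,96,97,95,178,182,183,98,188,17,91,75,33,20,76,86,84,85]))) (.split 1 4 (.split 0 4 (.split
  3 4 (.leaf [0,1,2,3,4]
  [215,203,200,205,219,220,223,224,209,225,167,53,210,226,159,166,139,156,47,157]) (.leaf
  [3,1,2,0,4] [215,203,200,219,220,227,223,209,225,188,167,185,182,186,210,226,159,162])) (.leaf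
  [1,0,2,4,3] [96,171,212,220,227,219,98,225,188,209,178,185,182,198,215,203])) (.leaf [4,1,2,3,0]
  [228,96,171,128,229,230,231,98,232,188,225,178,28,182,185,216,220,227]))))

def c23_00_01_12 : Cert 2 3 where
  T := [[0, 0], [0, 1], [1, 2]]
  W := ⟨0, 0, 0, 1, 0, 1, 2⟩
  hW := rfl
  steps := s23_00_01_12_0
  tree := t23_00_01_12
  ok := by decide +kernel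

def s23_00_01_03_0 : List Step := [
.ini ⟨1,0,0,0,0⟩ ⟨0,1,0,1,0⟩, .ini ⟨1,0,0,0,0⟩ ⟨0,0,1,0,0⟩, .ini ⟨1,0,0,0,0⟩ ⟨0,0,0,1,0⟩, .ini
  ⟨1,0,0,0,0⟩ ⟨0,0,0,0,1⟩, .ini ⟨0,1,0,1,0⟩ ⟨1,0,0,0,0⟩, .ini ⟨0,1,0,1,0⟩ ⟨0,0,1,0,0⟩, .ini
  ⟨0,1,0,1,0⟩ ⟨0,0,0,1,0⟩, .ini ⟨0,0,1,0,0⟩ ⟨1,0,0,0,0⟩, .ini ⟨0,0,1,0,0⟩ ⟨0,1,0,1,0⟩, .ini
  ⟨0,0,1,0,0⟩ ⟨0,0,0,1,0⟩, .ini ⟨0,0,1,0,0⟩ ⟨0,0,0,0,1⟩, .ini ⟨0,0,0,1,0⟩ ⟨1,0,0,0,0⟩, .ini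
  ⟨0,0,0,1,0⟩ ⟨0,1,0,0,0⟩, .dr 12, .ini ⟨0,0,0,1,0⟩ ⟨0,0,1,0,0⟩, .ini ⟨0,0,0,1,0⟩ ⟨0,0,0,0,1⟩,
  .ini ⟨0,0,0,0,1⟩ ⟨1,0,0,0,0⟩, .ini ⟨0,0,0,0,1⟩ ⟨0,0,1,0,0⟩, .ini ⟨0,0,0,0,1⟩ ⟨0,0,0,1,0⟩, .ini
  ⟨1,0,0,0,0⟩ ⟨0,1,0,0,3⟩, .ini ⟨1,0,0,0,0⟩ ⟨0,1,0,1,2⟩, .ini ⟨0,1,0,0,3⟩ ⟨1,0,0,0,0⟩, .ini
  ⟨0,1,0,0,3⟩ ⟨0,0,1,0,0⟩, .ini ⟨0,1,0,0,3⟩ ⟨0,0,0,1,0⟩, .ini ⟨0,0,0,0,1⟩ ⟨0,1,0,0,0⟩, .dr 24, .dr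
  25, .dl 26, .sr 23 27, .ini ⟨0,1,0,0,3⟩ ⟨0,0,0,0,1⟩, .ini ⟨0,0,1,0,0⟩ ⟨0,1,0,0,3⟩, .ini
  ⟨0,0,1,0,0⟩ ⟨0,1,0,1,2⟩, .ini ⟨0,1,0,1,2⟩ ⟨1,0,0,0,0⟩, .ini ⟨0,1,0,1,2⟩ ⟨0,0,0,0,1⟩, .ini
  ⟨0,0,0,1,0⟩ ⟨0,1,0,0,2⟩, .dl 34, .sr 33 35, .ini ⟨0,1,0,1,2⟩ ⟨0,0,1,0,0⟩, .dr 26, .ini
  ⟨1,0,0,0,0⟩ ⟨0,1,0,0,2⟩, .ini ⟨0,1,0,0,2⟩ ⟨1,0,0,0,0⟩, .ini ⟨0,1,0,0,2⟩ ⟨0,0,1,0,0⟩, .ini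
  ⟨0,1,0,0,2⟩ ⟨0,0,0,1,0⟩, .dia ⟨0,1,0,0,2⟩ 1 1, .sr 42 43, .ini ⟨0,1,0,0,2⟩ ⟨0,0,0,0,1⟩, .sr 45
  43, .ini ⟨0,0,1,0,0⟩ ⟨0,1,0,0,2⟩, .ini ⟨1,0,0,0,0⟩ ⟨0,2,0,2,3⟩, .dl 25, .dr 49, .sr 42 50, .sr
  42 51, .ini ⟨0,0,1,0,0⟩ ⟨0,2,0,2,3⟩, .ini ⟨0,2,0,2,3⟩ ⟨1,0,0,0,0⟩, .ini ⟨0,1,0,2,1⟩ ⟨0,0,0,0,1⟩,
  .ini ⟨0,0,0,1,0⟩ ⟨0,1,0,0,1⟩, .dl 56, .sl 56 57, .sr 55 58, .dl 59, .ini ⟨0,2,0,2,3⟩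
  ⟨0,0,1,0,0⟩, .dr 34, .ini ⟨0,1,0,0,0⟩ ⟨0,1,0,1,2⟩, .sl 63 28, .sl 62 64, .sl 62 65, .sr 15 13,
  .sr 42 49, .sl 67 68, .dr 69, .ini ⟨1,0,0,0,0⟩ ⟨0,1,0,1,1⟩, .ini ⟨0,0,1,0,0⟩ ⟨0,1,0,1,1⟩, .ini
  ⟨0,1,0,1,1⟩ ⟨1,0,0,0,0⟩, .ini ⟨0,1,0,1,1⟩ ⟨0,0,1,0,0⟩, .ini ⟨0,1,0,1,1⟩ ⟨0,0,0,0,1⟩, .dia
  ⟨0,1,0,1,1⟩ 1 2, .sr 75 76, .dl 49, .ini ⟨0,1,0,0,1⟩ ⟨0,0,0,1,0⟩, .dia ⟨0,1,0,0,1⟩ 1 1, .sr 79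
  80, .sr 79 81, .sr 42 68, .sl 82 83, .sr 78 84, .hr 85 2 ⟨0,1,0,1,1⟩, .sl 67 86, .sl 67 87, .ini
  ⟨1,0,0,0,0⟩ ⟨0,2,0,0,3⟩, .ini ⟨0,2,0,0,3⟩ ⟨1,0,0,0,0⟩, .ini ⟨0,2,0,0,3⟩ ⟨0,0,1,0,0⟩, .ini
  ⟨0,1,0,0,0⟩ ⟨0,1,0,0,2⟩, .sl 92 27, .ini ⟨0,0,1,0,0⟩ ⟨0,2,0,0,3⟩, .sr 57 57, .sr 75 95, .ini
  ⟨1,0,0,0,0⟩ ⟨0,1,0,0,1⟩, .ini ⟨0,1,0,0,1⟩ ⟨1,0,0,0,0⟩, .ini ⟨0,1,0,0,1⟩ ⟨0,0,1,0,0⟩, .ini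
  ⟨0,1,0,0,1⟩ ⟨0,0,0,0,1⟩, .dia ⟨0,1,0,0,1⟩ 1 2, .sr 100 101, .ini ⟨0,0,1,0,0⟩ ⟨0,1,0,0,1⟩, .ini
  ⟨1,0,0,0,0⟩ ⟨0,3,0,3,2⟩, .dl 24, .dr 105, .dr 106, .sr 79 107, .sr 79 108, .sr 79 109, .ini
  ⟨0,0,1,0,0⟩ ⟨0,3,0,3,2⟩, .ini ⟨0,3,0,3,2⟩ ⟨1,0,0,0,0⟩, .ini ⟨0,1,0,1,0⟩ ⟨0,0,0,0,1⟩, .dl 12, .sr
  113 114, .sl 115 57, .sl 56 116, .dl 117, .ini ⟨0,3,0,3,2⟩ ⟨0,0,1,0,0⟩, .ini ⟨0,1,0,0,0⟩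
  ⟨0,1,0,1,1⟩, .ini ⟨0,2,0,0,2⟩ ⟨0,0,0,1,0⟩, .dia ⟨0,1,0,0,1⟩ 2 1, .sr 121 122, .sl 120 123, .sl
  67 124, .sl 67 125, .sl 67 126, .ini ⟨0,0,0,0,1⟩ ⟨0,1,0,1,0⟩, .dl 128, .dr 129, .dr 130, .ini
  ⟨1,0,0,0,0⟩ ⟨0,2,0,2,1⟩, .ini ⟨0,0,1,0,0⟩ ⟨0,2,0,2,1⟩, .ini ⟨0,2,0,2,1⟩ ⟨1,0,0,0,0⟩, .ini
  ⟨0,2,0,2,1⟩ ⟨0,0,1,0,0⟩, .ini ⟨0,2,0,2,1⟩ ⟨0,0,0,0,1⟩, .sr 79 105, .dl 137, .sl 13 138, .dr 139,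
  .sr 136 140, .sr 13 13, .sr 15 142, .ini ⟨0,3,0,1,2⟩ ⟨0,0,0,1,0⟩, .sr 79 106, .dl 145, .sr 144
  146, .sl 143 147, .sl 143 148, .ini ⟨1,0,0,0,0⟩ ⟨0,2,0,1,1⟩, .ini ⟨1,0,0,0,0⟩ ⟨0,3,0,3,1⟩, .ini
  ⟨0,2,0,1,1⟩ ⟨1,0,0,0,0⟩, .ini ⟨0,2,0,1,1⟩ ⟨0,0,1,0,0⟩, .ini ⟨0,2,0,1,1⟩ ⟨0,0,0,1,0⟩, .dr 138,
  .sr 154 155, .dia ⟨0,2,0,1,1⟩ 1 1, .sr 154 157, .ini ⟨0,0,1,0,0⟩ ⟨0,2,0,1,1⟩, .ini ⟨0,0,1,0,0⟩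
  ⟨0,3,0,3,1⟩, .ini ⟨0,3,0,3,1⟩ ⟨1,0,0,0,0⟩, .sr 114 114, .sr 113 162, .sr 6 163, .ini ⟨0,0,0,1,0⟩
  ⟨0,2,0,0,1⟩, .dr 165, .dl 166, .sl 164 167, .ini ⟨0,3,0,3,1⟩ ⟨0,0,1,0,0⟩, .ini ⟨0,3,0,0,1⟩
  ⟨0,0,0,0,1⟩, .ini ⟨0,3,0,0,1⟩ ⟨0,0,0,2,0⟩, .dl 105, .dl 172, .sr 173 173, .sr 171 174, .sr 170
  175, .sl 143 176, .sl 143 177, .sl 143 178, .dia ⟨0,1,0,1,0⟩ 1 3, .sr 113 180, .ini ⟨0,3,0,0,1⟩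
  ⟨0,0,0,1,0⟩, .sr 182 173, .sl 13 183, .sl 13 184, .sl 13 185, .ini ⟨1,0,0,0,0⟩ ⟨0,3,0,1,2⟩, .ini
  ⟨0,3,0,1,2⟩ ⟨1,0,0,0,0⟩, .ini ⟨0,3,0,1,2⟩ ⟨0,0,1,0,0⟩, .ini ⟨0,0,1,0,0⟩ ⟨0,3,0,1,2⟩, .sl 80 115,
  .sr 191 157, .sr 116 167, .sl 80 191, .ini ⟨1,0,0,0,0⟩ ⟨0,3,0,0,2⟩, .ini ⟨0,3,0,0,2⟩
  ⟨1,0,0,0,0⟩, .ini ⟨0,3,0,0,2⟩ ⟨0,0,1,0,0⟩, .ini ⟨0,3,0,0,2⟩ ⟨0,0,0,1,0⟩, .dl 106, .sr 198 199,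
  .ini ⟨0,1,0,0,0⟩ ⟨0,1,0,0,1⟩, .sl 201 122, .ini ⟨0,0,1,0,0⟩ ⟨0,3,0,0,2⟩, .sr 114 163, .sr 113
  204, .sl 107 205, .ini ⟨1,0,0,0,0⟩ ⟨0,2,0,0,1⟩, .ini ⟨0,2,0,0,1⟩ ⟨1,0,0,0,0⟩, .ini ⟨0,2,0,0,1⟩
  ⟨0,0,1,0,0⟩, .ini ⟨0,2,0,0,1⟩ ⟨0,0,0,0,1⟩, .dr 172, .sr 210 211, .ini ⟨0,0,1,0,0⟩ ⟨0,2,0,0,1⟩,
  .ini ⟨1,0,0,0,0⟩ ⟨0,5,0,2,2⟩, .ini ⟨1,0,0,0,0⟩ ⟨0,3,0,2,1⟩, .ini ⟨0,5,0,2,2⟩ ⟨1,0,0,0,0⟩, .ini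
  ⟨0,5,0,2,2⟩ ⟨0,0,1,0,0⟩, .ini ⟨0,1,0,0,0⟩ ⟨0,3,0,2,1⟩, .sl 155 155, .sl 218 219, .ini
  ⟨0,1,0,0,0⟩ ⟨0,2,0,1,1⟩, .dia ⟨0,2,0,1,1⟩ 2 1, .sl 221 222, .ini ⟨0,0,1,0,0⟩ ⟨0,5,0,2,2⟩, .ini
  ⟨0,0,1,0,0⟩ ⟨0,3,0,2,1⟩, .ini ⟨0,3,0,2,1⟩ ⟨1,0,0,0,0⟩, .ini ⟨0,2,0,2,0⟩ ⟨0,0,0,0,1⟩, .sl 204
  204, .sr 227 228, .sl 107 229, .sr 185 230, .sr 185 231, .ini ⟨0,3,0,2,1⟩ ⟨0,0,1,0,0⟩, .sl 221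
  167, .sl 12 172, .dr 235, .dr 236, .dia ⟨0,1,0,1,0⟩ 1 1, .sr 238 162, .sr 113 239, .sr 6 240,
  .ini ⟨1,0,0,0,0⟩ ⟨0,3,0,1,1⟩, .ini ⟨0,3,0,1,1⟩ ⟨1,0,0,0,0⟩, .ini ⟨0,3,0,1,1⟩ ⟨0,0,1,0,0⟩, .ini
  ⟨0,3,0,1,1⟩ ⟨0,0,0,0,1⟩, .sl 12 173, .dr 246, .sr 184 247, .sr 245 248, .ini ⟨0,0,1,0,0⟩
  ⟨0,3,0,1,1⟩, .dl 236, .ini ⟨0,2,0,0,1⟩ ⟨0,0,0,1,0⟩, .dia ⟨0,2,0,0,1⟩ 1 1, .sr 252 211, .sr 253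
  254, .sr 252 255, .sl 163 199, .sl 163 257, .sl 163 253, .ini ⟨1,0,0,0,0⟩ ⟨0,3,0,0,1⟩, .ini
  ⟨0,3,0,0,1⟩ ⟨1,0,0,0,0⟩, .ini ⟨0,3,0,0,1⟩ ⟨0,0,1,0,0⟩, .ini ⟨0,1,0,0,0⟩ ⟨0,2,0,0,1⟩, .sl 263
  253, .ini ⟨0,0,1,0,0⟩ ⟨0,3,0,0,1⟩, .ini ⟨1,0,0,0,0⟩ ⟨0,1,0,0,0⟩, .ini ⟨0,1,0,0,0⟩ ⟨1,0,0,0,0⟩,
  .ini ⟨0,1,0,0,0⟩ ⟨0,0,1,0,0⟩, .ini ⟨0,1,0,0,0⟩ ⟨0,1,0,1,0⟩, .ini ⟨0,1,0,0,0⟩ ⟨0,3,0,0,1⟩, .ini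
  ⟨0,0,1,0,0⟩ ⟨0,1,0,0,0⟩]

def t23_00_01_03 : Tree :=
(.split 1 3 (.leaf [0,4,2,3,1] [0,1,2,3,4,5,6,7,8,9,10,11,13,14,15,16,17,18]) (.split 1 4 (.split
  3 4 (.split 1 4 (.split 3 4 (.split 1 4 (.leaf [0,1,2,4,3]
  [19,1,20,3,21,22,28,29,7,30,31,10,32,36,37,16,38,17]) (.leaf [0,1,2,3,4]
  [39,1,20,19,40,41,44,46,7,47,31,30,32,35,37,36,21,27,22,28])) (.split 3 4 (.leaf [0,1,2,3,4]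
  [39,1,48,20,40,41,52,44,7,47,53,31,54,60,61,66,32,35,37,70]) (.leaf [0,3,2,1,4]
  [39,1,71,48,40,41,52,7,47,72,53,73,74,77,54,60,61,88]))) (.split 1 4 (.leaf [0,1,2,4,3]
  [89,1,71,39,90,91,86,93,7,94,72,47,73,96,74,40,50,41]) (.leaf [0,1,2,3,4]
  [97,1,71,89,98,99,81,102,7,103,72,94,73,57,74,96,90,78,91,86]))) (.split 3 4 (.split 3 4 (.leaf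
  [0,1,2,3,4] [97,1,104,71,98,99,110,81,7,103,111,72,112,118,119,127,73,57,74,131]) (.leaf
  [0,3,2,1,4] [97,1,132,104,98,99,110,7,103,133,111,134,135,141,112,118,119,149])) (.split 1 3
  (.split 3 4 (.leaf [0,1,2,3,4]
  [150,1,151,132,152,153,156,158,7,159,160,133,161,168,169,179,134,167,135,140]) (.leaf
  [0,3,2,1,4] [150,1,0,151,152,153,156,7,159,8,160,4,5,181,161,168,169,186])) (.split 1 3 (.leaf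
  [0,1,2,3,4] [187,1,150,132,188,189,146,147,7,190,159,133,152,192,153,158,134,193,135,167])
  (.leaf [0,4,2,3,1] [97,1,187,132,98,99,108,7,103,190,133,188,194,189,147,134,135,193])))))
  (.split 1 4 (.split 3 4 (.split 1 4 (.leaf [0,1,2,4,3]
  [195,1,150,97,196,197,200,202,7,203,159,103,152,206,153,98,107,99]) (.leaf [0,3,2,1,4]
  [207,1,150,195,208,209,212,7,213,159,203,152,153,206,196,199,197,200])) (.split 1 3 (.split 1 4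
  (.split 3 4 (.leaf [0,1,2,3,4]
  [214,1,215,150,216,217,220,223,7,224,225,159,226,232,233,234,152,237,153,155]) (.leaf
  [0,3,2,1,4] [214,1,0,215,216,217,220,7,224,8,225,4,5,241,226,232,233,185])) (.leaf [0,1,2,4,3]
  [242,1,0,214,243,244,184,249,7,250,8,224,4,240,5,216,251,217])) (.split 3 4 (.leaf [0,4,2,3,1]
  [207,1,214,150,208,209,256,7,213,224,159,216,258,217,223,152,153,237]) (.leaf [0,1,2,3,4]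
  [207,1,242,214,208,209,254,256,7,213,250,224,243,259,244,249,216,258,217,251])))) (.split 1 4
  (.leaf [0,1,2,4,3] [260,1,0,207,261,262,183,264,7,265,8,213,4,204,5,208,211,209]) (.leaf
  [0,1,2,3,4] [266,1,0,260,267,268,269,270,7,271,8,265,4,114,5,204,261,173,262,183])))))

def c23_00_01_03 : Cert 2 3 where
  T := [[0, 0], [0, 1], [0, 3]]
  W := ⟨0, 0, 0, 0, 0, 1, 3⟩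
  hW := rfl
  steps := s23_00_01_03_0
  tree := t23_00_01_03
  ok := by decide +kernel

def s23_00_20_20_0 : List Step := [
.ini ⟨1,0,0,2,0⟩ ⟨0,1,0,0,0⟩, .ini ⟨1,0,0,2,0⟩ ⟨0,0,1,0,0⟩, .ini ⟨1,0,0,2,0⟩ ⟨0,0,0,1,0⟩, .ini
  ⟨0,1,0,0,0⟩ ⟨1,0,0,2,0⟩, .ini ⟨0,1,0,0,0⟩ ⟨0,0,1,0,0⟩, .ini ⟨0,1,0,0,0⟩ ⟨0,0,0,1,0⟩, .ini
  ⟨0,1,0,0,0⟩ ⟨0,0,0,0,1⟩, .ini ⟨0,0,1,0,0⟩ ⟨1,0,0,2,0⟩, .ini ⟨0,0,1,0,0⟩ ⟨0,1,0,0,0⟩, .ini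
  ⟨0,0,1,0,0⟩ ⟨0,0,0,1,0⟩, .ini ⟨0,0,1,0,0⟩ ⟨0,0,0,0,1⟩, .ini ⟨0,0,0,1,0⟩ ⟨1,0,0,0,0⟩, .dr 11, .dr
  12, .ini ⟨0,0,0,1,0⟩ ⟨0,1,0,0,0⟩, .ini ⟨0,0,0,1,0⟩ ⟨0,0,1,0,0⟩, .ini ⟨0,0,0,1,0⟩ ⟨0,0,0,0,1⟩,
  .ini ⟨0,0,0,0,1⟩ ⟨0,1,0,0,0⟩, .ini ⟨0,0,0,0,1⟩ ⟨0,0,1,0,0⟩, .ini ⟨0,0,0,0,1⟩ ⟨0,0,0,1,0⟩, .ini
  ⟨1,0,0,1,2⟩ ⟨0,1,0,0,0⟩, .ini ⟨1,0,0,1,2⟩ ⟨0,0,1,0,0⟩, .ini ⟨1,0,0,1,2⟩ ⟨0,0,0,1,0⟩, .ini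
  ⟨0,0,0,0,1⟩ ⟨1,0,0,1,0⟩, .dr 23, .dl 24, .sr 22 25, .ini ⟨1,0,0,1,2⟩ ⟨0,0,0,0,1⟩, .ini
  ⟨0,1,0,0,0⟩ ⟨1,0,0,1,2⟩, .ini ⟨0,1,0,0,0⟩ ⟨1,0,0,2,1⟩, .ini ⟨0,0,1,0,0⟩ ⟨1,0,0,1,2⟩, .ini
  ⟨0,0,1,0,0⟩ ⟨1,0,0,2,1⟩, .ini ⟨1,0,0,2,1⟩ ⟨0,0,0,0,1⟩, .sr 16 12, .dl 33, .sr 32 34, .ini
  ⟨1,0,0,2,1⟩ ⟨0,1,0,0,0⟩, .ini ⟨1,0,0,2,1⟩ ⟨0,0,1,0,0⟩, .dr 24, .ini ⟨1,0,0,1,1⟩ ⟨0,1,0,0,0⟩,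
  .ini ⟨1,0,0,1,1⟩ ⟨0,0,1,0,0⟩, .ini ⟨1,0,0,1,1⟩ ⟨0,0,0,1,0⟩, .dia ⟨1,0,0,1,1⟩ 1 1, .sr 41 42,
  .ini ⟨1,0,0,1,1⟩ ⟨0,0,0,0,1⟩, .sr 44 42, .ini ⟨0,1,0,0,0⟩ ⟨1,0,0,1,1⟩, .ini ⟨0,0,1,0,0⟩
  ⟨1,0,0,1,1⟩, .dl 23, .dr 48, .sr 41 49, .sr 41 50, .ini ⟨0,1,0,0,0⟩ ⟨2,0,0,4,1⟩, .ini
  ⟨0,0,1,0,0⟩ ⟨2,0,0,4,1⟩, .ini ⟨1,0,0,3,0⟩ ⟨0,0,0,0,1⟩, .ini ⟨0,0,0,1,0⟩ ⟨2,0,0,0,0⟩, .dr 55, .dr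
  56, .dl 12, .sr 58 58, .sl 57 59, .sr 54 60, .sr 54 61, .hr 62 2 ⟨1,0,0,1,1⟩, .dl 63, .ini
  ⟨2,0,0,4,1⟩ ⟨0,1,0,0,0⟩, .ini ⟨2,0,0,4,1⟩ ⟨0,0,1,0,0⟩, .dr 33, .ini ⟨2,0,0,1,1⟩ ⟨0,0,0,1,0⟩,
  .ini ⟨1,0,0,0,0⟩ ⟨1,0,0,1,1⟩, .sl 69 42, .sr 68 70, .sl 67 71, .sl 67 72, .sl 67 73, .sr 41 48,
  .sl 13 75, .dr 76, .ini ⟨1,0,0,2,0⟩ ⟨0,0,0,0,1⟩, .sr 2 59, .sr 78 79, .sr 2 80, .ini ⟨2,0,0,2,1⟩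
  ⟨0,0,0,1,0⟩, .dl 48, .sr 82 83, .sl 13 84, .sl 13 85, .ini ⟨2,0,0,2,1⟩ ⟨0,1,0,0,0⟩, .ini
  ⟨2,0,0,2,1⟩ ⟨0,0,1,0,0⟩, .sl 69 34, .ini ⟨0,1,0,0,0⟩ ⟨2,0,0,2,1⟩, .ini ⟨0,0,1,0,0⟩ ⟨2,0,0,2,1⟩,
  .sr 78 59, .ini ⟨1,0,0,1,0⟩ ⟨0,1,0,0,0⟩, .ini ⟨1,0,0,1,0⟩ ⟨0,0,1,0,0⟩, .ini ⟨1,0,0,1,0⟩
  ⟨0,0,0,1,0⟩, .dia ⟨1,0,0,1,0⟩ 1 1, .sr 95 96, .ini ⟨1,0,0,1,0⟩ ⟨0,0,0,0,1⟩, .dl 11, .dr 99, .sr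
  98 100, .sr 95 101, .ini ⟨0,1,0,0,0⟩ ⟨1,0,0,1,0⟩, .ini ⟨0,0,1,0,0⟩ ⟨1,0,0,1,0⟩, .ini ⟨2,0,0,1,4⟩
  ⟨0,1,0,0,0⟩, .ini ⟨2,0,0,1,4⟩ ⟨0,0,1,0,0⟩, .ini ⟨1,0,0,0,3⟩ ⟨0,0,0,1,0⟩, .ini ⟨0,0,0,0,1⟩
  ⟨2,0,0,0,0⟩, .dr 108, .dr 109, .ini ⟨0,0,0,0,1⟩ ⟨1,0,0,0,0⟩, .dr 111, .dl 112, .sr 113 113, .sl
  110 114, .sr 107 115, .sr 107 116, .hr 117 2 ⟨1,0,0,1,1⟩, .dl 118, .ini ⟨2,0,0,1,4⟩ ⟨0,0,0,0,1⟩,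
  .ini ⟨0,1,0,0,0⟩ ⟨2,0,0,1,4⟩, .ini ⟨0,0,1,0,0⟩ ⟨2,0,0,1,4⟩, .ini ⟨0,0,0,1,0⟩ ⟨1,0,0,0,1⟩, .dl
  123, .dr 124, .sr 44 125, .sr 44 126, .ini ⟨0,0,0,0,1⟩ ⟨2,0,0,1,0⟩, .dr 128, .dr 129, .dr 130,
  .dr 131, .ini ⟨2,0,0,1,3⟩ ⟨0,1,0,0,0⟩, .ini ⟨2,0,0,1,3⟩ ⟨0,0,1,0,0⟩, .ini ⟨1,0,0,0,1⟩
  ⟨0,0,0,1,0⟩, .dia ⟨1,0,0,0,1⟩ 1 1, .sr 135 136, .sl 137 25, .ini ⟨2,0,0,1,3⟩ ⟨0,0,0,0,1⟩, .dia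
  ⟨2,0,0,1,3⟩ 1 1, .sr 139 140, .ini ⟨0,1,0,0,0⟩ ⟨2,0,0,1,3⟩, .ini ⟨0,0,1,0,0⟩ ⟨2,0,0,1,3⟩, .dl
  131, .ini ⟨2,0,0,1,2⟩ ⟨0,1,0,0,0⟩, .ini ⟨2,0,0,1,2⟩ ⟨0,0,1,0,0⟩, .sl 69 25, .ini ⟨2,0,0,1,2⟩
  ⟨0,0,0,0,1⟩, .dia ⟨2,0,0,1,2⟩ 1 1, .sr 148 149, .ini ⟨0,1,0,0,0⟩ ⟨2,0,0,1,2⟩, .ini ⟨0,0,1,0,0⟩
  ⟨2,0,0,1,2⟩, .ini ⟨1,0,0,0,2⟩ ⟨0,0,0,1,0⟩, .sr 153 114, .sl 125 154, .dl 111, .dr 156, .sr 135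
  157, .sr 135 158, .sl 159 49, .sr 98 101, .sl 161 125, .ini ⟨4,0,0,2,3⟩ ⟨0,1,0,0,0⟩, .ini
  ⟨4,0,0,2,3⟩ ⟨0,0,1,0,0⟩, .sr 136 158, .sr 135 165, .dia ⟨3,0,0,2,2⟩ 1 1, .sl 166 167, .ini
  ⟨1,0,0,0,0⟩ ⟨2,0,0,1,2⟩, .ini ⟨1,0,0,0,1⟩ ⟨0,0,0,0,1⟩, .sr 170 158, .sl 125 125, .sl 171 172,
  .sl 169 173, .ini ⟨0,1,0,0,0⟩ ⟨4,0,0,2,3⟩, .ini ⟨0,1,0,0,0⟩ ⟨3,0,0,2,2⟩, .ini ⟨0,0,1,0,0⟩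
  ⟨4,0,0,2,3⟩, .ini ⟨0,0,1,0,0⟩ ⟨3,0,0,2,2⟩, .sr 98 99, .dl 179, .sl 123 180, .dl 181, .dr 182,
  .ini ⟨3,0,0,2,2⟩ ⟨0,1,0,0,0⟩, .ini ⟨3,0,0,2,2⟩ ⟨0,0,1,0,0⟩, .sl 169 172, .dl 124, .sr 187 160,
  .sr 187 188, .sr 157 157, .sr 135 190, .sr 135 191, .sr 135 192, .sr 135 156, .sl 194 83, .dr
  195, .sl 193 196, .ini ⟨0,1,0,0,0⟩ ⟨4,0,0,3,2⟩, .ini ⟨0,0,1,0,0⟩ ⟨4,0,0,3,2⟩, .sr 100 100, .sr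
  98 200, .sr 98 201, .sr 98 202, .sl 203 183, .ini ⟨4,0,0,3,2⟩ ⟨0,1,0,0,0⟩, .ini ⟨4,0,0,3,2⟩
  ⟨0,0,1,0,0⟩, .sr 96 101, .sr 98 207, .sr 83 162, .sl 208 209, .sl 166 210, .sr 95 201, .sr 98
  212, .dl 195, .ini ⟨2,0,0,1,1⟩ ⟨0,1,0,0,0⟩, .ini ⟨2,0,0,1,1⟩ ⟨0,0,1,0,0⟩, .ini ⟨2,0,0,1,1⟩
  ⟨0,0,0,0,1⟩, .dl 99, .sl 111 218, .dr 219, .dr 220, .sr 68 221, .sr 217 222, .ini ⟨0,1,0,0,0⟩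
  ⟨2,0,0,1,1⟩, .ini ⟨0,1,0,0,0⟩ ⟨5,0,0,3,3⟩, .ini ⟨0,0,1,0,0⟩ ⟨2,0,0,1,1⟩, .ini ⟨0,0,1,0,0⟩
  ⟨5,0,0,3,3⟩, .sl 111 99, .dr 228, .dl 229, .dl 230, .ini ⟨5,0,0,3,3⟩ ⟨0,1,0,0,0⟩, .ini
  ⟨5,0,0,3,3⟩ ⟨0,0,1,0,0⟩, .sr 170 192, .sl 234 204, .dl 182, .sr 236 197, .dl 194, .ini
  ⟨2,0,0,1,0⟩ ⟨0,1,0,0,0⟩, .ini ⟨2,0,0,1,0⟩ ⟨0,0,1,0,0⟩, .ini ⟨1,0,0,0,0⟩ ⟨1,0,0,1,0⟩, .sl 241 96,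
  .ini ⟨0,1,0,0,0⟩ ⟨2,0,0,1,0⟩, .ini ⟨0,0,1,0,0⟩ ⟨2,0,0,1,0⟩, .ini ⟨1,0,0,0,2⟩ ⟨0,1,0,0,0⟩, .ini
  ⟨1,0,0,0,2⟩ ⟨0,0,1,0,0⟩, .ini ⟨1,0,0,0,2⟩ ⟨0,0,0,0,1⟩, .ini ⟨0,1,0,0,0⟩ ⟨1,0,0,0,2⟩, .ini
  ⟨0,0,1,0,0⟩ ⟨1,0,0,0,2⟩, .sr 148 187, .dr 112, .ini ⟨1,0,0,0,1⟩ ⟨0,1,0,0,0⟩, .ini ⟨1,0,0,0,1⟩
  ⟨0,0,1,0,0⟩, .sr 170 136, .ini ⟨0,1,0,0,0⟩ ⟨1,0,0,0,1⟩, .ini ⟨0,0,1,0,0⟩ ⟨1,0,0,0,1⟩, .ini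
  ⟨5,0,0,2,2⟩ ⟨0,1,0,0,0⟩, .ini ⟨5,0,0,2,2⟩ ⟨0,0,1,0,0⟩, .ini ⟨2,0,0,0,1⟩ ⟨0,0,0,1,0⟩, .dl 156,
  .sr 259 260, .sl 238 261, .sr 156 158, .dl 263, .sr 262 264, .sl 201 265, .ini ⟨1,0,0,0,0⟩
  ⟨2,0,0,1,1⟩, .dia ⟨2,0,0,1,1⟩ 2 1, .sl 267 268, .ini ⟨0,1,0,0,0⟩ ⟨5,0,0,2,2⟩, .ini ⟨0,1,0,0,0⟩
  ⟨4,0,0,2,1⟩, .ini ⟨0,0,1,0,0⟩ ⟨5,0,0,2,2⟩, .ini ⟨0,0,1,0,0⟩ ⟨4,0,0,2,1⟩, .ini ⟨4,0,0,2,1⟩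
  ⟨0,0,0,0,1⟩, .ini ⟨2,0,0,1,0⟩ ⟨0,0,0,0,1⟩, .sr 275 218, .sl 180 276, .sr 260 260, .sr 259 278,
  .sl 100 279, .sr 280 280, .sl 200 281, .sr 277 282, .sr 274 283, .ini ⟨4,0,0,2,1⟩ ⟨0,1,0,0,0⟩,
  .ini ⟨4,0,0,2,1⟩ ⟨0,0,1,0,0⟩, .ini ⟨3,0,0,1,1⟩ ⟨0,1,0,0,0⟩, .ini ⟨3,0,0,1,1⟩ ⟨0,0,1,0,0⟩, .ini
  ⟨3,0,0,1,1⟩ ⟨0,0,0,0,1⟩, .sr 289 281, .ini ⟨0,1,0,0,0⟩ ⟨3,0,0,1,1⟩, .ini ⟨0,0,1,0,0⟩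
  ⟨3,0,0,1,1⟩, .dia ⟨2,0,0,1,0⟩ 1 1, .sr 275 293, .sr 218 294, .dia ⟨2,0,0,1,0⟩ 1 2, .sr 275 296,
  .sr 99 101, .dl 298]

def s23_00_20_20_1 : List Step := [
.sl 100 280, .ini ⟨4,0,0,1,2⟩ ⟨0,1,0,0,0⟩, .ini ⟨4,0,0,1,2⟩ ⟨0,0,1,0,0⟩, .ini ⟨0,1,0,0,0⟩
  ⟨4,0,0,1,2⟩, .ini ⟨0,0,1,0,0⟩ ⟨4,0,0,1,2⟩, .dl 219, .dr 305, .sr 289 306, .sr 277 299, .ini
  ⟨1,0,0,0,0⟩ ⟨1,0,0,0,1⟩, .sl 309 187, .sl 309 310, .ini ⟨2,0,0,0,1⟩ ⟨0,1,0,0,0⟩, .ini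
  ⟨2,0,0,0,1⟩ ⟨0,0,1,0,0⟩, .sl 309 136, .ini ⟨0,1,0,0,0⟩ ⟨2,0,0,0,1⟩, .ini ⟨0,0,1,0,0⟩
  ⟨2,0,0,0,1⟩, .sr 218 218, .sr 275 317, .ini ⟨1,0,0,0,0⟩ ⟨0,1,0,0,0⟩, .ini ⟨1,0,0,0,0⟩
  ⟨0,0,1,0,0⟩, .ini ⟨1,0,0,0,0⟩ ⟨2,0,0,1,0⟩, .ini ⟨1,0,0,0,0⟩ ⟨2,0,0,0,1⟩, .ini ⟨0,1,0,0,0⟩
  ⟨1,0,0,0,0⟩, .ini ⟨0,0,1,0,0⟩ ⟨1,0,0,0,0⟩]

def t23_00_20_20 : Tree :=
(.split 0 3 (.split 0 3 (.leaf [4,1,2,3,0] [0,1,2,3,4,5,6,7,8,9,10,13,14,15,16,17,18,19]) (.split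
  0 4 (.split 3 4 (.split 0 4 (.leaf [0,1,2,4,3]
  [20,21,26,27,28,4,29,6,30,8,31,10,35,36,37,38,17,18]) (.leaf [0,1,2,3,4]
  [39,40,43,45,46,4,29,28,47,8,31,30,34,36,37,35,25,20,21,26])) (.split 3 4 (.leaf [0,1,2,3,4]
  [39,40,51,43,46,4,52,29,47,8,53,31,64,65,66,74,34,36,37,77]) (.leaf [3,1,2,0,4]
  [39,40,51,46,4,3,52,47,8,7,53,0,1,81,64,65,66,86]))) (.split 0 4 (.leaf [0,1,2,4,3]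
  [87,88,84,89,90,4,3,46,91,8,7,47,92,0,1,49,39,40]) (.leaf [0,1,2,3,4]
  [93,94,97,102,103,4,3,90,104,8,7,91,58,0,1,92,83,87,88,84])))) (.split 0 3 (.split 0 4 (.split 0
  4 (.split 3 4 (.split 0 4 (.split 0 4 (.leaf [0,1,2,4,3]
  [105,106,119,120,121,4,46,6,122,8,47,10,127,39,40,132,17,18]) (.leaf [0,1,2,3,4]
  [133,134,138,141,142,4,46,121,143,8,47,122,126,39,40,127,144,105,106,119])) (.leaf [0,1,2,3,4]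
  [145,146,147,150,151,4,46,142,152,8,47,143,125,39,40,126,155,133,134,138])) (.split 3 4 (.leaf
  [0,1,2,3,4] [145,146,160,147,151,4,90,46,152,8,91,47,162,87,88,89,125,39,40,49]) (.leaf
  [3,1,2,0,4] [145,146,160,151,4,103,90,152,8,104,91,93,94,102,162,87,88,83]))) (.split 0 4
  (.split 3 4 (.leaf [0,1,2,3,4]
  [163,164,168,174,175,4,176,151,177,8,178,152,183,184,185,186,189,145,146,188]) (.split 3 4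
  (.leaf [0,1,2,3,4]
  [163,164,197,168,175,4,198,176,177,8,199,178,204,205,206,211,183,184,185,196]) (.leaf
  [3,1,2,0,4] [163,164,197,175,4,103,198,177,8,104,199,93,94,213,204,205,206,214]))) (.split 3 4
  (.leaf [4,1,2,3,0] [215,216,223,224,4,225,175,226,8,227,177,231,232,233,235,163,164,237]) (.leaf
  [0,1,2,4,3] [215,216,238,223,224,4,103,225,226,8,104,227,101,93,94,231,232,233])))) (.leaf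
  [4,1,2,3,0] [239,240,242,243,4,103,224,244,8,104,226,100,93,94,101,215,216,238])) (.split 0 4
  (.split 3 4 (.split 3 4 (.split 0 4 (.leaf [0,1,2,4,3]
  [245,246,154,247,248,4,151,6,249,8,152,10,250,145,146,251,17,18]) (.leaf [0,1,2,3,4]
  [252,253,171,254,255,4,151,248,256,8,152,249,187,145,146,250,113,245,246,154])) (.leaf
  [0,1,2,4,3] [252,253,158,171,255,4,224,151,256,8,226,152,180,215,216,187,145,146])) (.split 3 4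
  (.split 0 3 (.leaf [0,1,2,4,3]
  [257,258,266,269,270,4,271,224,272,8,273,226,284,285,286,221,215,216]) (.leaf [3,1,2,0,4]
  [252,253,158,255,4,270,224,256,8,272,226,257,258,269,180,215,216,221])) (.split 0 3 (.leaf
  [0,1,2,3,4] [287,288,280,290,291,4,243,271,292,8,244,273,295,239,240,297,299,285,286,300])
  (.split 0 3 (.leaf [0,1,2,3,4]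
  [301,302,264,265,303,4,291,271,304,8,292,273,307,287,288,290,308,285,286,299]) (.leaf
  [4,1,2,3,0] [252,253,191,255,4,303,271,256,8,304,273,311,301,302,265,285,286,308]))))) (.split 0
  4 (.leaf [0,1,2,4,3] [312,313,279,314,315,4,243,255,316,8,244,256,318,239,240,157,252,253])
  (.leaf [0,1,2,3,4]
  [319,320,321,322,323,4,243,315,324,8,244,316,218,239,240,318,260,312,313,279])))))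

def c23_00_20_20 : Cert 2 3 where
  T := [[0, 0], [2, 0], [2, 0]]
  W := ⟨0, 0, 2, 2, 0, 0, 0⟩
  hW := rfl
  steps := s23_00_20_20_0 ++ s23_00_20_20_1
  tree := t23_00_20_20
  ok := by decide +kernel

def s23_00_20_11_0 : List Step := [
.ini ⟨0,0,0,0,1⟩ ⟨0,1,0,0,0⟩, .dr 0, .ini ⟨1,0,0,2,0⟩ ⟨0,1,0,0,1⟩, .sl 1 2, .ini ⟨1,0,0,2,1⟩
  ⟨0,0,1,0,0⟩, .ini ⟨1,0,0,2,1⟩ ⟨0,0,0,1,0⟩, .ini ⟨1,0,0,2,1⟩ ⟨0,0,0,0,1⟩, .ini ⟨0,1,0,0,1⟩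
  ⟨0,0,0,1,0⟩, .ini ⟨0,0,0,0,1⟩ ⟨1,0,0,0,0⟩, .dr 8, .ini ⟨0,1,0,0,0⟩ ⟨1,0,0,0,1⟩, .sl 9 10, .sr 7
  11, .sr 7 12, .ini ⟨0,1,0,0,1⟩ ⟨0,0,1,0,0⟩, .ini ⟨0,1,0,0,1⟩ ⟨0,0,0,0,1⟩, .ini ⟨0,0,1,0,0⟩
  ⟨1,0,0,2,1⟩, .ini ⟨0,0,1,0,0⟩ ⟨0,1,0,0,1⟩, .ini ⟨0,0,1,0,0⟩ ⟨0,0,0,1,0⟩, .ini ⟨0,0,1,0,0⟩
  ⟨0,0,0,0,1⟩, .ini ⟨0,0,0,1,0⟩ ⟨0,0,0,0,1⟩, .ini ⟨0,0,0,1,0⟩ ⟨1,0,0,0,0⟩, .dr 21, .dr 22, .sr 20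
  23, .ini ⟨0,0,0,1,0⟩ ⟨0,1,0,0,1⟩, .ini ⟨0,0,0,1,0⟩ ⟨0,0,1,0,0⟩, .ini ⟨0,0,0,0,1⟩ ⟨1,0,0,2,0⟩,
  .dr 27, .ini ⟨0,0,0,0,1⟩ ⟨0,0,1,0,0⟩, .ini ⟨0,0,0,0,1⟩ ⟨0,0,0,1,0⟩, .ini ⟨0,1,0,0,0⟩
  ⟨0,0,1,0,0⟩, .ini ⟨0,1,0,0,0⟩ ⟨0,0,0,1,0⟩, .ini ⟨0,1,0,0,0⟩ ⟨0,1,0,0,1⟩, .ini ⟨0,0,1,0,0⟩
  ⟨0,1,0,0,0⟩, .ini ⟨0,0,0,1,0⟩ ⟨0,1,0,0,0⟩, .dl 0, .ini ⟨1,0,0,2,0⟩ ⟨0,1,0,0,0⟩, .ini ⟨1,0,0,2,0⟩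
  ⟨0,0,1,0,0⟩, .ini ⟨1,0,0,2,0⟩ ⟨0,0,0,1,0⟩, .ini ⟨1,0,0,2,0⟩ ⟨0,0,0,0,1⟩, .dia ⟨1,0,0,2,0⟩ 1 1,
  .sr 40 41, .ini ⟨0,1,0,0,0⟩ ⟨1,0,0,2,0⟩, .ini ⟨0,0,1,0,0⟩ ⟨1,0,0,2,0⟩, .dl 27, .ini ⟨1,0,0,1,0⟩
  ⟨0,1,0,0,1⟩, .sl 1 46, .ini ⟨1,0,0,1,1⟩ ⟨0,0,1,0,0⟩, .ini ⟨1,0,0,1,1⟩ ⟨0,0,0,0,1⟩, .ini
  ⟨1,0,0,1,1⟩ ⟨0,0,0,1,0⟩, .ini ⟨0,0,0,0,1⟩ ⟨1,0,0,1,0⟩, .dl 51, .sr 50 52, .sr 49 53, .ini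
  ⟨0,0,1,0,0⟩ ⟨1,0,0,1,1⟩, .sr 20 22, .dl 56, .dr 51, .dl 22, .sr 40 59, .ini ⟨1,0,0,1,0⟩
  ⟨0,1,0,0,0⟩, .ini ⟨1,0,0,1,0⟩ ⟨0,0,1,0,0⟩, .ini ⟨1,0,0,1,0⟩ ⟨0,0,0,1,0⟩, .dia ⟨1,0,0,1,0⟩ 1 1,
  .sr 63 64, .ini ⟨1,0,0,1,0⟩ ⟨0,0,0,0,1⟩, .sr 66 64, .ini ⟨0,1,0,0,0⟩ ⟨1,0,0,1,0⟩, .ini
  ⟨0,0,1,0,0⟩ ⟨1,0,0,1,0⟩, .ini ⟨1,0,0,0,0⟩ ⟨0,1,0,0,1⟩, .sl 70 47, .sl 1 71, .ini ⟨2,0,0,1,2⟩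
  ⟨0,0,1,0,0⟩, .ini ⟨1,0,0,0,0⟩ ⟨1,0,0,1,1⟩, .dia ⟨1,0,0,1,1⟩ 1 1, .sl 74 75, .sl 58 76, .ini
  ⟨2,0,0,1,2⟩ ⟨0,0,0,0,1⟩, .sr 11 11, .sr 7 79, .ini ⟨0,0,1,0,0⟩ ⟨2,0,0,1,2⟩, .dl 21, .sr 66 82,
  .sl 9 83, .dr 84, .sr 8 58, .dr 86, .ini ⟨1,0,0,0,1⟩ ⟨0,0,0,1,0⟩, .dl 8, .sr 88 89, .sl 90 52,
  .dr 83, .sr 66 92, .ini ⟨2,0,0,1,1⟩ ⟨0,0,0,0,1⟩, .ini ⟨2,0,0,1,1⟩ ⟨0,1,0,0,0⟩, .dr 95, .sr 94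
  96, .ini ⟨2,0,0,1,1⟩ ⟨0,0,1,0,0⟩, .ini ⟨1,0,0,0,0⟩ ⟨1,0,0,1,0⟩, .sl 99 52, .dia ⟨2,0,0,1,1⟩ 1 1,
  .sr 94 101, .ini ⟨0,1,0,0,0⟩ ⟨2,0,0,1,1⟩, .dl 86, .sl 103 104, .ini ⟨2,1,0,1,2⟩ ⟨0,0,1,0,0⟩, .sl
  68 91, .ini ⟨2,1,0,1,0⟩ ⟨0,0,0,0,1⟩, .ini ⟨1,0,0,0,0⟩ ⟨2,0,0,1,1⟩, .sl 109 92, .sl 103 110, .sr
  108 111, .sl 87 112, .sl 87 113, .ini ⟨0,0,1,0,0⟩ ⟨2,0,0,1,1⟩, .ini ⟨0,0,1,0,0⟩ ⟨2,1,0,1,2⟩, .dr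
  82, .sr 61 117, .sr 66 118, .sr 66 119, .sr 72 104, .sr 71 96, .sl 103 105, .ini ⟨2,2,0,1,2⟩
  ⟨0,0,1,0,0⟩, .sl 68 107, .ini ⟨0,1,0,0,0⟩ ⟨2,1,0,1,2⟩, .dia ⟨2,1,0,1,2⟩ 1 1, .sl 126 127, .ini
  ⟨0,0,1,0,0⟩ ⟨2,2,0,1,2⟩, .sr 61 119, .sr 66 130, .ini ⟨1,0,0,0,0⟩ ⟨0,1,0,0,0⟩, .ini ⟨1,0,0,0,1⟩
  ⟨0,1,0,0,0⟩, .dl 133, .sl 132 134, .sl 35 135, .sl 0 136, .dr 137, .ini ⟨0,1,0,0,0⟩ ⟨2,2,0,1,2⟩,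
  .dl 137, .ini ⟨2,0,0,1,0⟩ ⟨0,1,0,0,0⟩, .ini ⟨2,0,0,1,0⟩ ⟨0,0,1,0,0⟩, .sl 99 64, .ini ⟨0,1,0,0,0⟩
  ⟨2,0,0,1,0⟩, .ini ⟨0,0,1,0,0⟩ ⟨2,0,0,1,0⟩, .sr 89 89, .sr 88 146, .sl 147 117, .sl 1 70, .ini
  ⟨1,0,0,0,1⟩ ⟨0,0,1,0,0⟩, .ini ⟨1,0,0,0,1⟩ ⟨0,0,0,0,1⟩, .sr 151 90, .sr 89 152, .sr 151 153, .ini
  ⟨0,0,1,0,0⟩ ⟨1,0,0,0,1⟩, .dl 83, .sl 9 156, .dr 133, .sr 89 158, .sr 88 159, .sl 10 156, .ini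
  ⟨2,1,0,1,1⟩ ⟨0,0,1,0,0⟩, .sl 144 148, .sl 103 101, .ini ⟨0,0,1,0,0⟩ ⟨2,1,0,1,1⟩, .ini
  ⟨2,0,0,1,0⟩ ⟨0,0,0,0,1⟩, .dl 82, .sr 166 167, .dia ⟨2,0,0,1,0⟩ 1 1, .sr 141 169, .sr 166 170,
  .sr 149 160, .sl 10 161, .sl 9 173, .ini ⟨0,1,0,0,1⟩ ⟨1,0,0,0,0⟩, .sr 36 11, .sr 175 176, .sr 7
  177, .dl 178, .ini ⟨2,1,0,1,1⟩ ⟨0,0,0,0,1⟩, .dia ⟨2,1,0,1,1⟩ 1 1, .sr 136 181, .sr 180 182, .sr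
  36 79, .sr 7 184, .sr 36 185, .ini ⟨2,1,0,1,0⟩ ⟨0,1,0,0,1⟩, .sl 1 187, .sl 33 188, .sl 1 189,
  .ini ⟨1,0,0,0,0⟩ ⟨0,0,1,0,0⟩, .ini ⟨1,0,0,0,0⟩ ⟨2,0,0,1,0⟩, .ini ⟨1,0,0,0,0⟩ ⟨1,0,0,0,1⟩, .ini
  ⟨0,1,0,0,0⟩ ⟨1,0,0,0,0⟩, .ini ⟨0,0,1,0,0⟩ ⟨1,0,0,0,0⟩]

def t23_00_20_11 : Tree :=
(.split 0 3 (.split 0 3 (.split 0 4 (.split 1 4 (.leaf [0,1,2,3,4]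
  [3,4,5,6,13,14,7,15,16,17,18,19,24,25,26,20,28,1,29,30]) (.leaf [1,0,2,3,4]
  [4,5,3,31,32,33,16,34,18,17,24,35,26,25,13,36,14,7])) (.leaf [0,4,2,3,1]
  [37,38,39,42,43,31,32,44,34,18,16,23,35,26,24,45,4,5])) (.split 0 4 (.split 1 4 (.split 3 4
  (.leaf [0,1,2,3,4] [47,48,54,49,12,14,13,15,55,17,16,19,57,3,4,6,58,1,29,28]) (.leaf [0,3,2,1,4]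
  [47,48,53,54,12,14,13,55,17,44,16,60,38,42,57,3,4,45])) (.leaf [1,0,2,4,3]
  [48,53,47,31,43,33,55,34,44,17,60,37,38,12,36,14])) (.leaf [0,4,2,3,1]
  [61,62,65,67,68,31,43,69,34,44,55,59,37,38,60,52,48,53]))) (.split 0 3 (.split 0 4 (.split 0 4
  (.split 1 4 (.split 3 4 (.leaf [0,1,2,3,4]
  [72,73,77,78,80,14,12,15,81,17,55,19,85,47,48,49,87,1,29,58]) (.leaf [0,3,2,1,4]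
  [72,73,91,77,80,14,12,81,17,69,55,93,62,67,85,47,48,52])) (.leaf [1,0,2,4,3]
  [73,91,72,31,68,33,81,34,69,17,93,61,62,80,36,14])) (.split 1 4 (.leaf [0,1,2,3,4]
  [97,98,100,102,105,106,107,114,115,116,69,81,92,120,62,93,104,121,73,91]) (.split 1 4 (.leaf
  [0,1,2,3,4] [122,98,100,97,123,124,125,128,115,129,69,116,92,131,62,120,105,138,106,107]) (.leaf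
  [1,0,2,3,4] [98,100,122,31,68,139,115,34,69,129,92,61,62,131,123,140,124,125])))) (.leaf
  [0,4,2,3,1] [141,142,143,110,144,31,68,145,34,69,115,117,61,62,92,148,98,100])) (.split 0 4
  (.split 1 4 (.split 3 4 (.split 3 4 (.leaf [0,1,2,3,4]
  [149,150,154,151,11,14,80,15,155,17,81,19,157,72,73,78,9,1,29,87]) (.leaf [0,3,2,1,4]
  [149,150,153,154,11,14,80,155,17,115,81,156,98,102,157,72,73,104])) (.split 1 3 (.leaf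
  [0,1,2,3,4] [160,150,147,153,161,162,163,164,155,165,145,115,168,171,142,110,156,96,98,148])
  (.split 1 3 (.leaf [0,1,2,3,4]
  [172,150,160,153,174,124,179,123,155,129,165,115,161,183,162,164,156,122,98,96]) (.leaf
  [0,4,2,3,1] [149,150,172,153,11,14,186,155,17,129,115,174,190,124,123,156,98,122])))) (.leaf
  [1,0,2,4,3] [150,147,149,31,144,33,155,34,145,17,168,141,142,11,36,14])) (.leaf [0,4,2,3,1]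
  [132,191,192,193,194,31,144,195,34,145,155,167,141,142,168,89,150,147]))))

def c23_00_20_11 : Cert 2 3 where
  T := [[0, 0], [2, 0], [1, 1]]
  W := ⟨0, 0, 2, 1, 0, 0, 1⟩
  hW := rfl
  steps := s23_00_20_11_0
  tree := t23_00_20_11
  ok := by decide +kernel

def s23_00_20_02_0 : List Step := [
.ini ⟨1,0,0,0,0⟩ ⟨0,1,0,0,0⟩, .ini ⟨1,0,0,0,0⟩ ⟨0,0,1,0,0⟩, .ini ⟨1,0,0,0,0⟩ ⟨0,0,0,0,1⟩, .ini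
  ⟨0,1,0,0,0⟩ ⟨1,0,0,0,0⟩, .ini ⟨0,1,0,0,0⟩ ⟨0,0,1,0,0⟩, .ini ⟨0,1,0,0,0⟩ ⟨0,0,0,1,0⟩, .ini
  ⟨0,0,1,0,0⟩ ⟨1,0,0,0,0⟩, .ini ⟨0,0,1,0,0⟩ ⟨0,1,0,0,0⟩, .ini ⟨0,0,1,0,0⟩ ⟨0,0,0,1,0⟩, .ini
  ⟨0,0,1,0,0⟩ ⟨0,0,0,0,1⟩, .ini ⟨0,0,0,1,0⟩ ⟨0,1,0,0,0⟩, .ini ⟨0,0,0,1,0⟩ ⟨0,0,1,0,0⟩, .ini
  ⟨0,0,0,1,0⟩ ⟨0,0,0,0,1⟩, .ini ⟨0,0,0,0,1⟩ ⟨1,0,0,0,0⟩, .ini ⟨0,0,0,0,1⟩ ⟨0,0,1,0,0⟩, .ini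
  ⟨0,0,0,0,1⟩ ⟨0,0,0,1,0⟩]

def t23_00_20_02 : Tree :=
(.leaf [3,4,2,0,1] [0,1,2,3,4,5,6,7,8,9,10,11,12,13,14,15])

def c23_00_20_02 : Cert 2 3 where
  T := [[0, 0], [2, 0], [0, 2]]
  W := ⟨0, 0, 2, 0, 0, 0, 2⟩
  hW := rfl
  steps := s23_00_20_02_0
  tree := t23_00_20_02
  ok := by decide +kernel

def s23_00_11_20_0 : List Step := [
.ini ⟨0,0,0,0,1⟩ ⟨0,1,0,1,0⟩, .ini ⟨0,0,0,1,0⟩ ⟨0,1,0,0,0⟩, .dr 1, .ini ⟨1,0,0,0,0⟩ ⟨0,1,0,1,0⟩,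
  .sl 2 3, .sl 0 4, .sl 0 5, .ini ⟨1,0,0,1,2⟩ ⟨0,0,1,0,0⟩, .ini ⟨1,0,0,1,2⟩ ⟨0,0,0,1,0⟩, .ini
  ⟨1,0,0,1,2⟩ ⟨0,0,0,0,1⟩, .ini ⟨0,1,0,1,0⟩ ⟨0,0,0,0,1⟩, .ini ⟨0,0,0,1,0⟩ ⟨1,0,0,0,0⟩, .dr 11,
  .ini ⟨0,1,0,0,0⟩ ⟨1,0,0,1,0⟩, .sl 12 13, .sr 10 14, .sr 10 15, .ini ⟨0,1,0,1,0⟩ ⟨0,0,1,0,0⟩,
  .ini ⟨0,1,0,1,0⟩ ⟨0,0,0,1,0⟩, .ini ⟨0,0,1,0,0⟩ ⟨1,0,0,1,2⟩, .ini ⟨0,0,1,0,0⟩ ⟨0,1,0,1,0⟩, .ini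
  ⟨0,0,1,0,0⟩ ⟨0,0,0,1,0⟩, .ini ⟨0,0,1,0,0⟩ ⟨0,0,0,0,1⟩, .ini ⟨0,0,0,1,0⟩ ⟨0,0,0,0,1⟩, .sr 23 12,
  .sr 23 24, .ini ⟨0,0,0,1,0⟩ ⟨0,0,1,0,0⟩, .ini ⟨0,0,0,0,1⟩ ⟨1,0,0,1,0⟩, .dr 27, .dr 28, .ini
  ⟨0,0,0,0,1⟩ ⟨0,0,1,0,0⟩, .ini ⟨0,0,0,0,1⟩ ⟨0,0,0,1,0⟩, .ini ⟨0,1,0,0,0⟩ ⟨0,0,1,0,0⟩, .ini
  ⟨0,1,0,0,0⟩ ⟨0,1,0,1,0⟩, .ini ⟨0,1,0,0,0⟩ ⟨0,0,0,0,1⟩, .ini ⟨0,0,1,0,0⟩ ⟨0,1,0,0,0⟩, .dl 1, .ini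
  ⟨0,0,0,0,1⟩ ⟨0,1,0,0,0⟩, .ini ⟨1,0,0,0,2⟩ ⟨0,1,0,0,0⟩, .ini ⟨1,0,0,0,2⟩ ⟨0,0,1,0,0⟩, .ini
  ⟨1,0,0,0,2⟩ ⟨0,0,0,0,1⟩, .ini ⟨1,0,0,0,2⟩ ⟨0,0,0,1,0⟩, .ini ⟨0,0,0,0,1⟩ ⟨1,0,0,0,0⟩, .dr 42, .dl
  43, .sr 41 44, .sr 40 45, .ini ⟨0,1,0,0,0⟩ ⟨1,0,0,0,2⟩, .ini ⟨0,0,1,0,0⟩ ⟨1,0,0,0,2⟩, .dr 43,
  .ini ⟨1,0,0,1,0⟩ ⟨0,0,0,0,1⟩, .dl 11, .sr 50 51, .sr 50 52, .sl 49 53, .sl 49 54, .ini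
  ⟨1,0,0,1,1⟩ ⟨0,0,1,0,0⟩, .ini ⟨1,0,0,1,1⟩ ⟨0,0,0,0,1⟩, .dia ⟨1,0,0,1,1⟩ 1 1, .sr 57 58, .ini
  ⟨0,0,1,0,0⟩ ⟨1,0,0,1,1⟩, .dl 28, .ini ⟨1,0,0,1,1⟩ ⟨0,0,0,1,0⟩, .ini ⟨1,0,0,0,1⟩ ⟨0,1,0,0,0⟩,
  .ini ⟨1,0,0,0,1⟩ ⟨0,0,1,0,0⟩, .ini ⟨1,0,0,0,1⟩ ⟨0,0,0,1,0⟩, .dia ⟨1,0,0,0,1⟩ 1 1, .sr 65 66,
  .ini ⟨1,0,0,0,1⟩ ⟨0,0,0,0,1⟩, .sr 68 66, .ini ⟨0,1,0,0,0⟩ ⟨1,0,0,0,1⟩, .ini ⟨0,0,1,0,0⟩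
  ⟨1,0,0,0,1⟩, .ini ⟨0,0,0,1,0⟩ ⟨1,0,0,0,1⟩, .dl 72, .sl 2 2, .ini ⟨2,0,0,0,0⟩ ⟨0,1,0,1,0⟩, .sl 74
  75, .sl 0 76, .ini ⟨2,0,0,2,1⟩ ⟨0,0,1,0,0⟩, .ini ⟨1,0,0,0,0⟩ ⟨1,0,0,1,1⟩, .sl 79 58, .sl 24 80,
  .sl 52 73, .sr 14 14, .sr 10 83, .ini ⟨0,0,1,0,0⟩ ⟨2,0,0,2,1⟩, .dl 27, .dr 86, .dl 42, .sr 65
  88, .dr 89, .sr 65 90, .ini ⟨2,0,0,2,1⟩ ⟨0,0,0,1,0⟩, .sr 12 12, .sr 23 93, .ini ⟨2,0,0,1,1⟩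
  ⟨0,0,0,1,0⟩, .ini ⟨2,0,0,1,1⟩ ⟨0,1,0,0,0⟩, .dr 96, .sr 95 97, .ini ⟨2,0,0,1,1⟩ ⟨0,0,1,0,0⟩, .ini
  ⟨2,0,0,1,1⟩ ⟨0,0,0,0,1⟩, .dl 89, .sr 101 101, .sr 100 102, .ini ⟨1,0,0,0,0⟩ ⟨1,0,0,0,1⟩, .sl 104
  73, .ini ⟨0,1,0,0,0⟩ ⟨2,0,0,1,1⟩, .sr 11 24, .dl 107, .sl 106 108, .ini ⟨2,1,0,2,1⟩ ⟨0,0,1,0,0⟩,
  .ini ⟨2,1,0,0,1⟩ ⟨0,0,0,1,0⟩, .ini ⟨1,0,0,0,0⟩ ⟨2,0,0,1,1⟩, .sl 112 90, .sl 106 113, .sr 111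
  114, .sl 94 115, .sl 94 116, .sl 70 82, .ini ⟨0,0,1,0,0⟩ ⟨2,0,0,1,1⟩, .ini ⟨0,0,1,0,0⟩
  ⟨2,1,0,2,1⟩, .sr 77 108, .dr 88, .sr 63 122, .sr 65 123, .sr 65 124, .sl 3 5, .sr 126 97, .sl
  106 109, .ini ⟨2,2,0,2,1⟩ ⟨0,0,1,0,0⟩, .ini ⟨0,1,0,0,0⟩ ⟨2,1,0,2,1⟩, .dia ⟨2,1,0,2,1⟩ 1 1, .sl
  130 131, .sl 70 118, .ini ⟨0,0,1,0,0⟩ ⟨2,2,0,2,1⟩, .ini ⟨1,0,0,0,0⟩ ⟨0,1,0,0,0⟩, .ini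
  ⟨1,0,0,1,0⟩ ⟨0,1,0,0,0⟩, .dl 136, .sl 135 137, .sl 1 138, .sl 37 139, .dr 140, .sr 63 124, .sr
  65 142, .ini ⟨0,1,0,0,0⟩ ⟨2,2,0,2,1⟩, .dl 140, .ini ⟨2,0,0,0,1⟩ ⟨0,1,0,0,0⟩, .ini ⟨2,0,0,0,1⟩
  ⟨0,0,1,0,0⟩, .sl 104 66, .ini ⟨0,1,0,0,0⟩ ⟨2,0,0,0,1⟩, .ini ⟨0,0,1,0,0⟩ ⟨2,0,0,0,1⟩, .sr 51 51,
  .sr 50 151, .sl 122 152, .dr 136, .sr 51 154, .sr 50 155, .ini ⟨1,0,0,1,0⟩ ⟨0,0,1,0,0⟩, .dia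
  ⟨1,0,0,1,0⟩ 1 1, .sr 50 158, .sr 51 159, .sl 13 101, .ini ⟨2,1,0,1,1⟩ ⟨0,0,1,0,0⟩, .dia
  ⟨2,0,0,1,1⟩ 1 1, .sl 106 163, .sl 149 153, .ini ⟨0,0,1,0,0⟩ ⟨1,0,0,1,0⟩, .ini ⟨0,0,1,0,0⟩
  ⟨2,1,0,1,1⟩, .ini ⟨2,0,0,0,1⟩ ⟨0,0,0,1,0⟩, .dl 88, .sr 168 169, .dia ⟨2,0,0,0,1⟩ 1 1, .sr 146
  171, .sr 168 172, .sr 4 156, .sl 13 161, .sl 12 175, .ini ⟨0,1,0,1,0⟩ ⟨1,0,0,0,0⟩, .sr 36 14,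
  .sr 177 178, .sr 10 179, .dl 180, .ini ⟨2,1,0,1,1⟩ ⟨0,0,0,1,0⟩, .sl 37 138, .dia ⟨2,1,0,1,1⟩ 1
  1, .sr 183 184, .sr 182 185, .sr 36 83, .sr 10 187, .sr 36 188, .ini ⟨1,1,0,0,0⟩ ⟨0,1,0,1,0⟩,
  .sl 2 190, .sl 3 191, .sl 0 192, .sl 33 193, .sl 2 194, .dia ⟨1,0,0,1,0⟩ 1 2, .sr 50 196, .sl 12
  101, .ini ⟨1,0,0,1,0⟩ ⟨0,0,0,1,0⟩, .ini ⟨1,0,0,0,0⟩ ⟨0,0,1,0,0⟩, .ini ⟨1,0,0,0,0⟩ ⟨1,0,0,1,0⟩,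
  .ini ⟨1,0,0,0,0⟩ ⟨2,0,0,0,1⟩, .ini ⟨0,1,0,0,0⟩ ⟨1,0,0,0,0⟩, .ini ⟨0,0,1,0,0⟩ ⟨1,0,0,0,0⟩]

def t23_00_11_20 : Tree :=
(.split 0 4 (.split 0 4 (.split 0 3 (.split 1 3 (.leaf [0,1,2,3,4]
  [6,7,8,9,16,17,18,10,19,20,21,22,25,2,26,23,29,0,30,31]) (.leaf [1,0,2,3,4]
  [7,6,9,32,33,34,19,35,20,22,16,36,17,10,29,37,30,0])) (.leaf [0,3,2,1,4]
  [38,39,46,40,47,32,34,48,35,19,22,55,7,9,49,37,30,29])) (.split 0 3 (.split 1 3 (.split 3 4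
  (.leaf [0,4,2,3,1] [5,56,59,54,15,17,16,60,20,19,48,61,6,7,55,45,39,46]) (.leaf [0,1,2,3,4]
  [5,56,62,59,15,17,18,16,60,20,21,19,24,2,26,25,61,6,7,8])) (.leaf [1,0,2,4,3]
  [56,5,54,32,33,47,60,35,20,48,15,36,17,45,38,39])) (.leaf [0,3,2,1,4]
  [63,64,67,69,70,32,47,71,35,60,48,73,56,54,44,38,39,45]))) (.split 0 4 (.split 0 3 (.split 0 3
  (.split 1 3 (.split 3 4 (.leaf [0,4,2,3,1]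
  [77,78,81,82,84,17,15,85,20,60,71,87,5,56,73,91,64,67]) (.leaf [0,1,2,3,4]
  [77,78,92,81,84,17,18,15,85,20,21,60,94,2,26,24,87,5,56,62])) (.leaf [1,0,2,4,3]
  [78,77,82,32,33,70,85,35,20,71,84,36,17,91,63,64])) (.split 1 3 (.leaf [0,1,2,3,4]
  [98,99,103,105,109,110,117,118,119,120,85,71,108,121,78,82,90,125,64,91]) (.split 1 3 (.leaf
  [0,1,2,3,4] [127,99,98,105,128,129,132,133,119,134,120,71,109,141,110,118,90,143,64,125]) (.leaf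
  [1,0,2,3,4] [99,127,105,32,144,70,119,35,134,71,128,145,129,133,90,63,64,143])))) (.leaf
  [0,3,2,1,4] [146,147,113,148,149,32,70,150,35,119,71,153,99,105,122,63,64,90])) (.split 0 3
  (.split 1 3 (.split 3 4 (.split 1 4 (.leaf [0,1,2,3,4]
  [156,157,160,152,161,162,164,165,166,167,119,150,101,97,99,153,170,173,147,113]) (.split 1 4
  (.leaf [0,1,2,3,4]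
  [174,157,160,156,176,129,128,181,166,134,119,167,101,127,99,97,161,186,162,164]) (.leaf
  [0,3,2,1,4] [4,157,160,174,14,17,189,166,20,119,134,101,99,127,176,195,129,128]))) (.split 3 4
  (.leaf [0,4,2,3,1] [4,157,197,160,14,17,84,166,20,85,119,198,77,78,108,101,99,103]) (.leaf
  [0,1,2,3,4] [4,157,199,197,14,17,18,84,166,20,21,85,12,2,26,94,198,77,78,92]))) (.leaf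
  [1,0,2,4,3] [157,4,152,32,33,149,166,35,20,150,14,36,17,170,146,147])) (.leaf [0,3,2,1,4]
  [135,200,201,202,203,32,149,204,35,166,150,51,157,152,169,146,147,170]))))

def c23_00_11_20 : Cert 2 3 where
  T := [[0, 0], [1, 1], [2, 0]]
  W := ⟨0, 0, 1, 2, 0, 1, 0⟩
  hW := rfl
  steps := s23_00_11_20_0
  tree := t23_00_11_20
  ok := by decide +kernel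

def s23_00_11_11_0 : List Step := [
.ini ⟨0,0,0,0,1⟩ ⟨0,1,0,1,0⟩, .dr 0, .ini ⟨1,0,0,1,0⟩ ⟨0,0,0,0,1⟩, .ini ⟨0,0,0,1,0⟩ ⟨0,1,0,0,0⟩,
  .dr 3, .ini ⟨1,0,0,0,0⟩ ⟨0,1,0,1,0⟩, .sl 4 5, .sr 2 6, .sl 1 7, .ini ⟨1,0,0,1,1⟩ ⟨0,0,1,0,0⟩,
  .ini ⟨1,0,0,1,1⟩ ⟨0,0,0,1,0⟩, .ini ⟨1,0,0,1,1⟩ ⟨0,0,0,0,1⟩, .ini ⟨0,0,0,0,1⟩ ⟨1,0,0,1,0⟩, .dr
  12, .ini ⟨0,1,0,1,0⟩ ⟨0,0,0,0,1⟩, .ini ⟨0,0,0,1,0⟩ ⟨1,0,0,0,0⟩, .dr 15, .ini ⟨0,1,0,0,0⟩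
  ⟨1,0,0,1,0⟩, .sl 16 17, .sr 14 18, .sl 13 19, .ini ⟨0,1,0,1,1⟩ ⟨0,0,1,0,0⟩, .ini ⟨0,1,0,1,1⟩
  ⟨0,0,0,1,0⟩, .ini ⟨0,1,0,1,1⟩ ⟨0,0,0,0,1⟩, .ini ⟨0,0,1,0,0⟩ ⟨1,0,0,1,1⟩, .ini ⟨0,0,1,0,0⟩
  ⟨0,1,0,1,1⟩, .ini ⟨0,0,1,0,0⟩ ⟨0,0,0,1,0⟩, .ini ⟨0,0,1,0,0⟩ ⟨0,0,0,0,1⟩, .ini ⟨0,0,0,1,0⟩
  ⟨0,0,0,0,1⟩, .sr 28 16, .sr 28 4, .ini ⟨0,0,0,1,0⟩ ⟨0,0,1,0,0⟩, .ini ⟨0,0,0,0,1⟩ ⟨0,0,1,0,0⟩,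
  .ini ⟨0,0,0,0,1⟩ ⟨0,0,0,1,0⟩, .ini ⟨0,1,0,1,0⟩ ⟨0,0,1,0,0⟩, .ini ⟨0,1,0,1,0⟩ ⟨0,0,0,1,0⟩, .dia
  ⟨0,1,0,1,0⟩ 1 1, .sr 14 36, .ini ⟨0,0,1,0,0⟩ ⟨0,1,0,1,0⟩, .dl 0, .ini ⟨0,1,0,0,1⟩ ⟨0,0,1,0,0⟩,
  .ini ⟨0,1,0,0,1⟩ ⟨0,0,0,0,1⟩, .ini ⟨0,1,0,0,1⟩ ⟨0,0,0,1,0⟩, .ini ⟨0,0,0,0,1⟩ ⟨0,1,0,0,0⟩, .dl
  43, .sr 42 44, .sr 41 45, .ini ⟨0,0,1,0,0⟩ ⟨0,1,0,0,1⟩, .dr 43, .dl 3, .sr 14 49, .sl 48 50,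
  .ini ⟨1,0,0,0,0⟩ ⟨0,1,0,0,1⟩, .sl 52 50, .sl 48 53, .sl 48 54, .ini ⟨1,1,0,1,2⟩ ⟨0,0,1,0,0⟩,
  .ini ⟨1,1,0,0,0⟩ ⟨0,1,0,1,1⟩, .sl 30 57, .sl 1 58, .sl 1 59, .ini ⟨0,0,0,0,1⟩ ⟨1,0,0,0,0⟩, .dr
  61, .ini ⟨0,1,0,0,0⟩ ⟨1,0,0,0,1⟩, .sl 62 63, .sr 44 64, .sr 42 65, .sr 41 66, .ini ⟨0,0,1,0,0⟩
  ⟨1,1,0,1,2⟩, .ini ⟨0,1,0,1,0⟩ ⟨1,0,0,0,1⟩, .sl 62 69, .dr 70, .ini ⟨1,1,0,2,1⟩ ⟨0,0,0,0,1⟩, .ini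
  ⟨0,0,0,1,0⟩ ⟨1,1,0,0,0⟩, .dr 73, .sr 28 74, .dl 75, .sr 72 76, .ini ⟨1,1,0,2,1⟩ ⟨0,0,1,0,0⟩, .sl
  5 45, .sl 4 79, .sl 4 80, .sl 30 59, .dr 75, .ini ⟨1,1,0,0,2⟩ ⟨0,0,0,1,0⟩, .ini ⟨1,0,0,0,1⟩
  ⟨0,0,0,1,0⟩, .ini ⟨1,0,0,0,1⟩ ⟨0,1,0,0,0⟩, .dr 86, .sr 85 87, .sl 66 88, .sr 84 89, .sl 83 90,
  .ini ⟨0,0,1,0,0⟩ ⟨1,1,0,2,1⟩, .sr 49 18, .sr 14 93, .sr 35 94, .sl 12 18, .dr 96, .ini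
  ⟨1,0,0,1,0⟩ ⟨0,1,0,0,1⟩, .sl 48 98, .dr 99, .sl 0 6, .dr 101, .ini ⟨1,1,0,0,0⟩ ⟨1,0,0,1,1⟩, .sl
  29 103, .sl 13 104, .sl 13 105, .sl 29 105, .ini ⟨1,1,0,1,1⟩ ⟨0,0,1,0,0⟩, .ini ⟨0,1,0,0,0⟩
  ⟨0,0,1,0,0⟩, .ini ⟨0,1,0,0,0⟩ ⟨0,1,0,1,0⟩, .ini ⟨0,1,0,0,0⟩ ⟨0,1,0,0,1⟩, .ini ⟨0,0,1,0,0⟩
  ⟨1,1,0,1,1⟩, .ini ⟨0,0,1,0,0⟩ ⟨0,1,0,0,0⟩, .ini ⟨1,1,0,1,1⟩ ⟨0,0,0,1,0⟩, .dia ⟨1,1,0,1,1⟩ 1 1,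
  .sr 114 115, .ini ⟨0,0,0,0,1⟩ ⟨1,1,0,1,0⟩, .dr 117, .dl 118, .ini ⟨1,1,0,1,1⟩ ⟨0,0,0,0,1⟩, .sr
  120 115, .ini ⟨1,0,0,1,0⟩ ⟨0,0,1,0,0⟩, .ini ⟨1,0,0,1,0⟩ ⟨0,0,0,1,0⟩, .dia ⟨1,0,0,1,0⟩ 1 1, .sr 2
  124, .ini ⟨0,0,1,0,0⟩ ⟨1,0,0,1,0⟩, .dl 12, .ini ⟨1,0,0,1,0⟩ ⟨0,1,0,0,0⟩, .dr 128, .sr 2 129, .sr
  123 130, .dl 61, .sr 85 132, .sl 17 133, .sl 16 134, .sl 16 135, .ini ⟨1,1,0,1,0⟩ ⟨0,0,0,1,0⟩,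
  .ini ⟨1,0,0,0,0⟩ ⟨0,2,0,0,0⟩, .sr 49 49, .sl 138 139, .dl 15, .sr 2 141, .sl 63 142, .sr 140
  143, .sr 137 144, .ini ⟨1,1,0,1,0⟩ ⟨0,0,1,0,0⟩, .ini ⟨1,1,0,0,0⟩ ⟨0,1,0,1,0⟩, .sl 4 147, .ini
  ⟨0,1,0,0,1⟩ ⟨1,0,0,0,0⟩, .sr 44 149, .sr 42 150, .dl 151, .ini ⟨1,2,0,1,1⟩ ⟨0,0,1,0,0⟩, .sl 110
  79, .sl 4 154, .ini ⟨0,1,0,0,0⟩ ⟨1,1,0,1,1⟩, .sl 156 115, .ini ⟨0,0,1,0,0⟩ ⟨1,1,0,1,0⟩, .ini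
  ⟨0,0,1,0,0⟩ ⟨1,2,0,1,1⟩, .sr 49 94, .dl 128, .sl 43 161, .dr 162, .ini ⟨0,1,0,0,0⟩ ⟨1,1,0,1,0⟩,
  .ini ⟨0,1,0,0,0⟩ ⟨1,2,0,1,1⟩, .dl 162, .ini ⟨1,1,0,0,0⟩ ⟨1,0,0,1,0⟩, .sl 16 167, .ini
  ⟨1,0,0,0,1⟩ ⟨0,0,0,0,1⟩, .sr 169 88, .ini ⟨1,0,0,0,1⟩ ⟨0,0,1,0,0⟩, .sr 169 133, .sl 62 143, .sl
  62 173, .ini ⟨1,1,0,1,2⟩ ⟨0,0,0,0,1⟩, .ini ⟨0,0,1,0,0⟩ ⟨1,0,0,0,1⟩, .sl 62 142, .dr 118, .sr 86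
  132, .sr 85 179, .dl 180, .ini ⟨2,1,0,1,1⟩ ⟨0,0,1,0,0⟩, .ini ⟨1,0,0,0,0⟩ ⟨1,0,0,1,0⟩, .sl 183
  134, .sl 16 184, .ini ⟨1,0,0,0,0⟩ ⟨1,1,0,1,1⟩, .sl 186 115, .ini ⟨0,1,0,0,0⟩ ⟨2,0,0,0,0⟩, .sr
  141 141, .sl 188 189, .sr 53 190, .sr 137 191, .ini ⟨0,0,1,0,0⟩ ⟨2,1,0,1,1⟩, .sr 141 130, .ini
  ⟨0,1,0,0,0⟩ ⟨1,0,0,0,0⟩, .sl 195 141, .sl 61 196, .dr 197, .sr 132 87, .sr 85 199, .ini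
  ⟨1,0,0,0,0⟩ ⟨1,0,0,0,1⟩, .sl 201 173, .sl 48 52, .dl 197, .ini ⟨1,0,0,0,0⟩ ⟨0,2,0,1,1⟩, .sr 54
  80, .sl 205 206, .sr 204 207, .ini ⟨0,1,0,0,0⟩ ⟨2,1,0,1,1⟩, .sl 209 198, .sr 44 65, .sr 42 211,
  .sl 111 54, .dl 86, .ini ⟨1,1,0,0,1⟩ ⟨0,0,1,0,0⟩, .sr 214 134, .ini ⟨1,1,0,0,0⟩ ⟨0,1,0,0,1⟩, .sl
  48 217, .ini ⟨0,1,0,0,0⟩ ⟨1,1,0,0,1⟩, .ini ⟨0,0,1,0,0⟩ ⟨1,1,0,0,1⟩, .ini ⟨1,1,0,1,0⟩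
  ⟨0,0,0,0,1⟩, .sr 161 196, .sr 221 222, .sr 128 141, .sr 2 224, .dl 225, .ini ⟨1,1,0,0,1⟩
  ⟨0,0,0,1,0⟩, .sl 195 132, .dia ⟨1,1,0,0,1⟩ 1 1, .sr 228 229, .sr 227 230, .sr 214 229, .sr 227
  232, .ini ⟨0,1,0,1,0⟩ ⟨1,0,0,0,0⟩, .sr 49 234, .sr 14 235, .dl 236, .ini ⟨1,1,0,0,0⟩
  ⟨1,0,0,0,1⟩, .sl 62 238, .ini ⟨1,0,0,0,0⟩ ⟨1,1,0,1,0⟩, .ini ⟨1,0,0,0,0⟩ ⟨0,0,1,0,0⟩, .ini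
  ⟨0,0,1,0,0⟩ ⟨1,0,0,0,0⟩, .ini ⟨1,0,0,0,0⟩ ⟨1,1,0,0,1⟩, .ini ⟨1,0,0,0,0⟩ ⟨0,1,0,0,0⟩]

def t23_00_11_11 : Tree :=
(.split 0 3 (.split 0 4 (.split 1 3 (.split 1 4 (.leaf [0,1,2,3,4]
  [8,9,10,11,20,21,22,23,24,25,26,27,29,30,31,28,13,1,32,33]) (.leaf [1,0,2,3,4]
  [9,10,8,34,35,37,24,38,26,25,29,4,31,30,20,39,21,22])) (.split 1 4 (.split 3 4 (.leaf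
  [1,0,2,3,4] [9,8,11,40,46,41,24,47,25,27,20,51,21,23,13,48,32,1]) (.split 0 1 (.leaf [3,1,2,0,4]
  [55,56,60,67,40,45,46,68,47,38,25,50,34,37,71,51,21,39]) (.split 0 3 (.leaf [0,3,2,1,4]
  [77,78,81,82,91,56,60,92,68,38,25,95,34,37,97,71,21,39]) (.leaf [0,1,2,3,4]
  [100,9,102,8,106,56,91,60,24,68,92,25,107,77,78,82,20,71,21,97])))) (.split 0 1 (.leaf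
  [1,0,2,3,4] [108,80,54,109,110,111,112,113,38,47,94,49,34,50,66,44,40,45]) (.split 0 3 (.leaf
  [4,1,2,3,0] [76,78,81,116,108,80,54,92,112,38,47,95,94,34,50,66,40,45]) (.split 0 4 (.leaf
  [0,1,2,4,3] [119,56,91,55,121,108,116,54,68,112,92,47,77,76,78,67,66,40]) (.leaf [1,0,2,3,4]
  [9,102,100,108,116,121,24,112,92,68,107,76,78,77,106,119,56,91])))))) (.split 1 3 (.leaf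
  [0,4,2,3,1] [6,122,123,125,18,34,35,126,38,26,24,16,4,31,29,127,9,10]) (.split 1 4 (.split 3 4
  (.leaf [0,4,2,3,1] [130,122,131,125,135,108,116,126,112,92,24,136,76,78,107,127,9,102]) (.leaf
  [0,1,2,3,4] [130,122,6,131,135,108,80,116,126,112,38,92,18,94,34,95,136,76,78,81])) (.split 0 1
  (.split 1 4 (.leaf [4,1,2,3,0]
  [145,146,148,152,153,155,157,158,159,38,112,93,160,34,94,163,108,80]) (.leaf [0,1,2,3,4]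
  [161,146,148,145,164,109,110,165,158,113,38,159,93,49,34,160,152,166,153,155])) (.leaf
  [0,4,2,3,1] [129,122,6,130,168,146,148,126,158,38,112,18,93,34,94,135,108,80]))))) (.split 0 4
  (.split 1 3 (.split 1 4 (.split 1 4 (.split 3 4 (.leaf [0,1,2,3,4]
  [170,171,172,169,174,56,106,175,176,68,24,27,177,100,9,11,62,178,32,13]) (.leaf [0,3,2,1,4]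
  [170,171,133,172,174,56,106,176,68,126,24,142,122,125,177,100,9,127])) (.leaf [0,1,2,4,3]
  [88,171,133,170,173,108,135,121,176,112,126,68,142,130,122,174,119,56])) (.split 0 1 (.leaf
  [0,4,2,3,1] [181,182,185,187,192,146,168,193,158,126,112,194,129,122,130,198,108,135]) (.leaf
  [0,1,2,3,4] [200,171,133,88,202,182,185,187,176,193,126,112,142,194,122,130,173,198,108,135])))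
  (.split 1 4 (.split 3 4 (.leaf [0,1,2,4,3]
  [203,171,88,169,64,40,66,41,176,47,112,27,173,54,108,62,48,32]) (.split 0 3 (.split 1 3 (.leaf
  [0,1,2,4,3] [208,182,181,187,210,153,152,157,193,159,158,112,192,145,146,198,163,108]) (.leaf
  [1,0,2,3,4] [182,208,187,40,212,66,193,47,159,112,210,213,153,157,198,54,108,163])) (.leaf
  [0,3,2,1,4] [203,171,200,88,64,40,66,176,47,193,112,202,182,187,173,54,108,198]))) (.split 0 1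
  (.leaf [0,1,2,4,3] [214,215,216,218,219,109,164,111,220,113,158,47,223,161,146,65,44,40])
  (.split 0 3 (.split 3 4 (.leaf [4,1,2,3,0]
  [226,182,208,231,215,233,218,193,220,159,47,210,237,153,213,65,40,212]) (.leaf [0,1,2,3,4]
  [226,182,181,208,231,215,216,233,193,220,158,159,192,223,146,145,210,237,153,152])) (.leaf
  [0,1,2,4,3] [87,171,200,203,239,215,231,218,176,220,193,47,202,226,182,64,65,40]))))) (.split 1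
  3 (.leaf [0,4,2,3,1] [240,241,183,201,196,146,168,242,158,126,176,141,129,122,142,132,171,133])
  (.split 1 4 (.leaf [0,1,2,4,3]
  [243,241,240,201,228,215,216,239,242,220,158,176,196,223,146,132,87,171]) (.leaf [0,1,2,3,4]
  [244,241,240,243,195,109,164,219,242,113,158,220,196,161,146,223,228,214,215,216])))))

def c23_00_11_11 : Cert 2 3 where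
  T := [[0, 0], [1, 1], [1, 1]]
  W := ⟨0, 0, 1, 1, 0, 1, 1⟩
  hW := rfl
  steps := s23_00_11_11_0
  tree := t23_00_11_11
  ok := by decide +kernel

def s23_00_11_02_0 : List Step := [
.ini ⟨1,0,0,1,0⟩ ⟨0,0,0,0,1⟩, .ini ⟨0,0,0,1,0⟩ ⟨0,1,0,0,0⟩, .dr 1, .ini ⟨1,0,0,0,0⟩ ⟨0,1,0,1,0⟩,
  .sl 2 3, .sr 0 4, .ini ⟨1,0,0,1,0⟩ ⟨0,0,1,0,0⟩, .ini ⟨1,0,0,1,0⟩ ⟨0,0,0,1,0⟩, .ini ⟨0,0,0,0,1⟩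
  ⟨1,0,0,1,0⟩, .ini ⟨0,0,0,1,0⟩ ⟨1,0,0,0,0⟩, .dr 9, .ini ⟨0,1,0,0,0⟩ ⟨1,0,0,1,0⟩, .sl 10 11, .sl 8
  12, .ini ⟨0,1,0,1,1⟩ ⟨0,0,1,0,0⟩, .ini ⟨0,1,0,1,1⟩ ⟨0,0,0,1,0⟩, .ini ⟨0,0,1,0,0⟩ ⟨1,0,0,1,0⟩,
  .ini ⟨0,0,1,0,0⟩ ⟨0,1,0,1,1⟩, .ini ⟨0,0,1,0,0⟩ ⟨0,0,0,1,0⟩, .ini ⟨0,0,1,0,0⟩ ⟨0,0,0,0,1⟩, .ini
  ⟨0,0,0,1,0⟩ ⟨0,0,0,0,1⟩, .sr 20 2, .ini ⟨0,0,0,1,0⟩ ⟨0,0,1,0,0⟩, .ini ⟨0,0,0,0,1⟩ ⟨0,0,1,0,0⟩,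
  .ini ⟨0,0,0,0,1⟩ ⟨0,0,0,1,0⟩, .ini ⟨0,1,0,0,2⟩ ⟨0,0,1,0,0⟩, .ini ⟨0,1,0,0,2⟩ ⟨0,0,0,1,0⟩, .ini
  ⟨0,0,0,0,1⟩ ⟨0,1,0,0,0⟩, .dr 27, .dl 28, .sr 26 29, .ini ⟨0,1,0,0,2⟩ ⟨0,0,0,0,1⟩, .ini
  ⟨0,0,1,0,0⟩ ⟨0,1,0,0,2⟩, .dr 28, .ini ⟨0,1,0,1,0⟩ ⟨0,0,0,0,1⟩, .dl 1, .sr 34 35, .sr 34 36, .sl
  33 37, .ini ⟨1,0,0,0,0⟩ ⟨0,1,0,0,1⟩, .ini ⟨0,0,0,1,0⟩ ⟨0,1,0,0,1⟩, .dl 40, .sl 39 41, .ini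
  ⟨1,1,0,1,1⟩ ⟨0,0,1,0,0⟩, .ini ⟨1,0,0,0,0⟩ ⟨0,1,0,1,1⟩, .dia ⟨0,1,0,1,1⟩ 1 1, .sl 44 45, .ini
  ⟨1,0,0,0,0⟩ ⟨0,1,0,0,2⟩, .sl 47 37, .sl 33 48, .ini ⟨0,1,0,0,1⟩ ⟨1,0,0,0,0⟩, .ini ⟨0,1,0,0,1⟩
  ⟨0,0,0,1,0⟩, .dia ⟨0,1,0,0,1⟩ 1 1, .sr 51 52, .sr 50 53, .ini ⟨0,1,0,0,1⟩ ⟨0,0,1,0,0⟩, .ini
  ⟨0,1,0,0,1⟩ ⟨0,0,0,0,1⟩, .sr 56 52, .ini ⟨0,0,1,0,0⟩ ⟨1,1,0,1,1⟩, .ini ⟨0,0,1,0,0⟩ ⟨0,1,0,0,1⟩,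
  .ini ⟨0,1,0,1,1⟩ ⟨1,0,0,0,0⟩, .dr 60, .ini ⟨0,1,0,0,2⟩ ⟨1,0,0,0,0⟩, .sr 62 30, .ini ⟨1,0,0,1,0⟩
  ⟨0,1,0,0,0⟩, .dr 64, .sr 0 65, .ini ⟨1,1,0,0,0⟩ ⟨1,0,0,1,0⟩, .sl 10 67, .sl 8 68, .ini
  ⟨1,0,0,0,0⟩ ⟨1,1,0,1,1⟩, .ini ⟨1,0,0,0,0⟩ ⟨0,0,1,0,0⟩, .ini ⟨1,0,0,0,0⟩ ⟨1,0,0,1,0⟩, .ini
  ⟨1,0,0,0,0⟩ ⟨0,0,0,0,1⟩, .ini ⟨0,0,0,0,1⟩ ⟨1,0,0,0,0⟩, .ini ⟨0,1,0,0,0⟩ ⟨1,0,0,0,0⟩, .dl 9, .sl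
  75 76, .sl 74 77, .ini ⟨0,0,1,0,0⟩ ⟨1,0,0,0,0⟩, .sr 4 4, .sr 0 80, .sl 10 10, .ini ⟨0,2,0,0,0⟩
  ⟨1,0,0,1,0⟩, .sl 82 83, .sl 8 84, .ini ⟨0,2,0,2,1⟩ ⟨0,0,1,0,0⟩, .ini ⟨0,1,0,0,0⟩ ⟨0,1,0,1,1⟩,
  .sl 87 53, .sl 21 88, .sl 21 89, .sl 36 41, .ini ⟨0,0,1,0,0⟩ ⟨0,2,0,2,1⟩, .ini ⟨0,0,0,0,1⟩
  ⟨0,1,0,1,0⟩, .dl 93, .dr 94, .dl 27, .dr 96, .sr 51 97, .sr 51 98, .ini ⟨0,2,0,2,1⟩ ⟨0,0,0,1,0⟩,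
  .sr 2 2, .sr 20 101, .ini ⟨1,0,0,0,0⟩ ⟨0,2,0,1,1⟩, .ini ⟨0,0,0,1,0⟩ ⟨0,2,0,0,1⟩, .dr 104, .dl
  105, .sl 103 106, .ini ⟨1,2,0,2,1⟩ ⟨0,0,1,0,0⟩, .ini ⟨1,2,0,0,1⟩ ⟨0,0,0,0,1⟩, .ini ⟨1,2,0,0,1⟩
  ⟨0,0,0,2,0⟩, .ini ⟨1,0,0,0,0⟩ ⟨0,1,0,0,0⟩, .dl 96, .sl 111 112, .sr 113 113, .sr 110 114, .sr
  109 115, .sl 102 116, .sl 102 117, .sl 39 91, .ini ⟨0,2,0,1,1⟩ ⟨0,0,0,1,0⟩, .ini ⟨0,2,0,1,1⟩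
  ⟨1,0,0,0,0⟩, .dr 121, .sr 120 122, .ini ⟨0,2,0,1,1⟩ ⟨0,0,1,0,0⟩, .ini ⟨0,2,0,1,1⟩ ⟨0,0,0,0,1⟩,
  .sr 51 96, .dl 126, .sr 127 127, .sr 125 128, .ini ⟨0,1,0,0,0⟩ ⟨0,1,0,0,1⟩, .sl 130 41, .ini
  ⟨0,0,1,0,0⟩ ⟨1,2,0,2,1⟩, .ini ⟨0,0,1,0,0⟩ ⟨0,2,0,1,1⟩, .ini ⟨0,0,0,1,0⟩ ⟨1,1,0,0,0⟩, .dr 134,
  .dr 135, .ini ⟨0,2,0,0,1⟩ ⟨1,0,0,1,0⟩, .sl 10 137, .sr 127 138, .sl 136 139, .sr 91 140, .sr 50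
  97, .sr 51 142, .sr 51 143, .sl 103 107, .ini ⟨2,2,0,2,1⟩ ⟨0,0,1,0,0⟩, .ini ⟨1,0,0,0,0⟩
  ⟨1,2,0,2,1⟩, .dia ⟨1,2,0,2,1⟩ 1 1, .sl 147 148, .sl 39 119, .sr 138 122, .ini ⟨0,0,1,0,0⟩
  ⟨2,2,0,2,1⟩, .sl 75 77, .sl 9 153, .sl 74 154, .dr 155, .sr 50 143, .sr 51 157, .ini ⟨1,0,0,0,0⟩
  ⟨2,2,0,2,1⟩, .dl 155, .ini ⟨1,0,0,0,0⟩ ⟨0,2,0,0,1⟩, .ini ⟨0,2,0,0,1⟩ ⟨1,0,0,0,0⟩, .ini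
  ⟨0,2,0,0,1⟩ ⟨0,0,1,0,0⟩, .ini ⟨0,2,0,0,1⟩ ⟨0,0,0,1,0⟩, .dia ⟨0,2,0,0,1⟩ 1 1, .sr 164 165, .sl
  130 52, .ini ⟨0,0,1,0,0⟩ ⟨0,2,0,0,1⟩, .sr 35 35, .sr 34 169, .sl 97 170, .ini ⟨1,2,0,0,1⟩
  ⟨0,0,0,1,0⟩, .sr 172 113, .sl 2 173, .ini ⟨1,2,0,1,1⟩ ⟨0,0,1,0,0⟩, .dia ⟨0,2,0,1,1⟩ 1 1, .sl 103
  176, .sl 161 171, .sr 35 12, .sr 35 179, .sr 34 180, .ini ⟨0,1,0,1,0⟩ ⟨0,0,1,0,0⟩, .ini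
  ⟨0,1,0,1,0⟩ ⟨0,0,0,1,0⟩, .sr 183 170, .ini ⟨0,0,1,0,0⟩ ⟨1,2,0,1,1⟩, .ini ⟨0,0,1,0,0⟩
  ⟨0,1,0,1,0⟩, .ini ⟨0,2,0,0,1⟩ ⟨0,0,0,0,1⟩, .sr 112 137, .sr 112 188, .sr 187 189, .sr 164 112,
  .sl 3 174, .sl 2 192, .sr 64 65, .sr 0 194, .dl 195, .sr 12 181, .ini ⟨1,2,0,1,1⟩ ⟨0,0,0,1,0⟩,
  .sl 74 153, .dia ⟨1,2,0,1,1⟩ 1 1, .sr 199 200, .sr 198 201, .sr 76 80, .sr 0 203, .sr 76 204,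
  .sl 11 68, .sl 8 206, .sl 72 207, .sl 10 208, .dia ⟨0,1,0,1,0⟩ 1 2, .sr 34 210, .sl 2 127, .ini
  ⟨0,1,0,0,0⟩ ⟨0,0,1,0,0⟩, .ini ⟨0,1,0,0,0⟩ ⟨0,1,0,1,0⟩, .ini ⟨0,1,0,0,0⟩ ⟨0,2,0,0,1⟩, .ini
  ⟨0,0,1,0,0⟩ ⟨0,1,0,0,0⟩]

def t23_00_11_02 : Tree :=
(.split 1 4 (.split 0 3 (.split 1 3 (.leaf [0,4,2,3,1]
  [5,6,7,0,13,14,15,16,17,18,19,10,21,22,20,8,23,24]) (.split 1 4 (.leaf [1,0,2,4,3]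
  [6,5,0,25,30,31,16,32,17,19,13,38,14,8,33,23]) (.split 0 1 (.leaf [0,1,2,3,4]
  [42,43,46,49,54,55,53,57,58,59,17,32,61,41,14,38,63,29,25,30]) (.leaf [4,1,2,3,0]
  [66,6,5,69,43,46,49,16,58,17,32,13,61,14,38,63,25,30])))) (.split 1 3 (.leaf [0,4,2,3,1]
  [70,71,72,73,78,43,69,79,58,16,19,76,66,6,0,74,23,8]) (.split 1 4 (.leaf [0,1,2,4,3]
  [47,71,70,73,62,25,63,31,79,32,58,19,78,49,43,74,33,23]) (.leaf [0,1,2,3,4]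
  [39,71,70,47,50,55,54,57,79,59,58,32,78,42,43,49,62,29,25,63])))) (.split 1 4 (.split 1 3
  (.split 1 3 (.split 0 3 (.split 3 4 (.leaf [4,1,2,3,0]
  [81,6,5,85,86,90,91,16,92,17,59,13,95,14,41,99,55,53]) (.leaf [0,1,2,3,4]
  [81,6,7,5,85,86,100,90,16,92,18,17,10,102,22,21,13,95,14,15])) (.leaf [1,0,2,4,3]
  [71,72,39,86,85,91,79,92,16,59,76,81,6,50,99,55])) (.split 0 3 (.leaf [0,1,2,3,4]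
  [107,108,118,119,123,124,129,131,132,133,92,59,141,106,86,91,144,98,55,99]) (.split 0 3 (.leaf
  [0,1,2,3,4] [145,146,149,150,151,124,123,131,152,133,132,59,156,107,108,119,158,98,55,144])
  (.leaf [1,0,2,3,4] [71,159,39,124,151,131,79,133,152,59,160,145,146,150,50,98,55,158])))) (.leaf
  [3,1,2,0,4] [161,71,39,162,163,166,167,79,168,133,59,171,124,131,50,97,55,98])) (.split 1 3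
  (.split 0 3 (.split 3 4 (.split 0 4 (.leaf [0,1,2,3,4]
  [174,175,177,178,181,182,184,170,185,186,133,168,122,127,124,171,190,191,163,166]) (.split 0 4
  (.leaf [0,1,2,3,4]
  [193,146,145,196,197,182,184,181,152,186,133,185,151,127,124,122,202,174,175,177]) (.leaf
  [3,1,2,0,4] [4,6,205,12,182,184,197,16,186,133,152,127,124,151,209,193,146,145]))) (.split 3 4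
  (.leaf [4,1,2,3,0] [4,6,81,12,182,211,184,16,186,92,133,85,212,86,106,127,124,129]) (.leaf
  [0,1,2,3,4] [4,6,7,81,12,182,183,211,16,186,18,92,10,2,22,102,85,212,86,100]))) (.leaf
  [1,0,2,4,3] [71,72,161,182,12,170,79,186,16,168,76,4,6,162,191,163])) (.leaf [3,1,2,0,4]
  [111,71,161,75,213,214,215,79,216,186,168,35,182,170,162,112,163,191]))))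

def c23_00_11_02 : Cert 2 3 where
  T := [[0, 0], [1, 1], [0, 2]]
  W := ⟨0, 0, 1, 0, 0, 1, 2⟩
  hW := rfl
  steps := s23_00_11_02_0
  tree := t23_00_11_02
  ok := by decide +kernel

def s23_00_02_20_0 : List Step := [
.ini ⟨1,0,0,0,0⟩ ⟨0,1,0,0,0⟩, .ini ⟨1,0,0,0,0⟩ ⟨0,0,1,0,0⟩, .ini ⟨1,0,0,0,0⟩ ⟨0,0,0,1,0⟩, .ini
  ⟨0,1,0,0,0⟩ ⟨1,0,0,0,0⟩, .ini ⟨0,1,0,0,0⟩ ⟨0,0,1,0,0⟩, .ini ⟨0,1,0,0,0⟩ ⟨0,0,0,0,1⟩, .ini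
  ⟨0,0,1,0,0⟩ ⟨1,0,0,0,0⟩, .ini ⟨0,0,1,0,0⟩ ⟨0,1,0,0,0⟩, .ini ⟨0,0,1,0,0⟩ ⟨0,0,0,1,0⟩, .ini
  ⟨0,0,1,0,0⟩ ⟨0,0,0,0,1⟩, .ini ⟨0,0,0,1,0⟩ ⟨1,0,0,0,0⟩, .ini ⟨0,0,0,1,0⟩ ⟨0,0,1,0,0⟩, .ini
  ⟨0,0,0,1,0⟩ ⟨0,0,0,0,1⟩, .ini ⟨0,0,0,0,1⟩ ⟨0,1,0,0,0⟩, .ini ⟨0,0,0,0,1⟩ ⟨0,0,1,0,0⟩, .ini
  ⟨0,0,0,0,1⟩ ⟨0,0,0,1,0⟩]

def t23_00_02_20 : Tree :=
(.leaf [4,3,2,1,0] [0,1,2,3,4,5,6,7,8,9,10,11,12,13,14,15])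

def c23_00_02_20 : Cert 2 3 where
  T := [[0, 0], [0, 2], [2, 0]]
  W := ⟨0, 0, 0, 2, 0, 2, 0⟩
  hW := rfl
  steps := s23_00_02_20_0
  tree := t23_00_02_20
  ok := by decide +kernel

def s23_00_02_11_0 : List Step := [
.ini ⟨1,0,0,0,1⟩ ⟨0,0,0,1,0⟩, .ini ⟨0,0,0,0,1⟩ ⟨0,1,0,0,0⟩, .dr 1, .ini ⟨1,0,0,0,0⟩ ⟨0,1,0,0,1⟩,
  .sl 2 3, .sr 0 4, .ini ⟨1,0,0,0,1⟩ ⟨0,0,1,0,0⟩, .ini ⟨1,0,0,0,1⟩ ⟨0,0,0,0,1⟩, .ini ⟨0,0,0,0,1⟩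
  ⟨1,0,0,0,0⟩, .dr 8, .ini ⟨0,1,0,1,0⟩ ⟨1,0,0,0,1⟩, .sl 9 10, .ini ⟨0,1,0,1,1⟩ ⟨0,0,1,0,0⟩, .ini
  ⟨0,1,0,1,1⟩ ⟨0,0,0,0,1⟩, .ini ⟨0,0,1,0,0⟩ ⟨1,0,0,0,1⟩, .ini ⟨0,0,1,0,0⟩ ⟨0,1,0,1,1⟩, .ini
  ⟨0,0,1,0,0⟩ ⟨0,0,0,1,0⟩, .ini ⟨0,0,1,0,0⟩ ⟨0,0,0,0,1⟩, .ini ⟨0,0,0,1,0⟩ ⟨1,0,0,0,1⟩, .ini
  ⟨0,0,0,1,0⟩ ⟨0,0,1,0,0⟩, .ini ⟨0,0,0,1,0⟩ ⟨0,0,0,0,1⟩, .ini ⟨0,0,0,0,1⟩ ⟨0,1,0,1,0⟩, .dr 21,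
  .ini ⟨0,0,0,0,1⟩ ⟨0,0,1,0,0⟩, .ini ⟨0,0,0,0,1⟩ ⟨0,0,0,1,0⟩, .ini ⟨0,1,0,2,0⟩ ⟨0,0,1,0,0⟩, .ini
  ⟨0,1,0,2,0⟩ ⟨0,0,0,1,0⟩, .ini ⟨0,1,0,2,0⟩ ⟨0,0,0,0,1⟩, .ini ⟨0,0,0,1,0⟩ ⟨0,1,0,0,0⟩, .dr 28, .dl
  29, .sr 27 30, .ini ⟨0,0,1,0,0⟩ ⟨0,1,0,2,0⟩, .dr 29, .ini ⟨0,1,0,1,1⟩ ⟨0,0,0,1,0⟩, .dl 21, .sr
  34 35, .ini ⟨1,0,0,0,0⟩ ⟨0,1,0,1,0⟩, .sl 37 35, .ini ⟨1,1,0,1,1⟩ ⟨0,0,1,0,0⟩, .ini ⟨1,0,0,0,0⟩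
  ⟨0,1,0,2,0⟩, .ini ⟨0,1,0,0,1⟩ ⟨0,0,0,1,0⟩, .dl 1, .sr 41 42, .sr 41 43, .sl 40 44, .sl 33 45,
  .ini ⟨1,0,0,0,0⟩ ⟨0,1,0,1,1⟩, .dia ⟨0,1,0,1,1⟩ 1 1, .sl 47 48, .ini ⟨0,1,0,1,0⟩ ⟨1,0,0,0,0⟩,
  .ini ⟨0,1,0,1,0⟩ ⟨0,0,0,0,1⟩, .dia ⟨0,1,0,1,0⟩ 1 1, .sr 51 52, .sr 50 53, .ini ⟨0,1,0,1,0⟩
  ⟨0,0,1,0,0⟩, .ini ⟨0,1,0,1,0⟩ ⟨0,0,0,1,0⟩, .sr 56 52, .ini ⟨0,0,1,0,0⟩ ⟨1,1,0,1,1⟩, .ini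
  ⟨0,0,1,0,0⟩ ⟨0,1,0,1,0⟩, .ini ⟨0,1,0,2,0⟩ ⟨1,0,0,0,1⟩, .sr 30 60, .ini ⟨0,1,0,1,1⟩ ⟨1,0,0,0,0⟩,
  .dr 62, .ini ⟨1,0,0,0,1⟩ ⟨0,1,0,0,0⟩, .dr 64, .sr 0 65, .ini ⟨1,1,0,0,0⟩ ⟨1,0,0,0,1⟩, .sl 9 67,
  .sl 18 68, .ini ⟨1,0,0,0,0⟩ ⟨0,0,1,0,0⟩, .ini ⟨1,0,0,0,0⟩ ⟨0,0,0,1,0⟩, .ini ⟨1,0,0,0,0⟩
  ⟨1,0,0,0,1⟩, .ini ⟨0,1,0,2,0⟩ ⟨1,0,0,0,0⟩, .ini ⟨0,0,1,0,0⟩ ⟨1,0,0,0,0⟩, .ini ⟨0,0,0,1,0⟩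
  ⟨1,0,0,0,0⟩, .dl 8, .ini ⟨1,0,0,0,0⟩ ⟨1,1,0,1,1⟩, .ini ⟨0,1,0,0,0⟩ ⟨1,0,0,0,0⟩, .sl 78 76, .sl
  75 79, .sr 4 4, .sr 0 81, .ini ⟨0,2,0,1,0⟩ ⟨1,0,0,0,1⟩, .sl 9 83, .sl 9 84, .ini ⟨0,2,0,1,2⟩
  ⟨0,0,1,0,0⟩, .ini ⟨0,1,0,0,0⟩ ⟨0,1,0,1,1⟩, .sl 87 53, .sl 22 88, .sl 22 89, .ini ⟨0,2,0,1,2⟩
  ⟨0,0,0,0,1⟩, .ini ⟨0,0,1,0,0⟩ ⟨0,2,0,1,2⟩, .dl 28, .sr 51 93, .sl 2 94, .dr 95, .ini ⟨0,0,0,0,1⟩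
  ⟨0,2,0,1,0⟩, .dr 97, .dr 98, .sl 43 35, .dr 93, .sr 51 101, .sr 51 102, .ini ⟨1,0,0,0,0⟩
  ⟨0,2,0,1,1⟩, .dl 98, .sl 104 105, .ini ⟨1,2,0,1,2⟩ ⟨0,0,1,0,0⟩, .sl 37 100, .ini ⟨1,2,0,1,0⟩
  ⟨0,0,0,0,1⟩, .ini ⟨0,2,0,1,0⟩ ⟨0,0,0,0,1⟩, .dia ⟨0,2,0,1,0⟩ 1 1, .sr 110 111, .sl 104 112, .sr
  109 113, .sl 99 114, .sl 99 115, .ini ⟨0,2,0,1,1⟩ ⟨0,0,0,0,1⟩, .ini ⟨0,2,0,1,1⟩ ⟨1,0,0,0,0⟩, .dr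
  118, .sr 117 119, .ini ⟨0,2,0,1,1⟩ ⟨0,0,1,0,0⟩, .ini ⟨0,1,0,0,0⟩ ⟨0,1,0,1,0⟩, .sl 122 35, .dia
  ⟨0,2,0,1,1⟩ 1 1, .sr 117 124, .ini ⟨0,0,1,0,0⟩ ⟨1,2,0,1,2⟩, .ini ⟨0,0,1,0,0⟩ ⟨0,2,0,1,1⟩, .sr 50
  101, .sr 51 128, .sr 51 129, .dl 94, .sl 2 131, .ini ⟨0,1,0,0,0⟩ ⟨1,0,0,0,1⟩, .sl 9 133, .sr 42
  134, .sr 41 135, .sl 136 63, .sr 132 137, .sl 104 106, .ini ⟨2,2,0,1,2⟩ ⟨0,0,1,0,0⟩, .sl 37 108,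
  .ini ⟨1,0,0,0,0⟩ ⟨1,2,0,1,2⟩, .dia ⟨1,2,0,1,2⟩ 1 1, .sl 142 143, .sr 84 119, .ini ⟨0,0,1,0,0⟩
  ⟨2,2,0,1,2⟩, .sr 50 129, .sr 51 147, .sl 78 79, .sl 75 149, .sl 8 150, .dr 151, .ini ⟨1,0,0,0,0⟩
  ⟨2,2,0,1,2⟩, .dl 151, .ini ⟨1,0,0,0,0⟩ ⟨0,2,0,1,0⟩, .ini ⟨0,2,0,1,0⟩ ⟨1,0,0,0,0⟩, .ini
  ⟨0,2,0,1,0⟩ ⟨0,0,1,0,0⟩, .sl 122 52, .ini ⟨0,0,1,0,0⟩ ⟨0,2,0,1,0⟩, .sr 42 42, .sr 41 160, .sl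
  161 101, .ini ⟨0,1,0,0,1⟩ ⟨0,0,1,0,0⟩, .ini ⟨0,1,0,0,1⟩ ⟨0,0,0,0,1⟩, .sr 164 161, .sr 164 165,
  .ini ⟨0,0,1,0,0⟩ ⟨0,1,0,0,1⟩, .ini ⟨1,0,0,0,0⟩ ⟨0,1,0,0,0⟩, .dl 93, .sl 168 169, .sr 109 170,
  .sl 2 171, .ini ⟨1,2,0,1,1⟩ ⟨0,0,1,0,0⟩, .sl 155 162, .sl 104 124, .sr 42 135, .sr 41 176, .ini
  ⟨0,0,1,0,0⟩ ⟨1,2,0,1,1⟩, .sr 156 111, .sr 110 179, .sr 110 169, .sl 3 172, .sl 2 182, .sr 64 65,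
  .sr 0 184, .dl 185, .sr 134 177, .ini ⟨1,2,0,1,1⟩ ⟨0,0,0,0,1⟩, .dia ⟨1,2,0,1,1⟩ 1 1, .sr 150
  189, .sr 188 190, .sr 76 81, .sr 0 192, .sr 76 193, .ini ⟨1,2,0,1,0⟩ ⟨1,0,0,0,1⟩, .sl 9 195, .sl
  72 196, .sl 9 197, .ini ⟨0,1,0,0,0⟩ ⟨0,0,1,0,0⟩, .ini ⟨0,1,0,0,0⟩ ⟨0,2,0,1,0⟩, .ini ⟨0,1,0,0,0⟩
  ⟨0,1,0,0,1⟩, .ini ⟨0,0,1,0,0⟩ ⟨0,1,0,0,0⟩]

def t23_00_02_11 : Tree :=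
(.split 1 3 (.split 0 4 (.split 1 4 (.leaf [0,3,2,1,4]
  [5,6,0,7,11,12,13,14,15,16,17,18,19,20,9,22,23,24]) (.split 1 3 (.leaf [1,0,2,4,3]
  [6,0,5,25,26,31,14,32,16,15,18,33,19,11,36,12]) (.split 0 1 (.leaf [0,1,2,3,4]
  [38,39,46,49,54,55,57,53,58,59,32,15,61,30,25,31,63,35,12,36]) (.leaf [3,1,2,0,4]
  [66,6,5,69,39,46,49,14,58,32,15,61,25,31,11,63,12,36])))) (.split 1 3 (.leaf [0,4,2,3,1]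
  [40,70,71,72,73,25,26,74,32,16,14,75,33,19,18,76,6,0]) (.split 1 4 (.leaf [0,1,2,4,3]
  [77,70,40,72,80,39,46,69,74,58,32,14,73,61,25,76,66,6]) (.leaf [0,1,2,3,4]
  [37,70,40,77,50,55,57,54,74,59,32,58,73,30,25,61,80,38,39,46])))) (.split 1 3 (.split 1 4
  (.split 1 4 (.split 0 4 (.split 3 4 (.leaf [0,1,2,3,4]
  [82,6,5,7,85,86,90,91,14,92,15,17,11,96,12,13,9,99,23,22]) (.leaf [3,1,2,0,4]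
  [82,6,5,85,86,100,90,14,92,59,15,103,55,53,11,96,12,35])) (.leaf [1,0,2,4,3]
  [70,37,72,86,100,85,74,92,59,14,50,103,55,76,82,6])) (.split 0 4 (.leaf [0,1,2,3,4]
  [106,107,108,116,120,121,123,125,126,127,59,92,130,102,55,103,138,105,86,100]) (.split 0 4
  (.leaf [0,1,2,3,4]
  [139,140,141,144,145,121,123,120,146,127,59,126,148,102,55,130,152,106,107,108]) (.leaf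
  [1,0,2,3,4] [70,37,153,121,123,145,74,127,59,146,50,102,55,148,154,139,140,141])))) (.leaf
  [4,1,2,3,0] [155,70,37,156,157,158,112,74,159,59,127,50,101,55,102,162,121,123])) (.split 1 4
  (.split 0 4 (.split 3 4 (.split 3 4 (.leaf [0,1,2,3,4]
  [4,6,82,7,134,163,166,164,14,167,92,17,85,132,86,91,9,2,23,99]) (.leaf [3,1,2,0,4]
  [4,6,82,134,163,165,166,14,167,127,92,131,121,125,85,132,86,105])) (.split 0 3 (.leaf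
  [0,1,2,3,4] [172,173,174,175,177,163,161,165,178,167,159,127,180,181,157,112,119,131,121,162])
  (.split 0 3 (.leaf [0,1,2,3,4]
  [183,140,186,139,187,163,177,165,146,167,178,127,191,172,173,175,145,131,121,119]) (.leaf
  [4,1,2,3,0] [4,6,194,134,163,187,165,14,167,146,127,198,183,140,139,131,121,145])))) (.leaf
  [1,0,2,4,3] [70,155,72,163,161,134,74,167,159,14,156,181,157,76,4,6])) (.leaf [4,1,2,3,0]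
  [168,70,155,78,199,200,201,74,202,159,167,156,169,157,181,42,163,161]))))

def c23_00_02_11 : Cert 2 3 where
  T := [[0, 0], [0, 2], [1, 1]]
  W := ⟨0, 0, 0, 1, 0, 2, 1⟩
  hW := rfl
  steps := s23_00_02_11_0
  tree := t23_00_02_11
  ok := by decide +kernel

def s23_00_02_02_0 : List Step := [
.ini ⟨1,0,0,0,0⟩ ⟨0,1,0,2,0⟩, .ini ⟨1,0,0,0,0⟩ ⟨0,0,1,0,0⟩, .ini ⟨1,0,0,0,0⟩ ⟨0,0,0,1,0⟩, .ini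
  ⟨1,0,0,0,0⟩ ⟨0,0,0,0,1⟩, .ini ⟨0,1,0,2,0⟩ ⟨1,0,0,0,0⟩, .ini ⟨0,1,0,2,0⟩ ⟨0,0,1,0,0⟩, .ini
  ⟨0,1,0,2,0⟩ ⟨0,0,0,1,0⟩, .ini ⟨0,0,1,0,0⟩ ⟨1,0,0,0,0⟩, .ini ⟨0,0,1,0,0⟩ ⟨0,1,0,2,0⟩, .ini
  ⟨0,0,1,0,0⟩ ⟨0,0,0,1,0⟩, .ini ⟨0,0,1,0,0⟩ ⟨0,0,0,0,1⟩, .ini ⟨0,0,0,1,0⟩ ⟨1,0,0,0,0⟩, .ini
  ⟨0,0,0,1,0⟩ ⟨0,1,0,0,0⟩, .dr 12, .dr 13, .ini ⟨0,0,0,1,0⟩ ⟨0,0,1,0,0⟩, .ini ⟨0,0,0,1,0⟩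
  ⟨0,0,0,0,1⟩, .ini ⟨0,0,0,0,1⟩ ⟨1,0,0,0,0⟩, .ini ⟨0,0,0,0,1⟩ ⟨0,0,1,0,0⟩, .ini ⟨0,0,0,0,1⟩
  ⟨0,0,0,1,0⟩, .ini ⟨1,0,0,0,0⟩ ⟨0,1,0,1,2⟩, .ini ⟨1,0,0,0,0⟩ ⟨0,1,0,2,1⟩, .ini ⟨0,1,0,1,2⟩
  ⟨1,0,0,0,0⟩, .ini ⟨0,1,0,1,2⟩ ⟨0,0,1,0,0⟩, .ini ⟨0,1,0,1,2⟩ ⟨0,0,0,1,0⟩, .ini ⟨0,0,0,0,1⟩
  ⟨0,1,0,1,0⟩, .dr 25, .dl 26, .sr 24 27, .ini ⟨0,1,0,1,2⟩ ⟨0,0,0,0,1⟩, .ini ⟨0,0,1,0,0⟩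
  ⟨0,1,0,1,2⟩, .ini ⟨0,0,1,0,0⟩ ⟨0,1,0,2,1⟩, .ini ⟨0,1,0,2,1⟩ ⟨1,0,0,0,0⟩, .ini ⟨0,1,0,2,1⟩
  ⟨0,0,0,0,1⟩, .sr 16 13, .dl 34, .sr 33 35, .ini ⟨0,1,0,2,1⟩ ⟨0,0,1,0,0⟩, .dr 26, .ini
  ⟨1,0,0,0,0⟩ ⟨0,1,0,1,1⟩, .ini ⟨0,1,0,1,1⟩ ⟨1,0,0,0,0⟩, .ini ⟨0,1,0,1,1⟩ ⟨0,0,1,0,0⟩, .ini
  ⟨0,1,0,1,1⟩ ⟨0,0,0,1,0⟩, .dia ⟨0,1,0,1,1⟩ 1 1, .sr 42 43, .ini ⟨0,1,0,1,1⟩ ⟨0,0,0,0,1⟩, .sr 45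
  43, .ini ⟨0,0,1,0,0⟩ ⟨0,1,0,1,1⟩, .ini ⟨1,0,0,0,0⟩ ⟨0,2,0,4,1⟩, .dl 25, .dr 49, .sr 42 50, .sr
  42 51, .ini ⟨0,0,1,0,0⟩ ⟨0,2,0,4,1⟩, .ini ⟨0,2,0,4,1⟩ ⟨1,0,0,0,0⟩, .ini ⟨0,1,0,3,0⟩ ⟨0,0,0,0,1⟩,
  .ini ⟨0,0,0,1,0⟩ ⟨0,2,0,0,0⟩, .dr 56, .dr 57, .dl 13, .sr 59 59, .sl 58 60, .sr 55 61, .sr 55
  62, .hr 63 2 ⟨0,1,0,1,1⟩, .dl 64, .ini ⟨0,2,0,4,1⟩ ⟨0,0,1,0,0⟩, .dr 34, .ini ⟨0,2,0,1,1⟩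
  ⟨0,0,0,1,0⟩, .ini ⟨0,1,0,0,0⟩ ⟨0,1,0,1,1⟩, .sl 69 43, .sr 68 70, .sl 67 71, .sl 67 72, .sl 67
  73, .sr 42 49, .sl 14 75, .dr 76, .ini ⟨0,1,0,2,0⟩ ⟨0,0,0,0,1⟩, .sr 6 60, .sr 78 79, .sr 6 80,
  .ini ⟨0,2,0,2,1⟩ ⟨0,0,0,1,0⟩, .dl 49, .sr 82 83, .sl 14 84, .sl 14 85, .ini ⟨1,0,0,0,0⟩
  ⟨0,2,0,2,1⟩, .ini ⟨0,2,0,2,1⟩ ⟨1,0,0,0,0⟩, .ini ⟨0,2,0,2,1⟩ ⟨0,0,1,0,0⟩, .sl 69 35, .ini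
  ⟨0,0,1,0,0⟩ ⟨0,2,0,2,1⟩, .sr 78 60, .ini ⟨1,0,0,0,0⟩ ⟨0,1,0,1,0⟩, .ini ⟨0,1,0,1,0⟩ ⟨1,0,0,0,0⟩,
  .ini ⟨0,1,0,1,0⟩ ⟨0,0,1,0,0⟩, .ini ⟨0,1,0,1,0⟩ ⟨0,0,0,1,0⟩, .dia ⟨0,1,0,1,0⟩ 1 1, .sr 96 97,
  .ini ⟨0,1,0,1,0⟩ ⟨0,0,0,0,1⟩, .dl 12, .dr 100, .sr 99 101, .sr 96 102, .ini ⟨0,0,1,0,0⟩
  ⟨0,1,0,1,0⟩, .ini ⟨1,0,0,0,0⟩ ⟨0,2,0,1,4⟩, .ini ⟨0,2,0,1,4⟩ ⟨1,0,0,0,0⟩, .ini ⟨0,2,0,1,4⟩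
  ⟨0,0,1,0,0⟩, .ini ⟨0,1,0,0,3⟩ ⟨0,0,0,1,0⟩, .ini ⟨0,0,0,0,1⟩ ⟨0,2,0,0,0⟩, .dr 109, .dr 110, .ini
  ⟨0,0,0,0,1⟩ ⟨0,1,0,0,0⟩, .dr 112, .dl 113, .sr 114 114, .sl 111 115, .sr 108 116, .sr 108 117,
  .hr 118 2 ⟨0,1,0,1,1⟩, .dl 119, .ini ⟨0,2,0,1,4⟩ ⟨0,0,0,0,1⟩, .ini ⟨0,0,1,0,0⟩ ⟨0,2,0,1,4⟩, .ini
  ⟨0,0,0,1,0⟩ ⟨0,1,0,0,1⟩, .dl 123, .dr 124, .sr 45 125, .sr 45 126, .ini ⟨0,0,0,0,1⟩ ⟨0,2,0,1,0⟩,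
  .dr 128, .dr 129, .dr 130, .dr 131, .ini ⟨1,0,0,0,0⟩ ⟨0,2,0,1,3⟩, .ini ⟨0,2,0,1,3⟩ ⟨1,0,0,0,0⟩,
  .ini ⟨0,2,0,1,3⟩ ⟨0,0,1,0,0⟩, .ini ⟨0,1,0,0,1⟩ ⟨0,0,0,1,0⟩, .dia ⟨0,1,0,0,1⟩ 1 1, .sr 136 137,
  .sl 138 27, .ini ⟨0,2,0,1,3⟩ ⟨0,0,0,0,1⟩, .dia ⟨0,2,0,1,3⟩ 1 1, .sr 140 141, .ini ⟨0,0,1,0,0⟩
  ⟨0,2,0,1,3⟩, .dl 131, .ini ⟨1,0,0,0,0⟩ ⟨0,2,0,1,2⟩, .ini ⟨0,2,0,1,2⟩ ⟨1,0,0,0,0⟩, .ini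
  ⟨0,2,0,1,2⟩ ⟨0,0,1,0,0⟩, .sl 69 27, .ini ⟨0,2,0,1,2⟩ ⟨0,0,0,0,1⟩, .dia ⟨0,2,0,1,2⟩ 1 1, .sr 149
  150, .ini ⟨0,0,1,0,0⟩ ⟨0,2,0,1,2⟩, .ini ⟨0,1,0,0,2⟩ ⟨0,0,0,1,0⟩, .sr 153 115, .sl 125 154, .dl
  112, .dr 156, .sr 136 157, .sr 136 158, .sl 159 50, .sr 99 102, .sl 161 125, .ini ⟨1,0,0,0,0⟩
  ⟨0,4,0,2,3⟩, .ini ⟨1,0,0,0,0⟩ ⟨0,3,0,2,2⟩, .ini ⟨0,4,0,2,3⟩ ⟨1,0,0,0,0⟩, .ini ⟨0,4,0,2,3⟩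
  ⟨0,0,1,0,0⟩, .sr 137 158, .sr 136 167, .dia ⟨0,3,0,2,2⟩ 1 1, .sl 168 169, .ini ⟨0,1,0,0,0⟩
  ⟨0,2,0,1,2⟩, .ini ⟨0,1,0,0,1⟩ ⟨0,0,0,0,1⟩, .sr 172 158, .sl 125 125, .sl 173 174, .sl 171 175,
  .ini ⟨0,0,1,0,0⟩ ⟨0,4,0,2,3⟩, .ini ⟨0,0,1,0,0⟩ ⟨0,3,0,2,2⟩, .ini ⟨0,3,0,2,2⟩ ⟨1,0,0,0,0⟩, .sr 99
  100, .dl 180, .sl 123 181, .dl 182, .dr 183, .ini ⟨0,3,0,2,2⟩ ⟨0,0,1,0,0⟩, .sl 171 174, .dl 124,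
  .sr 187 160, .sr 187 188, .ini ⟨1,0,0,0,0⟩ ⟨0,4,0,3,2⟩, .sr 157 157, .sr 136 191, .sr 136 192,
  .sr 136 193, .sr 136 156, .sl 195 83, .dr 196, .sl 194 197, .ini ⟨0,0,1,0,0⟩ ⟨0,4,0,3,2⟩, .ini
  ⟨0,4,0,3,2⟩ ⟨1,0,0,0,0⟩, .sr 101 101, .sr 99 201, .sr 99 202, .sr 99 203, .sl 204 184, .ini
  ⟨0,4,0,3,2⟩ ⟨0,0,1,0,0⟩, .sr 97 102, .sr 99 207, .sr 83 162, .sl 208 209, .sl 168 210, .sr 96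
  202, .sr 99 212, .dl 196, .ini ⟨1,0,0,0,0⟩ ⟨0,2,0,1,1⟩, .ini ⟨1,0,0,0,0⟩ ⟨0,5,0,3,3⟩, .ini
  ⟨0,2,0,1,1⟩ ⟨1,0,0,0,0⟩, .ini ⟨0,2,0,1,1⟩ ⟨0,0,1,0,0⟩, .ini ⟨0,2,0,1,1⟩ ⟨0,0,0,0,1⟩, .dl 100,
  .sl 112 220, .dr 221, .dr 222, .sr 68 223, .sr 219 224, .ini ⟨0,0,1,0,0⟩ ⟨0,2,0,1,1⟩, .ini
  ⟨0,0,1,0,0⟩ ⟨0,5,0,3,3⟩, .ini ⟨0,5,0,3,3⟩ ⟨1,0,0,0,0⟩, .sl 112 100, .dr 229, .dl 230, .dl 231,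
  .ini ⟨0,5,0,3,3⟩ ⟨0,0,1,0,0⟩, .sr 172 193, .sl 234 205, .dl 183, .sr 236 198, .dl 195, .ini
  ⟨1,0,0,0,0⟩ ⟨0,2,0,1,0⟩, .ini ⟨0,2,0,1,0⟩ ⟨1,0,0,0,0⟩, .ini ⟨0,2,0,1,0⟩ ⟨0,0,1,0,0⟩, .ini
  ⟨0,1,0,0,0⟩ ⟨0,1,0,1,0⟩, .sl 242 97, .ini ⟨0,0,1,0,0⟩ ⟨0,2,0,1,0⟩, .ini ⟨1,0,0,0,0⟩ ⟨0,1,0,0,2⟩,
  .ini ⟨0,1,0,0,2⟩ ⟨1,0,0,0,0⟩, .ini ⟨0,1,0,0,2⟩ ⟨0,0,1,0,0⟩, .ini ⟨0,1,0,0,2⟩ ⟨0,0,0,0,1⟩, .ini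
  ⟨0,0,1,0,0⟩ ⟨0,1,0,0,2⟩, .sr 149 187, .dr 113, .ini ⟨1,0,0,0,0⟩ ⟨0,1,0,0,1⟩, .ini ⟨0,1,0,0,1⟩
  ⟨1,0,0,0,0⟩, .ini ⟨0,1,0,0,1⟩ ⟨0,0,1,0,0⟩, .sr 172 137, .ini ⟨0,0,1,0,0⟩ ⟨0,1,0,0,1⟩, .ini
  ⟨1,0,0,0,0⟩ ⟨0,5,0,2,2⟩, .ini ⟨1,0,0,0,0⟩ ⟨0,4,0,2,1⟩, .ini ⟨0,5,0,2,2⟩ ⟨1,0,0,0,0⟩, .ini
  ⟨0,5,0,2,2⟩ ⟨0,0,1,0,0⟩, .ini ⟨0,2,0,0,1⟩ ⟨0,0,0,1,0⟩, .dl 156, .sr 261 262, .sl 238 263, .sr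
  156 158, .dl 265, .sr 264 266, .sl 202 267, .ini ⟨0,1,0,0,0⟩ ⟨0,2,0,1,1⟩, .dia ⟨0,2,0,1,1⟩ 2 1,
  .sl 269 270, .ini ⟨0,0,1,0,0⟩ ⟨0,5,0,2,2⟩, .ini ⟨0,0,1,0,0⟩ ⟨0,4,0,2,1⟩, .ini ⟨0,4,0,2,1⟩
  ⟨1,0,0,0,0⟩, .ini ⟨0,4,0,2,1⟩ ⟨0,0,0,0,1⟩, .ini ⟨0,2,0,1,0⟩ ⟨0,0,0,0,1⟩, .sr 276 220, .sl 181
  277, .sr 262 262, .sr 261 279, .sl 101 280, .sr 281 281, .sl 201 282, .sr 278 283, .sr 275 284,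
  .ini ⟨0,4,0,2,1⟩ ⟨0,0,1,0,0⟩, .ini ⟨1,0,0,0,0⟩ ⟨0,3,0,1,1⟩, .ini ⟨0,3,0,1,1⟩ ⟨1,0,0,0,0⟩, .ini
  ⟨0,3,0,1,1⟩ ⟨0,0,1,0,0⟩, .ini ⟨0,3,0,1,1⟩ ⟨0,0,0,0,1⟩, .sr 290 282, .ini ⟨0,0,1,0,0⟩
  ⟨0,3,0,1,1⟩, .dia ⟨0,2,0,1,0⟩ 1 1, .sr 276 293, .sr 220 294, .dia ⟨0,2,0,1,0⟩ 1 2, .sr 276 296,
  .sr 100 102, .dl 298]

def s23_00_02_02_1 : List Step := [
.sl 101 281, .ini ⟨1,0,0,0,0⟩ ⟨0,4,0,1,2⟩, .ini ⟨0,4,0,1,2⟩ ⟨1,0,0,0,0⟩, .ini ⟨0,4,0,1,2⟩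
  ⟨0,0,1,0,0⟩, .ini ⟨0,0,1,0,0⟩ ⟨0,4,0,1,2⟩, .dl 221, .dr 305, .sr 290 306, .sr 278 299, .ini
  ⟨0,1,0,0,0⟩ ⟨0,1,0,0,1⟩, .sl 309 187, .sl 309 310, .ini ⟨1,0,0,0,0⟩ ⟨0,2,0,0,1⟩, .ini
  ⟨0,2,0,0,1⟩ ⟨1,0,0,0,0⟩, .ini ⟨0,2,0,0,1⟩ ⟨0,0,1,0,0⟩, .sl 309 137, .ini ⟨0,0,1,0,0⟩
  ⟨0,2,0,0,1⟩, .sr 220 220, .sr 276 317, .ini ⟨1,0,0,0,0⟩ ⟨0,1,0,0,0⟩, .ini ⟨0,1,0,0,0⟩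
  ⟨1,0,0,0,0⟩, .ini ⟨0,1,0,0,0⟩ ⟨0,0,1,0,0⟩, .ini ⟨0,1,0,0,0⟩ ⟨0,2,0,1,0⟩, .ini ⟨0,1,0,0,0⟩
  ⟨0,2,0,0,1⟩, .ini ⟨0,0,1,0,0⟩ ⟨0,1,0,0,0⟩]

def t23_00_02_02 : Tree :=
(.split 1 3 (.split 1 3 (.leaf [0,4,2,3,1] [0,1,2,3,4,5,6,7,8,9,10,11,14,15,16,17,18,19]) (.split
  1 4 (.split 3 4 (.split 1 4 (.leaf [0,1,2,4,3]
  [20,1,21,3,22,23,28,29,7,30,31,10,32,36,37,17,38,18]) (.leaf [0,1,2,3,4]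
  [39,1,21,20,40,41,44,46,7,47,31,30,32,35,37,36,22,27,23,28])) (.split 3 4 (.leaf [0,1,2,3,4]
  [39,1,48,21,40,41,52,44,7,47,53,31,54,65,66,74,32,35,37,77]) (.leaf [0,3,2,1,4]
  [39,1,0,48,40,41,52,7,47,8,53,4,5,81,54,65,66,86]))) (.split 1 4 (.leaf [0,1,2,4,3]
  [87,1,0,39,88,89,84,90,7,91,8,47,4,92,5,40,50,41]) (.leaf [0,1,2,3,4]
  [93,1,0,87,94,95,98,103,7,104,8,91,4,59,5,92,88,83,89,84])))) (.split 1 3 (.split 1 4 (.split 1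
  4 (.split 3 4 (.split 1 4 (.split 1 4 (.leaf [0,1,2,4,3]
  [105,1,39,3,106,107,120,121,7,122,47,10,40,127,41,17,132,18]) (.leaf [0,1,2,3,4]
  [133,1,39,105,134,135,139,142,7,143,47,122,40,126,41,127,106,144,107,120])) (.leaf [0,1,2,3,4]
  [145,1,39,133,146,147,148,151,7,152,47,143,40,125,41,126,134,155,135,139])) (.split 3 4 (.leaf
  [0,1,2,3,4] [145,1,87,39,146,147,160,148,7,152,91,47,88,162,89,90,40,125,41,50]) (.leaf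
  [0,3,2,1,4] [145,1,93,87,146,147,160,7,152,104,91,94,95,103,88,162,89,83]))) (.split 1 4 (.split
  3 4 (.leaf [0,1,2,3,4]
  [163,1,164,145,165,166,170,176,7,177,178,152,179,184,185,186,146,189,147,188]) (.split 3 4
  (.leaf [0,1,2,3,4]
  [163,1,190,164,165,166,198,170,7,177,199,178,200,205,206,211,179,184,185,197]) (.leaf
  [0,3,2,1,4] [163,1,93,190,165,166,198,7,177,104,199,94,95,213,200,205,206,214]))) (.split 3 4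
  (.leaf [0,4,2,3,1] [215,1,216,163,217,218,225,7,226,227,177,228,232,233,235,165,166,237]) (.leaf
  [0,1,2,4,3] [215,1,93,216,217,218,238,225,7,226,104,227,94,102,95,228,232,233])))) (.leaf
  [0,4,2,3,1] [239,1,93,215,240,241,243,7,244,104,226,94,101,95,102,217,218,238])) (.split 1 4
  (.split 3 4 (.split 3 4 (.split 1 4 (.leaf [0,1,2,4,3]
  [245,1,145,3,246,247,154,248,7,249,152,10,146,250,147,17,251,18]) (.leaf [0,1,2,3,4]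
  [252,1,145,245,253,254,173,255,7,256,152,249,146,187,147,250,246,114,247,154])) (.leaf
  [0,1,2,4,3] [252,1,215,145,253,254,158,173,7,256,226,152,217,181,218,146,187,147])) (.split 3 4
  (.split 1 3 (.leaf [0,1,2,4,3]
  [257,1,258,215,259,260,268,271,7,272,273,226,274,285,286,217,223,218]) (.leaf [0,3,2,1,4]
  [252,1,257,215,253,254,158,7,256,272,226,259,260,271,217,181,218,223])) (.split 1 3 (.leaf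
  [0,1,2,3,4] [287,1,239,258,288,289,281,291,7,292,244,273,240,295,241,297,274,299,286,300])
  (.split 1 3 (.leaf [0,1,2,3,4]
  [301,1,287,258,302,303,266,267,7,304,292,273,288,307,289,291,274,308,286,299]) (.leaf
  [0,4,2,3,1] [252,1,301,258,253,254,192,7,256,304,273,302,311,303,267,274,286,308]))))) (.split 1
  4 (.leaf [0,1,2,4,3] [312,1,239,252,313,314,280,315,7,316,244,256,240,318,241,253,157,254])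
  (.leaf [0,1,2,3,4]
  [319,1,239,312,320,321,322,323,7,324,244,316,240,220,241,318,313,262,314,280])))))

def c23_00_02_02 : Cert 2 3 where
  T := [[0, 0], [0, 2], [0, 2]]
  W := ⟨0, 0, 0, 0, 0, 2, 2⟩
  hW := rfl
  steps := s23_00_02_02_0 ++ s23_00_02_02_1
  tree := t23_00_02_02
  ok := by decide +kernel

def s23_10_10_20_0 : List Step := [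
.ini ⟨1,0,1,1,0⟩ ⟨0,1,0,0,0⟩, .ini ⟨1,0,1,1,0⟩ ⟨0,0,1,0,0⟩, .ini ⟨1,0,1,1,0⟩ ⟨0,0,0,1,0⟩, .ini
  ⟨0,1,0,0,0⟩ ⟨1,0,1,1,0⟩, .ini ⟨0,1,0,0,0⟩ ⟨0,0,1,0,0⟩, .ini ⟨0,1,0,0,0⟩ ⟨0,0,0,1,0⟩, .ini
  ⟨0,1,0,0,0⟩ ⟨0,0,0,0,1⟩, .ini ⟨0,0,1,0,0⟩ ⟨0,0,0,1,0⟩, .ini ⟨0,0,1,0,0⟩ ⟨1,0,0,0,0⟩, .dr 8, .sr
  7 9, .ini ⟨0,0,1,0,0⟩ ⟨0,1,0,0,0⟩, .ini ⟨0,0,1,0,0⟩ ⟨0,0,0,0,1⟩, .ini ⟨0,0,0,1,0⟩ ⟨1,0,1,0,0⟩,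
  .dr 13, .ini ⟨0,0,0,1,0⟩ ⟨0,1,0,0,0⟩, .ini ⟨0,0,0,1,0⟩ ⟨0,0,1,0,0⟩, .ini ⟨0,0,0,1,0⟩
  ⟨0,0,0,0,1⟩, .ini ⟨0,0,0,0,1⟩ ⟨0,1,0,0,0⟩, .ini ⟨0,0,0,0,1⟩ ⟨0,0,1,0,0⟩, .ini ⟨0,0,0,0,1⟩
  ⟨0,0,0,1,0⟩, .ini ⟨1,0,1,0,2⟩ ⟨0,1,0,0,0⟩, .ini ⟨1,0,1,0,2⟩ ⟨0,0,1,0,0⟩, .ini ⟨1,0,1,0,2⟩
  ⟨0,0,0,1,0⟩, .ini ⟨0,0,0,0,1⟩ ⟨1,0,1,0,0⟩, .dr 24, .dl 25, .sr 23 26, .ini ⟨1,0,1,0,2⟩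
  ⟨0,0,0,0,1⟩, .ini ⟨0,1,0,0,0⟩ ⟨1,0,1,0,2⟩, .ini ⟨0,1,0,0,0⟩ ⟨1,0,1,1,1⟩, .sr 12 9, .sr 12 31,
  .sr 7 31, .ini ⟨1,0,0,1,1⟩ ⟨0,0,0,0,1⟩, .ini ⟨1,0,0,1,1⟩ ⟨0,0,1,0,0⟩, .ini ⟨0,0,0,1,0⟩
  ⟨1,0,0,0,1⟩, .dl 36, .sr 35 37, .sr 34 38, .sl 32 39, .ini ⟨1,0,1,1,1⟩ ⟨0,1,0,0,0⟩, .ini
  ⟨1,0,1,1,1⟩ ⟨0,0,1,0,0⟩, .dr 25, .ini ⟨1,0,1,0,1⟩ ⟨0,1,0,0,0⟩, .ini ⟨1,0,1,0,1⟩ ⟨0,0,1,0,0⟩,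
  .ini ⟨1,0,1,0,1⟩ ⟨0,0,0,1,0⟩, .dia ⟨1,0,1,0,1⟩ 1 1, .sr 46 47, .ini ⟨1,0,1,0,1⟩ ⟨0,0,0,0,1⟩, .sr
  49 47, .ini ⟨0,1,0,0,0⟩ ⟨1,0,1,0,1⟩, .ini ⟨0,0,0,1,0⟩ ⟨1,0,1,0,1⟩, .dl 52, .dl 24, .sr 46 54,
  .dr 55, .sr 46 56, .ini ⟨0,1,0,0,0⟩ ⟨2,0,2,2,1⟩, .ini ⟨0,0,1,0,0⟩ ⟨0,0,0,2,0⟩, .sr 9 9, .sr 59
  60, .sr 12 61, .ini ⟨1,0,0,1,0⟩ ⟨0,0,0,0,1⟩, .ini ⟨1,0,0,1,0⟩ ⟨0,0,1,0,0⟩, .ini ⟨0,0,0,1,0⟩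
  ⟨1,0,0,0,0⟩, .dl 65, .sr 64 66, .sr 63 67, .sl 68 53, .sl 31 69, .ini ⟨2,0,2,2,1⟩ ⟨0,1,0,0,0⟩,
  .ini ⟨2,0,2,2,1⟩ ⟨0,0,1,0,0⟩, .dr 52, .ini ⟨2,0,0,0,1⟩ ⟨0,0,0,1,0⟩, .ini ⟨1,0,0,0,0⟩
  ⟨1,0,1,0,1⟩, .ini ⟨1,0,0,0,1⟩ ⟨0,0,1,0,0⟩, .dia ⟨1,0,0,0,1⟩ 1 1, .sr 76 77, .sl 75 78, .sr 74
  79, .sl 33 80, .sl 73 81, .sl 33 82, .sl 73 83, .sl 14 55, .dr 85, .ini ⟨1,0,1,1,0⟩ ⟨0,0,0,0,1⟩,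
  .dia ⟨1,0,1,1,0⟩ 1 2, .sr 87 88, .ini ⟨2,0,1,0,1⟩ ⟨0,0,0,1,0⟩, .ini ⟨0,0,0,0,1⟩ ⟨1,0,0,0,0⟩, .dl
  91, .sr 76 92, .dl 93, .sr 90 94, .sl 14 95, .sl 10 96, .sl 14 97, .ini ⟨2,0,2,0,1⟩ ⟨0,1,0,0,0⟩,
  .ini ⟨2,0,2,0,1⟩ ⟨0,0,1,0,0⟩, .sl 10 95, .sl 31 79, .sl 31 102, .ini ⟨0,1,0,0,0⟩ ⟨2,0,2,0,1⟩,
  .sr 12 60, .dl 13, .sr 106 106, .sr 87 107, .dr 54, .ini ⟨1,0,1,0,0⟩ ⟨0,1,0,0,0⟩, .ini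
  ⟨1,0,1,0,0⟩ ⟨0,0,1,0,0⟩, .ini ⟨1,0,1,0,0⟩ ⟨0,0,0,1,0⟩, .dia ⟨1,0,1,0,0⟩ 1 1, .sr 112 113, .ini
  ⟨1,0,1,0,0⟩ ⟨0,0,0,0,1⟩, .dia ⟨1,0,1,0,0⟩ 1 2, .sr 115 116, .ini ⟨0,1,0,0,0⟩ ⟨1,0,1,0,0⟩, .sl 9
  94, .ini ⟨1,0,0,1,2⟩ ⟨0,1,0,0,0⟩, .ini ⟨1,0,0,1,2⟩ ⟨0,0,1,0,0⟩, .ini ⟨0,0,0,0,1⟩ ⟨1,0,0,1,0⟩,
  .dr 122, .dl 123, .sr 121 124, .ini ⟨1,0,0,1,2⟩ ⟨0,0,0,1,0⟩, .ini ⟨1,0,0,1,2⟩ ⟨0,0,0,0,1⟩, .ini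
  ⟨0,1,0,0,0⟩ ⟨1,0,0,1,2⟩, .dr 65, .sr 17 129, .sr 17 130, .dr 91, .dr 132, .dl 8, .sr 115 134,
  .sr 115 135, .sl 133 136, .sr 46 137, .sl 131 138, .ini ⟨1,0,1,1,1⟩ ⟨0,0,0,1,0⟩, .dr 123, .sl 43
  39, .sl 133 137, .sr 23 143, .ini ⟨1,0,0,1,1⟩ ⟨0,1,0,0,0⟩, .ini ⟨1,0,0,1,1⟩ ⟨0,0,0,1,0⟩, .sr 146
  38, .dia ⟨1,0,0,1,1⟩ 1 1, .sr 34 148, .ini ⟨0,1,0,0,0⟩ ⟨1,0,0,1,1⟩, .ini ⟨0,0,1,0,0⟩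
  ⟨1,0,0,1,1⟩, .dl 151, .ini ⟨0,0,1,0,0⟩ ⟨1,0,0,0,1⟩, .dl 153, .sr 46 154, .dl 122, .sr 35 156,
  .dr 157, .sr 35 158, .sr 112 134, .sr 115 160, .sl 161 152, .sl 130 162, .ini ⟨2,0,2,2,1⟩
  ⟨0,0,0,1,0⟩, .ini ⟨0,0,0,1,0⟩ ⟨0,0,2,0,0⟩, .sr 129 129, .sr 165 166, .sr 17 167, .ini
  ⟨0,1,0,0,0⟩ ⟨2,0,2,1,1⟩, .ini ⟨2,0,2,1,1⟩ ⟨0,1,0,0,0⟩, .ini ⟨2,0,2,1,1⟩ ⟨0,0,0,0,1⟩, .sr 97 97,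
  .sr 171 172, .sl 75 38, .sl 31 174, .sl 31 175, .sr 65 14, .sr 17 177, .sr 16 178, .dl 179, .ini
  ⟨2,0,1,2,1⟩ ⟨0,1,0,0,0⟩, .sl 14 96, .ini ⟨2,0,1,2,1⟩ ⟨0,0,0,1,0⟩, .ini ⟨2,0,1,2,1⟩ ⟨0,0,1,0,0⟩,
  .dl 178, .sr 184 185, .ini ⟨0,1,0,0,0⟩ ⟨2,0,1,2,1⟩, .sl 65 134, .dr 188, .sr 87 189, .sr 2 190,
  .sr 1 190, .dr 178, .ini ⟨2,0,2,1,1⟩ ⟨0,0,0,1,0⟩, .sr 8 10, .sr 12 195, .dl 196, .sr 194 197,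
  .ini ⟨1,0,0,0,1⟩ ⟨0,0,0,1,0⟩, .sr 199 77, .sl 200 161, .sl 130 201, .sl 130 202, .ini
  ⟨2,0,1,2,1⟩ ⟨0,0,0,0,1⟩, .sr 182 182, .sr 204 205, .sl 193 198, .ini ⟨2,0,1,1,1⟩ ⟨0,1,0,0,0⟩,
  .dr 92, .sr 76 209, .sr 76 210, .ini ⟨2,0,0,2,0⟩ ⟨0,0,0,0,1⟩, .ini ⟨2,0,0,2,0⟩ ⟨0,0,2,0,0⟩, .sr
  66 66, .sl 214 214, .sr 213 215, .sr 212 216, .sl 211 217, .sl 211 218, .sl 105 219, .sl 105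
  220, .hl 221 2 ⟨2,0,1,1,1⟩, .ini ⟨2,0,1,1,1⟩ ⟨0,0,1,0,0⟩, .dia ⟨2,0,1,1,1⟩ 1 1, .sr 223 224,
  .ini ⟨0,1,0,0,0⟩ ⟨2,0,1,1,1⟩, .ini ⟨2,0,2,0,1⟩ ⟨0,0,0,2,0⟩, .sl 135 154, .sr 94 94, .sl 60 229,
  .sr 228 230, .sr 228 231, .sr 227 232, .hr 233 2 ⟨2,0,1,1,1⟩, .dr 196, .ini ⟨2,0,1,0,1⟩
  ⟨0,0,1,0,0⟩, .dia ⟨2,0,1,0,1⟩ 1 1, .sr 90 237, .sr 236 238, .sl 235 239, .ini ⟨0,0,2,0,0⟩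
  ⟨0,0,0,0,1⟩, .sl 9 9, .sr 242 242, .sr 241 243, .ini ⟨2,0,0,1,1⟩ ⟨0,0,1,0,0⟩, .sr 63 214, .sl
  209 246, .sr 245 247, .sr 245 248, .sl 244 249, .ini ⟨3,0,1,2,2⟩ ⟨0,1,0,0,0⟩, .sl 36 135, .dl
  252, .sl 36 253, .dl 254, .sr 199 210, .sr 76 256, .ini ⟨2,0,0,2,1⟩ ⟨0,0,2,0,0⟩, .ini
  ⟨0,0,0,1,0⟩ ⟨2,0,0,0,1⟩, .dr 259, .dl 260, .sr 258 261, .sl 257 262, .sl 235 263, .sr 255 264,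
  .ini ⟨0,1,0,0,0⟩ ⟨3,0,1,2,2⟩, .ini ⟨0,1,0,0,0⟩ ⟨3,0,2,1,2⟩, .sr 77 210, .sr 199 268, .sr 199
  269, .sr 162 197, .sl 270 271, .ini ⟨3,0,2,1,2⟩ ⟨0,1,0,0,0⟩, .ini ⟨2,0,0,1,1⟩ ⟨0,0,0,1,0⟩, .sr
  274 248, .sr 245 275, .sl 257 276, .sl 235 277, .sl 235 278, .sl 78 174, .sl 31 280, .sl 31 281,
  .sl 153 253, .dr 283, .sr 154 109, .sr 46 285, .sl 256 185, .ini ⟨2,0,1,1,1⟩ ⟨0,0,0,0,1⟩, .sr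
  199 92, .sl 289 160, .sl 129 290, .dr 291, .sr 288 292, .sl 13 94, .dr 294, .sr 288 295, .sl 256
  197, .dr 156, .sr 37 298]

def s23_10_10_20_1 : List Step := [
.sr 35 299, .sl 200 201, .sl 130 301, .sl 130 302, .dr 254, .sr 199 256, .sr 90 238, .sl 305 306,
  .sl 193 307, .sl 193 308, .ini ⟨2,0,0,2,1⟩ ⟨0,1,0,0,0⟩, .dl 289, .sr 245 311, .sl 14 312, .ini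
  ⟨2,0,0,2,1⟩ ⟨0,0,0,1,0⟩, .ini ⟨1,0,0,0,0⟩ ⟨1,0,0,1,1⟩, .sl 315 200, .sl 130 316, .sl 130 317,
  .ini ⟨0,1,0,0,0⟩ ⟨2,0,0,2,1⟩, .sl 129 160, .sr 320 320, .sr 87 321, .sr 17 166, .ini ⟨2,0,0,2,1⟩
  ⟨0,0,1,0,0⟩, .sr 63 66, .sl 325 37, .sr 311 311, .sl 166 327, .sr 326 328, .sr 326 329, .sr 324
  330, .sr 324 331, .hr 332 2 ⟨2,0,1,1,1⟩, .sr 274 275, .sl 193 334, .ini ⟨0,0,0,2,0⟩ ⟨0,0,0,0,1⟩,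
  .sl 129 129, .sr 337 337, .sr 336 338, .sr 199 209, .sr 199 340, .ini ⟨2,0,2,0,0⟩ ⟨0,0,0,0,1⟩,
  .ini ⟨1,0,1,0,0⟩ ⟨0,0,0,2,0⟩, .sr 134 134, .sr 343 344, .sl 345 345, .sr 342 346, .sl 341 347,
  .sl 341 348, .sl 339 349, .hl 350 2 ⟨2,0,1,1,1⟩, .ini ⟨2,0,1,1,1⟩ ⟨0,0,0,1,0⟩, .sr 352 224, .sr
  115 344, .sr 112 354, .sl 340 355, .sr 90 356, .sl 339 357, .ini ⟨3,0,1,2,1⟩ ⟨0,1,0,0,0⟩, .dl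
  290, .sl 129 360, .sl 105 218, .sr 361 362, .ini ⟨1,0,0,0,0⟩ ⟨1,0,1,1,0⟩, .sl 364 96, .sl 14
  365, .ini ⟨1,0,0,0,0⟩ ⟨2,0,1,1,1⟩, .sl 367 185, .ini ⟨0,1,0,0,0⟩ ⟨3,0,1,2,1⟩, .ini ⟨0,1,0,0,0⟩
  ⟨3,0,2,1,1⟩, .sr 134 114, .sr 160 371, .sr 115 372, .sl 373 292, .ini ⟨3,0,2,1,1⟩ ⟨0,1,0,0,0⟩,
  .sl 364 101, .sl 14 376, .sl 367 197, .sr 320 189, .sr 87 379, .sr 320 107, .sr 87 381, .sr 160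
  116, .sr 115 383, .sl 67 94, .sl 9 385, .sr 324 329, .ini ⟨3,0,1,1,1⟩ ⟨0,0,0,0,1⟩, .sr 360 360,
  .sr 388 389, .sl 323 390, .ini ⟨1,0,0,1,0⟩ ⟨0,1,0,0,0⟩, .ini ⟨1,0,0,1,0⟩ ⟨0,0,0,1,0⟩, .sr 393
  67, .dia ⟨1,0,0,1,0⟩ 1 2, .sr 63 395, .ini ⟨0,1,0,0,0⟩ ⟨1,0,0,1,0⟩, .sl 129 311, .ini
  ⟨1,0,0,0,2⟩ ⟨0,1,0,0,0⟩, .ini ⟨1,0,0,0,2⟩ ⟨0,0,0,0,1⟩, .ini ⟨1,0,0,0,2⟩ ⟨0,0,1,0,0⟩, .dl 132,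
  .sr 401 402, .sr 400 403, .ini ⟨1,0,0,0,2⟩ ⟨0,0,0,1,0⟩, .sr 405 402, .sr 400 406, .ini
  ⟨0,1,0,0,0⟩ ⟨1,0,0,0,2⟩, .sr 63 325, .sl 133 409, .sl 133 410, .ini ⟨1,0,0,0,1⟩ ⟨0,1,0,0,0⟩,
  .ini ⟨1,0,0,0,1⟩ ⟨0,0,0,0,1⟩, .sr 413 77, .ini ⟨0,1,0,0,0⟩ ⟨1,0,0,0,1⟩, .ini ⟨2,0,0,1,1⟩
  ⟨0,1,0,0,0⟩, .sr 311 248, .sr 274 417, .ini ⟨2,0,0,1,1⟩ ⟨0,0,0,0,1⟩, .sr 419 327, .ini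
  ⟨0,1,0,0,0⟩ ⟨2,0,0,1,1⟩, .sl 355 261, .sr 393 246, .dia ⟨1,0,0,1,0⟩ 1 1, .sr 66 394, .sr 424
  425, .sr 63 426, .ini ⟨1,0,0,0,0⟩ ⟨1,0,0,0,1⟩, .sl 428 37, .sr 76 268, .sr 199 430, .dl 283,
  .ini ⟨5,0,2,2,2⟩ ⟨0,1,0,0,0⟩, .ini ⟨1,0,0,0,0⟩ ⟨3,0,2,1,1⟩, .sl 295 295, .sl 434 435, .ini
  ⟨1,0,0,0,0⟩ ⟨3,0,1,2,1⟩, .sl 292 292, .sl 437 438, .dia ⟨2,0,1,1,1⟩ 2 1, .sl 367 440, .ini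
  ⟨0,1,0,0,0⟩ ⟨5,0,2,2,2⟩, .sl 325 228, .sl 160 160, .sl 289 444, .sl 129 445, .dr 446, .sr 443
  447, .sl 325 253, .sr 361 363, .sr 449 450, .dl 188, .sl 91 452, .dr 453, .dr 454, .sr 248 248,
  .sr 311 456, .sr 274 457, .sl 355 422, .sl 340 459, .sr 311 417, .sr 245 461, .ini ⟨0,1,0,0,0⟩
  ⟨4,0,2,2,1⟩, .ini ⟨4,0,2,2,1⟩ ⟨0,1,0,0,0⟩, .dl 445, .sl 129 465, .sl 380 292, .sl 437 467, .ini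
  ⟨1,0,0,1,0⟩ ⟨0,0,2,0,0⟩, .sr 469 214, .sr 424 470, .sr 424 471, .sr 63 472, .sl 382 295, .sl 434
  474, .ini ⟨4,0,2,1,2⟩ ⟨0,1,0,0,0⟩, .sr 92 211, .sr 199 477, .dl 478, .sr 64 246, .ini
  ⟨0,0,1,0,0⟩ ⟨2,0,0,0,1⟩, .dr 481, .dl 482, .sl 480 483, .sl 210 484, .dr 290, .sr 90 486, .sl
  487 292, .sr 485 488, .sl 367 297, .ini ⟨0,1,0,0,0⟩ ⟨4,0,2,1,2⟩, .ini ⟨3,0,2,1,1⟩ ⟨0,0,0,1,0⟩,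
  .sr 63 470, .sr 66 493, .sl 494 231, .sr 443 495, .sr 492 496, .ini ⟨1,0,0,0,0⟩ ⟨4,0,2,1,2⟩, .sl
  36 443, .dl 499, .sr 500 435, .sl 498 501, .sr 253 295, .dr 477, .sr 199 504, .sl 428 432, .ini
  ⟨2,0,2,0,1⟩ ⟨0,0,0,1,0⟩, .sr 507 231, .sr 385 385, .sr 388 509, .sl 105 510, .ini ⟨2,0,1,0,1⟩
  ⟨0,1,0,0,0⟩, .sl 428 154, .sr 513 229, .sr 90 514, .ini ⟨2,0,1,0,1⟩ ⟨0,0,0,0,1⟩, .sr 516 229,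
  .ini ⟨0,1,0,0,0⟩ ⟨2,0,1,0,1⟩, .sr 111 354, .sr 94 486, .sr 90 520, .sr 160 383, .sr 115 522, .sl
  480 484, .sl 67 385, .sl 9 525, .sl 210 524, .sr 513 520, .sr 90 528, .ini ⟨1,0,0,0,0⟩
  ⟨2,0,2,0,1⟩, .sl 211 249, .sl 105 531, .sl 530 532, .sl 105 533, .sr 516 520, .sr 507 232, .ini
  ⟨2,0,0,0,1⟩ ⟨0,1,0,0,0⟩, .ini ⟨2,0,0,0,1⟩ ⟨0,0,1,0,0⟩, .dia ⟨2,0,0,0,1⟩ 1 1, .sr 538 539, .sr 74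
  539, .sl 428 77, .ini ⟨0,1,0,0,0⟩ ⟨2,0,0,0,1⟩, .sl 209 354, .dl 92, .sr 74 545, .sr 538 545,
  .ini ⟨1,0,0,0,0⟩ ⟨0,1,0,0,0⟩, .ini ⟨1,0,0,0,0⟩ ⟨1,0,1,0,0⟩, .ini ⟨1,0,0,0,0⟩ ⟨1,0,0,1,0⟩, .ini
  ⟨1,0,0,0,0⟩ ⟨2,0,0,0,1⟩, .ini ⟨0,1,0,0,0⟩ ⟨1,0,0,0,0⟩]

def t23_10_10_20 : Tree :=
(.split 0 2 (.split 0 3 (.leaf [4,1,2,3,0] [0,1,2,3,4,5,6,10,11,7,12,14,15,16,17,18,19,20])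
  (.split 0 4 (.split 3 4 (.split 0 4 (.leaf [0,1,2,4,3]
  [21,22,27,28,29,4,30,6,32,11,33,12,40,41,42,43,18,19]) (.leaf [0,1,2,3,4]
  [44,45,48,50,51,4,30,29,31,11,33,32,53,41,42,40,26,21,22,27])) (.split 3 4 (.leaf [0,1,2,3,4]
  [44,45,57,48,51,4,58,30,31,11,62,33,70,71,72,84,53,41,42,86]) (.leaf [3,1,2,0,4]
  [44,45,57,51,4,3,58,31,11,10,62,0,1,89,70,71,72,98]))) (.split 0 4 (.leaf [0,1,2,4,3]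
  [99,100,101,103,104,4,3,51,105,11,10,31,108,0,1,109,44,45]) (.leaf [0,1,2,3,4]
  [110,111,114,117,118,4,3,104,9,11,10,105,106,0,1,108,119,99,100,101])))) (.split 0 3 (.split 0 4
  (.split 2 4 (.split 0 4 (.split 2 3 (.leaf [0,1,4,3,2]
  [120,125,126,127,128,30,5,6,139,41,140,131,15,73,17,141,18,20]) (.split 2 4 (.leaf [0,1,2,4,3]
  [120,142,125,127,128,29,30,6,144,21,27,28,139,41,40,141,18,43]) (.leaf [2,1,0,3,4]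
  [120,125,142,128,51,30,29,44,48,50,139,41,53,40,144,21,26,27]))) (.split 2 3 (.leaf [0,1,2,3,4]
  [145,147,146,149,150,30,5,128,152,41,140,139,130,15,73,131,124,120,125,126]) (.leaf [0,1,4,3,2]
  [145,38,147,149,150,51,30,128,155,44,48,152,41,53,139,124,120,125]))) (.split 2 3 (.split 2 4
  (.split 2 3 (.leaf [0,1,2,4,3] [145,159,146,38,150,58,5,51,163,71,164,70,130,15,168,155,44,57])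
  (.leaf [2,1,0,3,4] [145,159,38,150,169,58,51,170,173,176,163,71,180,70,155,44,56,57])) (.split 0
  2 (.leaf [0,1,2,4,3] [181,182,183,186,187,3,5,169,191,0,2,192,193,15,14,198,170,97]) (.split 3 4
  (.leaf [4,1,2,3,0] [145,158,159,150,187,58,169,203,181,206,186,163,71,207,180,170,198,173])
  (.leaf [0,1,2,3,4]
  [145,158,146,159,150,187,5,58,203,181,183,206,130,15,193,168,163,71,207,164])))) (.split 0 2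
  (.split 2 4 (.split 3 4 (.leaf [4,1,2,3,0]
  [208,222,225,226,104,169,51,234,99,240,103,197,170,250,176,44,109,56]) (.leaf [0,1,2,3,4]
  [208,222,96,225,226,104,3,169,234,99,101,240,190,0,108,192,197,170,250,97])) (.leaf [2,1,0,3,4]
  [208,96,222,226,118,3,104,110,114,117,190,0,106,108,234,99,119,101])) (.split 0 2 (.split 3 4
  (.split 2 4 (.leaf [4,1,2,3,0]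
  [251,265,264,266,267,169,51,272,273,279,282,271,170,284,176,44,286,56]) (.leaf [0,1,2,3,4]
  [251,287,264,265,266,226,169,267,293,208,225,296,271,170,197,284,272,273,297,279])) (.leaf
  [3,1,2,0,4] [251,287,264,266,226,3,169,293,208,96,225,0,190,192,271,170,197,97])) (.split 3 4
  (.leaf [3,1,4,0,2] [145,300,38,150,266,169,51,303,251,264,170,271,176,155,44,56]) (.split 0 3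
  (.leaf [0,1,3,2,4] [181,304,182,186,187,266,3,169,309,251,264,191,0,192,198,170,271,97]) (.leaf
  [4,1,2,3,0] [145,300,158,150,266,187,169,303,251,309,264,203,181,304,186,170,271,198])))))))
  (.split 0 4 (.split 2 3 (.leaf [0,1,4,3,2]
  [310,313,314,318,319,3,5,150,322,0,2,323,15,14,130,298,145,146]) (.split 2 4 (.split 3 4 (.leaf
  [0,1,4,3,2] [310,333,335,318,319,226,187,150,351,208,353,358,181,185,203,298,145,158]) (.leaf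
  [0,1,2,3,4] [310,333,313,335,319,226,3,187,351,208,96,353,322,0,190,191,358,181,185,182]))
  (.split 0 2 (.split 2 4 (.leaf [0,1,2,3,4]
  [359,363,366,368,369,370,3,226,374,375,377,378,380,0,382,190,292,208,295,96]) (.leaf [2,1,0,3,4]
  [359,366,363,369,118,3,370,110,114,384,380,0,106,382,374,375,386,377])) (.leaf [0,1,2,3,4]
  [310,387,313,333,319,369,3,226,391,359,366,368,322,0,380,190,351,208,292,96])))) (.split 2 3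
  (.leaf [0,1,2,3,4] [392,394,393,396,397,3,5,319,320,0,2,322,129,15,14,323,398,310,313,314])
  (.leaf [0,1,4,3,2] [392,67,394,396,397,118,3,319,160,110,114,320,0,106,322,398,310,313]))))
  (.split 0 4 (.split 2 4 (.split 3 4 (.split 0 4 (.split 2 4 (.split 3 4 (.leaf [0,1,2,3,4]
  [399,404,407,400,408,29,128,6,143,21,144,28,411,120,142,127,133,18,43,141]) (.leaf [0,1,3,2,4]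
  [399,404,406,407,408,29,150,128,143,21,144,410,145,149,411,120,142,124])) (.leaf [0,1,2,4,3]
  [399,403,406,404,408,51,150,29,137,44,155,50,410,145,38,143,21,26])) (.leaf [0,1,2,3,4]
  [412,78,200,414,415,51,150,408,154,44,155,137,37,145,38,410,402,399,403,406])) (.split 2 3
  (.split 3 4 (.leaf [0,1,4,3,2]
  [412,256,341,200,415,226,319,150,253,208,351,326,310,333,318,37,145,298]) (.split 0 3 (.split 2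
  3 (.leaf [0,1,2,3,4]
  [416,418,311,420,421,369,397,319,422,359,361,391,423,392,427,396,261,310,387,398]) (.leaf
  [2,1,0,3,4] [416,418,420,421,226,369,319,208,292,351,422,359,368,391,261,310,333,387])) (.leaf
  [0,1,3,2,4] [412,256,340,341,415,226,421,319,253,208,351,429,416,420,326,310,333,261]))) (.split
  2 3 (.split 3 4 (.leaf [0,1,4,3,2]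
  [412,431,270,200,415,267,266,150,432,273,272,255,251,265,303,37,145,300]) (.leaf [0,1,2,3,4]
  [412,431,256,270,415,267,226,266,432,273,297,272,253,208,296,293,255,251,265,287])) (.leaf
  [0,1,2,4,3] [412,78,431,200,415,51,267,150,154,44,286,155,432,273,282,37,145,38])))) (.split 2 4
  (.split 3 4 (.leaf [0,1,2,4,3]
  [412,211,256,78,415,104,226,51,228,99,234,103,253,208,222,154,44,109]) (.split 2 3 (.split 0 3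
  (.split 3 4 (.split 0 2 (.leaf [0,1,2,3,4]
  [433,436,439,441,442,370,369,226,448,375,374,378,451,359,363,368,455,208,295,292]) (.leaf
  [4,1,2,3,0] [416,458,418,421,442,369,226,460,433,439,441,422,359,451,368,208,455,292])) (.split
  2 3 (.leaf [0,1,2,3,4]
  [416,462,311,418,421,463,397,369,459,464,466,468,423,392,473,427,422,359,450,361]) (.leaf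
  [2,1,0,3,4] [416,462,418,421,370,463,369,375,447,374,459,464,475,468,422,359,363,450]))) (.split
  2 3 (.leaf [2,1,0,4,3] [412,340,256,415,442,421,226,433,460,441,429,416,458,253,208,455])
  (.split 0 2 (.leaf [0,1,2,3,4]
  [476,479,489,490,491,370,442,226,497,375,448,378,502,433,436,441,503,208,295,455]) (.leaf
  [3,1,2,0,4] [412,505,256,415,491,442,226,506,476,489,490,433,502,441,253,208,503,455])))) (.leaf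
  [3,1,2,0,4] [412,211,256,415,104,370,226,228,99,508,234,375,511,378,253,208,222,295]))) (.split
  0 2 (.split 3 4 (.leaf [0,1,2,3,4]
  [512,94,515,517,518,118,370,104,519,110,384,117,484,375,386,511,483,99,119,508]) (.split 3 4
  (.leaf [0,1,2,3,4]
  [512,94,521,515,518,118,463,370,519,110,523,384,524,464,526,475,484,375,386,447]) (.leaf
  [3,1,2,0,4] [512,94,521,518,118,397,463,519,110,160,523,392,67,473,524,464,526,466]))) (.split 0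
  3 (.split 3 4 (.split 0 3 (.leaf [4,1,2,3,0]
  [433,527,436,442,518,370,104,529,512,515,517,448,375,484,511,99,483,508]) (.split 0 4 (.leaf
  [0,1,2,4,3] [476,485,489,534,491,518,442,104,535,512,529,517,502,433,527,536,99,483]) (.leaf
  [4,1,2,3,0] [416,248,458,421,518,442,491,356,512,529,535,460,433,527,502,476,485,489]))) (.split
  3 4 (.leaf [4,1,2,3,0]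
  [416,248,462,421,518,463,370,356,512,521,515,459,464,524,475,375,484,447]) (.leaf [0,1,3,2,4]
  [416,248,311,462,421,518,397,463,356,512,521,423,392,473,459,464,524,466]))) (.leaf [0,1,2,4,3]
  [412,210,340,211,415,518,421,104,513,512,356,517,429,416,248,228,99,483]))))) (.split 0 4
  (.split 2 4 (.split 3 4 (.leaf [0,1,2,3,4]
  [537,540,541,542,543,518,421,415,544,512,356,513,247,416,248,429,209,412,210,340]) (.leaf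
  [0,1,3,2,4] [537,540,546,541,543,518,397,421,544,512,356,246,392,423,247,416,248,311])) (.leaf
  [0,1,2,4,3] [537,547,546,540,543,118,397,518,354,110,160,519,246,392,67,544,512,94])) (.leaf
  [0,1,2,3,4] [548,549,550,551,552,118,397,543,134,110,160,354,66,392,67,246,545,537,547,546])))))

def c23_10_10_20 : Cert 2 3 where
  T := [[1, 0], [1, 0], [2, 0]]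
  W := ⟨0, 1, 1, 2, 0, 0, 0⟩
  hW := rfl
  steps := s23_10_10_20_0 ++ s23_10_10_20_1
  tree := t23_10_10_20
  ok := by decide +kernel

def s23_10_10_11_0 : List Step := [
.ini ⟨0,0,0,0,1⟩ ⟨0,1,0,0,0⟩, .dr 0, .ini ⟨1,0,1,1,0⟩ ⟨0,1,0,0,1⟩, .sl 1 2, .ini ⟨1,0,1,1,1⟩
  ⟨0,0,1,0,0⟩, .ini ⟨1,0,1,1,1⟩ ⟨0,0,0,1,0⟩, .ini ⟨1,0,1,1,1⟩ ⟨0,0,0,0,1⟩, .ini ⟨0,1,0,0,1⟩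
  ⟨0,0,0,1,0⟩, .ini ⟨0,1,0,0,1⟩ ⟨0,0,1,0,0⟩, .ini ⟨0,0,0,0,1⟩ ⟨1,0,0,0,0⟩, .dr 9, .ini ⟨0,1,0,0,0⟩
  ⟨1,0,0,0,1⟩, .sl 10 11, .sr 8 12, .sr 7 13, .ini ⟨0,1,0,0,1⟩ ⟨0,0,0,0,1⟩, .ini ⟨0,0,1,0,0⟩
  ⟨0,0,0,0,1⟩, .ini ⟨0,0,1,0,0⟩ ⟨0,0,0,1,0⟩, .ini ⟨0,0,1,0,0⟩ ⟨1,0,0,0,0⟩, .dr 18, .sr 17 19, .sr
  16 20, .ini ⟨0,0,1,0,0⟩ ⟨0,1,0,0,1⟩, .ini ⟨0,0,0,1,0⟩ ⟨0,0,0,0,1⟩, .ini ⟨0,0,0,1,0⟩ ⟨1,0,1,0,0⟩,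
  .dr 24, .sr 23 25, .ini ⟨0,0,0,1,0⟩ ⟨0,1,0,0,1⟩, .ini ⟨0,0,0,1,0⟩ ⟨0,0,1,0,0⟩, .ini ⟨0,0,0,0,1⟩
  ⟨1,0,1,1,0⟩, .dr 29, .ini ⟨0,0,0,0,1⟩ ⟨0,0,1,0,0⟩, .ini ⟨0,0,0,0,1⟩ ⟨0,0,0,1,0⟩, .ini
  ⟨0,1,0,0,0⟩ ⟨0,0,1,0,0⟩, .ini ⟨0,1,0,0,0⟩ ⟨0,0,0,1,0⟩, .ini ⟨0,1,0,0,0⟩ ⟨0,1,0,0,1⟩, .ini
  ⟨0,0,1,0,0⟩ ⟨0,1,0,0,0⟩, .ini ⟨0,0,0,1,0⟩ ⟨0,1,0,0,0⟩, .dl 0, .ini ⟨1,0,1,1,0⟩ ⟨0,1,0,0,0⟩, .ini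
  ⟨1,0,1,1,0⟩ ⟨0,0,1,0,0⟩, .ini ⟨1,0,1,1,0⟩ ⟨0,0,0,1,0⟩, .ini ⟨1,0,1,1,0⟩ ⟨0,0,0,0,1⟩, .dia
  ⟨1,0,1,1,0⟩ 1 1, .sr 42 43, .ini ⟨0,1,0,0,0⟩ ⟨1,0,1,1,0⟩, .dl 29, .ini ⟨1,0,1,0,0⟩ ⟨0,1,0,0,1⟩,
  .sl 1 47, .ini ⟨1,0,1,0,1⟩ ⟨0,0,1,0,0⟩, .ini ⟨1,0,1,0,1⟩ ⟨0,0,0,0,1⟩, .ini ⟨1,0,1,0,1⟩
  ⟨0,0,0,1,0⟩, .ini ⟨0,0,0,0,1⟩ ⟨1,0,1,0,0⟩, .dl 52, .sr 51 53, .sr 50 54, .sr 16 19, .dr 52, .ini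
  ⟨1,0,0,1,0⟩ ⟨0,0,0,0,1⟩, .ini ⟨1,0,0,1,0⟩ ⟨0,0,1,0,0⟩, .ini ⟨0,0,0,1,0⟩ ⟨1,0,0,0,0⟩, .dl 60, .sr
  59 61, .sr 58 62, .sl 56 63, .sl 57 64, .ini ⟨1,0,1,0,0⟩ ⟨0,1,0,0,0⟩, .ini ⟨1,0,1,0,0⟩
  ⟨0,0,1,0,0⟩, .ini ⟨1,0,1,0,0⟩ ⟨0,0,0,1,0⟩, .dia ⟨1,0,1,0,0⟩ 1 1, .sr 68 69, .ini ⟨1,0,1,0,0⟩
  ⟨0,0,0,0,1⟩, .sr 71 69, .ini ⟨0,1,0,0,0⟩ ⟨1,0,1,0,0⟩, .dl 24, .ini ⟨1,0,0,1,0⟩ ⟨0,1,0,0,1⟩, .sl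
  1 75, .ini ⟨1,0,0,1,1⟩ ⟨0,0,1,0,0⟩, .sr 58 61, .sl 10 78, .sr 77 79, .ini ⟨1,0,0,1,1⟩
  ⟨0,0,0,1,0⟩, .ini ⟨1,0,0,1,1⟩ ⟨0,0,0,0,1⟩, .sr 7 12, .ini ⟨0,0,0,0,1⟩ ⟨1,0,0,1,0⟩, .dr 84, .dl
  18, .sr 68 86, .sr 71 87, .sl 85 88, .dr 60, .sr 23 90, .dl 84, .sr 77 92, .sl 91 88, .ini
  ⟨0,0,1,0,0⟩ ⟨1,1,0,0,1⟩, .dr 95, .ini ⟨2,0,0,1,1⟩ ⟨0,0,1,0,0⟩, .ini ⟨1,0,0,0,1⟩ ⟨0,1,0,0,0⟩, .dr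
  98, .ini ⟨1,0,0,1,0⟩ ⟨0,1,0,0,0⟩, .sr 100 61, .sr 58 101, .sl 99 102, .sr 97 103, .sl 96 104,
  .ini ⟨1,0,0,0,1⟩ ⟨0,0,1,0,0⟩, .dl 9, .sr 106 107, .sl 108 62, .sl 19 109, .ini ⟨1,0,0,0,0⟩
  ⟨1,0,1,1,0⟩, .sl 111 54, .sl 25 112, .ini ⟨1,0,0,0,0⟩ ⟨1,0,1,0,1⟩, .sl 114 64, .sl 57 115, .ini
  ⟨1,1,1,0,1⟩ ⟨0,0,0,1,0⟩, .ini ⟨0,1,0,0,0⟩ ⟨2,0,1,0,1⟩, .sl 9 86, .dr 119, .sl 118 120, .sr 117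
  121, .sl 73 108, .sl 19 123, .ini ⟨1,0,0,0,1⟩ ⟨0,0,0,1,0⟩, .sr 125 108, .sl 45 126, .sl 20 127,
  .ini ⟨1,1,0,0,0⟩ ⟨1,0,1,0,1⟩, .sl 57 129, .sl 56 130, .sr 86 70, .sr 71 132, .sr 66 86, .sr 71
  134, .sr 67 135, .sl 60 86, .dr 137, .sr 42 138, .sr 39 64, .sr 51 120, .ini ⟨1,0,1,0,1⟩
  ⟨0,1,0,0,0⟩, .dr 142, .sl 9 61, .dr 144, .sr 77 145, .ini ⟨1,0,0,0,0⟩ ⟨1,0,0,1,1⟩, .sl 147 94,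
  .sl 85 148, .sr 38 12, .sr 8 150, .ini ⟨1,1,0,0,0⟩ ⟨0,1,0,0,1⟩, .sl 1 152, .sl 22 153, .dl 98,
  .sl 37 155, .ini ⟨1,1,0,1,1⟩ ⟨0,0,1,0,0⟩, .ini ⟨0,0,0,1,0⟩ ⟨1,1,0,0,1⟩, .dl 158, .sr 157 159,
  .sl 25 127, .sl 27 153, .ini ⟨0,1,0,0,0⟩ ⟨1,1,0,1,1⟩, .ini ⟨0,1,0,0,0⟩ ⟨1,1,1,0,1⟩, .sr 7 150,
  .sr 68 135, .sl 165 166, .sl 36 155, .sr 39 94, .ini ⟨1,0,0,1,1⟩ ⟨0,1,0,0,0⟩, .dr 170, .ini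
  ⟨1,1,0,0,0⟩ ⟨1,0,0,1,1⟩, .sl 85 172, .sl 91 173, .dr 158, .sr 125 99, .sl 176 166, .sl 175 177,
  .ini ⟨0,1,0,0,0⟩ ⟨2,0,0,1,1⟩, .sl 179 145, .sr 157 180, .ini ⟨1,0,0,1,0⟩ ⟨0,0,0,1,0⟩, .sr 182
  62, .dia ⟨1,0,0,1,0⟩ 1 1, .sr 58 184, .ini ⟨0,1,0,0,0⟩ ⟨1,0,0,1,0⟩, .sl 90 87, .sr 182 102, .sr
  61 183, .sr 58 189, .sr 125 107, .sl 186 191, .sl 90 192, .sl 191 87, .sl 90 194, .ini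
  ⟨1,0,0,0,0⟩ ⟨0,1,0,0,1⟩, .sl 1 196, .ini ⟨1,0,0,0,1⟩ ⟨0,0,0,0,1⟩, .sr 198 108, .sr 198 191, .sr
  71 86, .sl 10 201, .sr 107 126, .sr 198 203, .sl 11 79, .sl 78 201, .sl 10 206, .sr 106 99, .sl
  11 202, .ini ⟨1,0,0,0,0⟩ ⟨0,1,0,0,0⟩, .ini ⟨1,0,0,0,0⟩ ⟨1,0,1,0,0⟩, .ini ⟨1,0,0,0,0⟩
  ⟨1,0,0,1,0⟩, .ini ⟨1,0,0,0,0⟩ ⟨1,0,0,0,1⟩, .ini ⟨0,1,0,0,0⟩ ⟨1,0,0,0,0⟩]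

def t23_10_10_11 : Tree :=
(.split 0 2 (.split 0 3 (.split 0 4 (.split 1 4 (.leaf [0,1,2,3,4]
  [3,4,5,6,14,8,7,15,21,22,17,16,26,27,28,23,30,1,31,32]) (.leaf [1,0,2,3,4]
  [4,5,3,33,34,35,21,36,17,22,26,37,28,27,14,38,8,7])) (.leaf [0,4,2,3,1]
  [39,40,41,44,45,33,34,20,36,17,21,25,37,28,26,46,4,5])) (.split 0 4 (.split 1 4 (.split 3 4
  (.leaf [0,1,2,3,4] [48,49,55,50,13,8,14,15,56,22,21,16,65,3,4,6,57,1,31,30]) (.leaf [0,3,2,1,4]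
  [48,49,54,55,13,8,14,56,22,20,21,64,40,44,65,3,4,46])) (.leaf [1,0,2,4,3]
  [49,54,48,33,45,35,56,36,20,22,64,39,40,13,38,8])) (.leaf [0,4,2,3,1]
  [66,67,70,72,73,33,45,19,36,20,56,74,39,40,64,53,49,54]))) (.split 0 3 (.split 0 4 (.split 1 4
  (.split 2 4 (.leaf [0,1,3,2,4] [76,80,81,82,83,13,7,15,89,48,50,91,27,23,85,1,57,32]) (.split 2
  3 (.leaf [0,2,1,4,3] [76,93,81,80,83,7,13,94,41,64,91,27,25,89,48,54]) (.split 1 2 (.split 0 2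
  (.leaf [0,1,2,3,4] [105,110,113,116,122,124,128,131,133,136,70,72,139,140,74,64,141,143,53,54])
  (.leaf [1,0,2,3,4] [146,93,80,122,128,131,149,105,113,116,94,140,139,64,89,143,141,54])) (.leaf
  [2,3,0,1,4] [76,93,80,83,151,13,154,128,131,94,140,64,89,48,143,54])))) (.split 2 3 (.leaf
  [1,0,4,3,2] [93,81,76,45,34,35,94,39,41,91,37,25,27,83,38,7]) (.split 0 1 (.split 2 4 (.leaf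
  [0,1,2,4,3] [156,160,161,162,163,164,45,35,167,168,128,154,169,39,140,165,38,151]) (.leaf
  [2,1,0,3,4] [156,161,160,163,73,45,164,66,70,136,169,39,74,140,167,168,124,128])) (.split 2 4
  (.leaf [2,1,0,4,3] [171,93,76,174,160,161,162,167,128,154,94,169,140,83,165,151]) (.split 0 2
  (.leaf [0,2,1,3,4] [178,110,113,105,181,161,160,133,70,136,139,169,74,140,122,167,124,128])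
  (.leaf [4,1,2,3,0] [171,146,93,174,181,161,160,149,178,113,105,94,169,139,140,167,122,128]))))))
  (.split 2 3 (.leaf [0,4,2,3,1] [100,183,182,185,186,45,34,187,39,41,94,90,37,25,91,92,93,81])
  (.split 1 4 (.split 2 4 (.leaf [0,1,2,3,4]
  [188,190,183,185,193,181,161,174,195,178,113,149,187,169,139,94,92,171,146,93]) (.leaf
  [0,2,1,3,4] [188,62,183,190,193,161,181,87,70,133,187,169,74,139,195,178,110,113])) (.leaf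
  [0,1,4,3,2] [100,62,183,188,186,73,45,163,87,66,70,187,39,74,169,193,156,161])))) (.split 0 4
  (.split 1 4 (.split 2 4 (.split 3 4 (.leaf [0,1,2,3,4]
  [197,199,200,198,12,13,83,15,202,48,89,50,79,76,80,82,10,1,57,85]) (.split 1 3 (.split 2 3
  (.leaf [0,1,2,3,4]
  [176,204,191,200,205,181,193,174,207,178,195,149,78,188,190,185,79,171,146,92]) (.leaf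
  [0,2,1,3,4] [176,199,204,200,205,181,174,202,141,89,207,178,116,149,79,171,80,146])) (.leaf
  [0,1,3,2,4] [197,199,176,200,12,13,165,83,202,48,89,205,162,174,79,76,80,171]))) (.split 1 2
  (.split 3 4 (.leaf [0,1,2,3,4]
  [208,108,204,199,209,124,122,131,201,136,133,72,207,105,110,116,202,143,53,141]) (.leaf
  [0,3,2,1,4] [208,108,191,204,209,124,122,201,136,87,133,78,62,190,207,105,110,195])) (.split 1 3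
  (.split 3 4 (.leaf [0,4,2,3,1]
  [176,208,204,199,205,160,181,209,167,122,131,207,178,105,116,202,143,141]) (.leaf [0,1,3,2,4]
  [176,208,191,204,205,160,193,181,209,167,122,78,188,190,207,178,105,195])) (.leaf [0,1,2,4,3]
  [197,208,176,199,12,151,165,13,209,154,167,131,205,162,160,202,48,143])))) (.split 2 4 (.split 3
  4 (.leaf [1,0,2,3,4] [208,176,197,164,163,35,209,168,167,154,205,156,160,162,12,38,151,165])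
  (.leaf [1,0,3,2,4] [208,191,176,164,186,163,209,168,167,78,100,188,205,156,160,193])) (.leaf
  [1,0,2,4,3] [108,191,208,73,186,164,201,66,87,136,78,100,62,209,168,124]))) (.leaf [0,4,2,3,1]
  [210,211,212,213,214,73,186,86,66,87,201,61,100,62,78,107,108,191]))))

def c23_10_10_11 : Cert 2 3 where
  T := [[1, 0], [1, 0], [1, 1]]
  W := ⟨0, 1, 1, 1, 0, 0, 1⟩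
  hW := rfl
  steps := s23_10_10_11_0
  tree := t23_10_10_11
  ok := by decide +kernel

def s23_10_10_02_0 : List Step := [
.ini ⟨1,0,1,0,0⟩ ⟨0,1,0,0,0⟩, .ini ⟨1,0,1,0,0⟩ ⟨0,0,1,0,0⟩, .ini ⟨1,0,1,0,0⟩ ⟨0,0,0,0,1⟩, .ini
  ⟨0,1,0,0,0⟩ ⟨1,0,1,0,0⟩, .ini ⟨0,1,0,0,0⟩ ⟨0,0,1,0,0⟩, .ini ⟨0,1,0,0,0⟩ ⟨0,0,0,1,0⟩, .ini
  ⟨0,0,1,0,0⟩ ⟨1,0,0,0,0⟩, .dr 6, .ini ⟨0,0,1,0,0⟩ ⟨0,1,0,0,0⟩, .ini ⟨0,0,1,0,0⟩ ⟨0,0,0,1,0⟩, .ini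
  ⟨0,0,1,0,0⟩ ⟨0,0,0,0,1⟩, .ini ⟨0,0,0,1,0⟩ ⟨0,1,0,0,0⟩, .ini ⟨0,0,0,1,0⟩ ⟨0,0,1,0,0⟩, .ini
  ⟨0,0,0,1,0⟩ ⟨0,0,0,0,1⟩, .ini ⟨0,0,0,0,1⟩ ⟨1,0,1,0,0⟩, .ini ⟨0,0,0,0,1⟩ ⟨0,0,1,0,0⟩, .ini
  ⟨0,0,0,0,1⟩ ⟨0,0,0,1,0⟩, .ini ⟨1,0,0,1,0⟩ ⟨0,1,0,0,0⟩, .ini ⟨1,0,0,1,0⟩ ⟨0,0,1,0,0⟩, .ini
  ⟨0,0,0,1,0⟩ ⟨1,0,0,0,0⟩, .dl 19, .sr 18 20, .ini ⟨1,0,0,1,0⟩ ⟨0,0,0,1,0⟩, .ini ⟨1,0,0,1,0⟩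
  ⟨0,0,0,0,1⟩, .ini ⟨0,1,0,0,0⟩ ⟨1,0,0,1,0⟩, .ini ⟨1,0,1,0,0⟩ ⟨0,0,0,1,0⟩, .dl 6, .sr 25 26, .dr
  19, .ini ⟨0,0,0,0,1⟩ ⟨1,0,0,1,0⟩, .ini ⟨1,0,0,0,0⟩ ⟨0,1,0,0,0⟩, .ini ⟨1,0,0,0,0⟩ ⟨1,0,1,0,0⟩,
  .ini ⟨1,0,0,0,0⟩ ⟨1,0,0,1,0⟩, .ini ⟨1,0,0,0,0⟩ ⟨0,0,0,0,1⟩, .ini ⟨0,1,0,0,0⟩ ⟨1,0,0,0,0⟩, .ini
  ⟨0,0,0,0,1⟩ ⟨1,0,0,0,0⟩]

def t23_10_10_02 : Tree :=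
(.split 0 2 (.leaf [3,4,2,0,1] [0,1,2,3,4,5,7,8,9,10,11,12,13,14,15,16]) (.split 0 3 (.leaf
  [0,4,3,2,1] [17,21,22,23,24,3,5,27,0,2,28,11,13,29,14,16]) (.leaf [0,4,2,3,1]
  [30,31,32,33,34,3,24,26,0,27,2,20,17,21,23,35,14,29])))

def c23_10_10_02 : Cert 2 3 where
  T := [[1, 0], [1, 0], [0, 2]]
  W := ⟨0, 1, 1, 0, 0, 0, 2⟩
  hW := rfl
  steps := s23_10_10_02_0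
  tree := t23_10_10_02
  ok := by decide +kernel

def s23_10_01_20_0 : List Step := [
.ini ⟨1,0,1,0,0⟩ ⟨0,1,0,0,0⟩, .ini ⟨1,0,1,0,0⟩ ⟨0,0,1,0,0⟩, .ini ⟨1,0,1,0,0⟩ ⟨0,0,0,1,0⟩, .ini
  ⟨0,1,0,0,0⟩ ⟨1,0,1,0,0⟩, .ini ⟨0,1,0,0,0⟩ ⟨0,0,1,0,0⟩, .ini ⟨0,1,0,0,0⟩ ⟨0,0,0,0,1⟩, .ini
  ⟨0,0,1,0,0⟩ ⟨1,0,0,0,0⟩, .dr 6, .ini ⟨0,0,1,0,0⟩ ⟨0,1,0,0,0⟩, .ini ⟨0,0,1,0,0⟩ ⟨0,0,0,1,0⟩, .ini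
  ⟨0,0,1,0,0⟩ ⟨0,0,0,0,1⟩, .ini ⟨0,0,0,1,0⟩ ⟨1,0,1,0,0⟩, .ini ⟨0,0,0,1,0⟩ ⟨0,0,1,0,0⟩, .ini
  ⟨0,0,0,1,0⟩ ⟨0,0,0,0,1⟩, .ini ⟨0,0,0,0,1⟩ ⟨0,1,0,0,0⟩, .ini ⟨0,0,0,0,1⟩ ⟨0,0,1,0,0⟩, .ini
  ⟨0,0,0,0,1⟩ ⟨0,0,0,1,0⟩, .ini ⟨1,0,0,0,2⟩ ⟨0,1,0,0,0⟩, .ini ⟨1,0,0,0,2⟩ ⟨0,0,1,0,0⟩, .ini
  ⟨0,0,0,0,1⟩ ⟨1,0,0,0,0⟩, .dr 19, .dl 20, .sr 18 21, .ini ⟨1,0,0,0,2⟩ ⟨0,0,0,1,0⟩, .ini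
  ⟨1,0,0,0,2⟩ ⟨0,0,0,0,1⟩, .ini ⟨0,1,0,0,0⟩ ⟨1,0,0,0,2⟩, .ini ⟨0,1,0,0,0⟩ ⟨1,0,1,0,1⟩, .dr 20,
  .ini ⟨1,0,1,0,0⟩ ⟨0,0,0,0,1⟩, .dl 6, .sr 28 29, .sr 28 30, .sl 27 31, .ini ⟨1,0,1,0,1⟩
  ⟨0,1,0,0,0⟩, .ini ⟨1,0,1,0,1⟩ ⟨0,0,0,1,0⟩, .ini ⟨0,0,0,1,0⟩ ⟨1,0,0,0,2⟩, .ini ⟨0,0,0,1,0⟩
  ⟨1,0,1,0,1⟩, .ini ⟨1,0,0,0,1⟩ ⟨0,1,0,0,0⟩, .ini ⟨1,0,0,0,1⟩ ⟨0,0,1,0,0⟩, .dia ⟨1,0,0,0,1⟩ 1 1,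
  .sr 38 39, .ini ⟨1,0,0,0,1⟩ ⟨0,0,0,1,0⟩, .ini ⟨1,0,0,0,1⟩ ⟨0,0,0,0,1⟩, .sr 42 39, .ini
  ⟨0,1,0,0,0⟩ ⟨1,0,0,0,1⟩, .ini ⟨0,0,1,0,0⟩ ⟨1,0,0,0,1⟩, .dl 45, .ini ⟨0,0,0,1,0⟩ ⟨1,0,0,0,1⟩, .dl
  19, .dr 48, .sr 38 49, .sr 38 50, .ini ⟨0,1,0,0,0⟩ ⟨2,0,2,0,1⟩, .sl 30 46, .ini ⟨2,0,2,0,1⟩
  ⟨0,1,0,0,0⟩, .ini ⟨2,0,2,0,1⟩ ⟨0,0,0,1,0⟩, .sr 10 7, .ini ⟨1,0,0,0,0⟩ ⟨1,0,1,0,1⟩, .sl 57 40,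
  .sl 56 58, .sl 56 59, .ini ⟨0,0,0,1,0⟩ ⟨2,0,2,0,1⟩, .ini ⟨0,0,0,0,1⟩ ⟨1,0,1,0,0⟩, .dl 62, .dr
  63, .dia ⟨1,0,1,0,0⟩ 1 2, .sr 28 65, .sr 38 48, .dl 67, .sl 7 68, .ini ⟨2,0,0,0,1⟩ ⟨0,1,0,0,0⟩,
  .ini ⟨2,0,0,0,1⟩ ⟨0,0,1,0,0⟩, .dl 48, .sr 71 72, .ini ⟨2,0,0,0,1⟩ ⟨0,0,0,1,0⟩, .ini ⟨1,0,0,0,0⟩
  ⟨1,0,0,0,1⟩, .sl 75 39, .ini ⟨0,1,0,0,0⟩ ⟨2,0,0,0,1⟩, .sr 29 29, .sr 28 78, .ini ⟨0,0,0,1,0⟩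
  ⟨2,0,0,0,1⟩, .ini ⟨1,0,0,0,0⟩ ⟨0,1,0,0,0⟩, .ini ⟨1,0,0,0,0⟩ ⟨1,0,1,0,0⟩, .ini ⟨1,0,0,0,0⟩
  ⟨0,0,0,1,0⟩, .ini ⟨1,0,0,0,0⟩ ⟨2,0,0,0,1⟩, .ini ⟨0,1,0,0,0⟩ ⟨1,0,0,0,0⟩, .ini ⟨0,0,0,1,0⟩
  ⟨1,0,0,0,0⟩]

def t23_10_01_20 : Tree :=
(.split 0 2 (.leaf [4,3,2,1,0] [0,1,2,3,4,5,7,8,9,10,11,12,13,14,15,16]) (.split 0 4 (.split 2 4
  (.split 0 4 (.leaf [0,3,4,1,2] [17,22,23,24,25,26,5,32,33,34,35,36,13,27,14,16]) (.leaf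
  [0,3,2,1,4] [37,40,41,43,44,26,25,46,33,34,32,47,36,35,21,17,22,23])) (.split 2 4 (.leaf
  [0,3,2,1,4] [37,51,41,40,44,52,26,53,54,55,60,47,61,36,46,33,64,34]) (.leaf [2,3,0,1,4]
  [37,41,51,44,3,52,0,2,66,47,11,61,53,54,69,55]))) (.split 0 4 (.leaf [0,3,4,1,2]
  [70,73,74,76,77,3,44,79,0,2,80,11,47,49,37,41]) (.leaf [0,3,2,1,4]
  [81,82,83,84,85,3,77,29,0,2,79,86,11,80,72,70,73,74]))))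

def c23_10_01_20 : Cert 2 3 where
  T := [[1, 0], [0, 1], [2, 0]]
  W := ⟨0, 1, 0, 2, 0, 1, 0⟩
  hW := rfl
  steps := s23_10_01_20_0
  tree := t23_10_01_20
  ok := by decide +kernel

def s23_10_01_11_0 : List Step := [
.ini ⟨0,0,0,0,1⟩ ⟨0,1,0,0,0⟩, .dr 0, .ini ⟨1,0,1,0,0⟩ ⟨0,1,0,0,1⟩, .sl 1 2, .ini ⟨1,0,1,0,1⟩
  ⟨0,0,1,0,0⟩, .ini ⟨1,0,1,0,1⟩ ⟨0,0,0,1,0⟩, .ini ⟨1,0,1,0,1⟩ ⟨0,0,0,0,1⟩, .ini ⟨0,1,0,0,1⟩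
  ⟨0,0,1,0,0⟩, .ini ⟨0,0,0,0,1⟩ ⟨1,0,0,0,0⟩, .dr 8, .ini ⟨0,1,0,0,0⟩ ⟨1,0,0,0,1⟩, .sl 9 10, .sr 7
  11, .ini ⟨0,1,0,0,1⟩ ⟨0,0,0,0,1⟩, .ini ⟨0,0,1,0,0⟩ ⟨0,0,0,0,1⟩, .ini ⟨0,0,1,0,0⟩ ⟨1,0,0,0,0⟩,
  .dr 15, .sr 14 16, .ini ⟨0,0,1,0,0⟩ ⟨0,1,0,0,1⟩, .ini ⟨0,0,1,0,0⟩ ⟨0,0,0,1,0⟩, .ini ⟨0,0,0,1,0⟩
  ⟨1,0,1,0,1⟩, .ini ⟨0,0,0,1,0⟩ ⟨0,0,1,0,0⟩, .ini ⟨0,0,0,1,0⟩ ⟨0,0,0,0,1⟩, .ini ⟨0,0,0,0,1⟩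
  ⟨1,0,1,0,0⟩, .dr 23, .ini ⟨0,0,0,0,1⟩ ⟨0,0,1,0,0⟩, .ini ⟨0,0,0,0,1⟩ ⟨0,0,0,1,0⟩, .ini
  ⟨0,1,0,1,0⟩ ⟨0,0,1,0,0⟩, .ini ⟨0,1,0,1,0⟩ ⟨0,0,0,1,0⟩, .ini ⟨0,1,0,1,0⟩ ⟨0,0,0,0,1⟩, .ini
  ⟨0,0,0,1,0⟩ ⟨0,1,0,0,0⟩, .dl 30, .sr 29 31, .ini ⟨0,0,1,0,0⟩ ⟨0,1,0,1,0⟩, .dr 30, .ini
  ⟨0,1,0,0,1⟩ ⟨0,0,0,1,0⟩, .dl 0, .sr 35 36, .ini ⟨0,0,1,0,0⟩ ⟨0,1,0,0,0⟩, .ini ⟨1,0,0,0,1⟩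
  ⟨0,1,0,0,0⟩, .dl 39, .sl 38 40, .ini ⟨1,1,1,0,1⟩ ⟨0,0,1,0,0⟩, .ini ⟨1,0,0,0,0⟩ ⟨0,1,0,1,0⟩, .sl
  43 37, .sl 33 44, .ini ⟨1,1,0,0,0⟩ ⟨0,1,0,0,1⟩, .sl 1 46, .sl 18 47, .ini ⟨0,1,0,0,0⟩
  ⟨1,1,1,0,1⟩, .ini ⟨0,1,0,0,0⟩ ⟨0,0,1,0,0⟩, .ini ⟨0,1,0,0,0⟩ ⟨0,1,0,1,0⟩, .ini ⟨0,1,0,0,0⟩
  ⟨0,1,0,0,1⟩, .ini ⟨0,0,1,0,0⟩ ⟨1,1,0,0,1⟩, .dr 53, .ini ⟨0,1,0,1,0⟩ ⟨1,0,0,0,0⟩, .sr 31 55, .sr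
  29 56, .sr 27 57, .sr 36 11, .sr 7 59, .ini ⟨1,0,0,0,1⟩ ⟨0,0,1,0,0⟩, .dr 39, .sr 61 62, .sl 54
  63, .ini ⟨1,1,1,0,1⟩ ⟨0,0,0,0,1⟩, .ini ⟨0,1,0,0,0⟩ ⟨1,0,1,0,0⟩, .dl 8, .sr 61 67, .sl 66 68, .sl
  16 69, .sr 65 70, .ini ⟨1,0,1,0,0⟩ ⟨0,1,0,1,0⟩, .ini ⟨1,0,1,0,0⟩ ⟨0,0,1,0,0⟩, .ini ⟨1,0,1,0,0⟩
  ⟨0,0,0,1,0⟩, .ini ⟨1,0,1,0,0⟩ ⟨0,0,0,0,1⟩, .dia ⟨1,0,1,0,0⟩ 1 1, .sr 75 76, .ini ⟨0,1,0,1,0⟩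
  ⟨1,0,1,0,0⟩, .ini ⟨0,0,0,1,0⟩ ⟨1,0,1,0,0⟩, .dl 23, .ini ⟨1,0,1,0,0⟩ ⟨0,1,0,0,0⟩, .dl 15, .sr 81
  82, .sr 75 83, .sr 73 84, .ini ⟨1,0,0,0,0⟩ ⟨0,1,0,0,1⟩, .sl 1 86, .ini ⟨1,0,0,0,1⟩ ⟨0,0,0,0,1⟩,
  .sr 88 68, .ini ⟨1,0,0,0,1⟩ ⟨0,0,0,1,0⟩, .sr 75 82, .sl 9 91, .ini ⟨0,0,0,1,0⟩ ⟨1,0,0,0,1⟩, .sl
  11 91, .sr 90 63, .sr 35 60, .ini ⟨0,1,0,1,0⟩ ⟨1,0,0,0,1⟩, .sl 97 91, .sl 9 98, .sl 32 2, .sl 1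
  100, .ini ⟨1,1,1,1,1⟩ ⟨0,0,0,1,0⟩, .ini ⟨0,0,1,1,0⟩ ⟨0,0,0,0,1⟩, .sl 79 16, .sr 103 104, .ini
  ⟨1,1,0,0,0⟩ ⟨1,0,1,0,1⟩, .sl 105 106, .sl 24 107, .sr 34 79, .sr 22 109, .sr 5 64, .sr 45 70,
  .sr 65 112, .ini ⟨0,0,0,1,0⟩ ⟨1,1,1,0,1⟩, .dl 114, .ini ⟨0,1,0,1,0⟩ ⟨0,0,1,1,0⟩, .sr 116 56, .sr
  29 117, .sl 34 45, .ini ⟨0,1,0,0,0⟩ ⟨1,1,0,0,1⟩, .ini ⟨1,1,0,0,0⟩ ⟨1,0,0,0,1⟩, .sl 9 121, .ini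
  ⟨1,0,0,0,0⟩ ⟨1,0,1,0,0⟩, .ini ⟨1,0,0,0,0⟩ ⟨0,0,0,1,0⟩, .ini ⟨1,0,0,0,0⟩ ⟨1,0,0,0,1⟩, .ini
  ⟨0,0,0,1,0⟩ ⟨1,0,0,0,0⟩, .ini ⟨1,0,0,0,0⟩ ⟨1,1,0,0,1⟩, .ini ⟨0,1,0,0,0⟩ ⟨1,0,0,0,0⟩, .sl 128 67,
  .ini ⟨1,0,0,0,0⟩ ⟨0,1,0,0,0⟩]

def t23_10_01_11 : Tree :=
(.split 0 2 (.split 0 4 (.split 1 4 (.leaf [0,3,2,1,4]
  [3,4,5,6,12,7,13,17,18,19,14,20,21,22,24,1,25,26]) (.split 1 3 (.leaf [1,0,2,4,3]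
  [4,5,3,27,28,32,17,33,19,18,20,34,21,12,37,7]) (.split 0 1 (.leaf [0,1,2,3,4]
  [41,42,45,48,49,50,51,52,54,38,33,18,58,31,27,32,60,36,7,37]) (.leaf [3,1,2,0,4]
  [64,4,3,71,42,45,48,17,54,33,18,58,27,32,12,60,7,37])))) (.split 1 3 (.leaf [0,4,2,3,1]
  [72,73,74,77,78,27,28,16,33,19,17,79,34,21,20,80,4,5]) (.split 1 4 (.leaf [0,1,2,4,3]
  [85,73,72,77,70,42,45,71,16,54,33,17,78,58,27,80,64,4]) (.leaf [0,1,2,3,4]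
  [81,73,72,85,66,50,51,49,16,38,33,54,78,31,27,58,70,41,42,45])))) (.split 0 4 (.split 1 4
  (.split 2 4 (.leaf [0,3,2,1,4] [87,89,90,88,11,12,13,92,3,5,6,93,20,22,9,1,24,26]) (.split 1 2
  (.leaf [0,3,2,1,4] [63,68,90,89,94,70,71,91,85,74,77,93,79,20,92,64,80,5]) (.split 2 3 (.leaf
  [0,3,2,1,4] [87,95,90,89,11,96,12,99,101,102,108,93,110,20,92,3,111,5]) (.leaf [0,1,2,3,4]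
  [87,63,95,89,11,60,96,12,94,48,113,71,99,101,115,108,92,3,64,111])))) (.split 1 3 (.split 2 4
  (.split 2 3 (.leaf [1,0,2,4,3] [95,90,87,118,28,32,99,119,102,101,93,34,110,11,37,96]) (.leaf
  [1,0,2,3,4] [63,95,87,58,118,32,94,45,113,48,99,119,115,101,11,37,60,96])) (.leaf [1,0,2,4,3]
  [68,90,63,78,28,58,91,72,74,85,93,34,79,94,45,70])) (.split 0 1 (.leaf [0,1,4,3,2]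
  [40,69,44,47,120,66,51,52,84,81,72,57,31,78,32,59,36,37]) (.leaf [3,1,4,0,2]
  [62,68,87,122,69,44,47,91,84,72,57,78,32,11,59,37])))) (.split 1 3 (.leaf [0,4,2,3,1]
  [43,123,124,125,55,78,28,82,72,74,91,126,34,79,93,67,68,90]) (.split 1 4 (.leaf [0,1,2,4,3]
  [127,123,43,125,129,69,44,122,82,84,72,91,55,57,78,67,62,68]) (.leaf [0,1,2,3,4]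
  [130,123,43,127,128,66,51,120,82,81,72,84,55,31,78,57,129,40,69,44])))))

def c23_10_01_11 : Cert 2 3 where
  T := [[1, 0], [0, 1], [1, 1]]
  W := ⟨0, 1, 0, 1, 0, 1, 1⟩
  hW := rfl
  steps := s23_10_01_11_0
  tree := t23_10_01_11
  ok := by decide +kernel

def s23_10_01_02_0 : List Step := [
.ini ⟨1,0,0,0,0⟩ ⟨0,1,0,1,0⟩, .ini ⟨1,0,0,0,0⟩ ⟨0,0,0,1,0⟩, .ini ⟨1,0,0,0,0⟩ ⟨0,0,0,0,1⟩, .ini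
  ⟨0,1,0,1,0⟩ ⟨1,0,0,0,0⟩, .ini ⟨0,1,0,1,0⟩ ⟨0,0,1,0,0⟩, .ini ⟨0,1,0,1,0⟩ ⟨0,0,0,1,0⟩, .ini
  ⟨0,0,1,0,0⟩ ⟨0,1,0,1,0⟩, .ini ⟨0,0,1,0,0⟩ ⟨0,0,0,1,0⟩, .ini ⟨0,0,1,0,0⟩ ⟨0,0,0,0,1⟩, .ini
  ⟨0,0,0,1,0⟩ ⟨1,0,0,0,0⟩, .ini ⟨0,0,0,1,0⟩ ⟨0,1,0,0,0⟩, .dr 10, .ini ⟨0,0,0,1,0⟩ ⟨0,0,1,0,0⟩,
  .ini ⟨0,0,0,1,0⟩ ⟨0,0,0,0,1⟩, .ini ⟨0,0,0,0,1⟩ ⟨1,0,0,0,0⟩, .ini ⟨0,0,0,0,1⟩ ⟨0,0,1,0,0⟩, .ini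
  ⟨0,0,0,0,1⟩ ⟨0,0,0,1,0⟩, .ini ⟨1,0,0,0,0⟩ ⟨0,1,0,0,2⟩, .ini ⟨1,0,0,0,0⟩ ⟨0,1,0,1,1⟩, .ini
  ⟨0,1,0,0,2⟩ ⟨1,0,0,0,0⟩, .ini ⟨0,1,0,0,2⟩ ⟨0,0,1,0,0⟩, .ini ⟨0,1,0,0,2⟩ ⟨0,0,0,1,0⟩, .ini
  ⟨0,0,0,0,1⟩ ⟨0,1,0,0,0⟩, .dr 22, .dl 23, .sr 21 24, .ini ⟨0,1,0,0,2⟩ ⟨0,0,0,0,1⟩, .ini
  ⟨0,0,1,0,0⟩ ⟨0,1,0,0,2⟩, .ini ⟨0,0,1,0,0⟩ ⟨0,1,0,1,1⟩, .ini ⟨0,1,0,1,1⟩ ⟨1,0,0,0,0⟩, .dr 23,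
  .ini ⟨0,1,0,1,0⟩ ⟨0,0,0,0,1⟩, .dl 10, .sr 31 32, .sr 31 33, .sl 30 34, .ini ⟨0,1,0,1,1⟩
  ⟨0,0,1,0,0⟩, .ini ⟨1,0,0,0,0⟩ ⟨0,1,0,0,1⟩, .ini ⟨0,1,0,0,1⟩ ⟨1,0,0,0,0⟩, .ini ⟨0,1,0,0,1⟩
  ⟨0,0,1,0,0⟩, .ini ⟨0,1,0,0,1⟩ ⟨0,0,0,1,0⟩, .dia ⟨0,1,0,0,1⟩ 1 1, .sr 40 41, .ini ⟨0,1,0,0,1⟩
  ⟨0,0,0,0,1⟩, .sr 43 41, .ini ⟨0,0,1,0,0⟩ ⟨0,1,0,0,1⟩, .ini ⟨0,0,0,1,0⟩ ⟨0,1,0,0,1⟩, .dl 46, .ini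
  ⟨1,0,0,0,0⟩ ⟨0,2,0,2,1⟩, .dl 22, .dr 49, .sr 40 50, .sr 40 51, .ini ⟨0,0,1,0,0⟩ ⟨0,2,0,2,1⟩,
  .ini ⟨0,2,0,2,1⟩ ⟨1,0,0,0,0⟩, .sl 33 47, .ini ⟨0,2,0,2,1⟩ ⟨0,0,1,0,0⟩, .sr 13 11, .ini
  ⟨0,1,0,0,0⟩ ⟨0,1,0,1,1⟩, .sl 58 42, .sl 57 59, .sl 57 60, .ini ⟨0,0,0,0,1⟩ ⟨0,1,0,1,0⟩, .dl 62,
  .dr 63, .dia ⟨0,1,0,1,0⟩ 1 2, .sr 31 65, .sr 40 49, .dl 67, .sl 11 68, .ini ⟨1,0,0,0,0⟩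
  ⟨0,2,0,0,1⟩, .ini ⟨0,2,0,0,1⟩ ⟨1,0,0,0,0⟩, .ini ⟨0,2,0,0,1⟩ ⟨0,0,1,0,0⟩, .ini ⟨0,2,0,0,1⟩
  ⟨0,0,0,1,0⟩, .dl 49, .sr 73 74, .ini ⟨0,1,0,0,0⟩ ⟨0,1,0,0,1⟩, .sl 76 41, .ini ⟨0,0,1,0,0⟩
  ⟨0,2,0,0,1⟩, .sr 32 32, .sr 31 79, .ini ⟨1,0,0,0,0⟩ ⟨0,1,0,0,0⟩, .ini ⟨0,1,0,0,0⟩ ⟨1,0,0,0,0⟩,
  .ini ⟨0,1,0,0,0⟩ ⟨0,0,1,0,0⟩, .ini ⟨0,1,0,0,0⟩ ⟨0,1,0,1,0⟩, .ini ⟨0,1,0,0,0⟩ ⟨0,2,0,0,1⟩, .ini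
  ⟨0,0,1,0,0⟩ ⟨0,1,0,0,0⟩]

def t23_10_01_02 : Tree :=
(.split 1 3 (.leaf [2,4,0,3,1] [0,1,2,3,4,5,6,7,8,9,11,12,13,14,15,16]) (.split 1 4 (.split 3 4
  (.split 1 4 (.leaf [2,1,0,4,3] [17,18,2,19,20,25,26,27,28,8,29,35,36,14,30,15]) (.leaf
  [2,1,0,3,4] [37,18,17,38,39,42,44,45,28,27,29,47,36,35,19,24,20,25])) (.split 3 4 (.leaf
  [2,1,0,3,4] [37,48,18,38,39,52,42,45,53,28,54,55,56,61,29,47,36,64]) (.leaf [2,3,0,1,4]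
  [37,0,48,38,39,52,45,6,53,3,4,66,54,55,56,69]))) (.split 1 4 (.leaf [2,1,0,4,3]
  [70,0,37,71,72,75,77,78,6,45,3,80,4,38,50,39]) (.leaf [2,1,0,3,4]
  [81,0,70,82,83,84,85,86,6,78,3,32,4,80,71,74,72,75]))))

def c23_10_01_02 : Cert 2 3 where
  T := [[1, 0], [0, 1], [0, 2]]
  W := ⟨0, 1, 0, 0, 0, 1, 2⟩
  hW := rfl
  steps := s23_10_01_02_0
  tree := t23_10_01_02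
  ok := by decide +kernel

def s23_01_10_20_0 : List Step := [
.ini ⟨1,0,0,1,0⟩ ⟨0,1,0,0,0⟩, .ini ⟨1,0,0,1,0⟩ ⟨0,0,1,0,0⟩, .ini ⟨1,0,0,1,0⟩ ⟨0,0,0,1,0⟩, .ini
  ⟨0,1,0,0,0⟩ ⟨1,0,0,1,0⟩, .ini ⟨0,1,0,0,0⟩ ⟨0,0,0,1,0⟩, .ini ⟨0,1,0,0,0⟩ ⟨0,0,0,0,1⟩, .ini
  ⟨0,0,1,0,0⟩ ⟨1,0,0,1,0⟩, .ini ⟨0,0,1,0,0⟩ ⟨0,0,0,1,0⟩, .ini ⟨0,0,1,0,0⟩ ⟨0,0,0,0,1⟩, .ini
  ⟨0,0,0,1,0⟩ ⟨1,0,0,0,0⟩, .dr 9, .ini ⟨0,0,0,1,0⟩ ⟨0,1,0,0,0⟩, .ini ⟨0,0,0,1,0⟩ ⟨0,0,1,0,0⟩, .ini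
  ⟨0,0,0,1,0⟩ ⟨0,0,0,0,1⟩, .ini ⟨0,0,0,0,1⟩ ⟨0,1,0,0,0⟩, .ini ⟨0,0,0,0,1⟩ ⟨0,0,1,0,0⟩, .ini
  ⟨0,0,0,0,1⟩ ⟨0,0,0,1,0⟩, .ini ⟨1,0,0,0,2⟩ ⟨0,1,0,0,0⟩, .ini ⟨1,0,0,0,2⟩ ⟨0,0,1,0,0⟩, .ini
  ⟨1,0,0,0,2⟩ ⟨0,0,0,1,0⟩, .ini ⟨0,0,0,0,1⟩ ⟨1,0,0,0,0⟩, .dr 20, .dl 21, .sr 19 22, .ini
  ⟨1,0,0,0,2⟩ ⟨0,0,0,0,1⟩, .ini ⟨0,1,0,0,0⟩ ⟨1,0,0,0,2⟩, .ini ⟨0,1,0,0,0⟩ ⟨1,0,0,1,1⟩, .ini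
  ⟨0,0,1,0,0⟩ ⟨1,0,0,0,2⟩, .ini ⟨0,0,1,0,0⟩ ⟨1,0,0,1,1⟩, .dr 21, .ini ⟨1,0,0,1,0⟩ ⟨0,0,0,0,1⟩, .dl
  9, .sr 30 31, .sr 30 32, .sl 29 33, .ini ⟨1,0,0,1,1⟩ ⟨0,1,0,0,0⟩, .ini ⟨1,0,0,1,1⟩ ⟨0,0,1,0,0⟩,
  .ini ⟨1,0,0,0,1⟩ ⟨0,1,0,0,0⟩, .ini ⟨1,0,0,0,1⟩ ⟨0,0,1,0,0⟩, .ini ⟨1,0,0,0,1⟩ ⟨0,0,0,1,0⟩, .dia
  ⟨1,0,0,0,1⟩ 1 1, .sr 39 40, .ini ⟨1,0,0,0,1⟩ ⟨0,0,0,0,1⟩, .sr 42 40, .ini ⟨0,1,0,0,0⟩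
  ⟨1,0,0,0,1⟩, .ini ⟨0,0,1,0,0⟩ ⟨1,0,0,0,1⟩, .ini ⟨0,0,0,1,0⟩ ⟨1,0,0,0,1⟩, .dl 46, .dl 20, .dr 48,
  .sr 39 49, .sr 39 50, .ini ⟨0,1,0,0,0⟩ ⟨2,0,0,2,1⟩, .ini ⟨0,0,1,0,0⟩ ⟨2,0,0,2,1⟩, .sl 32 47,
  .ini ⟨2,0,0,2,1⟩ ⟨0,1,0,0,0⟩, .ini ⟨2,0,0,2,1⟩ ⟨0,0,1,0,0⟩, .sr 13 10, .ini ⟨1,0,0,0,0⟩
  ⟨1,0,0,1,1⟩, .sl 58 41, .sl 57 59, .sl 57 60, .ini ⟨0,0,0,0,1⟩ ⟨1,0,0,1,0⟩, .dl 62, .dr 63, .dia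
  ⟨1,0,0,1,0⟩ 1 2, .sr 30 65, .sr 39 48, .dl 67, .sl 10 68, .ini ⟨2,0,0,0,1⟩ ⟨0,1,0,0,0⟩, .ini
  ⟨2,0,0,0,1⟩ ⟨0,0,1,0,0⟩, .ini ⟨2,0,0,0,1⟩ ⟨0,0,0,1,0⟩, .dl 48, .sr 72 73, .ini ⟨1,0,0,0,0⟩
  ⟨1,0,0,0,1⟩, .sl 75 40, .ini ⟨0,1,0,0,0⟩ ⟨2,0,0,0,1⟩, .ini ⟨0,0,1,0,0⟩ ⟨2,0,0,0,1⟩, .sr 31 31,
  .sr 30 79, .ini ⟨1,0,0,0,0⟩ ⟨0,1,0,0,0⟩, .ini ⟨1,0,0,0,0⟩ ⟨0,0,1,0,0⟩, .ini ⟨1,0,0,0,0⟩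
  ⟨1,0,0,1,0⟩, .ini ⟨1,0,0,0,0⟩ ⟨2,0,0,0,1⟩, .ini ⟨0,1,0,0,0⟩ ⟨1,0,0,0,0⟩, .ini ⟨0,0,1,0,0⟩
  ⟨1,0,0,0,0⟩]

def t23_01_10_20 : Tree :=
(.split 0 3 (.leaf [4,2,1,3,0] [0,1,2,3,4,5,6,7,8,10,11,12,13,14,15,16]) (.split 0 4 (.split 3 4
  (.split 0 4 (.leaf [0,2,1,4,3] [17,18,23,24,25,26,5,27,28,8,34,35,36,29,14,15]) (.leaf
  [0,2,1,3,4] [37,38,41,43,44,26,25,45,28,27,47,35,36,34,22,17,18,23])) (.split 3 4 (.leaf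
  [0,2,1,3,4] [37,38,51,41,44,52,26,45,53,28,54,55,56,61,47,35,36,64]) (.leaf [3,2,1,0,4]
  [37,38,51,44,3,52,45,6,53,0,1,66,54,55,56,69]))) (.split 0 4 (.leaf [0,2,1,4,3]
  [70,71,74,76,77,3,44,78,6,45,80,0,1,49,37,38]) (.leaf [0,2,1,3,4]
  [81,82,83,84,85,3,77,86,6,78,31,0,1,80,73,70,71,74]))))

def c23_01_10_20 : Cert 2 3 where
  T := [[0, 1], [1, 0], [2, 0]]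
  W := ⟨0, 0, 1, 2, 1, 0, 0⟩
  hW := rfl
  steps := s23_01_10_20_0
  tree := t23_01_10_20
  ok := by decide +kernel

def s23_01_10_11_0 : List Step := [
.ini ⟨0,0,0,0,1⟩ ⟨0,1,0,0,0⟩, .dr 0, .ini ⟨1,0,0,1,0⟩ ⟨0,1,0,0,1⟩, .sl 1 2, .ini ⟨1,0,0,1,1⟩
  ⟨0,0,1,0,0⟩, .ini ⟨1,0,0,1,1⟩ ⟨0,0,0,1,0⟩, .ini ⟨1,0,0,1,1⟩ ⟨0,0,0,0,1⟩, .ini ⟨0,1,0,0,1⟩
  ⟨0,0,0,1,0⟩, .ini ⟨0,0,0,0,1⟩ ⟨1,0,0,0,0⟩, .dr 8, .ini ⟨0,1,0,0,0⟩ ⟨1,0,0,0,1⟩, .sl 9 10, .sr 7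
  11, .ini ⟨0,1,0,0,1⟩ ⟨0,0,0,0,1⟩, .ini ⟨0,0,1,0,0⟩ ⟨1,0,0,1,1⟩, .ini ⟨0,0,1,0,0⟩ ⟨0,0,0,1,0⟩,
  .ini ⟨0,0,1,0,0⟩ ⟨0,0,0,0,1⟩, .ini ⟨0,0,0,1,0⟩ ⟨0,0,0,0,1⟩, .ini ⟨0,0,0,1,0⟩ ⟨1,0,0,0,0⟩, .dr
  18, .sr 17 19, .ini ⟨0,0,0,1,0⟩ ⟨0,1,0,0,1⟩, .ini ⟨0,0,0,1,0⟩ ⟨0,0,1,0,0⟩, .ini ⟨0,0,0,0,1⟩
  ⟨1,0,0,1,0⟩, .dr 23, .ini ⟨0,0,0,0,1⟩ ⟨0,0,1,0,0⟩, .ini ⟨0,0,0,0,1⟩ ⟨0,0,0,1,0⟩, .ini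
  ⟨0,1,1,0,0⟩ ⟨0,0,1,0,0⟩, .ini ⟨0,1,1,0,0⟩ ⟨0,0,0,1,0⟩, .ini ⟨0,1,1,0,0⟩ ⟨0,0,0,0,1⟩, .ini
  ⟨0,0,1,0,0⟩ ⟨0,1,0,0,0⟩, .dl 30, .sr 29 31, .dr 30, .ini ⟨0,0,0,1,0⟩ ⟨0,1,1,0,0⟩, .ini
  ⟨0,1,0,0,1⟩ ⟨0,0,1,0,0⟩, .dl 0, .sr 35 36, .ini ⟨0,0,0,1,0⟩ ⟨0,1,0,0,0⟩, .ini ⟨1,0,0,0,1⟩
  ⟨0,1,0,0,0⟩, .dl 39, .sl 38 40, .ini ⟨1,0,0,0,0⟩ ⟨0,1,1,0,0⟩, .sl 42 37, .sl 34 43, .ini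
  ⟨1,1,0,1,1⟩ ⟨0,0,0,1,0⟩, .ini ⟨1,1,0,0,0⟩ ⟨0,1,0,0,1⟩, .sl 1 46, .sl 21 47, .ini ⟨0,1,0,0,0⟩
  ⟨1,1,0,1,1⟩, .ini ⟨0,1,0,0,0⟩ ⟨0,1,1,0,0⟩, .ini ⟨0,1,0,0,0⟩ ⟨0,0,0,1,0⟩, .ini ⟨0,1,0,0,0⟩
  ⟨0,1,0,0,1⟩, .ini ⟨0,1,1,0,0⟩ ⟨1,0,0,0,0⟩, .sr 31 53, .sr 29 54, .sr 28 55, .ini ⟨0,0,0,1,0⟩
  ⟨1,1,0,0,1⟩, .dr 57, .sr 36 11, .sr 7 59, .ini ⟨1,0,0,1,1⟩ ⟨0,1,0,0,0⟩, .dr 61, .ini ⟨1,1,0,0,0⟩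
  ⟨1,0,0,1,1⟩, .sl 24 63, .sl 20 64, .ini ⟨1,0,0,1,0⟩ ⟨0,1,1,0,0⟩, .ini ⟨1,0,0,1,0⟩ ⟨0,0,1,0,0⟩,
  .ini ⟨1,0,0,1,0⟩ ⟨0,0,0,1,0⟩, .ini ⟨1,0,0,1,0⟩ ⟨0,0,0,0,1⟩, .dia ⟨1,0,0,1,0⟩ 1 1, .sr 69 70,
  .ini ⟨0,1,1,0,0⟩ ⟨1,0,0,1,0⟩, .ini ⟨0,0,1,0,0⟩ ⟨1,0,0,1,0⟩, .dl 23, .ini ⟨1,0,0,1,0⟩
  ⟨0,1,0,0,0⟩, .dl 18, .sr 75 76, .sr 69 77, .sr 68 78, .ini ⟨0,1,0,0,0⟩ ⟨1,0,0,1,0⟩, .ini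
  ⟨1,0,0,0,1⟩ ⟨0,0,0,1,0⟩, .dl 8, .sr 81 82, .sl 80 83, .sl 19 84, .ini ⟨1,0,0,0,0⟩ ⟨0,1,0,0,1⟩,
  .sl 1 86, .ini ⟨1,0,0,0,1⟩ ⟨0,0,1,0,0⟩, .ini ⟨1,0,0,0,1⟩ ⟨0,0,0,0,1⟩, .sr 89 83, .ini
  ⟨0,0,1,0,0⟩ ⟨1,0,0,0,1⟩, .sr 69 76, .sl 9 92, .sr 88 87, .ini ⟨0,1,1,0,0⟩ ⟨1,0,0,0,1⟩, .sl 9 95,
  .ini ⟨0,1,1,0,1⟩ ⟨0,0,1,0,0⟩, .ini ⟨0,1,1,0,1⟩ ⟨0,0,0,1,0⟩, .sr 98 96, .sr 16 33, .ini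
  ⟨0,0,0,0,1⟩ ⟨0,1,1,0,0⟩, .dr 101, .ini ⟨1,0,0,1,0⟩ ⟨0,1,1,0,1⟩, .sl 102 103, .dr 39, .sr 88 105,
  .sr 81 106, .sr 35 59, .sr 7 108, .sl 95 92, .sl 9 110, .sl 32 2, .sl 1 112, .sl 73 84, .sl 19
  114, .ini ⟨0,0,1,1,0⟩ ⟨0,0,0,0,1⟩, .sl 19 73, .sr 116 117, .sl 118 63, .sl 24 119, .ini
  ⟨1,0,0,1,0⟩ ⟨0,0,1,1,0⟩, .sr 121 77, .sr 69 122, .sr 4 62, .sr 13 37, .sl 1 32, .ini ⟨0,1,1,0,1⟩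
  ⟨1,0,0,0,0⟩, .dr 127, .sr 98 128, .sl 34 33, .sr 116 130, .ini ⟨1,1,0,0,0⟩ ⟨0,1,1,0,1⟩, .sl 131
  132, .sl 102 133, .ini ⟨0,1,1,0,0⟩ ⟨0,0,1,1,0⟩, .sr 135 54, .sr 29 136, .sl 33 43, .sl 34 138,
  .dia ⟨0,1,1,0,0⟩ 1 1, .sr 29 140, .dl 101, .ini ⟨0,1,0,0,0⟩ ⟨1,1,0,0,1⟩, .ini ⟨1,1,0,0,0⟩
  ⟨1,0,0,0,1⟩, .sl 9 144, .ini ⟨1,0,0,0,0⟩ ⟨0,0,1,0,0⟩, .ini ⟨1,0,0,0,0⟩ ⟨1,0,0,1,0⟩, .ini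
  ⟨1,0,0,0,0⟩ ⟨1,0,0,0,1⟩, .ini ⟨0,0,1,0,0⟩ ⟨1,0,0,0,0⟩, .ini ⟨1,0,0,0,0⟩ ⟨1,1,0,0,1⟩, .ini
  ⟨0,1,0,0,0⟩ ⟨1,0,0,0,0⟩, .sl 151 82, .ini ⟨1,0,0,0,0⟩ ⟨0,1,0,0,0⟩]

def t23_01_10_11 : Tree :=
(.split 0 3 (.split 0 4 (.split 1 4 (.leaf [0,2,1,3,4]
  [3,4,5,6,12,7,13,14,15,16,20,21,22,17,24,1,25,26]) (.split 1 2 (.leaf [1,0,4,3,2]
  [4,5,3,27,28,32,14,33,15,20,34,22,21,12,37,7]) (.split 0 1 (.leaf [0,1,2,3,4]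
  [41,44,45,48,49,50,51,52,56,31,28,32,58,38,34,21,60,36,37,7]) (.leaf [2,1,0,3,4]
  [62,5,3,65,44,45,48,56,28,32,20,58,34,21,12,60,37,7])))) (.split 1 2 (.leaf [0,4,2,3,1]
  [66,67,68,71,72,27,28,73,33,15,14,19,34,22,20,74,4,5]) (.split 1 4 (.leaf [0,1,4,3,2]
  [79,66,68,71,85,44,45,65,72,56,28,19,58,34,20,74,62,5]) (.leaf [0,1,2,3,4]
  [75,66,68,79,80,50,51,49,72,31,28,56,19,38,34,58,85,41,44,45])))) (.split 0 4 (.split 1 4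
  (.split 3 4 (.leaf [0,2,1,3,4] [87,88,90,89,11,12,13,91,14,16,93,3,4,6,9,1,25,24]) (.split 1 2
  (.leaf [0,3,2,1,4] [94,88,83,90,96,97,99,91,100,73,14,92,67,71,93,104,4,74]) (.split 2 3 (.leaf
  [0,3,2,1,4] [87,107,83,90,11,109,12,111,113,115,120,92,123,71,93,3,124,74]) (.leaf [0,1,2,3,4]
  [87,94,107,90,11,125,109,12,96,126,129,99,111,113,134,120,93,3,104,124])))) (.split 1 2 (.split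
  2 4 (.split 2 3 (.leaf [1,0,2,4,3] [107,83,87,137,72,32,111,139,115,113,92,66,123,11,37,109])
  (.leaf [1,0,2,3,4] [94,107,87,141,137,32,96,142,129,126,111,139,134,113,11,37,125,109])) (.leaf
  [1,0,2,4,3] [88,83,94,27,72,141,91,33,73,100,92,66,67,96,142,97])) (.split 0 1 (.leaf
  [0,1,2,4,3] [40,43,84,47,143,50,80,52,55,31,72,32,78,75,66,59,36,37]) (.leaf [2,1,0,4,3]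
  [105,83,87,145,43,84,47,55,72,32,92,78,66,11,59,37])))) (.split 1 2 (.leaf [0,4,2,3,1]
  [42,146,147,148,53,27,72,149,33,73,91,76,66,67,92,82,88,83]) (.split 1 4 (.leaf [0,1,4,3,2]
  [150,42,147,148,152,43,84,145,53,55,72,76,78,66,92,82,105,83]) (.leaf [0,1,2,3,4]
  [153,42,147,150,151,50,80,143,53,31,72,55,76,75,66,78,152,40,43,84])))))

def c23_01_10_11 : Cert 2 3 where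
  T := [[0, 1], [1, 0], [1, 1]]
  W := ⟨0, 0, 1, 1, 1, 0, 1⟩
  hW := rfl
  steps := s23_01_10_11_0
  tree := t23_01_10_11
  ok := by decide +kernel

def s23_01_10_02_0 : List Step := [
.ini ⟨1,0,0,0,0⟩ ⟨0,1,1,0,0⟩, .ini ⟨1,0,0,0,0⟩ ⟨0,0,1,0,0⟩, .ini ⟨1,0,0,0,0⟩ ⟨0,0,0,0,1⟩, .ini
  ⟨0,1,1,0,0⟩ ⟨1,0,0,0,0⟩, .ini ⟨0,1,1,0,0⟩ ⟨0,0,1,0,0⟩, .ini ⟨0,1,1,0,0⟩ ⟨0,0,0,1,0⟩, .ini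
  ⟨0,0,1,0,0⟩ ⟨1,0,0,0,0⟩, .ini ⟨0,0,1,0,0⟩ ⟨0,1,0,0,0⟩, .dr 7, .ini ⟨0,0,1,0,0⟩ ⟨0,0,0,1,0⟩, .ini
  ⟨0,0,1,0,0⟩ ⟨0,0,0,0,1⟩, .ini ⟨0,0,0,1,0⟩ ⟨0,1,1,0,0⟩, .ini ⟨0,0,0,1,0⟩ ⟨0,0,1,0,0⟩, .ini
  ⟨0,0,0,1,0⟩ ⟨0,0,0,0,1⟩, .ini ⟨0,0,0,0,1⟩ ⟨1,0,0,0,0⟩, .ini ⟨0,0,0,0,1⟩ ⟨0,0,1,0,0⟩, .ini
  ⟨0,0,0,0,1⟩ ⟨0,0,0,1,0⟩, .ini ⟨1,0,0,0,0⟩ ⟨0,1,0,0,2⟩, .ini ⟨1,0,0,0,0⟩ ⟨0,1,1,0,1⟩, .ini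
  ⟨0,1,0,0,2⟩ ⟨1,0,0,0,0⟩, .ini ⟨0,1,0,0,2⟩ ⟨0,0,1,0,0⟩, .ini ⟨0,0,0,0,1⟩ ⟨0,1,0,0,0⟩, .dr 21, .dl
  22, .sr 20 23, .ini ⟨0,1,0,0,2⟩ ⟨0,0,0,1,0⟩, .ini ⟨0,1,0,0,2⟩ ⟨0,0,0,0,1⟩, .ini ⟨0,1,1,0,1⟩
  ⟨1,0,0,0,0⟩, .dr 22, .ini ⟨0,1,1,0,0⟩ ⟨0,0,0,0,1⟩, .dl 7, .sr 29 30, .sr 29 31, .sl 28 32, .ini
  ⟨0,1,1,0,1⟩ ⟨0,0,0,1,0⟩, .ini ⟨0,0,0,1,0⟩ ⟨0,1,0,0,2⟩, .ini ⟨0,0,0,1,0⟩ ⟨0,1,1,0,1⟩, .ini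
  ⟨1,0,0,0,0⟩ ⟨0,1,0,0,1⟩, .ini ⟨0,1,0,0,1⟩ ⟨1,0,0,0,0⟩, .ini ⟨0,1,0,0,1⟩ ⟨0,0,1,0,0⟩, .dia
  ⟨0,1,0,0,1⟩ 1 1, .sr 39 40, .ini ⟨0,1,0,0,1⟩ ⟨0,0,0,1,0⟩, .ini ⟨0,1,0,0,1⟩ ⟨0,0,0,0,1⟩, .sr 43
  40, .ini ⟨0,0,1,0,0⟩ ⟨0,1,0,0,1⟩, .dl 45, .ini ⟨0,0,0,1,0⟩ ⟨0,1,0,0,1⟩, .ini ⟨1,0,0,0,0⟩
  ⟨0,2,2,0,1⟩, .dl 21, .dr 49, .sr 39 50, .sr 39 51, .ini ⟨0,2,2,0,1⟩ ⟨1,0,0,0,0⟩, .sl 31 46, .ini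
  ⟨0,2,2,0,1⟩ ⟨0,0,0,1,0⟩, .sr 10 8, .ini ⟨0,1,0,0,0⟩ ⟨0,1,1,0,1⟩, .sl 57 41, .sl 56 58, .sl 56
  59, .ini ⟨0,0,0,1,0⟩ ⟨0,2,2,0,1⟩, .ini ⟨0,0,0,0,1⟩ ⟨0,1,1,0,0⟩, .dl 62, .dr 63, .dia ⟨0,1,1,0,0⟩
  1 2, .sr 29 65, .sr 39 49, .dl 67, .sl 8 68, .ini ⟨1,0,0,0,0⟩ ⟨0,2,0,0,1⟩, .ini ⟨0,2,0,0,1⟩
  ⟨1,0,0,0,0⟩, .ini ⟨0,2,0,0,1⟩ ⟨0,0,1,0,0⟩, .dl 49, .sr 72 73, .ini ⟨0,2,0,0,1⟩ ⟨0,0,0,1,0⟩, .ini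
  ⟨0,1,0,0,0⟩ ⟨0,1,0,0,1⟩, .sl 76 40, .sr 30 30, .sr 29 78, .ini ⟨0,0,0,1,0⟩ ⟨0,2,0,0,1⟩, .ini
  ⟨1,0,0,0,0⟩ ⟨0,1,0,0,0⟩, .ini ⟨0,1,0,0,0⟩ ⟨1,0,0,0,0⟩, .ini ⟨0,1,0,0,0⟩ ⟨0,1,1,0,0⟩, .ini
  ⟨0,1,0,0,0⟩ ⟨0,0,0,1,0⟩, .ini ⟨0,1,0,0,0⟩ ⟨0,2,0,0,1⟩, .ini ⟨0,0,0,1,0⟩ ⟨0,1,0,0,0⟩]

def t23_01_10_02 : Tree :=
(.split 1 2 (.leaf [3,4,2,0,1] [0,1,2,3,4,5,6,8,9,10,11,12,13,14,15,16]) (.split 1 4 (.split 2 4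
  (.split 1 4 (.leaf [3,1,4,0,2] [17,18,2,19,24,25,26,27,33,34,35,36,13,14,28,16]) (.leaf
  [3,1,2,0,4] [37,18,17,38,41,42,44,27,46,34,33,47,36,35,19,23,24,25])) (.split 2 4 (.leaf
  [3,1,2,0,4] [37,48,18,38,52,42,41,53,54,55,60,47,61,36,27,46,64,34]) (.leaf [3,2,1,0,4]
  [37,0,48,38,42,52,3,5,66,47,11,61,53,54,69,55]))) (.split 1 4 (.leaf [3,1,4,0,2]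
  [70,0,37,71,74,75,77,3,79,5,80,11,47,38,50,42]) (.leaf [3,1,2,0,4]
  [81,0,70,82,83,84,85,3,30,5,79,86,11,80,71,73,74,75]))))

def c23_01_10_02 : Cert 2 3 where
  T := [[0, 1], [1, 0], [0, 2]]
  W := ⟨0, 0, 1, 0, 1, 0, 2⟩
  hW := rfl
  steps := s23_01_10_02_0
  tree := t23_01_10_02
  ok := by decide +kernel

def s23_01_01_20_0 : List Step := [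
.ini ⟨1,0,0,0,0⟩ ⟨0,1,1,0,0⟩, .ini ⟨1,0,0,0,0⟩ ⟨0,0,1,0,0⟩, .ini ⟨1,0,0,0,0⟩ ⟨0,0,0,1,0⟩, .ini
  ⟨0,1,1,0,0⟩ ⟨1,0,0,0,0⟩, .ini ⟨0,1,1,0,0⟩ ⟨0,0,1,0,0⟩, .ini ⟨0,1,1,0,0⟩ ⟨0,0,0,0,1⟩, .ini
  ⟨0,0,1,0,0⟩ ⟨1,0,0,0,0⟩, .ini ⟨0,0,1,0,0⟩ ⟨0,1,0,0,0⟩, .dr 7, .ini ⟨0,0,1,0,0⟩ ⟨0,0,0,1,0⟩, .ini
  ⟨0,0,1,0,0⟩ ⟨0,0,0,0,1⟩, .ini ⟨0,0,0,1,0⟩ ⟨1,0,0,0,0⟩, .ini ⟨0,0,0,1,0⟩ ⟨0,0,1,0,0⟩, .ini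
  ⟨0,0,0,1,0⟩ ⟨0,0,0,0,1⟩, .ini ⟨0,0,0,0,1⟩ ⟨0,1,1,0,0⟩, .ini ⟨0,0,0,0,1⟩ ⟨0,0,1,0,0⟩, .ini
  ⟨0,0,0,0,1⟩ ⟨0,0,0,1,0⟩, .ini ⟨1,0,0,0,0⟩ ⟨0,1,0,1,0⟩, .ini ⟨0,1,0,1,0⟩ ⟨1,0,0,0,0⟩, .ini
  ⟨0,1,0,1,0⟩ ⟨0,0,1,0,0⟩, .ini ⟨0,0,0,1,0⟩ ⟨0,1,0,0,0⟩, .dl 20, .sr 19 21, .ini ⟨0,1,0,1,0⟩
  ⟨0,0,0,1,0⟩, .ini ⟨0,1,0,1,0⟩ ⟨0,0,0,0,1⟩, .ini ⟨0,1,1,0,0⟩ ⟨0,0,0,1,0⟩, .dl 7, .sr 25 26, .dr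
  20, .ini ⟨0,0,0,0,1⟩ ⟨0,1,0,1,0⟩, .ini ⟨1,0,0,0,0⟩ ⟨0,1,0,0,0⟩, .ini ⟨0,1,0,0,0⟩ ⟨1,0,0,0,0⟩,
  .ini ⟨0,1,0,0,0⟩ ⟨0,1,1,0,0⟩, .ini ⟨0,1,0,0,0⟩ ⟨0,1,0,1,0⟩, .ini ⟨0,1,0,0,0⟩ ⟨0,0,0,0,1⟩, .ini
  ⟨0,0,0,0,1⟩ ⟨0,1,0,0,0⟩]

def t23_01_01_20 : Tree :=
(.split 1 2 (.leaf [4,3,2,1,0] [0,1,2,3,4,5,6,8,9,10,11,12,13,14,15,16]) (.split 1 3 (.leaf
  [4,1,3,2,0] [17,0,2,18,22,23,24,3,27,5,11,28,13,29,14,16]) (.leaf [4,1,2,3,0]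
  [30,0,17,31,32,33,34,3,26,27,5,18,21,22,24,35,14,29])))

def c23_01_01_20 : Cert 2 3 where
  T := [[0, 1], [0, 1], [2, 0]]
  W := ⟨0, 0, 0, 2, 1, 1, 0⟩
  hW := rfl
  steps := s23_01_01_20_0
  tree := t23_01_01_20
  ok := by decide +kernel

def s23_01_01_11_0 : List Step := [
.ini ⟨1,0,0,0,1⟩ ⟨0,0,1,0,0⟩, .ini ⟨0,0,0,0,1⟩ ⟨0,1,0,0,0⟩, .dr 1, .ini ⟨1,0,0,0,0⟩ ⟨0,1,0,0,1⟩,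
  .sl 2 3, .sr 0 4, .ini ⟨1,0,0,0,1⟩ ⟨0,0,0,1,0⟩, .ini ⟨1,0,0,0,1⟩ ⟨0,0,0,0,1⟩, .ini ⟨0,0,0,0,1⟩
  ⟨1,0,0,0,0⟩, .dr 8, .ini ⟨0,1,1,0,0⟩ ⟨1,0,0,0,1⟩, .sl 9 10, .ini ⟨0,1,1,0,1⟩ ⟨0,0,1,0,0⟩, .ini
  ⟨0,1,1,0,1⟩ ⟨0,0,0,0,1⟩, .ini ⟨0,0,1,0,0⟩ ⟨1,0,0,0,1⟩, .ini ⟨0,0,1,0,0⟩ ⟨0,0,0,0,1⟩, .ini
  ⟨0,0,1,0,0⟩ ⟨0,1,0,0,0⟩, .dr 16, .sr 15 17, .ini ⟨0,0,1,0,0⟩ ⟨0,0,0,1,0⟩, .ini ⟨0,0,0,1,0⟩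
  ⟨1,0,0,0,1⟩, .ini ⟨0,0,0,1,0⟩ ⟨0,0,1,0,0⟩, .ini ⟨0,0,0,1,0⟩ ⟨0,0,0,0,1⟩, .ini ⟨0,0,0,0,1⟩
  ⟨0,1,1,0,0⟩, .dr 23, .ini ⟨0,0,0,0,1⟩ ⟨0,0,1,0,0⟩, .ini ⟨0,0,0,0,1⟩ ⟨0,0,0,1,0⟩, .ini
  ⟨0,1,1,1,0⟩ ⟨0,0,1,0,0⟩, .ini ⟨0,1,1,1,0⟩ ⟨0,0,0,1,0⟩, .ini ⟨0,1,0,1,0⟩ ⟨0,0,0,0,1⟩, .ini
  ⟨0,1,0,1,0⟩ ⟨0,0,1,0,0⟩, .ini ⟨0,0,0,1,0⟩ ⟨0,1,0,0,0⟩, .dl 31, .sr 30 32, .sr 29 33, .sl 18 34,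
  .sr 19 17, .ini ⟨0,0,0,1,0⟩ ⟨0,1,1,0,0⟩, .dr 37, .ini ⟨0,1,1,0,1⟩ ⟨0,0,0,1,0⟩, .dl 23, .sr 39
  40, .ini ⟨1,0,0,0,0⟩ ⟨0,1,1,0,0⟩, .sl 42 40, .ini ⟨1,1,1,0,1⟩ ⟨0,0,1,0,0⟩, .ini ⟨1,1,1,0,1⟩
  ⟨0,0,0,1,0⟩, .sr 45 43, .ini ⟨1,0,0,0,0⟩ ⟨0,1,1,0,1⟩, .dia ⟨0,1,1,0,1⟩ 1 1, .sl 47 48, .ini
  ⟨0,1,1,0,0⟩ ⟨1,0,0,0,0⟩, .ini ⟨0,1,1,0,0⟩ ⟨0,0,0,0,1⟩, .dia ⟨0,1,1,0,0⟩ 1 1, .sr 51 52, .sr 50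
  53, .ini ⟨0,1,1,0,0⟩ ⟨0,0,1,0,0⟩, .ini ⟨0,1,1,0,0⟩ ⟨0,0,0,1,0⟩, .sr 56 52, .ini ⟨0,0,1,0,0⟩
  ⟨1,0,0,0,0⟩, .sr 58 18, .ini ⟨0,1,0,1,0⟩ ⟨1,0,0,0,0⟩, .sr 60 34, .sl 59 61, .dl 37, .ini
  ⟨0,1,1,0,1⟩ ⟨1,0,0,0,0⟩, .dr 64, .dl 8, .sr 66 5, .ini ⟨1,0,0,0,0⟩ ⟨1,0,0,0,1⟩, .sl 68 11, .ini
  ⟨1,0,0,0,0⟩ ⟨0,1,1,1,0⟩, .ini ⟨1,0,0,0,0⟩ ⟨0,0,1,0,0⟩, .ini ⟨1,0,0,0,0⟩ ⟨0,0,0,1,0⟩, .ini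
  ⟨0,1,1,1,0⟩ ⟨1,0,0,0,0⟩, .ini ⟨0,0,0,1,0⟩ ⟨1,0,0,0,0⟩, .ini ⟨1,0,0,0,0⟩ ⟨1,1,1,0,1⟩, .dl 64, .sr
  6 4, .ini ⟨0,1,0,1,0⟩ ⟨1,0,0,0,1⟩, .sl 9 78, .ini ⟨0,1,0,1,1⟩ ⟨0,0,1,0,0⟩, .sr 29 32, .sl 2 81,
  .sr 80 82, .ini ⟨0,1,0,1,1⟩ ⟨0,0,0,1,0⟩, .ini ⟨0,1,0,1,1⟩ ⟨0,0,0,0,1⟩, .ini ⟨0,0,0,0,1⟩
  ⟨0,1,0,1,0⟩, .dr 86, .dl 16, .sr 56 88, .sr 51 89, .sl 87 90, .dr 31, .sr 22 92, .ini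
  ⟨0,1,0,0,0⟩ ⟨1,0,0,0,1⟩, .sl 9 94, .ini ⟨0,1,0,0,1⟩ ⟨0,0,0,0,1⟩, .ini ⟨0,1,0,0,1⟩ ⟨0,0,1,0,0⟩,
  .dl 1, .sr 97 98, .sr 96 99, .ini ⟨0,1,0,0,1⟩ ⟨0,0,0,1,0⟩, .sr 101 98, .sr 96 102, .sr 51 88,
  .sl 2 104, .ini ⟨1,0,0,0,0⟩ ⟨0,1,0,1,1⟩, .sl 93 90, .sl 106 107, .sl 87 108, .sl 38 46, .ini
  ⟨1,1,1,1,1⟩ ⟨0,0,0,1,0⟩, .sl 47 35, .sl 24 112, .ini ⟨0,1,0,1,1⟩ ⟨1,0,0,0,0⟩, .dr 114, .sr 80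
  115, .dl 86, .sr 80 117, .ini ⟨0,1,1,1,0⟩ ⟨0,0,0,0,1⟩, .dia ⟨0,1,1,1,0⟩ 1 1, .sr 73 120, .sr 119
  121, .sr 74 38, .sr 22 123, .sr 39 65, .ini ⟨1,1,1,0,1⟩ ⟨0,0,0,0,1⟩, .sr 76 46, .sr 126 127,
  .ini ⟨0,0,0,1,0⟩ ⟨1,1,1,0,1⟩, .dl 129, .sl 3 105, .ini ⟨0,1,0,0,1⟩ ⟨1,0,1,0,0⟩, .dr 132, .sr 6
  67, .ini ⟨1,1,1,1,0⟩ ⟨1,0,0,0,1⟩, .sl 9 135, .dia ⟨0,1,0,1,1⟩ 1 1, .sl 106 137, .ini ⟨1,1,0,1,1⟩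
  ⟨0,0,0,0,1⟩, .dl 114, .ini ⟨1,1,0,1,1⟩ ⟨0,0,1,0,0⟩, .ini ⟨1,0,0,0,0⟩ ⟨0,1,0,1,0⟩, .sl 142 117,
  .sr 141 143, .sr 140 144, .sr 139 145, .ini ⟨1,1,0,1,1⟩ ⟨0,0,0,1,0⟩, .sl 68 79, .sr 74 93, .sr
  50 90, .sr 66 77, .sl 150 151, .sl 149 152, .sl 47 83, .sr 140 154, .ini ⟨1,0,0,0,0⟩
  ⟨1,1,0,1,1⟩, .sl 3 82, .ini ⟨0,1,0,0,1⟩ ⟨1,0,0,1,0⟩, .dr 158, .sl 149 150, .ini ⟨1,1,0,0,0⟩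
  ⟨0,1,0,0,1⟩, .sl 2 161, .sl 42 99, .ini ⟨0,1,0,0,0⟩ ⟨1,1,0,1,1⟩, .sl 164 151, .ini ⟨0,1,0,0,0⟩
  ⟨1,1,1,0,1⟩, .sl 166 67, .sr 98 95, .sr 88 50, .sr 51 169, .sr 140 157, .sr 76 131, .ini
  ⟨1,0,0,0,0⟩ ⟨1,1,0,0,1⟩, .ini ⟨0,1,0,0,0⟩ ⟨1,0,0,0,0⟩, .sl 174 66, .dia ⟨0,1,0,1,0⟩ 1 1, .sr 29
  176, .sr 60 177, .ini ⟨0,1,0,1,0⟩ ⟨0,0,0,1,0⟩, .sr 179 33, .sl 92 89, .sl 142 102, .sr 32 60,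
  .sr 29 183, .ini ⟨1,0,0,0,0⟩ ⟨0,1,0,0,0⟩, .ini ⟨0,1,0,0,0⟩ ⟨0,1,1,0,0⟩, .ini ⟨0,1,0,0,0⟩
  ⟨0,1,0,1,0⟩, .ini ⟨0,1,0,0,0⟩ ⟨0,1,0,0,1⟩]

def t23_01_01_11 : Tree :=
(.split 1 2 (.split 0 4 (.split 1 4 (.leaf [0,3,2,1,4]
  [5,0,6,7,11,12,13,14,18,19,15,20,21,22,9,24,25,26]) (.split 1 3 (.leaf [1,0,2,4,3]
  [0,6,5,27,28,35,14,36,19,18,20,38,21,11,41,12]) (.split 0 1 (.leaf [0,1,2,3,4]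
  [43,44,46,49,54,55,57,53,59,17,36,18,62,63,27,35,65,40,12,41]) (.leaf [3,1,2,0,4]
  [67,0,5,69,44,46,49,14,59,36,18,62,27,35,11,65,12,41])))) (.split 1 3 (.leaf [0,4,2,3,1]
  [70,71,72,68,73,27,28,58,36,19,14,74,38,21,20,66,0,6]) (.split 1 4 (.leaf [0,1,2,4,3]
  [75,71,70,68,76,44,46,69,58,59,36,14,73,62,27,66,67,0]) (.leaf [0,1,2,3,4]
  [42,71,70,75,50,55,57,54,58,17,36,59,73,63,27,62,76,43,44,46])))) (.split 1 4 (.split 0 4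
  (.split 2 4 (.split 1 3 (.leaf [0,1,3,2,4] [77,5,6,7,79,83,84,85,11,91,13,20,93,22,9,87,24,26])
  (.leaf [0,1,2,3,4] [4,5,77,7,95,100,103,96,11,105,91,13,79,82,83,85,9,2,24,87])) (.split 0 2
  (.split 2 3 (.split 1 3 (.split 0 3 (.leaf [0,1,2,4,3]
  [109,110,111,113,116,118,84,83,122,107,28,35,124,93,38,125,91,41]) (.leaf [1,0,2,3,4]
  [46,128,49,118,116,83,62,107,122,35,130,109,110,113,65,91,41,125])) (.leaf [3,2,1,0,4]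
  [131,46,49,133,103,100,62,107,35,82,118,83,65,105,41,91])) (.leaf [0,3,2,1,4]
  [131,43,46,49,133,99,100,54,104,57,53,62,63,35,65,105,40,41])) (.split 1 3 (.split 2 3 (.leaf
  [0,1,2,4,3] [77,134,6,5,79,116,84,83,136,109,111,113,20,93,124,11,91,125]) (.leaf [0,2,1,3,4]
  [77,67,134,5,79,116,83,69,128,49,136,109,130,113,11,91,65,125])) (.leaf [0,1,3,2,4]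
  [4,67,77,5,95,133,103,100,69,131,49,79,82,83,11,105,65,91])))) (.split 2 4 (.split 1 3 (.split 0
  1 (.split 2 3 (.leaf [0,1,2,3,4]
  [138,146,147,148,115,116,84,79,153,109,111,136,149,93,124,20,151,77,134,6]) (.leaf [0,2,1,3,4]
  [138,155,146,148,115,116,79,152,128,69,153,109,130,136,151,77,67,134])) (.leaf [0,1,3,2,4]
  [156,75,72,68,140,155,147,148,76,152,69,74,149,20,66,151,67,6])) (.split 0 3 (.leaf [0,1,3,2,4]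
  [157,155,138,148,159,133,103,95,152,131,69,115,82,79,151,4,67,77]) (.leaf [1,0,2,3,4]
  [75,156,68,133,159,95,76,131,152,69,140,157,155,148,66,4,67,151]))) (.split 0 1 (.split 0 3
  (.split 2 3 (.split 1 3 (.split 3 4 (.leaf [0,4,2,3,1]
  [138,144,146,155,115,118,116,160,107,122,62,153,109,110,130,152,46,128]) (.leaf [0,1,2,3,4]
  [138,144,147,146,115,118,84,116,160,107,28,122,149,93,38,124,153,109,110,111])) (.leaf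
  [0,2,1,4,3] [157,144,138,155,159,103,133,160,107,62,115,82,118,152,131,46])) (.leaf [2,3,0,1,4]
  [157,144,155,159,99,133,104,57,54,160,63,62,152,131,43,46])) (.leaf [0,1,3,2,4]
  [162,163,165,167,168,99,159,133,170,104,54,171,157,155,172,131,43,152])) (.split 1 3 (.split 2 3
  (.leaf [0,1,2,4,3] [156,70,72,75,140,144,147,155,73,160,28,62,74,149,38,76,152,46]) (.leaf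
  [0,2,1,3,4] [156,42,70,75,140,144,155,50,57,54,73,160,63,62,76,152,43,46])) (.leaf [0,1,3,2,4]
  [173,42,156,75,175,163,165,167,50,170,54,140,171,155,76,172,43,152]))))) (.split 1 3 (.split 0 4
  (.split 0 3 (.split 2 3 (.split 3 4 (.leaf [0,1,4,3,2]
  [143,144,138,157,178,180,177,81,160,181,107,115,117,118,82,159,102,103]) (.leaf [0,1,2,3,4]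
  [143,144,147,138,178,180,179,177,160,181,28,107,149,92,38,93,115,117,118,84])) (.leaf
  [2,1,0,4,3] [143,144,157,178,33,180,81,89,57,104,160,181,63,159,102,99])) (.leaf [0,1,3,2,4]
  [182,163,165,162,184,33,178,81,170,89,104,171,143,157,168,102,99,159])) (.split 2 3 (.split 3 4
  (.leaf [0,1,4,3,2] [142,70,156,173,60,180,178,184,73,181,160,140,143,144,171,175,182,165])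
  (.leaf [0,1,2,3,4] [142,70,72,156,60,180,179,178,73,181,28,160,74,92,38,149,140,143,144,147]))
  (.leaf [0,1,2,4,3] [142,42,70,173,60,33,180,184,50,89,57,170,73,181,63,175,182,163]))) (.leaf
  [4,1,2,3,0] [185,42,142,174,186,187,188,50,88,89,104,60,32,33,81,98,99,102]))))

def c23_01_01_11 : Cert 2 3 where
  T := [[0, 1], [0, 1], [1, 1]]
  W := ⟨0, 0, 0, 1, 1, 1, 1⟩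
  hW := rfl
  steps := s23_01_01_11_0
  tree := t23_01_01_11
  ok := by decide +kernel

def s23_01_01_02_0 : List Step := [
.ini ⟨1,0,0,0,0⟩ ⟨0,1,1,1,0⟩, .ini ⟨1,0,0,0,0⟩ ⟨0,0,1,0,0⟩, .ini ⟨1,0,0,0,0⟩ ⟨0,0,0,1,0⟩, .ini
  ⟨1,0,0,0,0⟩ ⟨0,0,0,0,1⟩, .ini ⟨0,1,1,1,0⟩ ⟨1,0,0,0,0⟩, .ini ⟨0,1,1,1,0⟩ ⟨0,0,1,0,0⟩, .ini
  ⟨0,1,1,1,0⟩ ⟨0,0,0,1,0⟩, .ini ⟨0,0,1,0,0⟩ ⟨1,0,0,0,0⟩, .ini ⟨0,0,1,0,0⟩ ⟨0,0,0,1,0⟩, .ini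
  ⟨0,0,1,0,0⟩ ⟨0,1,0,0,0⟩, .dr 9, .sr 8 10, .ini ⟨0,0,1,0,0⟩ ⟨0,0,0,0,1⟩, .ini ⟨0,0,0,1,0⟩
  ⟨1,0,0,0,0⟩, .ini ⟨0,0,0,1,0⟩ ⟨0,1,1,0,0⟩, .dr 14, .ini ⟨0,0,0,1,0⟩ ⟨0,0,1,0,0⟩, .ini
  ⟨0,0,0,1,0⟩ ⟨0,0,0,0,1⟩, .ini ⟨0,0,0,0,1⟩ ⟨1,0,0,0,0⟩, .ini ⟨0,0,0,0,1⟩ ⟨0,0,1,0,0⟩, .ini
  ⟨0,0,0,0,1⟩ ⟨0,0,0,1,0⟩, .ini ⟨1,0,0,0,0⟩ ⟨0,1,1,0,2⟩, .ini ⟨1,0,0,0,0⟩ ⟨0,1,1,1,1⟩, .ini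
  ⟨0,1,1,0,2⟩ ⟨1,0,0,0,0⟩, .ini ⟨0,1,1,0,2⟩ ⟨0,0,1,0,0⟩, .ini ⟨0,1,1,0,2⟩ ⟨0,0,0,1,0⟩, .ini
  ⟨0,0,0,0,1⟩ ⟨0,1,1,0,0⟩, .dr 26, .dl 27, .sr 25 28, .ini ⟨0,1,1,0,2⟩ ⟨0,0,0,0,1⟩, .sr 12 10, .sr
  12 31, .sr 8 31, .ini ⟨0,1,1,1,1⟩ ⟨1,0,0,0,0⟩, .ini ⟨0,1,0,1,1⟩ ⟨0,0,0,0,1⟩, .ini ⟨0,1,0,1,1⟩
  ⟨0,0,1,0,0⟩, .ini ⟨0,0,0,1,0⟩ ⟨0,1,0,0,1⟩, .dl 37, .sr 36 38, .sr 35 39, .sl 32 40, .ini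
  ⟨0,1,1,1,1⟩ ⟨0,0,1,0,0⟩, .dr 27, .ini ⟨1,0,0,0,0⟩ ⟨0,1,1,0,1⟩, .ini ⟨0,1,1,0,1⟩ ⟨1,0,0,0,0⟩,
  .ini ⟨0,1,1,0,1⟩ ⟨0,0,1,0,0⟩, .ini ⟨0,1,1,0,1⟩ ⟨0,0,0,1,0⟩, .dia ⟨0,1,1,0,1⟩ 1 1, .sr 47 48,
  .ini ⟨0,1,1,0,1⟩ ⟨0,0,0,0,1⟩, .sr 50 48, .ini ⟨0,0,0,1,0⟩ ⟨0,1,1,0,1⟩, .dl 52, .ini ⟨1,0,0,0,0⟩
  ⟨0,2,2,2,1⟩, .dl 26, .sr 47 55, .dr 56, .sr 47 57, .ini ⟨0,0,1,0,0⟩ ⟨0,0,0,2,0⟩, .sr 10 10, .sr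
  59 60, .sr 12 61, .ini ⟨0,2,2,2,1⟩ ⟨1,0,0,0,0⟩, .ini ⟨0,1,0,1,0⟩ ⟨0,0,0,0,1⟩, .ini ⟨0,1,0,1,0⟩
  ⟨0,0,1,0,0⟩, .ini ⟨0,0,0,1,0⟩ ⟨0,1,0,0,0⟩, .dl 66, .sr 65 67, .sr 64 68, .sl 69 53, .sl 31 70,
  .ini ⟨0,2,2,2,1⟩ ⟨0,0,1,0,0⟩, .dr 52, .ini ⟨0,2,0,0,1⟩ ⟨0,0,0,1,0⟩, .ini ⟨0,1,0,0,0⟩
  ⟨0,1,1,0,1⟩, .ini ⟨0,1,0,0,1⟩ ⟨0,0,1,0,0⟩, .dia ⟨0,1,0,0,1⟩ 1 1, .sr 76 77, .sl 75 78, .sr 74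
  79, .sl 33 80, .sl 73 81, .sl 33 82, .sl 73 83, .sl 15 56, .dr 85, .ini ⟨0,1,1,1,0⟩ ⟨0,0,0,0,1⟩,
  .dia ⟨0,1,1,1,0⟩ 1 2, .sr 87 88, .ini ⟨0,2,1,0,1⟩ ⟨0,0,0,1,0⟩, .ini ⟨0,0,0,0,1⟩ ⟨0,1,0,0,0⟩, .dl
  91, .sr 76 92, .dl 93, .sr 90 94, .sl 15 95, .sl 11 96, .sl 15 97, .ini ⟨1,0,0,0,0⟩ ⟨0,2,2,0,1⟩,
  .ini ⟨0,2,2,0,1⟩ ⟨1,0,0,0,0⟩, .ini ⟨0,2,2,0,1⟩ ⟨0,0,1,0,0⟩, .sl 11 95, .sl 31 79, .sl 31 103,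
  .sr 12 60, .dl 14, .sr 106 106, .sr 87 107, .dr 55, .ini ⟨1,0,0,0,0⟩ ⟨0,1,1,0,0⟩, .ini
  ⟨0,1,1,0,0⟩ ⟨1,0,0,0,0⟩, .ini ⟨0,1,1,0,0⟩ ⟨0,0,1,0,0⟩, .ini ⟨0,1,1,0,0⟩ ⟨0,0,0,1,0⟩, .dia
  ⟨0,1,1,0,0⟩ 1 1, .sr 113 114, .ini ⟨0,1,1,0,0⟩ ⟨0,0,0,0,1⟩, .dia ⟨0,1,1,0,0⟩ 1 2, .sr 116 117,
  .sl 10 94, .ini ⟨1,0,0,0,0⟩ ⟨0,1,0,1,2⟩, .ini ⟨0,1,0,1,2⟩ ⟨1,0,0,0,0⟩, .ini ⟨0,1,0,1,2⟩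
  ⟨0,0,1,0,0⟩, .ini ⟨0,0,0,0,1⟩ ⟨0,1,0,1,0⟩, .dr 123, .dl 124, .sr 122 125, .ini ⟨0,1,0,1,2⟩
  ⟨0,0,0,1,0⟩, .ini ⟨0,1,0,1,2⟩ ⟨0,0,0,0,1⟩, .dr 66, .sr 17 129, .sr 17 130, .dr 91, .dr 132, .dl
  9, .sr 116 134, .sr 116 135, .sl 133 136, .sr 47 137, .sl 131 138, .ini ⟨0,1,1,1,1⟩ ⟨0,0,0,1,0⟩,
  .dr 124, .sl 43 40, .sl 133 137, .sr 25 143, .ini ⟨1,0,0,0,0⟩ ⟨0,1,0,1,1⟩, .ini ⟨0,1,0,1,1⟩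
  ⟨1,0,0,0,0⟩, .ini ⟨0,1,0,1,1⟩ ⟨0,0,0,1,0⟩, .sr 147 39, .dia ⟨0,1,0,1,1⟩ 1 1, .sr 35 149, .ini
  ⟨0,0,1,0,0⟩ ⟨0,1,0,1,1⟩, .dl 151, .ini ⟨0,0,1,0,0⟩ ⟨0,1,0,0,1⟩, .dl 153, .sr 47 154, .dl 123,
  .sr 36 156, .dr 157, .sr 36 158, .sr 113 134, .sr 116 160, .sl 161 152, .sl 130 162, .ini
  ⟨0,2,2,2,1⟩ ⟨0,0,0,1,0⟩, .ini ⟨0,0,0,1,0⟩ ⟨0,0,2,0,0⟩, .sr 129 129, .sr 165 166, .sr 17 167,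
  .ini ⟨1,0,0,0,0⟩ ⟨0,2,2,1,1⟩, .ini ⟨0,2,2,1,1⟩ ⟨1,0,0,0,0⟩, .ini ⟨0,2,2,1,1⟩ ⟨0,0,0,0,1⟩, .sr 97
  97, .sr 171 172, .sl 75 39, .sl 31 174, .sl 31 175, .sr 66 15, .sr 17 177, .sr 16 178, .dl 179,
  .ini ⟨1,0,0,0,0⟩ ⟨0,2,1,2,1⟩, .ini ⟨0,2,1,2,1⟩ ⟨1,0,0,0,0⟩, .sl 15 96, .ini ⟨0,2,1,2,1⟩
  ⟨0,0,0,1,0⟩, .ini ⟨0,2,1,2,1⟩ ⟨0,0,1,0,0⟩, .dl 178, .sr 185 186, .sl 66 134, .dr 188, .sr 87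
  189, .sr 6 190, .sr 5 190, .dr 178, .ini ⟨0,2,2,1,1⟩ ⟨0,0,0,1,0⟩, .sr 9 11, .sr 12 195, .dl 196,
  .sr 194 197, .ini ⟨0,1,0,0,1⟩ ⟨0,0,0,1,0⟩, .sr 199 77, .sl 200 161, .sl 130 201, .sl 130 202,
  .ini ⟨0,2,1,2,1⟩ ⟨0,0,0,0,1⟩, .sr 183 183, .sr 204 205, .sl 193 198, .ini ⟨1,0,0,0,0⟩
  ⟨0,2,1,1,1⟩, .ini ⟨0,2,1,1,1⟩ ⟨1,0,0,0,0⟩, .dr 92, .sr 76 210, .sr 76 211, .ini ⟨0,2,0,2,0⟩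
  ⟨0,0,0,0,1⟩, .ini ⟨0,2,0,2,0⟩ ⟨0,0,2,0,0⟩, .sr 67 67, .sl 215 215, .sr 214 216, .sr 213 217, .sl
  212 218, .sl 212 219, .sl 105 220, .sl 105 221, .hl 222 2 ⟨0,2,1,1,1⟩, .ini ⟨0,2,1,1,1⟩
  ⟨0,0,1,0,0⟩, .dia ⟨0,2,1,1,1⟩ 1 1, .sr 224 225, .ini ⟨0,2,2,0,1⟩ ⟨0,0,0,2,0⟩, .sl 135 154, .sr
  94 94, .sl 60 229, .sr 228 230, .sr 228 231, .sr 227 232, .hr 233 2 ⟨0,2,1,1,1⟩, .dr 196, .ini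
  ⟨0,2,1,0,1⟩ ⟨0,0,1,0,0⟩, .dia ⟨0,2,1,0,1⟩ 1 1, .sr 90 237, .sr 236 238, .sl 235 239, .ini
  ⟨0,0,2,0,0⟩ ⟨0,0,0,0,1⟩, .sl 10 10, .sr 242 242, .sr 241 243, .ini ⟨0,2,0,1,1⟩ ⟨0,0,1,0,0⟩, .sr
  64 215, .sl 210 246, .sr 245 247, .sr 245 248, .sl 244 249, .ini ⟨1,0,0,0,0⟩ ⟨0,3,1,2,2⟩, .ini
  ⟨1,0,0,0,0⟩ ⟨0,3,2,1,2⟩, .ini ⟨0,3,1,2,2⟩ ⟨1,0,0,0,0⟩, .sl 37 135, .dl 254, .sl 37 255, .dl 256,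
  .sr 199 211, .sr 76 258, .ini ⟨0,2,0,2,1⟩ ⟨0,0,2,0,0⟩, .ini ⟨0,0,0,1,0⟩ ⟨0,2,0,0,1⟩, .dr 261,
  .dl 262, .sr 260 263, .sl 259 264, .sl 235 265, .sr 257 266, .ini ⟨0,3,2,1,2⟩ ⟨1,0,0,0,0⟩, .sr
  77 211, .sr 199 269, .sr 199 270, .sr 162 197, .sl 271 272, .ini ⟨0,2,0,1,1⟩ ⟨0,0,0,1,0⟩, .sr
  274 248, .sr 245 275, .sl 259 276, .sl 235 277, .sl 235 278, .sl 78 174, .sl 31 280, .sl 31 281,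
  .sl 153 255, .dr 283, .sr 154 109, .sr 47 285, .sl 258 186, .ini ⟨0,2,1,1,1⟩ ⟨0,0,0,0,1⟩, .sr
  199 92, .sl 289 160, .sl 129 290, .dr 291, .sr 288 292, .sl 14 94, .dr 294, .sr 288 295, .sl 258
  197, .dr 156, .sr 38 298]

def s23_01_01_02_1 : List Step := [
.sr 36 299, .sl 200 201, .sl 130 301, .sl 130 302, .dr 256, .sr 199 258, .sr 90 238, .sl 305 306,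
  .sl 193 307, .sl 193 308, .ini ⟨1,0,0,0,0⟩ ⟨0,2,0,2,1⟩, .ini ⟨0,2,0,2,1⟩ ⟨1,0,0,0,0⟩, .dl 289,
  .sr 245 312, .sl 15 313, .ini ⟨0,2,0,2,1⟩ ⟨0,0,0,1,0⟩, .ini ⟨0,1,0,0,0⟩ ⟨0,1,0,1,1⟩, .sl 316
  200, .sl 130 317, .sl 130 318, .sl 129 160, .sr 320 320, .sr 87 321, .sr 17 166, .ini
  ⟨0,2,0,2,1⟩ ⟨0,0,1,0,0⟩, .sr 64 67, .sl 325 38, .sr 312 312, .sl 166 327, .sr 326 328, .sr 326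
  329, .sr 324 330, .sr 324 331, .hr 332 2 ⟨0,2,1,1,1⟩, .sr 274 275, .sl 193 334, .ini ⟨0,0,0,2,0⟩
  ⟨0,0,0,0,1⟩, .sl 129 129, .sr 337 337, .sr 336 338, .sr 199 210, .sr 199 340, .ini ⟨0,2,2,0,0⟩
  ⟨0,0,0,0,1⟩, .ini ⟨0,1,1,0,0⟩ ⟨0,0,0,2,0⟩, .sr 134 134, .sr 343 344, .sl 345 345, .sr 342 346,
  .sl 341 347, .sl 341 348, .sl 339 349, .hl 350 2 ⟨0,2,1,1,1⟩, .ini ⟨0,2,1,1,1⟩ ⟨0,0,0,1,0⟩, .sr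
  352 225, .sr 116 344, .sr 113 354, .sl 340 355, .sr 90 356, .sl 339 357, .ini ⟨1,0,0,0,0⟩
  ⟨0,3,1,2,1⟩, .ini ⟨1,0,0,0,0⟩ ⟨0,3,2,1,1⟩, .ini ⟨0,3,1,2,1⟩ ⟨1,0,0,0,0⟩, .dl 290, .sl 129 362,
  .sl 105 219, .sr 363 364, .ini ⟨0,1,0,0,0⟩ ⟨0,1,1,1,0⟩, .sl 366 96, .sl 15 367, .ini ⟨0,1,0,0,0⟩
  ⟨0,2,1,1,1⟩, .sl 369 186, .ini ⟨0,3,2,1,1⟩ ⟨1,0,0,0,0⟩, .sr 134 115, .sr 160 372, .sr 116 373,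
  .sl 374 292, .sl 366 102, .sl 15 376, .sl 369 197, .sr 320 189, .sr 87 379, .sr 320 107, .sr 87
  381, .sr 160 117, .sr 116 383, .sl 68 94, .sl 10 385, .sr 324 329, .ini ⟨0,3,1,1,1⟩ ⟨0,0,0,0,1⟩,
  .sr 362 362, .sr 388 389, .sl 323 390, .ini ⟨1,0,0,0,0⟩ ⟨0,1,0,1,0⟩, .ini ⟨0,1,0,1,0⟩
  ⟨1,0,0,0,0⟩, .ini ⟨0,1,0,1,0⟩ ⟨0,0,0,1,0⟩, .sr 394 68, .dia ⟨0,1,0,1,0⟩ 1 2, .sr 64 396, .sl 129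
  312, .ini ⟨1,0,0,0,0⟩ ⟨0,1,0,0,2⟩, .ini ⟨0,1,0,0,2⟩ ⟨1,0,0,0,0⟩, .ini ⟨0,1,0,0,2⟩ ⟨0,0,0,0,1⟩,
  .ini ⟨0,1,0,0,2⟩ ⟨0,0,1,0,0⟩, .dl 132, .sr 402 403, .sr 401 404, .ini ⟨0,1,0,0,2⟩ ⟨0,0,0,1,0⟩,
  .sr 406 403, .sr 401 407, .sr 64 325, .sl 133 409, .sl 133 410, .ini ⟨1,0,0,0,0⟩ ⟨0,1,0,0,1⟩,
  .ini ⟨0,1,0,0,1⟩ ⟨1,0,0,0,0⟩, .ini ⟨0,1,0,0,1⟩ ⟨0,0,0,0,1⟩, .sr 414 77, .ini ⟨1,0,0,0,0⟩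
  ⟨0,2,0,1,1⟩, .ini ⟨0,2,0,1,1⟩ ⟨1,0,0,0,0⟩, .sr 312 248, .sr 274 418, .ini ⟨0,2,0,1,1⟩
  ⟨0,0,0,0,1⟩, .sr 420 327, .sl 355 263, .sr 394 246, .dia ⟨0,1,0,1,0⟩ 1 1, .sr 67 395, .sr 424
  425, .sr 64 426, .ini ⟨0,1,0,0,0⟩ ⟨0,1,0,0,1⟩, .sl 428 38, .sr 76 269, .sr 199 430, .dl 283,
  .ini ⟨1,0,0,0,0⟩ ⟨0,5,2,2,2⟩, .ini ⟨0,5,2,2,2⟩ ⟨1,0,0,0,0⟩, .ini ⟨0,1,0,0,0⟩ ⟨0,3,2,1,1⟩, .sl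
  295 295, .sl 435 436, .ini ⟨0,1,0,0,0⟩ ⟨0,3,1,2,1⟩, .sl 292 292, .sl 438 439, .dia ⟨0,2,1,1,1⟩ 2
  1, .sl 369 441, .sl 325 228, .sl 160 160, .sl 289 444, .sl 129 445, .dr 446, .sr 443 447, .sl
  325 255, .sr 363 365, .sr 449 450, .dl 188, .sl 91 452, .dr 453, .dr 454, .sr 248 248, .sr 312
  456, .sr 274 457, .sl 355 422, .sl 340 459, .ini ⟨1,0,0,0,0⟩ ⟨0,4,2,2,1⟩, .sr 312 418, .sr 245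
  462, .ini ⟨0,4,2,2,1⟩ ⟨1,0,0,0,0⟩, .dl 445, .sl 129 465, .sl 380 292, .sl 438 467, .ini
  ⟨0,1,0,1,0⟩ ⟨0,0,2,0,0⟩, .sr 469 215, .sr 424 470, .sr 424 471, .sr 64 472, .sl 382 295, .sl 435
  474, .ini ⟨1,0,0,0,0⟩ ⟨0,4,2,1,2⟩, .ini ⟨0,4,2,1,2⟩ ⟨1,0,0,0,0⟩, .sr 92 212, .sr 199 478, .dl
  479, .sr 65 246, .ini ⟨0,0,1,0,0⟩ ⟨0,2,0,0,1⟩, .dr 482, .dl 483, .sl 481 484, .sl 211 485, .dr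
  290, .sr 90 487, .sl 488 292, .sr 486 489, .sl 369 297, .ini ⟨0,3,2,1,1⟩ ⟨0,0,0,1,0⟩, .sr 64
  470, .sr 67 493, .sl 494 231, .sr 443 495, .sr 492 496, .ini ⟨0,1,0,0,0⟩ ⟨0,4,2,1,2⟩, .sl 37
  443, .dl 499, .sr 500 436, .sl 498 501, .sr 255 295, .dr 478, .sr 199 504, .sl 428 432, .ini
  ⟨0,2,2,0,1⟩ ⟨0,0,0,1,0⟩, .sr 507 231, .sr 385 385, .sr 388 509, .sl 105 510, .ini ⟨1,0,0,0,0⟩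
  ⟨0,2,1,0,1⟩, .ini ⟨0,2,1,0,1⟩ ⟨1,0,0,0,0⟩, .sl 428 154, .sr 514 229, .sr 90 515, .ini
  ⟨0,2,1,0,1⟩ ⟨0,0,0,0,1⟩, .sr 517 229, .sr 112 354, .sr 94 487, .sr 90 520, .sr 160 383, .sr 116
  522, .sl 481 485, .sl 68 385, .sl 10 525, .sl 211 524, .sr 514 520, .sr 90 528, .ini ⟨0,1,0,0,0⟩
  ⟨0,2,2,0,1⟩, .sl 212 249, .sl 105 531, .sl 530 532, .sl 105 533, .sr 517 520, .sr 507 232, .ini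
  ⟨1,0,0,0,0⟩ ⟨0,2,0,0,1⟩, .ini ⟨0,2,0,0,1⟩ ⟨1,0,0,0,0⟩, .ini ⟨0,2,0,0,1⟩ ⟨0,0,1,0,0⟩, .dia
  ⟨0,2,0,0,1⟩ 1 1, .sr 539 540, .sr 74 540, .sl 428 77, .sl 210 354, .dl 92, .sr 74 545, .sr 539
  545, .ini ⟨1,0,0,0,0⟩ ⟨0,1,0,0,0⟩, .ini ⟨0,1,0,0,0⟩ ⟨1,0,0,0,0⟩, .ini ⟨0,1,0,0,0⟩ ⟨0,1,1,0,0⟩,
  .ini ⟨0,1,0,0,0⟩ ⟨0,1,0,1,0⟩, .ini ⟨0,1,0,0,0⟩ ⟨0,2,0,0,1⟩]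

def t23_01_01_02 : Tree :=
(.split 1 2 (.split 1 3 (.leaf [0,4,2,3,1] [0,1,2,3,4,5,6,7,11,8,12,13,15,16,17,18,19,20]) (.split
  1 4 (.split 3 4 (.split 1 4 (.leaf [0,1,2,4,3]
  [21,1,22,3,23,24,29,30,7,32,33,12,34,41,42,18,43,19]) (.leaf [0,1,2,3,4]
  [44,1,22,21,45,46,49,51,7,31,33,32,34,53,42,41,23,28,24,29])) (.split 3 4 (.leaf [0,1,2,3,4]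
  [44,1,54,22,45,46,58,49,7,31,62,33,63,71,72,84,34,53,42,86]) (.leaf [0,3,2,1,4]
  [44,1,0,54,45,46,58,7,31,11,62,4,5,89,63,71,72,98]))) (.split 1 4 (.leaf [0,1,2,4,3]
  [99,1,0,44,100,101,102,104,7,105,11,31,4,108,5,45,109,46]) (.leaf [0,1,2,3,4]
  [110,1,0,99,111,112,115,118,7,10,11,105,4,106,5,108,100,119,101,102])))) (.split 1 3 (.split 1 4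
  (.split 2 4 (.split 1 4 (.split 2 3 (.leaf [0,1,4,3,2]
  [120,22,2,3,121,126,127,128,34,139,140,13,131,73,17,18,141,20]) (.split 2 4 (.leaf [0,1,2,4,3]
  [120,21,22,3,121,142,126,128,23,144,29,30,34,139,41,18,141,43]) (.leaf [0,2,1,3,4]
  [120,44,22,21,121,126,142,45,49,51,34,139,53,41,23,144,28,29]))) (.split 2 3 (.leaf [0,1,2,3,4]
  [145,22,2,120,146,148,147,150,34,152,140,139,13,130,73,131,121,125,126,127]) (.leaf [0,1,4,3,2]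
  [145,44,22,120,146,39,148,150,45,155,49,34,152,53,139,121,125,126]))) (.split 2 3 (.split 2 4
  (.split 2 3 (.leaf [0,1,2,4,3] [145,54,2,44,146,159,147,39,63,163,164,71,13,130,168,45,155,58])
  (.leaf [0,2,1,3,4] [145,169,54,44,146,159,39,170,173,176,63,163,180,71,45,155,57,58])) (.split 1
  2 (.leaf [0,1,2,4,3] [181,0,2,169,182,183,184,187,4,191,6,192,13,193,15,170,198,97]) (.split 3 4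
  (.leaf [0,4,2,3,1] [145,181,54,169,146,158,159,182,203,206,187,63,163,207,180,170,198,173])
  (.leaf [0,1,2,3,4]
  [145,181,2,54,146,158,147,159,182,203,184,206,13,130,193,168,63,163,207,164])))) (.split 1 2
  (.split 2 4 (.split 3 4 (.leaf [0,4,2,3,1]
  [208,99,169,44,209,223,226,100,234,240,104,170,197,250,176,45,109,57]) (.leaf [0,1,2,3,4]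
  [208,99,0,169,209,223,96,226,100,234,102,240,4,190,108,192,170,197,250,97])) (.leaf [0,2,1,3,4]
  [208,110,0,99,209,96,223,111,115,118,4,190,106,108,100,234,119,102])) (.split 1 2 (.split 3 4
  (.split 2 4 (.leaf [0,4,2,3,1]
  [251,252,169,44,253,267,266,268,273,279,282,170,272,284,176,45,286,57]) (.leaf [0,1,2,3,4]
  [251,208,169,252,253,287,266,267,209,293,226,296,170,272,197,284,268,273,297,279])) (.leaf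
  [0,3,2,1,4] [251,208,0,169,253,287,266,209,293,96,226,4,190,192,170,272,197,97])) (.split 3 4
  (.leaf [0,3,4,1,2] [145,251,169,44,146,300,39,253,303,266,170,272,176,45,155,57]) (.split 1 3
  (.leaf [0,1,3,2,4] [181,251,0,169,182,304,183,187,253,309,266,4,191,192,170,198,272,97]) (.leaf
  [0,4,2,3,1] [145,251,181,169,146,300,158,253,303,309,266,182,203,304,187,170,272,198])))))))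
  (.split 1 4 (.split 2 3 (.leaf [0,1,4,3,2]
  [310,0,2,145,311,314,315,319,4,322,6,13,323,15,130,146,298,147]) (.split 2 4 (.split 3 4 (.leaf
  [0,1,4,3,2] [310,208,181,145,311,333,335,319,209,351,353,182,358,186,203,146,298,158]) (.leaf
  [0,1,2,3,4] [310,208,0,181,311,333,314,335,209,351,96,353,4,322,190,191,182,358,186,183]))
  (.split 1 2 (.split 2 4 (.leaf [0,1,2,3,4]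
  [359,360,0,208,361,365,368,370,371,375,377,378,4,380,382,190,209,292,295,96]) (.leaf [0,2,1,3,4]
  [359,110,0,360,361,368,365,111,115,384,4,380,106,382,371,375,386,377])) (.leaf [0,1,2,3,4]
  [310,359,0,208,311,387,314,333,361,391,368,370,4,322,380,190,209,351,292,96])))) (.split 2 3
  (.leaf [0,1,2,3,4] [392,0,2,310,393,395,394,397,4,320,6,322,13,129,15,323,311,398,314,315])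
  (.leaf [0,1,4,3,2] [392,110,0,310,393,68,395,397,111,160,115,4,320,106,322,311,398,314]))))
  (.split 1 4 (.split 2 4 (.split 3 4 (.split 1 4 (.split 2 4 (.split 3 4 (.leaf [0,1,2,3,4]
  [399,21,120,3,400,405,408,401,23,143,144,30,121,411,142,128,18,133,43,141]) (.leaf [0,1,3,2,4]
  [399,21,145,120,400,405,407,408,23,143,144,146,410,150,121,411,142,125])) (.leaf [0,1,2,4,3]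
  [399,44,145,21,400,404,407,405,45,137,155,51,146,410,39,23,143,28])) (.leaf [0,1,2,3,4]
  [412,44,145,399,413,78,200,415,45,154,155,137,146,38,39,410,400,403,404,407])) (.split 2 3
  (.split 3 4 (.leaf [0,1,4,3,2]
  [412,208,310,145,413,258,341,200,209,255,351,311,326,333,319,146,38,298]) (.split 1 3 (.split 2
  3 (.leaf [0,1,2,3,4]
  [416,359,392,310,417,419,312,421,361,422,363,391,393,423,427,397,311,263,387,398]) (.leaf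
  [0,2,1,3,4] [416,208,359,310,417,419,421,209,292,351,361,422,370,391,311,263,333,387])) (.leaf
  [0,1,3,2,4] [412,208,416,310,413,258,340,341,209,255,351,417,429,421,311,326,333,263]))) (.split
  2 3 (.split 3 4 (.leaf [0,1,4,3,2]
  [412,252,251,145,413,431,271,200,268,432,273,253,257,267,303,146,38,300]) (.leaf [0,1,2,3,4]
  [412,252,208,251,413,431,258,271,268,432,297,273,209,255,296,293,253,257,267,287])) (.leaf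
  [0,1,2,4,3] [412,44,252,145,413,78,431,200,45,154,286,155,268,432,282,146,38,39])))) (.split 2 4
  (.split 3 4 (.leaf [0,1,2,4,3]
  [412,99,208,44,413,212,258,78,100,228,234,104,209,255,223,45,154,109]) (.split 2 3 (.split 1 3
  (.split 3 4 (.split 1 2 (.leaf [0,1,2,3,4]
  [433,360,359,208,434,437,440,442,371,448,375,378,361,451,365,370,209,455,295,292]) (.leaf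
  [0,4,2,3,1] [416,433,359,208,417,458,419,434,460,440,442,361,422,451,370,209,455,292])) (.split
  2 3 (.leaf [0,1,2,3,4]
  [416,461,392,359,417,463,312,419,464,459,466,468,393,423,473,427,361,422,450,363]) (.leaf
  [0,2,1,3,4] [416,360,461,359,417,463,419,371,447,375,464,459,475,468,361,422,365,450]))) (.split
  2 3 (.leaf [0,2,1,4,3] [412,433,416,208,413,340,258,434,460,442,417,429,458,209,255,455])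
  (.split 1 2 (.leaf [0,1,2,3,4]
  [476,360,433,208,477,480,490,491,371,497,448,378,434,502,437,442,209,503,295,455]) (.leaf
  [0,3,2,1,4] [412,476,433,208,413,505,258,477,506,490,491,434,502,442,209,255,503,455])))) (.leaf
  [0,3,2,1,4] [412,99,360,208,413,212,258,100,228,508,234,371,511,378,209,255,223,295]))) (.split
  1 2 (.split 3 4 (.leaf [0,1,2,3,4]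
  [512,110,360,99,513,94,516,518,111,519,384,118,371,485,386,511,100,484,119,508]) (.split 3 4
  (.leaf [0,1,2,3,4]
  [512,110,461,360,513,94,521,516,111,519,523,384,464,524,526,475,371,485,386,447]) (.leaf
  [0,3,2,1,4] [512,110,392,461,513,94,521,111,519,160,523,393,68,473,464,524,526,466]))) (.split 1
  3 (.split 3 4 (.split 1 3 (.leaf [0,4,2,3,1]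
  [433,512,360,99,434,527,437,513,529,516,518,371,448,485,511,100,484,508]) (.split 1 4 (.leaf
  [0,1,2,4,3] [476,512,433,99,477,486,490,534,513,535,529,518,434,502,527,100,536,484]) (.leaf
  [0,4,2,3,1] [416,512,433,476,417,248,458,513,356,529,535,434,460,527,502,477,486,490]))) (.split
  3 4 (.leaf [0,4,2,3,1]
  [416,512,461,360,417,248,463,513,356,521,516,464,459,524,475,371,485,447]) (.leaf [0,1,3,2,4]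
  [416,512,392,461,417,248,312,463,513,356,521,393,423,473,464,459,524,466]))) (.leaf [0,1,2,4,3]
  [412,512,416,99,413,211,340,212,513,514,356,518,417,429,248,100,228,484]))))) (.split 1 4
  (.split 2 4 (.split 3 4 (.leaf [0,1,2,3,4]
  [537,512,416,412,538,541,542,543,513,544,356,514,417,247,248,429,413,210,211,340]) (.leaf
  [0,1,3,2,4] [537,512,392,416,538,541,546,542,513,544,356,393,246,423,417,247,248,312])) (.leaf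
  [0,1,2,4,3] [537,110,392,512,538,547,546,541,111,354,160,519,393,246,68,513,544,94])) (.leaf
  [0,1,2,3,4] [548,110,392,537,549,550,551,552,111,134,160,354,393,67,68,246,538,545,547,546])))))

def c23_01_01_02 : Cert 2 3 where
  T := [[0, 1], [0, 1], [0, 2]]
  W := ⟨0, 0, 0, 0, 1, 1, 2⟩
  hW := rfl
  steps := s23_01_01_02_0 ++ s23_01_01_02_1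
  tree := t23_01_01_02
  ok := by decide +kernel

def db234 : List (Cert 2 3) := [
c23_00_00_40, c23_00_00_31, c23_00_00_22, c23_00_00_13, c23_00_00_04, c23_00_10_30, c23_00_10_21,
  c23_00_10_12, c23_00_10_03, c23_00_01_30, c23_00_01_21, c23_00_01_12, c23_00_01_03,
  c23_00_20_20, c23_00_20_11, c23_00_20_02, c23_00_11_20, c23_00_11_11, c23_00_11_02,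
  c23_00_02_20, c23_00_02_11, c23_00_02_02, c23_10_10_20, c23_10_10_11, c23_10_10_02,
  c23_10_01_20, c23_10_01_11, c23_10_01_02, c23_01_10_20, c23_01_10_11, c23_01_10_02,
  c23_01_01_20, c23_01_01_11, c23_01_01_02]

theorem cov234 : covers (r := 2) (s := 3) 4 (db234.map fun c => c.T) = true := by
  decide +kernel

end Pool.Agent.Helper947_Any
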