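import Pool.Agent.Helper947_Any.Bridge

set_option autoImplicit false

/-!
Faces whose generators form a path with defects at most one: every lattice point is a sum of
pairwise compatible sums over intervals of the path.
-/

namespace Pool.Agent.Helper947_Any

open Pool.Agent.Helper391_TT
open Pool.Agent.Helper947_Fin (Ax EE FinS bv cone2 ax EE_pos EE_neg EE_le finS_cone2)

universe u

section abstract

variable {L : Type*} [AddCommGroup L]

/-- compatible with all `u t` for `t ≥ b` -/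
def Far (E : L → L → ℕ) (u : ℕ → L) (b : ℕ) (x : L) : Prop :=
  ∀ t, b ≤ t → E x (u t) = 0 ∧ E (u t) x = 0

/-- the relation between an open interval and a later one -/
def Rel (E : L → L → ℕ) (u : ℕ → L) (b : ℕ) (p q : L) : Prop :=
  p = q ∨ (∃ M, q = M + p ∧ E p M = 0 ∧ E M p ≤ 1 ∧ Far E u b M) ∨
    (∃ M, p = M + q ∧ E M q = 0 ∧ E q M ≤ 1 ∧ Far E u b M)

/-- the state after treating the generators `u 0, ..., u b` -/
structure St (E : L → L → ℕ) (u : ℕ → L) (b : ℕ) (Q C : List L) : Prop where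
  pw : Q.Pairwise (Rel E u (b + 1))
  ext : ∀ v ∈ Q, Far E u (b + 2) v
  le1 : ∀ v ∈ Q, E v (u (b + 1)) ≤ E (u b) (u (b + 1)) ∧ E (u (b + 1)) v ≤ E (u (b + 1)) (u b)
  cl : ∀ w ∈ C, ∀ v ∈ Q, E w v = 0 ∧ E v w = 0
  clF : ∀ w ∈ C, Far E u (b + 1) w
  cc : ∀ w ∈ C, ∀ w' ∈ C, E w w' = 0

variable {E : L → L → ℕ} {u : ℕ → L}

omit [AddCommGroup L] in
theorem Far.mono {b b' : ℕ} {x : L} (h : Far E u b x) (hb : b ≤ b') : Far E u b' x :=
  fun t ht => h t (hb.trans ht)

omit [AddCommGroup L] in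
theorem Far.swap {b : ℕ} {x : L} (h : Far E u b x) : Far (fun x y => E y x) u b x :=
  fun t ht => (h t ht).symm

theorem Ax_swap (hE : Ax E) : Ax (fun x y => E y x) where
  subL x x' y := hE.subR y x x'
  subR x y y' := hE.subL y y' x
  desL x y := by
    have := hE.desR y x
    rwa [add_comm y x] at this
  desR x y := by
    have := hE.desL y x
    rwa [add_comm y x] at this
  homL m x y := hE.homR m y x
  homR m x y := hE.homL m y x
  diag x := hE.diag x

theorem Rel.swap {b : ℕ} {p q : L} (h : Rel E u b p q) : Rel (fun x y => E y x) u b q p := by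
  rcases h with h | ⟨M, h1, h2, h3, h4⟩ | ⟨M, h1, h2, h3, h4⟩
  · exact Or.inl h.symm
  · exact Or.inr (Or.inr ⟨M, h1, h2, h3, h4.swap⟩)
  · exact Or.inr (Or.inl ⟨M, h1, h2, h3, h4.swap⟩)

theorem St.swap {b : ℕ} {Q C : List L} (h : St E u b Q C) :
    St (fun x y => E y x) u b Q.reverse C where
  pw := by
    rw [List.pairwise_reverse]
    exact h.pw.imp fun h => h.swap
  ext v hv := (h.ext v (List.mem_reverse.mp hv)).swap
  le1 v hv := (h.le1 v (List.mem_reverse.mp hv)).symm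
  cl w hw v hv := (h.cl w hw v (List.mem_reverse.mp hv)).symm
  clF w hw := (h.clF w hw).swap
  cc w hw w' hw' := h.cc w' hw' w hw

theorem Rel.comp (hE : Ax E) {b : ℕ} {p q : L} (h : Rel E u b p q) : E p q = 0 ∧ E q p = 0 := by
  rcases h with rfl | ⟨M, rfl, h2, h3, -⟩ | ⟨M, rfl, h2, h3, -⟩
  · exact ⟨hE.diag _, hE.diag _⟩
  · have e1 := hE.subR p M p
    have e2 := hE.diag p
    have e3 := hE.desL M p
    omega
  · have e1 := hE.subL M q q
    have e2 := hE.diag q
    have e3 := hE.desR q M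
    rw [add_comm] at e3
    omega

theorem Rel.add (hE : Ax E) {b : ℕ} {p q : L} (h : Rel E u b p q) :
    Rel E u (b + 1) (p + u b) (q + u b) := by
  rcases h with rfl | ⟨M, rfl, h2, h3, h4⟩ | ⟨M, rfl, h2, h3, h4⟩
  · exact Or.inl rfl
  · refine Or.inr (Or.inl ⟨M, add_assoc _ _ _, ?_, ?_, h4.mono (Nat.le_succ b)⟩)
    · have e1 := hE.subL p (u b) M
      have e2 := (h4 b le_rfl).2
      omega
    · have e1 := hE.subR M p (u b)
      have e2 := (h4 b le_rfl).1
      omega
  · refine Or.inr (Or.inr ⟨M, add_assoc _ _ _, ?_, ?_, h4.mono (Nat.le_succ b)⟩)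
    · have e1 := hE.subR M q (u b)
      have e2 := (h4 b le_rfl).1
      omega
    · have e1 := hE.subL q (u b) M
      have e2 := (h4 b le_rfl).2
      omega

theorem St.comp (hE : Ax E) {b : ℕ} {Q C : List L} (h : St E u b Q C) :
    ∀ p ∈ Q, ∀ q ∈ Q, E p q = 0 := by
  have : Std.Symm (fun p q : L => E p q = 0 ∧ E q p = 0) := ⟨fun _ _ h => h.symm⟩
  have e : ∀ p ∈ Q, ∀ q ∈ Q, E p q = 0 ∧ E q p = 0 :=
    List.Pairwise.forall_of_forall (R := fun p q => E p q = 0 ∧ E q p = 0)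
      (fun p _ => ⟨hE.diag p, hE.diag p⟩) (h.pw.imp fun h => h.comp hE)
  exact fun p hp q hq => (e p hp q hq).1

section step

variable (hE : Ax E) (hu : ∀ s t, s + 2 ≤ t → E (u s) (u t) = 0 ∧ E (u t) (u s) = 0) {b : ℕ}
  {C : List L} (h1 : E (u b) (u (b + 1)) ≤ 1) (h2 : E (u (b + 1)) (u b) = 0)

include hE hu in
theorem St.ext_add {Q : List L} (h : St E u b Q C) (v : L) (hv : v ∈ Q) :
    Far E u (b + 1 + 2) (v + u (b + 1)) ∧
      (E (v + u (b + 1)) (u (b + 1 + 1)) ≤ E (u (b + 1)) (u (b + 1 + 1)) ∧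
        E (u (b + 1 + 1)) (v + u (b + 1)) ≤ E (u (b + 1 + 1)) (u (b + 1))) := by
  refine ⟨fun t ht => ?_, ?_, ?_⟩
  · have e1 := hE.subL v (u (b + 1)) (u t)
    have e2 := hE.subR (u t) v (u (b + 1))
    have e3 := h.ext v hv t (by omega)
    have e4 := hu (b + 1) t (by omega)
    omega
  · have e1 := hE.subL v (u (b + 1)) (u (b + 1 + 1))
    have e3 := h.ext v hv (b + 1 + 1) (by omega)
    omega
  · have e1 := hE.subR (u (b + 1 + 1)) v (u (b + 1))
    have e3 := h.ext v hv (b + 1 + 1) (by omega)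
    omega

include hE in
theorem St.cl_add {Q : List L} (h : St E u b Q C) (w : L) (hw : w ∈ C) (v : L) (hv : v ∈ Q) :
    E w (v + u (b + 1)) = 0 ∧ E (v + u (b + 1)) w = 0 := by
  have e1 := hE.subR w v (u (b + 1))
  have e2 := hE.subL v (u (b + 1)) w
  have e3 := h.cl w hw v hv
  have e4 := h.clF w hw (b + 1) le_rfl
  omega

include hE in
theorem St.pw_add {Q : List L} (h : Q.Pairwise (Rel E u (b + 1))) :
    (Q.map (· + u (b + 1))).Pairwise (Rel E u (b + 1 + 1)) := by
  rw [List.pairwise_map]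
  exact h.imp fun h => h.add hE

include hE hu h1 h2 in
theorem St.stop {S T : List L} (h : St E u b (S ++ T) C) :
    St E u (b + 1) (T.map (· + u (b + 1))) (C ++ S) := by
  have hp := List.pairwise_append.mp h.pw
  have mS : ∀ v ∈ S, v ∈ S ++ T := fun v hv => List.mem_append.mpr (Or.inl hv)
  have mT : ∀ v ∈ T, v ∈ S ++ T := fun v hv => List.mem_append.mpr (Or.inr hv)
  refine ⟨St.pw_add hE hp.2.1, ?_, ?_, ?_, ?_, ?_⟩
  · intro v hv
    obtain ⟨p, hp, rfl⟩ := List.mem_map.mp hv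
    exact (h.ext_add hE hu p (mT p hp)).1
  · intro v hv
    obtain ⟨p, hp, rfl⟩ := List.mem_map.mp hv
    exact (h.ext_add hE hu p (mT p hp)).2
  · intro w hw v hv
    obtain ⟨p, hpT, rfl⟩ := List.mem_map.mp hv
    rcases List.mem_append.mp hw with hw | hw
    · exact h.cl_add hE w hw p (mT p hpT)
    · have hr := hp.2.2 w hw p hpT
      have hc := hr.comp hE
      have l1 := h.le1 p (mT p hpT)
      have l2 := h.le1 w (mS w hw)
      have e1 := hE.subL p (u (b + 1)) w
      refine ⟨?_, by omega⟩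
      rcases hr with rfl | ⟨M, rfl, g2, g3, g4⟩ | ⟨M, rfl, g2, g3, g4⟩
      · have e2 := hE.desR w (u (b + 1))
        omega
      · have e2 := hE.desR w (u (b + 1))
        have e3 := hE.subR w M (w + u (b + 1))
        rw [← add_assoc] at e3
        omega
      · have e2 := hE.desR p (u (b + 1))
        have e3 := hE.subL M p (p + u (b + 1))
        have e4 := hE.subR M p (u (b + 1))
        have e5 := g4 (b + 1) le_rfl
        omega
  · intro w hw
    rcases List.mem_append.mp hw with hw | hw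
    · exact (h.clF w hw).mono (Nat.le_succ _)
    · exact h.ext w (mS w hw)
  · intro w hw w' hw'
    rcases List.mem_append.mp hw with hw | hw <;> rcases List.mem_append.mp hw' with hw' | hw'
    · exact h.cc w hw w' hw'
    · exact (h.cl w hw w' (mS w' hw')).1
    · exact (h.cl w' hw' w (mS w hw)).2
    · exact h.comp hE w (mS w hw) w' (mS w' hw')

include hE hu h1 h2 in
theorem St.start {Q : List L} (h : St E u b Q C) (d : ℕ) :
    St E u (b + 1) (List.replicate d (u (b + 1)) ++ Q.map (· + u (b + 1))) C := by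
  refine ⟨?_, ?_, ?_, ?_, ?_, ?_⟩
  · rw [List.pairwise_append]
    refine ⟨?_, St.pw_add hE h.pw, ?_⟩
    · rw [List.pairwise_replicate]
      exact Or.inr (Or.inl rfl)
    · intro a ha v hv
      obtain ⟨p, hp, rfl⟩ := List.mem_map.mp hv
      obtain rfl := (List.mem_replicate.mp ha).2
      have l1 := h.le1 p hp
      exact Or.inr (Or.inl ⟨p, rfl, by omega, by omega, h.ext p hp⟩)
  · intro v hv
    rcases List.mem_append.mp hv with hv | hv
    · obtain rfl := (List.mem_replicate.mp hv).2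
      exact fun t ht => hu (b + 1) t (by omega)
    · obtain ⟨p, hp, rfl⟩ := List.mem_map.mp hv
      exact (h.ext_add hE hu p hp).1
  · intro v hv
    rcases List.mem_append.mp hv with hv | hv
    · obtain rfl := (List.mem_replicate.mp hv).2
      exact ⟨le_rfl, le_rfl⟩
    · obtain ⟨p, hp, rfl⟩ := List.mem_map.mp hv
      exact (h.ext_add hE hu p hp).2
  · intro w hw v hv
    rcases List.mem_append.mp hv with hv | hv
    · obtain rfl := (List.mem_replicate.mp hv).2
      exact h.clF w hw (b + 1) le_rfl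
    · obtain ⟨p, hp, rfl⟩ := List.mem_map.mp hv
      exact h.cl_add hE w hw p hp
  · exact fun w hw => (h.clF w hw).mono (Nat.le_succ _)
  · exact h.cc

end step

theorem sum_map_add (T : List L) (x : L) : (T.map (· + x)).sum = T.sum + T.length • x := by
  induction T with
  | nil => simp
  | cons a T ih =>
    rw [List.map_cons, List.sum_cons, ih, List.sum_cons, List.length_cons, add_smul, one_smul]
    abel

/-- the sum over an interval -/
def H (u : ℕ → L) (s t : ℕ) : L := ∑ i ∈ Finset.Icc s t, u i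

theorem H_self (b : ℕ) : H u b b = u b := by
  rw [H, Finset.Icc_self, Finset.sum_singleton]

theorem H_succ (s b : ℕ) (h : s ≤ b) : H u s b + u (b + 1) = H u s (b + 1) := by
  rw [H, H, Finset.sum_Icc_succ_top (by omega)]

/-- decompositions of the sum of the first generators with multiplicities `a` -/
def Dec (E : L → L → ℕ) (u : ℕ → L) (a : ℕ → ℕ) (b : ℕ) : Prop :=
  ∃ Q C : List L, St E u b Q C ∧ Q.length = a b ∧
    C.sum + Q.sum = ∑ i ∈ Finset.range (b + 1), a i • u i ∧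
    (∀ v ∈ Q, ∃ s, s ≤ b ∧ v = H u s b) ∧ ∀ w ∈ C, ∃ s t, s ≤ b ∧ t ≤ b ∧ w = H u s t

theorem Dec.swap {a : ℕ → ℕ} {b : ℕ} (h : Dec E u a b) : Dec (fun x y => E y x) u a b := by
  obtain ⟨Q, C, h1, h2, h3, h4, h5⟩ := h
  exact ⟨Q.reverse, C, h1.swap, by rw [List.length_reverse, h2], by rw [List.sum_reverse, h3],
    fun v hv => h4 v (List.mem_reverse.mp hv), h5⟩

theorem Dec.step (hE : Ax E) (hu : ∀ s t, s + 2 ≤ t → E (u s) (u t) = 0 ∧ E (u t) (u s) = 0)
    {a : ℕ → ℕ} {b : ℕ} (h1 : E (u b) (u (b + 1)) ≤ 1) (h2 : E (u (b + 1)) (u b) = 0)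
    (h : Dec E u a b) : Dec E u a (b + 1) := by
  obtain ⟨Q, C, hst, hlen, hsum, hQ, hC⟩ := h
  have hQ' : ∀ T : List L, (∀ v ∈ T, v ∈ Q) → ∀ v ∈ T.map (· + u (b + 1)),
      ∃ s, s ≤ b + 1 ∧ v = H u s (b + 1) := by
    intro T hT v hv
    obtain ⟨p, hp, rfl⟩ := List.mem_map.mp hv
    obtain ⟨s, hs, rfl⟩ := hQ p (hT p hp)
    exact ⟨s, by omega, H_succ s b hs⟩
  have hC' : ∀ w ∈ C, ∃ s t, s ≤ b + 1 ∧ t ≤ b + 1 ∧ w = H u s t := by
    intro w hw
    obtain ⟨s, t, g1, g2, g3⟩ := hC w hw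
    exact ⟨s, t, by omega, by omega, g3⟩
  by_cases hm : a (b + 1) ≤ a b
  · have hq : Q.take (a b - a (b + 1)) ++ Q.drop (a b - a (b + 1)) = Q := List.take_append_drop _ _
    have hst' : St E u b (Q.take (a b - a (b + 1)) ++ Q.drop (a b - a (b + 1))) C := by
      rw [hq]; exact hst
    have hl : (Q.drop (a b - a (b + 1))).length = a (b + 1) := by
      rw [List.length_drop, hlen]; omega
    refine ⟨_, _, hst'.stop hE hu h1 h2, ?_, ?_, ?_, ?_⟩
    · rw [List.length_map, hl]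
    · rw [sum_map_add, hl, List.sum_append, Finset.sum_range_succ, ← hsum]
      conv_rhs => rw [← hq, List.sum_append]
      abel
    · exact hQ' _ fun v hv => List.mem_of_mem_drop hv
    · intro w hw
      rcases List.mem_append.mp hw with hw | hw
      · exact hC' w hw
      · obtain ⟨s, hs, rfl⟩ := hQ w (List.mem_of_mem_take hw)
        exact ⟨s, b, by omega, by omega, rfl⟩
  · refine ⟨_, _, hst.start hE hu h1 h2 (a (b + 1) - a b), ?_, ?_, ?_, hC'⟩
    · rw [List.length_append, List.length_replicate, List.length_map, hlen]; omega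
    · rw [List.sum_append, List.sum_replicate, sum_map_add, hlen, Finset.sum_range_succ, ← hsum]
      obtain ⟨d, hd⟩ := Nat.exists_eq_add_of_le (not_le.mp hm).le
      rw [hd, Nat.add_sub_cancel_left, add_smul]
      abel
    · intro v hv
      rcases List.mem_append.mp hv with hv | hv
      · obtain rfl := (List.mem_replicate.mp hv).2
        exact ⟨b + 1, le_rfl, (H_self _).symm⟩
      · exact hQ' Q (fun _ h => h) v hv

theorem dec (hE : Ax E) (hu : ∀ s t, s + 2 ≤ t → E (u s) (u t) = 0 ∧ E (u t) (u s) = 0)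
    (ho : ∀ b, (E (u b) (u (b + 1)) ≤ 1 ∧ E (u (b + 1)) (u b) = 0) ∨
      (E (u b) (u (b + 1)) = 0 ∧ E (u (b + 1)) (u b) ≤ 1)) (a : ℕ → ℕ) (b : ℕ) :
    Dec E u a b := by
  induction b with
  | zero =>
    refine ⟨List.replicate (a 0) (u 0), [], ⟨?_, ?_, ?_, ?_, ?_, ?_⟩, List.length_replicate, ?_,
      ?_, ?_⟩
    · rw [List.pairwise_replicate]
      exact Or.inr (Or.inl rfl)
    · intro v hv
      obtain rfl := (List.mem_replicate.mp hv).2
      exact fun t ht => hu 0 t (by omega)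
    · intro v hv
      obtain rfl := (List.mem_replicate.mp hv).2
      exact ⟨le_rfl, le_rfl⟩
    · intro w hw
      simp at hw
    · intro w hw
      simp at hw
    · intro w hw
      simp at hw
    · simp
    · intro v hv
      obtain rfl := (List.mem_replicate.mp hv).2
      exact ⟨0, le_rfl, (H_self _).symm⟩
    · intro w hw
      simp at hw
  | succ b ih =>
    rcases ho b with h | h
    · exact ih.step hE hu h.1 h.2
    · exact Dec.swap (E := fun x y => E y x)
        (ih.swap.step (Ax_swap hE) (fun s t hst => (hu s t hst).symm) h.2 h.1)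

theorem path_decomp (hE : Ax E)
    (hu : ∀ s t, s + 2 ≤ t → E (u s) (u t) = 0 ∧ E (u t) (u s) = 0)
    (ho : ∀ b, (E (u b) (u (b + 1)) ≤ 1 ∧ E (u (b + 1)) (u b) = 0) ∨
      (E (u b) (u (b + 1)) = 0 ∧ E (u (b + 1)) (u b) ≤ 1)) (a : ℕ → ℕ) (b : ℕ) :
    ∃ l : List L, (∀ v ∈ l, ∃ s t, s ≤ b ∧ t ≤ b ∧ v = H u s t) ∧
      (∀ v ∈ l, ∀ w ∈ l, E v w = 0) ∧ l.sum = ∑ i ∈ Finset.range (b + 1), a i • u i := by
  obtain ⟨Q, C, hst, hlen, hsum, hQ, hC⟩ := dec hE hu ho a b
  refine ⟨C ++ Q, ?_, ?_, by rw [List.sum_append, hsum]⟩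
  · intro v hv
    rcases List.mem_append.mp hv with hv | hv
    · exact hC v hv
    · obtain ⟨s, hs, rfl⟩ := hQ v hv
      exact ⟨s, b, hs, le_rfl, rfl⟩
  · intro v hv w hw
    rcases List.mem_append.mp hv with hv | hv <;> rcases List.mem_append.mp hw with hw | hw
    · exact hst.cc v hv w hw
    · exact (hst.cl v hv w hw).1
    · exact (hst.cl w hw v hv).2
    · exact hst.comp hE v hv w hw

end abstract

section final

variable {k A : Type u} [Field k] [Ring A] [Algebra k A] {ι : Type} [Fintype ι]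
  (B : ProjBasis k A ι) (F : (ι → ℤ) → Obj k A) (hF : ∀ x, Rigid (F x) ∧ B.Cls (F x) x)

include hF in
/-- sums of lists of pairwise compatible points out of a finite family -/
theorem finS_list [Module.Finite k A] {κ : Type} [Fintype κ] (W : κ → ι → ℤ) :
    FinS B {x | ∃ l : List (ι → ℤ), (∀ v ∈ l, ∃ q, v = W q) ∧
      (∀ v ∈ l, ∀ w ∈ l, EE F v w = 0) ∧ x = l.sum} := by
  obtain ⟨n, U, hU⟩ := finS_iUnion B (fun q : κ => cone2 (W q) (W q)) fun q =>
    finS_cone2 B F hF _ _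
  refine ⟨n, U, ?_⟩
  rintro x ⟨l, hl, hl2, rfl⟩ G hG hc V hV hr
  let Z : Fin l.length → Obj k A := fun i => F (l.get i)
  have hZ : ∀ i j, ee (Z i) (Z j).M = 0 := fun i j => hl2 _ (List.get_mem l i) _ (List.get_mem l j)
  obtain ⟨r, hr'⟩ := retract_of_same G (Obj.comb Z fun _ => 1) hG (rigid_comb Z _ hZ) (by
    intro X
    rw [chi_comb, hc X]
    have e : ∀ t, ((1 : ℕ) : ℤ) * chi (Z t) X = ∑ i, l.get t i * (dd (B.P i) X : ℤ) := fun t => by
      rw [Nat.cast_one, one_mul]
      exact (hF (l.get t)).2 X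
    have e' : l.sum = ∑ t : Fin l.length, l.get t := by
      conv_lhs => rw [← List.ofFn_get l, List.sum_ofFn]
    rw [Finset.sum_congr rfl fun t _ => e t, Finset.sum_comm, e']
    refine Finset.sum_congr rfl fun i _ => ?_
    rw [Finset.sum_apply, Finset.sum_mul])
  obtain ⟨q, -, hq⟩ := retract_comb Z (fun _ => 1) V hV r (hr.trans hr')
  obtain ⟨q', hq'⟩ := hl _ (List.get_mem l q)
  exact hU (l.get q) ⟨q', 1, 0, by rw [one_smul, zero_smul, add_zero, hq']⟩ (F (l.get q))
    (hF _).1 (hF _).2 V hV hq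

end final

section cut

variable {k A : Type u} [Field k] [Ring A] [Algebra k A] {ι : Type} [Fintype ι] [DecidableEq ι]
  (B : ProjBasis k A ι)

/-- the weight of the pair `j`, `i`: the minimum of `dim Hom (P j, P i)` and
`dim End (P j) + dim End (P i) - 1` -/
noncomputable def wt (j i : ι) : ℕ :=
  min (dd (B.P j) (B.P i)) ((dd (B.P j) (B.P j) - 1) + dd (B.P i) (B.P i))

/-- the vertices in `K` can be put in a sequence `f` such that, for `j ∉ I` and `i ∈ I` in the
sequence, the weight of `j`, `i` is at most one if `i` and `j` are neighbours in the sequence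
and is zero otherwise -/
def PathCut (I K : Finset ι) : Prop :=
  ∃ (n : ℕ) (f : Fin n → ι), (∀ i ∈ K, ∃ t, f t = i) ∧
    ∀ s t : Fin n, f s ∉ I → f t ∈ I →
      wt B (f s) (f t) ≤ if (s : ℕ) + 1 = t ∨ (t : ℕ) + 1 = s then 1 else 0

variable (F : (ι → ℤ) → Obj k A) (hF : ∀ x, Rigid (F x) ∧ B.Cls (F x) x)

include hF in
theorem EE_le_wt [Module.Finite k A] (j i : ι) : EE F (-bv j) (bv i) ≤ wt B j i :=
  le_min (EE_le B F hF j i) ((ax B F hF).offdiag (bv j) (bv i) (EE_pos B F hF _ _) _ _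
    (EE_le B F hF j j) (EE_le B F hF i i))

include hF in
theorem finS_path [Module.Finite k A] (I K : Finset ι) (h : PathCut B I K) :
    FinS B (face I K) := by
  obtain ⟨n, f, hf, hw⟩ := h
  have hE := ax B F hF
  rcases n with _ | n
  · -- no vertices
    refine (finS_cone2 B F hF 0 0).mono B ?_
    rintro x ⟨-, hx⟩
    refine ⟨0, 0, ?_⟩
    funext i
    rw [hx i fun hi => ?_]
    · simp
    · obtain ⟨t, -⟩ := hf i hi
      exact t.elim0
  let u : ℕ → ι → ℤ := fun t => if ht : t < n + 1 then gen I (f ⟨t, ht⟩) else 0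
  have hlt : ∀ t (ht : t < n + 1), u t = gen I (f ⟨t, ht⟩) := fun t ht => by
    simp only [u]; rw [dif_pos ht]
  have hge : ∀ t, ¬ t < n + 1 → u t = 0 := fun t ht => by
    simp only [u]; rw [dif_neg ht]
  have hb : ∀ s t : Fin (n + 1), EE F (gen I (f s)) (gen I (f t)) ≤
      if (f s ∉ I ∧ f t ∈ I) ∧ ((s : ℕ) + 1 = t ∨ (t : ℕ) + 1 = s) then 1 else 0 := by
    intro s t
    by_cases hs : f s ∈ I
    · rw [gen, if_pos hs, EE_pos B F hF]; exact Nat.zero_le _
    by_cases ht : f t ∈ I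
    · rw [gen, if_neg hs, gen, if_pos ht]
      refine (EE_le_wt B F hF _ _).trans ((hw s t hs ht).trans (le_of_eq ?_))
      simp [hs, ht]
    · rw [gen, gen, if_neg ht, EE_neg B F hF]; exact Nat.zero_le _
  have hu : ∀ s t, s + 2 ≤ t → EE F (u s) (u t) = 0 ∧ EE F (u t) (u s) = 0 := by
    intro s t hst
    by_cases ht : t < n + 1
    · have hs : s < n + 1 := by omega
      rw [hlt s hs, hlt t ht]
      have e1 := hb ⟨s, hs⟩ ⟨t, ht⟩
      have e2 := hb ⟨t, ht⟩ ⟨s, hs⟩
      rw [if_neg (by rintro ⟨-, h⟩; simp only at h; omega)] at e1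
      rw [if_neg (by rintro ⟨-, h⟩; simp only at h; omega)] at e2
      omega
    · rw [hge t ht, hE.zeroR, hE.zeroL]; exact ⟨rfl, rfl⟩
  have ho : ∀ b, (EE F (u b) (u (b + 1)) ≤ 1 ∧ EE F (u (b + 1)) (u b) = 0) ∨
      (EE F (u b) (u (b + 1)) = 0 ∧ EE F (u (b + 1)) (u b) ≤ 1) := by
    intro b
    by_cases ht : b + 1 < n + 1
    · have hs : b < n + 1 := by omega
      rw [hlt b hs, hlt (b + 1) ht]
      have e1 := hb ⟨b, hs⟩ ⟨b + 1, ht⟩
      have e2 := hb ⟨b + 1, ht⟩ ⟨b, hs⟩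
      by_cases g : f ⟨b, hs⟩ ∈ I
      · right
        rw [if_neg (fun h => h.1.1 g)] at e1
        refine ⟨Nat.le_zero.mp e1, e2.trans ?_⟩
        split_ifs <;> omega
      · left
        rw [if_neg (fun h => g h.1.2)] at e2
        refine ⟨e1.trans ?_, Nat.le_zero.mp e2⟩
        split_ifs <;> omega
    · rw [hge (b + 1) ht, hE.zeroR, hE.zeroL]; exact Or.inl ⟨Nat.zero_le _, rfl⟩
  refine (finS_list B F hF (fun q : Fin (n + 1) × Fin (n + 1) => H u q.1 q.2)).mono B ?_
  intro x hx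
  obtain ⟨a, rfl⟩ := face_sub I K (fun t => gen I (f t)) (fun i hi => by
    obtain ⟨t, ht⟩ := hf i hi
    exact ⟨t, by rw [ht]⟩) hx
  obtain ⟨l, l1, l2, l3⟩ := path_decomp hE hu ho
    (fun t => if ht : t < n + 1 then a ⟨t, ht⟩ else 0) n
  refine ⟨l, fun v hv => ?_, l2, ?_⟩
  · obtain ⟨s, t, g1, g2, rfl⟩ := l1 v hv
    exact ⟨(⟨s, by omega⟩, ⟨t, by omega⟩), rfl⟩
  · rw [l3, Finset.sum_range]
    refine Finset.sum_congr rfl fun i _ => ?_
    rw [hlt i i.2, dif_pos i.2]

end cut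

end Pool.Agent.Helper947_Any
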