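import Pool.Agent.Helper947_Any.Db

set_option autoImplicit false

/-!
Two positive and three negative generators with connected incidence graph, up to permutations.
-/

namespace Pool.Agent.Helper947_Any

open Pool.Agent.Helper947_Fin (Ax)

def entry (l : List (List ℕ)) (j i : ℕ) : ℕ := (l.getD j []).getD i 0

def perms2 : List (Fin 2 → Fin 2) := [![0, 1], ![1, 0]]

def perms3 : List (Fin 3 → Fin 3) :=
  [![0, 1, 2], ![0, 2, 1], ![1, 0, 2], ![1, 2, 0], ![2, 0, 1], ![2, 1, 0]]

theorem surj2 : ∀ γ ∈ perms2, ∀ i, ∃ t, γ t = i := by decide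

theorem surj3 : ∀ ρ ∈ perms3, ∀ j, ∃ t, ρ t = j := by decide

/-- no row is zero and some row has no zero entry -/
def conn (l : List (List ℕ)) : Bool :=
  ((List.finRange 3).all fun j => (List.finRange 2).any fun i => !Nat.beq (entry l j i) 0) &&
    (List.finRange 3).any fun j => (List.finRange 2).all fun i => !Nat.beq (entry l j i) 0

def domSym (l T : List (List ℕ)) (ρ : Fin 3 → Fin 3) (γ : Fin 2 → Fin 2) : Bool :=
  (List.finRange 3).all fun j => (List.finRange 2).all fun i =>
    Nat.ble (entry l (ρ j) (γ i)) (entry T j i)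

/-- the certificates cover all connected matrices of total at most `5` -/
def coversSym (db : List (List (List ℕ))) : Bool :=
  (matsLe 2 3 5).all fun l => !conn l ||
    db.any fun T => perms3.any fun ρ => perms2.any fun γ => domSym l T ρ γ

variable {L : Type*} [AddCommGroup L] {E : L → L → ℕ}

theorem good_of_sym (hE : Ax E) (db : List (Cert 2 3))
    (hcov : coversSym (db.map fun c => c.T) = true) (p : Fin 2 → L) (q : Fin 3 → L)
    (hp : ∀ i y, E (p i) y = 0) (hq : ∀ x j, E x (q j) = 0) (w : Fin 3 → Fin 2 → ℕ)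
    (hw : ∀ j i, E (q j) (p i) ≤ w j i) (hsum : ∑ j, ∑ i, w j i ≤ 5)
    (h1 : ∀ j, ∃ i, w j i ≠ 0) (h2 : ∃ j, ∀ i, w j i ≠ 0) :
    ∃ (n : ℕ) (v : Fin n → L), Good E v ∧ (∀ i, ∃ t, v t = p i) ∧ (∀ j, ∃ t, v t = q j) := by
  let l : List (List ℕ) := List.ofFn fun j => List.ofFn fun i => w j i
  have hent : ∀ (j : Fin 3) (i : Fin 2), entry l j i = w j i := by
    intro j i
    fin_cases j <;> fin_cases i <;> simp [entry, l]
  have hm : l ∈ matsLe 2 3 5 := by
    refine mem_matsLe 2 3 5 l List.length_ofFn (fun a ha => ?_) ?_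
    · rw [List.mem_ofFn] at ha
      obtain ⟨j, rfl⟩ := ha
      exact List.length_ofFn
    · refine le_trans (le_of_eq ?_) hsum
      rw [List.map_ofFn, List.sum_ofFn]
      refine Finset.sum_congr rfl fun j _ => ?_
      simp only [Function.comp]
      rw [List.sum_ofFn]
  have hb : ∀ a : ℕ, a ≠ 0 → (!Nat.beq a 0) = true := by
    intro a ha
    cases a with
    | zero => exact absurd rfl ha
    | succ a => rfl
  have hc : conn l = true := by
    unfold conn
    rw [Bool.and_eq_true, List.all_eq_true, List.any_eq_true]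
    refine ⟨fun j _ => ?_, ?_⟩
    · obtain ⟨i, hi⟩ := h1 j
      exact List.any_eq_true.mpr ⟨i, List.mem_finRange i, by rw [hent]; exact hb _ hi⟩
    · obtain ⟨j, hj⟩ := h2
      exact ⟨j, List.mem_finRange j,
        List.all_eq_true.mpr fun i _ => by rw [hent]; exact hb _ (hj i)⟩
  have g := List.all_eq_true.mp hcov l hm
  rw [hc, Bool.not_true, Bool.false_or, List.any_eq_true] at g
  obtain ⟨T, hT, g⟩ := g
  rw [List.any_eq_true] at g
  obtain ⟨ρ, hρ, g⟩ := g
  rw [List.any_eq_true] at g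
  obtain ⟨γ, hγ, g⟩ := g
  rw [List.mem_map] at hT
  obtain ⟨c, -, rfl⟩ := hT
  have key : Good E (Fin.append (p ∘ γ) (q ∘ ρ)) := by
    refine good_of_cert hE (by omega) (by omega) (by omega) c (p ∘ γ) (q ∘ ρ)
      (fun i y => hp _ _) (fun x j => hq _ _) fun j i => (hw (ρ j) (γ i)).trans ?_
    have g1 := List.all_eq_true.mp g j (List.mem_finRange j)
    have g2 := List.all_eq_true.mp g1 i (List.mem_finRange i)
    rw [Nat.ble_eq, hent] at g2
    exact g2
  refine ⟨2 + 3, _, key, fun i => ?_, fun j => ?_⟩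
  · obtain ⟨t, rfl⟩ := surj2 γ hγ i
    exact ⟨Fin.castAdd 3 t, Fin.append_left _ _ _⟩
  · obtain ⟨t, rfl⟩ := surj3 ρ hρ j
    exact ⟨Fin.natAdd 2 t, Fin.append_right _ _ _⟩

end Pool.Agent.Helper947_Any
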