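import Mathlib.Combinatorics.SimpleGraph.Connectivity.Connected
import Pool.Agent.Helper947_Any.Comp
import Pool.Agent.Helper947_Any.Path
import Pool.Agent.Helper947_Any.Sym

set_option autoImplicit false

/-!
Algebras all of whose cut graphs have small components.
-/

namespace Pool.Agent.Helper947_Any

open Pool.Agent.Helper391_TT
open Pool.Agent.Helper947_Fin (Ax EE FinS bv cone2 ax EE_pos EE_neg EE_le finS_cone2
  tauTiltingFinite_of_finS)

universe u

theorem sum_zero {L : Type*} [AddCommGroup L] {E : L → L → ℕ} (hE : Ax E) {κ : Type*}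
    (S T : Finset κ) (a b : κ → ℕ) (u v : κ → L) (h : ∀ i ∈ S, ∀ j ∈ T, E (u i) (v j) = 0) :
    E (∑ i ∈ S, a i • u i) (∑ j ∈ T, b j • v j) = 0 := by
  classical
  have key : ∀ z, (∀ j ∈ T, E z (v j) = 0) → E z (∑ j ∈ T, b j • v j) = 0 := by
    intro z hz
    clear h
    induction T using Finset.induction_on with
    | empty => rw [Finset.sum_empty]; exact hE.zeroR _
    | insert j T hj ih =>
      rw [Finset.sum_insert hj]
      have h1 := hE.subR z (b j • v j) (∑ j ∈ T, b j • v j)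
      have h2 := hE.mulR (b j) z (v j)
      rw [hz j (Finset.mem_insert_self _ _), mul_zero] at h2
      have h3 := ih fun m hm => hz m (Finset.mem_insert_of_mem hm)
      omega
  induction S using Finset.induction_on with
  | empty => rw [Finset.sum_empty]; exact hE.zeroL _
  | insert i S hi ih =>
    rw [Finset.sum_insert hi]
    have h1 := hE.subL (a i • u i) (∑ i ∈ S, a i • u i) (∑ j ∈ T, b j • v j)
    have h2 := hE.mulL (a i) (u i) (∑ j ∈ T, b j • v j)
    rw [key (u i) (h i (Finset.mem_insert_self _ _)), mul_zero] at h2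
    have h3 := ih fun m hm => h m (Finset.mem_insert_of_mem hm)
    omega

variable {k A : Type u} [Field k] [Ring A] [Algebra k A] {ι : Type} [Fintype ι] [DecidableEq ι]
  (B : ProjBasis k A ι)

/-- the graph of the cut `I`: the vertices `i ∈ I` and `j ∉ I` are joined when the weight of
`j`, `i` is not zero, and there are no other edges -/
def cutGraph (I : Finset ι) : SimpleGraph ι :=
  SimpleGraph.fromRel fun j i => j ∉ I ∧ i ∈ I ∧ wt B j i ≠ 0

open Classical in
/-- the set of vertices of the connected component of `i` in the graph of the cut `I` -/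
noncomputable def cutComp (I : Finset ι) (i : ι) : Finset ι :=
  Finset.univ.filter fun j => (cutGraph B I).Reachable i j

/-- a set `K` of vertices is small for the cut `I`: it has at most two vertices, or at most four
vertices and weight at most `5`, or at most five vertices and weight at most `4`, or five vertices,
at least two of them on each side, and weight at most `5`, or three vertices and product of weights
at most `5`, or it is a path with weights at most one -/
def SmallCut (I K : Finset ι) : Prop :=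
  K.card ≤ 2 ∨ (K.card ≤ 4 ∧ ∑ j ∈ K \ I, ∑ i ∈ K ∩ I, wt B j i ≤ 5) ∨
    (K.card ≤ 5 ∧ ∑ j ∈ K \ I, ∑ i ∈ K ∩ I, wt B j i ≤ 4) ∨
    (K.card = 5 ∧ 2 ≤ (K ∩ I).card ∧ 2 ≤ (K \ I).card ∧
      ∑ j ∈ K \ I, ∑ i ∈ K ∩ I, wt B j i ≤ 5) ∨
    (K.card = 3 ∧ ∏ j ∈ K \ I, ∏ i ∈ K ∩ I, wt B j i ≤ 5) ∨ PathCut B I K

section graph

theorem mem_of_reachable {κ : Type*} {G : SimpleGraph κ} (S : Set κ)
    (hS : ∀ x ∈ S, ∀ y, G.Adj x y → y ∈ S) {a b : κ} (h : G.Reachable a b) (ha : a ∈ S) :
    b ∈ S := by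
  obtain ⟨w⟩ := h
  induction w with
  | nil => exact ha
  | cons h _ ih => exact ih (hS _ ha _ h)

/-- if the component has exactly two vertices on one side, they have a common neighbour -/
theorem common_nbr {κ : Type*} {G : SimpleGraph κ} (a b : κ) (hab : a ≠ b)
    (h1 : ∀ x y, G.Adj a x → G.Adj x y → y = a ∨ y = b) (h2 : ¬ G.Adj a b)
    (h3 : G.Reachable a b) : ∃ x, G.Adj a x ∧ G.Adj b x := by
  by_contra hno
  have h := mem_of_reachable {x | x = a ∨ G.Adj a x} (by
    rintro x (rfl | hx) y hy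
    · exact Or.inr hy
    · rcases h1 x y hx hy with rfl | rfl
      · exact Or.inl rfl
      · exact absurd ⟨x, hx, hy.symm⟩ hno) h3 (Or.inl rfl)
  rcases h with h | h
  · exact hab h.symm
  · exact h2 h

theorem exists_nbr {κ : Type*} {G : SimpleGraph κ} {a b : κ} (h : G.Reachable a b)
    (hab : a ≠ b) : ∃ x, G.Adj a x := by
  obtain ⟨w⟩ := h
  cases w with
  | nil => exact absurd rfl hab
  | cons h _ => exact ⟨_, h⟩

omit [Fintype ι] [DecidableEq ι] in
theorem cutGraph_adj (I : Finset ι) (a b : ι) : (cutGraph B I).Adj a b ↔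
    (a ∉ I ∧ b ∈ I ∧ wt B a b ≠ 0) ∨ (b ∉ I ∧ a ∈ I ∧ wt B b a ≠ 0) := by
  rw [cutGraph, SimpleGraph.fromRel_adj]
  constructor
  · exact fun h => h.2
  · intro h
    refine ⟨?_, h⟩
    rintro rfl
    rcases h with h | h
    · exact h.1 h.2.1
    · exact h.1 h.2.1

theorem mem_cutComp (I : Finset ι) (i j : ι) :
    j ∈ cutComp B I i ↔ (cutGraph B I).Reachable i j := by
  simp [cutComp]

theorem cutComp_reach (I : Finset ι) (i a b : ι) (ha : a ∈ cutComp B I i)
    (hb : b ∈ cutComp B I i) : (cutGraph B I).Reachable a b := by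
  rw [mem_cutComp] at ha hb
  exact ha.symm.trans hb

theorem cutComp_adj (I : Finset ι) (i a b : ι) (ha : a ∈ cutComp B I i)
    (h : (cutGraph B I).Adj a b) : b ∈ cutComp B I i := by
  rw [mem_cutComp] at ha ⊢
  exact ha.trans h.reachable

/-- vertices outside `I` have a neighbour in `I` -/
theorem nbr_out (I : Finset ι) (i a b : ι) (ha : a ∈ cutComp B I i \ I)
    (hb : b ∈ cutComp B I i ∩ I) : ∃ x ∈ cutComp B I i ∩ I, wt B a x ≠ 0 := by
  rw [Finset.mem_sdiff] at ha
  rw [Finset.mem_inter] at hb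
  obtain ⟨x, hx⟩ := exists_nbr (cutComp_reach B I i a b ha.1 hb.1) fun h => ha.2 (h ▸ hb.2)
  have hxK := cutComp_adj B I i a x ha.1 hx
  rw [cutGraph_adj] at hx
  rcases hx with hx | hx
  · exact ⟨x, Finset.mem_inter.mpr ⟨hxK, hx.2.1⟩, hx.2.2⟩
  · exact absurd hx.2.1 ha.2

/-- vertices in `I` have a neighbour outside `I` -/
theorem nbr_in (I : Finset ι) (i a b : ι) (ha : a ∈ cutComp B I i ∩ I)
    (hb : b ∈ cutComp B I i \ I) : ∃ x ∈ cutComp B I i \ I, wt B x a ≠ 0 := by
  rw [Finset.mem_inter] at ha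
  rw [Finset.mem_sdiff] at hb
  obtain ⟨x, hx⟩ := exists_nbr (cutComp_reach B I i a b ha.1 hb.1) fun h => hb.2 (h ▸ ha.2)
  have hxK := cutComp_adj B I i a x ha.1 hx
  rw [cutGraph_adj] at hx
  rcases hx with hx | hx
  · exact absurd ha.2 hx.1
  · exact ⟨x, Finset.mem_sdiff.mpr ⟨hxK, hx.1⟩, hx.2.2⟩

theorem common_in (I : Finset ι) (i a b : ι) (ha : a ∈ cutComp B I i ∩ I)
    (hb : b ∈ cutComp B I i ∩ I) (hab : a ≠ b) (hall : ∀ x ∈ cutComp B I i ∩ I, x = a ∨ x = b) :
    ∃ x ∈ cutComp B I i \ I, wt B x a ≠ 0 ∧ wt B x b ≠ 0 := by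
  have ha' := Finset.mem_inter.mp ha
  have hb' := Finset.mem_inter.mp hb
  obtain ⟨x, hx, hx'⟩ := common_nbr (G := cutGraph B I) a b hab (by
    intro x y hx hy
    have hxK := cutComp_adj B I i a x ha'.1 hx
    have hyK := cutComp_adj B I i x y hxK hy
    rw [cutGraph_adj] at hx hy
    have hxI : x ∉ I := by
      rcases hx with h | h
      · exact absurd ha'.2 h.1
      · exact h.1
    refine hall y (Finset.mem_inter.mpr ⟨hyK, ?_⟩)
    rcases hy with h | h
    · exact h.2.1
    · exact absurd h.2.1 hxI) (by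
    intro h
    rw [cutGraph_adj] at h
    rcases h with h | h
    · exact h.1 ha'.2
    · exact h.1 hb'.2) (cutComp_reach B I i a b ha'.1 hb'.1)
  have hxK := cutComp_adj B I i a x ha'.1 hx
  rw [cutGraph_adj] at hx hx'
  rcases hx with h | h
  · exact absurd ha'.2 h.1
  · refine ⟨x, Finset.mem_sdiff.mpr ⟨hxK, h.1⟩, h.2.2, ?_⟩
    rcases hx' with h' | h'
    · exact absurd hb'.2 h'.1
    · exact h'.2.2

theorem common_out (I : Finset ι) (i a b : ι) (ha : a ∈ cutComp B I i \ I)
    (hb : b ∈ cutComp B I i \ I) (hab : a ≠ b) (hall : ∀ x ∈ cutComp B I i \ I, x = a ∨ x = b) :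
    ∃ x ∈ cutComp B I i ∩ I, wt B a x ≠ 0 ∧ wt B b x ≠ 0 := by
  have ha' := Finset.mem_sdiff.mp ha
  have hb' := Finset.mem_sdiff.mp hb
  obtain ⟨x, hx, hx'⟩ := common_nbr (G := cutGraph B I) a b hab (by
    intro x y hx hy
    have hxK := cutComp_adj B I i a x ha'.1 hx
    have hyK := cutComp_adj B I i x y hxK hy
    rw [cutGraph_adj] at hx hy
    have hxI : x ∈ I := by
      rcases hx with h | h
      · exact h.2.1
      · exact absurd h.2.1 ha'.2
    refine hall y (Finset.mem_sdiff.mpr ⟨hyK, ?_⟩)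
    rcases hy with h | h
    · exact absurd hxI h.1
    · exact h.1) (by
    intro h
    rw [cutGraph_adj] at h
    rcases h with h | h
    · exact hb'.2 h.2.1
    · exact ha'.2 h.2.1) (cutComp_reach B I i a b ha'.1 hb'.1)
  have hxK := cutComp_adj B I i a x ha'.1 hx
  rw [cutGraph_adj] at hx hx'
  rcases hx with h | h
  · refine ⟨x, Finset.mem_inter.mpr ⟨hxK, h.2.1⟩, h.2.2, ?_⟩
    rcases hx' with h' | h'
    · exact h'.2.2
    · exact absurd h'.2.1 hb'.2
  · exact absurd h.2.1 ha'.2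

end graph

/-- there are certificates for the connected types with five vertices and weight `5` -/
def HasSym : Prop := ∃ db : List (Cert 2 3), coversSym (db.map fun c => c.T) = true

variable (F : (ι → ℤ) → Obj k A) (hF : ∀ x, Rigid (F x) ∧ B.Cls (F x) x)

include hF in
theorem finS_comp [Module.Finite k A] (h13 : HasDb 1 3 5) (h22 : HasDb 2 2 5)
    (h14 : HasDb 1 4 4) (h23 : HasDb 2 3 4) (I K : Finset ι) (h : K.card ≤ 2 ∨
      (K.card ≤ 4 ∧ ∑ j ∈ K \ I, ∑ i ∈ K ∩ I, wt B j i ≤ 5) ∨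
      (K.card ≤ 5 ∧ ∑ j ∈ K \ I, ∑ i ∈ K ∩ I, wt B j i ≤ 4) ∨
      (K.card = 3 ∧ ∏ j ∈ K \ I, ∏ i ∈ K ∩ I, wt B j i ≤ 5)) :
    FinS B (face I K) := by
  have hE := ax B F hF
  let e1 := (K ∩ I).equivFin
  let e2 := (K \ I).equivFin
  obtain ⟨n, v, g, g1, g2⟩ := good_any hE h13 h22 h14 h23
    (fun a => bv (e1.symm a : ι)) (fun b => -bv (e2.symm b : ι))
    (fun _ _ => EE_pos B F hF _ _) (fun _ _ => EE_neg B F hF _ _)
    (fun _ _ => EE_neg B F hF _ _) (fun _ _ => by rw [neg_neg]; exact EE_pos B F hF _ _)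
    (fun b a => wt B (e2.symm b) (e1.symm a)) (fun _ _ => EE_le_wt B F hF _ _) (by
      have hs : ∑ b, ∑ a, wt B (e2.symm b) (e1.symm a) =
          ∑ j ∈ K \ I, ∑ i ∈ K ∩ I, wt B j i := by
        rw [Equiv.sum_comp e2.symm fun j => ∑ a, wt B j (e1.symm a),
          ← Finset.sum_coe_sort (K \ I)]
        refine Finset.sum_congr rfl fun j _ => ?_
        rw [Equiv.sum_comp e1.symm fun i => wt B j i, ← Finset.sum_coe_sort (K ∩ I)]
      have hp : ∏ b, ∏ a, wt B (e2.symm b) (e1.symm a) =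
          ∏ j ∈ K \ I, ∏ i ∈ K ∩ I, wt B j i := by
        rw [Equiv.prod_comp e2.symm fun j => ∏ a, wt B j (e1.symm a),
          ← Finset.prod_coe_sort (K \ I)]
        refine Finset.prod_congr rfl fun j _ => ?_
        rw [Equiv.prod_comp e1.symm fun i => wt B j i, ← Finset.prod_coe_sort (K ∩ I)]
      have hc : (K ∩ I).card + (K \ I).card = K.card := Finset.card_inter_add_card_sdiff K I
      rw [hs, hp, hc]
      exact h)
  refine (finS_of_good B F hF g).mono B (face_sub I K v fun i hi => ?_)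
  by_cases hI : i ∈ I
  · obtain ⟨t, ht⟩ := g1 (e1 ⟨i, Finset.mem_inter.mpr ⟨hi, hI⟩⟩)
    refine ⟨t, ?_⟩
    rw [ht, Equiv.symm_apply_apply, gen, if_pos hI]
  · obtain ⟨t, ht⟩ := g2 (e2 ⟨i, Finset.mem_sdiff.mpr ⟨hi, hI⟩⟩)
    refine ⟨t, ?_⟩
    rw [ht, Equiv.symm_apply_apply, gen, if_neg hI]

include hF in
theorem finS_five [Module.Finite k A] (hsym : HasSym) (I : Finset ι) (i : ι) (r s : ℕ)
    (hrs : (r = 2 ∧ s = 3) ∨ (r = 3 ∧ s = 2)) (hr : (cutComp B I i ∩ I).card = r)
    (hs : (cutComp B I i \ I).card = s)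
    (hw : ∑ j ∈ cutComp B I i \ I, ∑ i ∈ cutComp B I i ∩ I, wt B j i ≤ 5) :
    FinS B (face I (cutComp B I i)) := by
  have hE := ax B F hF
  obtain ⟨db, hcov⟩ := hsym
  let K := cutComp B I i
  let e1 : ↥(K ∩ I) ≃ Fin r := Finset.equivFinOfCardEq hr
  let e2 : ↥(K \ I) ≃ Fin s := Finset.equivFinOfCardEq hs
  let w : Fin s → Fin r → ℕ := fun b a => wt B (e2.symm b) (e1.symm a)
  have hsum : ∑ b, ∑ a, w b a ≤ 5 := by
    refine le_trans (le_of_eq ?_) hw
    simp only [w]
    rw [Equiv.sum_comp e2.symm fun j => ∑ a, wt B j (e1.symm a), ← Finset.sum_coe_sort (K \ I)]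
    refine Finset.sum_congr rfl fun j _ => ?_
    rw [Equiv.sum_comp e1.symm fun i => wt B j i, ← Finset.sum_coe_sort (K ∩ I)]
  have p0 : ∃ a0 : Fin r, True := by
    rcases hrs with ⟨rfl, rfl⟩ | ⟨rfl, rfl⟩ <;> exact ⟨0, trivial⟩
  have q0 : ∃ b0 : Fin s, True := by
    rcases hrs with ⟨rfl, rfl⟩ | ⟨rfl, rfl⟩ <;> exact ⟨0, trivial⟩
  obtain ⟨a0, -⟩ := p0
  obtain ⟨b0, -⟩ := q0
  have n1 : ∀ b, ∃ a, w b a ≠ 0 := fun b => by
    obtain ⟨x, hx, hx'⟩ := nbr_out B I i (e2.symm b) (e1.symm a0) (e2.symm b).2 (e1.symm a0).2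
    refine ⟨e1 ⟨x, hx⟩, ?_⟩
    simp only [w]
    rw [Equiv.symm_apply_apply]
    exact hx'
  have n2 : ∀ a, ∃ b, w b a ≠ 0 := fun a => by
    obtain ⟨x, hx, hx'⟩ := nbr_in B I i (e1.symm a) (e2.symm b0) (e1.symm a).2 (e2.symm b0).2
    refine ⟨e2 ⟨x, hx⟩, ?_⟩
    simp only [w]
    rw [Equiv.symm_apply_apply]
    exact hx'
  have main : ∃ (n : ℕ) (v : Fin n → ι → ℤ), Good (EE F) v ∧
      (∀ a, ∃ t, v t = bv (e1.symm a : ι)) ∧ (∀ b, ∃ t, v t = -bv (e2.symm b : ι)) := by
    rcases hrs with ⟨rfl, rfl⟩ | ⟨rfl, rfl⟩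
    · have n3 : ∃ b, ∀ a, w b a ≠ 0 := by
        obtain ⟨x, hx, h1, h2⟩ := common_in B I i (e1.symm 0) (e1.symm 1) (e1.symm 0).2
          (e1.symm 1).2 (fun h => by
            have := e1.symm.injective (Subtype.ext h)
            exact absurd this (by decide)) (fun x hx => by
            obtain ⟨t, ht⟩ : ∃ t, e1.symm t = ⟨x, hx⟩ := ⟨e1 ⟨x, hx⟩, e1.symm_apply_apply _⟩
            have hx' : x = (e1.symm t : ι) := by rw [ht]
            rw [hx']
            fin_cases t
            · exact Or.inl rfl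
            · exact Or.inr rfl)
        refine ⟨e2 ⟨x, hx⟩, fun a => ?_⟩
        simp only [w]
        rw [Equiv.symm_apply_apply]
        fin_cases a
        · exact h1
        · exact h2
      exact good_of_sym hE db hcov (fun a => bv (e1.symm a : ι)) (fun b => -bv (e2.symm b : ι))
        (fun _ _ => EE_pos B F hF _ _) (fun _ _ => EE_neg B F hF _ _) w
        (fun _ _ => EE_le_wt B F hF _ _) hsum n1 n3
    · have n3 : ∃ a, ∀ b, w b a ≠ 0 := by
        obtain ⟨x, hx, h1, h2⟩ := common_out B I i (e2.symm 0) (e2.symm 1) (e2.symm 0).2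
          (e2.symm 1).2 (fun h => by
            have := e2.symm.injective (Subtype.ext h)
            exact absurd this (by decide)) (fun x hx => by
            obtain ⟨t, ht⟩ : ∃ t, e2.symm t = ⟨x, hx⟩ := ⟨e2 ⟨x, hx⟩, e2.symm_apply_apply _⟩
            have hx' : x = (e2.symm t : ι) := by rw [ht]
            rw [hx']
            fin_cases t
            · exact Or.inl rfl
            · exact Or.inr rfl)
        refine ⟨e1 ⟨x, hx⟩, fun b => ?_⟩
        simp only [w]
        rw [Equiv.symm_apply_apply]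
        fin_cases b
        · exact h1
        · exact h2
      obtain ⟨n, v, g1, g2, g3⟩ := good_of_sym hE.dual db hcov
        (fun b => bv (e2.symm b : ι)) (fun a => -bv (e1.symm a : ι))
        (fun b y => EE_neg B F hF _ _)
        (fun x a => by rw [neg_neg]; exact EE_pos B F hF _ _) (fun a b => w b a)
        (fun a b => by rw [neg_neg]; exact EE_le_wt B F hF _ _)
        (by rw [Finset.sum_comm]; exact hsum) n2 n3
      refine ⟨n, fun t => -v t, g1.dual, fun a => ?_, fun b => ?_⟩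
      · obtain ⟨t, ht⟩ := g3 a
        exact ⟨t, by simp only [ht, neg_neg]⟩
      · obtain ⟨t, ht⟩ := g2 b
        exact ⟨t, by simp only [ht]⟩
  obtain ⟨n, v, g, g1, g2⟩ := main
  refine (finS_of_good B F hF g).mono B (face_sub I _ v fun j hj => ?_)
  by_cases hI : j ∈ I
  · obtain ⟨t, ht⟩ := g1 (e1 ⟨j, Finset.mem_inter.mpr ⟨hj, hI⟩⟩)
    refine ⟨t, ?_⟩
    rw [ht, Equiv.symm_apply_apply, gen, if_pos hI]
  · obtain ⟨t, ht⟩ := g2 (e2 ⟨j, Finset.mem_sdiff.mpr ⟨hj, hI⟩⟩)
    refine ⟨t, ?_⟩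
    rw [ht, Equiv.symm_apply_apply, gen, if_neg hI]

include hF in
theorem finS_small [Module.Finite k A] (h13 : HasDb 1 3 5) (h22 : HasDb 2 2 5)
    (h14 : HasDb 1 4 4) (h23 : HasDb 2 3 4) (hsym : HasSym) (I : Finset ι) (i : ι)
    (h : SmallCut B I (cutComp B I i)) : FinS B (face I (cutComp B I i)) := by
  rcases h with h | h | h | h | h | h
  · exact finS_comp B F hF h13 h22 h14 h23 I _ (Or.inl h)
  · exact finS_comp B F hF h13 h22 h14 h23 I _ (Or.inr (Or.inl h))
  · exact finS_comp B F hF h13 h22 h14 h23 I _ (Or.inr (Or.inr (Or.inl h)))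
  · obtain ⟨h1, h2, h3, h4⟩ := h
    have hc := Finset.card_inter_add_card_sdiff (cutComp B I i) I
    exact finS_five B F hF hsym I i _ _ (by omega) rfl rfl h4
  · exact finS_comp B F hF h13 h22 h14 h23 I _ (Or.inr (Or.inr (Or.inr h)))
  · exact finS_path B F hF I _ h

include hF in
theorem gen_zero [Module.Finite k A] (I : Finset ι) (i j : ι)
    (h : ¬ (cutGraph B I).Reachable i j) : EE F (gen I i) (gen I j) = 0 := by
  unfold gen
  by_cases hi : i ∈ I
  · rw [if_pos hi]
    exact EE_pos B F hF _ _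
  · rw [if_neg hi]
    by_cases hj : j ∈ I
    · rw [if_pos hj]
      refine Nat.le_zero.mp ((EE_le_wt B F hF i j).trans (le_of_eq ?_))
      by_contra hne
      refine h (SimpleGraph.Adj.reachable ?_)
      rw [cutGraph_adj]
      exact Or.inl ⟨hi, hj, hne⟩
    · rw [if_neg hj]
      exact EE_neg B F hF _ _

include hF in
theorem finite_of_smallCut [Module.Finite k A] (h13 : HasDb 1 3 5) (h22 : HasDb 2 2 5)
    (h14 : HasDb 1 4 4) (h23 : HasDb 2 3 4) (hsym : HasSym)
    (h : ∀ (I : Finset ι) (i : ι), SmallCut B I (cutComp B I i)) : TauTiltingFinite k A := by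
  classical
  apply tauTiltingFinite_of_finS B
  have key : ∀ I : Finset ι, FinS B (face I Finset.univ) := by
    intro I
    let G := cutGraph B I
    have : Fintype G.ConnectedComponent := Fintype.ofFinite _
    let K : G.ConnectedComponent → Finset ι := fun c =>
      Finset.univ.filter fun i => G.connectedComponentMk i = c
    have hK : ∀ c, FinS B (face I (K c)) := by
      intro c
      obtain ⟨i, rfl⟩ := Quot.exists_rep c
      have e : K (Quot.mk _ i) = cutComp B I i := by
        ext j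
        simp only [K, cutComp, Finset.mem_filter, Finset.mem_univ, true_and]
        change G.connectedComponentMk j = G.connectedComponentMk i ↔ _
        rw [SimpleGraph.ConnectedComponent.eq]
        exact SimpleGraph.reachable_comm
      rw [e]
      exact finS_small B F hF h13 h22 h14 h23 hsym I i (h I i)
    refine (finS_sum B F hF (fun c => face I (K c)) hK).mono B ?_
    rintro x ⟨hx, -⟩
    let y : G.ConnectedComponent → ι → ℤ := fun c i =>
      if G.connectedComponentMk i = c then x i else 0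
    have hy : ∀ c, y c ∈ face I (K c) := by
      intro c
      refine ⟨fun i hi => ?_, fun i hi => ?_⟩
      · simp only [K, Finset.mem_filter, Finset.mem_univ, true_and] at hi
        simp only [y]
        rw [if_pos hi]
        exact hx i (Finset.mem_univ i)
      · simp only [K, Finset.mem_filter, Finset.mem_univ, true_and] at hi
        simp only [y]
        rw [if_neg hi]
    refine ⟨y, hy, ?_, ?_⟩
    · funext i
      rw [Finset.sum_apply]
      simp only [y]
      rw [Finset.sum_ite_eq, if_pos (Finset.mem_univ _)]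
    · intro c c' hcc
      rw [face_eq_sum I (K c) (y c) (hy c), face_eq_sum I (K c') (y c') (hy c')]
      refine sum_zero (ax B F hF) _ _ _ _ _ _ fun i hi j hj => gen_zero B F hF I i j fun hr => ?_
      simp only [K, Finset.mem_filter, Finset.mem_univ, true_and] at hi hj
      exact hcc (by rw [← hi, ← hj]; exact SimpleGraph.ConnectedComponent.sound hr)
  refine (finS_iUnion B (fun I : Finset ι => face I Finset.univ) key).mono B ?_
  intro x _
  refine ⟨Finset.univ.filter fun i => 0 ≤ x i, fun i _ => ⟨fun hi => ?_, fun hi => ?_⟩,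
    fun i hi => absurd (Finset.mem_univ i) hi⟩
  · exact (Finset.mem_filter.mp hi).2
  · by_contra hlt
    exact hi (Finset.mem_filter.mpr ⟨Finset.mem_univ i, (not_le.mp hlt).le⟩)

end Pool.Agent.Helper947_Any
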